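import Pool.Agent.SSA.Targets

/-!
# API of the group of odd maps
-/

set_option autoImplicit false

open Polynomial

namespace SSA

namespace API_

variable {k : Type} [Field k] {a b : k}

theorem ff_ne : ff a b ≠ 0 := by
  have h1 : ff a b = algebraMap k[X] (RatFunc k) (X ^ 3 + C a * X + C b) := by
    simp only [ff, map_add, map_mul, map_pow, RatFunc.algebraMap_X, RatFunc.algebraMap_C]
  rw [h1]
  intro h
  have h2 : (X ^ 3 + C a * X + C b : k[X]) = 0 :=
    (map_eq_zero_iff _ (RatFunc.algebraMap_injective k)).1 h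
  have h3 := congrArg (fun P : k[X] => P.coeff 3) h2
  simp at h3

theorem eq_iff (x y : RatFunc k) : (Wt a b).toAffine.Equation x y ↔
    y ^ 2 = x ^ 3 + RatFunc.C a * ff a b ^ 2 * x + RatFunc.C b * ff a b ^ 3 := by
  rw [WeierstrassCurve.Affine.equation_iff]
  simp [Wt]

theorem disc_ne (h : Hyp a b) : (Wt a b).Δ ≠ 0 := by
  have h1 : (Wt a b).Δ = -16 * RatFunc.C (4 * a ^ 3 + 27 * b ^ 2) * ff a b ^ 6 := by
    simp only [WeierstrassCurve.Δ, WeierstrassCurve.b₂, WeierstrassCurve.b₄, WeierstrassCurve.b₆,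
      WeierstrassCurve.b₈, Wt, map_add, map_mul, map_pow, map_ofNat]
    ring
  rw [h1]
  have h2 : (2 : RatFunc k) ≠ 0 := by
    have := (map_ne_zero (RatFunc.C : k →+* RatFunc k)).2 h.two
    rwa [map_ofNat] at this
  have h3 : (16 : RatFunc k) ≠ 0 := by
    have : (16 : RatFunc k) = 2 ^ 4 := by norm_num
    rw [this]
    exact pow_ne_zero _ h2
  exact mul_ne_zero (mul_ne_zero (neg_ne_zero.2 h3)
    ((map_ne_zero (RatFunc.C : k →+* RatFunc k)).2 h.disc)) (pow_ne_zero _ ff_ne)

theorem ns_iff (h : Hyp a b) (x y : RatFunc k) : (Wt a b).toAffine.Nonsingular x y ↔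
    y ^ 2 = x ^ 3 + RatFunc.C a * ff a b ^ 2 * x + RatFunc.C b * ff a b ^ 3 := by
  rw [← eq_iff]
  exact (WeierstrassCurve.Affine.equation_iff_nonsingular_of_Δ_ne_zero (disc_ne h)).symm

theorem ns_mk (h : Hyp a b) {R S : RatFunc k} (hRS : ff a b * S ^ 2 = ev a b R) :
    (Wt a b).toAffine.Nonsingular (ff a b * R) (ff a b ^ 2 * S) := by
  rw [ns_iff h]
  unfold ev at hRS
  linear_combination (ff a b ^ 3) * hRS

theorem mkP_eq {R S : RatFunc k}
    (h : (Wt a b).toAffine.Nonsingular (ff a b * R) (ff a b ^ 2 * S)) :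
    mkP a b R S = .some _ _ h := by
  unfold mkP
  rw [dif_pos h]

theorem xr_some (x y : RatFunc k) (h : (Wt a b).toAffine.Nonsingular x y) :
    xr (WeierstrassCurve.Affine.Point.some x y h : MM a b) = x / ff a b := rfl

theorem yr_some (x y : RatFunc k) (h : (Wt a b).toAffine.Nonsingular x y) :
    yr (WeierstrassCurve.Affine.Point.some x y h : MM a b) = y / ff a b ^ 2 := rfl

theorem cases_ne (P : MM a b) (hP : P ≠ 0) : ∃ (x y : RatFunc k)
    (h : (Wt a b).toAffine.Nonsingular x y), P = .some x y h := by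
  rcases P with _ | ⟨x, y, h⟩
  · exact absurd rfl hP
  · exact ⟨x, y, h, rfl⟩

theorem negY_eq (x y : RatFunc k) : (Wt a b).toAffine.negY x y = -y := by
  simp [WeierstrassCurve.Affine.negY, Wt]

theorem addX_eq (x₁ x₂ l : RatFunc k) : (Wt a b).toAffine.addX x₁ x₂ l = l ^ 2 - x₁ - x₂ := by
  simp [WeierstrassCurve.Affine.addX, Wt]

theorem addY_eq (x₁ x₂ y₁ l : RatFunc k) : (Wt a b).toAffine.addY x₁ x₂ y₁ l =
    -(l * ((Wt a b).toAffine.addX x₁ x₂ l - x₁) + y₁) := by
  simp only [WeierstrassCurve.Affine.addY, WeierstrassCurve.Affine.negAddY, negY_eq]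

theorem two_ne (h : Hyp a b) : (2 : RatFunc k) ≠ 0 := by
  have := (map_ne_zero (RatFunc.C : k →+* RatFunc k)).2 h.two
  rwa [map_ofNat] at this

end API_

open API_ in
theorem p_API : T_API := by
  intro k _ a b hab
  have hf : ff a b ≠ 0 := ff_ne
  have h2 : (2 : RatFunc k) ≠ 0 := two_ne hab
  refine ⟨hf, ⟨rfl, rfl⟩, ?_, ?_, ?_, ?_, ?_, ?_, ?_⟩
  · intro R S hRS
    rw [mkP_eq (ns_mk hab hRS)]
    refine ⟨WeierstrassCurve.Affine.Point.some_ne_zero _, ?_, ?_⟩
    · rw [xr_some, mul_div_cancel_left₀ _ hf]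
    · rw [yr_some, mul_div_cancel_left₀ _ (pow_ne_zero 2 hf)]
  · intro P hP
    obtain ⟨x, y, h, rfl⟩ := cases_ne P hP
    rw [xr_some, yr_some]
    have h3 := (ns_iff hab x y).1 h
    have h4 : ff a b * (y / ff a b ^ 2) ^ 2 = ev a b (x / ff a b) := by
      unfold ev
      field_simp
      linear_combination h3
    refine ⟨h4, ?_⟩
    rw [mkP_eq (ns_mk hab h4)]
    congr 1
    · field_simp
    · field_simp
  · rintro (_ | ⟨x, y, h⟩)
    · refine ⟨rfl, ?_⟩
      show (0 : RatFunc k) = -0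
      rw [neg_zero]
    · rw [WeierstrassCurve.Affine.Point.neg_some, xr_some, yr_some, xr_some, yr_some, negY_eq]
      exact ⟨rfl, neg_div _ _⟩
  · intro P Q hP hQ hx
    obtain ⟨x₁, y₁, h₁, rfl⟩ := cases_ne P hP
    obtain ⟨x₂, y₂, h₂, rfl⟩ := cases_ne Q hQ
    rw [xr_some, xr_some, div_left_inj' hf] at hx
    exact WeierstrassCurve.Affine.Point.X_eq_iff.1 hx
  · intro P Q hP hQ hx
    obtain ⟨x₁, y₁, h₁, rfl⟩ := cases_ne P hP
    obtain ⟨x₂, y₂, h₂, rfl⟩ := cases_ne Q hQ
    rw [xr_some, xr_some] at hx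
    have hx' : x₁ ≠ x₂ := fun h => hx (by rw [h])
    have hsub : x₁ - x₂ ≠ 0 := sub_ne_zero.2 hx'
    have hm : (y₁ / ff a b ^ 2 - y₂ / ff a b ^ 2) / (x₁ / ff a b - x₂ / ff a b) =
        (y₁ - y₂) / (x₁ - x₂) / ff a b := by
      rw [← sub_div, ← sub_div]
      field_simp
    rw [WeierstrassCurve.Affine.Point.add_of_X_ne hx']
    refine ⟨WeierstrassCurve.Affine.Point.some_ne_zero _, ?_, ?_⟩
    · rw [xr_some, xr_some, xr_some, yr_some, yr_some, hm,
        WeierstrassCurve.Affine.slope_of_X_ne hx', addX_eq]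
      field_simp
    · rw [xr_some, xr_some, xr_some, yr_some, yr_some, yr_some, hm,
        WeierstrassCurve.Affine.slope_of_X_ne hx', addY_eq, addX_eq]
      field_simp
      try ring
  · intro P hP hy
    obtain ⟨x, y, h, rfl⟩ := cases_ne P hP
    rw [yr_some] at hy
    have hy' : y ≠ 0 := fun h0 => hy (by rw [h0, zero_div])
    have hne : y ≠ (Wt a b).toAffine.negY x y := by
      rw [negY_eq]
      intro h0
      apply hy'
      have h1 : 2 * y = 0 := by linear_combination h0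
      exact (mul_eq_zero.1 h1).resolve_left h2
    have hs : (Wt a b).toAffine.slope x x y y =
        (3 * x ^ 2 + RatFunc.C a * ff a b ^ 2) / (2 * y) := by
      rw [WeierstrassCurve.Affine.slope_of_Y_ne rfl hne, negY_eq]
      simp only [Wt]
      congr 1
      · ring
      · ring
    rw [WeierstrassCurve.Affine.Point.add_self_of_Y_ne hne]
    refine ⟨WeierstrassCurve.Affine.Point.some_ne_zero _, ?_, ?_⟩
    · rw [xr_some, xr_some, yr_some, hs, addX_eq]
      field_simp
      try ring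
    · rw [xr_some, xr_some, yr_some, yr_some, hs, addY_eq, addX_eq]
      field_simp
      try ring
  · rintro (_ | ⟨x, y, h⟩) hy
    · exact add_zero _
    · rw [yr_some] at hy
      have hy' : y = 0 := by
        rcases div_eq_zero_iff.1 hy with h1 | h1
        · exact h1
        · exact absurd h1 (pow_ne_zero 2 hf)
      refine WeierstrassCurve.Affine.Point.add_self_of_Y_eq ?_
      rw [negY_eq, hy', neg_zero]

end SSA
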