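import Pool.Agent.SSA.Targets

/-!
# CAR: Cartier's operator and the Hasse invariant
-/

open Polynomial

namespace SSA

namespace CAR_

variable {k : Type} [Field k]

/-- the rules for the derivative -/
structure Rules (k : Type) [Field k] : Prop where
  add : ∀ R S : RatFunc k, rder (R + S) = rder R + rder S
  mul : ∀ R S : RatFunc k, rder (R * S) = rder R * S + R * rder S
  pow : ∀ (R : RatFunc k) (n : ℕ), rder (R ^ n) = n * R ^ (n - 1) * rder R
  const : ∀ c : k, rder (RatFunc.C c) = 0
  X : rder (RatFunc.X : RatFunc k) = 1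

lemma rules (h1 : T_RFD) (k : Type) [Field k] : Rules k := by
  obtain ⟨a, -, m, -, pw, -, -, c, x⟩ := h1 k
  exact ⟨a, m, pw, c, x⟩

lemma rder_zero (h : Rules k) : rder (0 : RatFunc k) = 0 := by
  have := h.const 0
  rwa [map_zero] at this

lemma iter_add (h : Rules k) (n : ℕ) (R S : RatFunc k) :
    rder^[n] (R + S) = rder^[n] R + rder^[n] S := by
  induction n generalizing R S with
  | zero => rfl
  | succ n ih => rw [Function.iterate_succ_apply, Function.iterate_succ_apply,
      Function.iterate_succ_apply, h.add, ih]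

lemma iter_zero (h : Rules k) (n : ℕ) : rder^[n] (0 : RatFunc k) = 0 := by
  induction n with
  | zero => rfl
  | succ n ih => rw [Function.iterate_succ_apply, rder_zero h, ih]

lemma iter_sum (h : Rules k) (n : ℕ) {ι : Type} (s : Finset ι) (F : ι → RatFunc k) :
    rder^[n] (∑ i ∈ s, F i) = ∑ i ∈ s, rder^[n] (F i) := by
  classical
  induction s using Finset.induction_on with
  | empty => rw [Finset.sum_empty, Finset.sum_empty, iter_zero h]
  | insert a s ha ih => rw [Finset.sum_insert ha, Finset.sum_insert ha, iter_add h, ih]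

/-- elements with derivative zero are constants for the iterated derivative -/
lemma iter_mul_of_zero (h : Rules k) (n : ℕ) (G F : RatFunc k) (hG : rder G = 0) :
    rder^[n] (G * F) = G * rder^[n] F := by
  induction n generalizing F with
  | zero => rfl
  | succ n ih => rw [Function.iterate_succ_apply, Function.iterate_succ_apply, h.mul, hG, zero_mul,
      zero_add, ih]

lemma rder_pow_p (h : Rules k) (p : ℕ) [CharP k p] (G : RatFunc k) :
    rder (G ^ p) = 0 := by
  have hch : CharP (RatFunc k) p :=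
    charP_of_injective_algebraMap (algebraMap k (RatFunc k)).injective p
  rw [h.pow, CharP.cast_eq_zero, zero_mul, zero_mul]

/-- the key computation -/
lemma key (h : Rules k) (p : ℕ) [Fact p.Prime] [CharP k p]
    (hL1 : ∀ R : RatFunc k, rder^[p] R = 0)
    (hL2 : ∀ R : RatFunc k, R ≠ 0 → - (rder^[p - 1] (rder R / R)) = (rder R / R) ^ p)
    (g : k[X]) (hg : g.natDegree < 2 * p - 1) (R : RatFunc k) (hR : rder R ≠ 0) :
    rder^[p - 1] (aeval R g * rder R) = -(RatFunc.C (g.coeff (p - 1)) * rder R ^ p) := by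
  have hp : p.Prime := Fact.out
  have hp1 : 1 ≤ p := hp.one_lt.le
  have hch : CharP (RatFunc k) p :=
    charP_of_injective_algebraMap (algebraMap k (RatFunc k)).injective p
  have hR0 : R ≠ 0 := by
    rintro rfl
    exact hR (rder_zero h)
  -- single powers
  have hpow : ∀ i, i < 2 * p - 1 → i ≠ p - 1 → rder^[p - 1] (R ^ i * rder R) = 0 := by
    intro i hi hne
    have hnd : ¬ p ∣ i + 1 := by
      rintro ⟨m, hm⟩
      rcases Nat.lt_or_ge m 2 with h2 | h2
      · interval_cases m
        · omega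
        · omega
      · have : p * 2 ≤ p * m := Nat.mul_le_mul_left p h2
        omega
    have hne0 : ((i + 1 : ℕ) : RatFunc k) ≠ 0 := by
      rw [Ne, CharP.cast_eq_zero_iff (RatFunc k) p]
      exact hnd
    have hne0k : ((i + 1 : ℕ) : k) ≠ 0 := by
      rw [Ne, CharP.cast_eq_zero_iff k p]
      exact hnd
    have h1 : R ^ i * rder R = rder (RatFunc.C (((i + 1 : ℕ) : k)⁻¹) * R ^ (i + 1)) := by
      rw [h.mul, h.const, zero_mul, zero_add, h.pow, Nat.add_sub_cancel]
      have h2 : RatFunc.C (((i + 1 : ℕ) : k)⁻¹) * ((i + 1 : ℕ) : RatFunc k) = 1 := by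
        rw [map_inv₀, map_natCast, inv_mul_cancel₀ hne0]
      calc R ^ i * rder R = (RatFunc.C (((i + 1 : ℕ) : k)⁻¹) * ((i + 1 : ℕ) : RatFunc k)) *
            (R ^ i * rder R) := by rw [h2, one_mul]
        _ = _ := by ring
    rw [h1, ← Function.iterate_succ_apply, Nat.succ_eq_add_one, Nat.sub_add_cancel hp1, hL1]
  have hpm : rder^[p - 1] (R ^ (p - 1) * rder R) = -(rder R ^ p) := by
    have h1 : R ^ (p - 1) * rder R = R ^ p * (rder R / R) := by
      have h2 : R ^ p = R ^ (p - 1) * R := by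
        rw [← pow_succ, Nat.sub_add_cancel hp1]
      rw [h2]
      field_simp
    rw [h1, iter_mul_of_zero h _ _ _ (rder_pow_p h p R)]
    have h2 := hL2 R hR0
    have h3 : rder^[p - 1] (rder R / R) = -((rder R / R) ^ p) := by
      rw [← h2, neg_neg]
    rw [h3, div_pow, mul_neg, mul_div_cancel₀ _ (pow_ne_zero p hR0)]
  have hexp : aeval R g = ∑ i ∈ Finset.range (2 * p - 1), RatFunc.C (g.coeff i) * R ^ i := by
    rw [aeval_eq_sum_range' hg]
    refine Finset.sum_congr rfl fun i _ => ?_
    rw [Algebra.smul_def]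
    rfl
  rw [hexp, Finset.sum_mul, iter_sum h]
  rw [Finset.sum_eq_single (p - 1)]
  · rw [mul_assoc, iter_mul_of_zero h _ _ _ (h.const _), hpm, mul_neg]
  · intro i hi hne
    rw [mul_assoc, iter_mul_of_zero h _ _ _ (h.const _), hpow i (Finset.mem_range.1 hi) hne,
      mul_zero]
  · intro hni
    exfalso
    apply hni
    rw [Finset.mem_range]
    have := hp.two_le
    omega

end CAR_

open CAR_ in
theorem p_CAR (h1 : T_RFD) (_h2 : T_RFC) (h3 : T_LOG) : T_CAR := by
  intro p _ k _ _ _ hp5 a b hH R c hR hc hcp heq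
  have h := rules h1 k
  have hp : p.Prime := Fact.out
  obtain ⟨hL1, hL2⟩ := h3 p k (by omega)
  set m := (p - 1) / 2 with hm
  have h2m : 2 * m = p - 1 := by
    have hodd : p % 2 = 1 := by
      rcases hp.eq_two_or_odd with h2 | h2
      · omega
      · exact h2
    omega
  have hdeg : (fp a b ^ m).natDegree < 2 * p - 1 := by
    have h4 : (fp a b).natDegree ≤ 3 := by
      unfold fp
      refine (natDegree_add_le _ _).trans (max_le ((natDegree_add_le _ _).trans (max_le ?_ ?_)) ?_)
      · rw [natDegree_X_pow]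
      · exact (natDegree_C_mul_le a X).trans (by rw [natDegree_X]; norm_num)
      · rw [natDegree_C]
        norm_num
    have h5 : (fp a b ^ m).natDegree ≤ m * 3 :=
      natDegree_pow_le.trans (Nat.mul_le_mul_left m h4)
    omega
  have hev : ∀ S : RatFunc k, aeval S (fp a b ^ m) = ev a b S ^ m := by
    intro S
    rw [map_pow]
    congr 1
    unfold fp ev
    rw [map_add, map_add, map_pow, map_mul, aeval_X, aeval_C, aeval_C]
    rfl
  have hX : rder (RatFunc.X : RatFunc k) ≠ 0 := by
    rw [h.X]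
    exact one_ne_zero
  have k1 := key h p hL1 hL2 (fp a b ^ m) hdeg R hR
  have k2 := key h p hL1 hL2 (fp a b ^ m) hdeg RatFunc.X hX
  rw [hev] at k1 k2
  rw [h.X, mul_one, one_pow, mul_one] at k2
  have hevX : ev a b (RatFunc.X : RatFunc k) = ff a b := rfl
  rw [hevX] at k2
  have hCc : RatFunc.C c ≠ 0 := by
    rw [Ne, map_eq_zero]
    exact hc
  -- `ev R ^ m * R' = R' ^ p * C (c ^ (p - 1))⁻¹ * f ^ m`
  have e1 : ev a b R ^ m * rder R = rder R ^ p * (RatFunc.C ((c ^ (p - 1))⁻¹) * ff a b ^ m) := by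
    have e2 : RatFunc.C c ^ (p - 1) * ev a b R ^ m = rder R ^ (p - 1) * ff a b ^ m := by
      rw [← h2m, pow_mul, pow_mul, ← mul_pow, ← mul_pow, heq]
    have e3 : rder R ^ p = rder R ^ (p - 1) * rder R := by
      rw [← pow_succ, Nat.sub_add_cancel hp.one_lt.le]
    have e4 : RatFunc.C ((c ^ (p - 1))⁻¹) * RatFunc.C c ^ (p - 1) = 1 := by
      rw [map_inv₀, map_pow, inv_mul_cancel₀ (pow_ne_zero _ hCc)]
    calc ev a b R ^ m * rder R
        = (RatFunc.C ((c ^ (p - 1))⁻¹) * RatFunc.C c ^ (p - 1)) * ev a b R ^ m * rder R := by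
          rw [e4, one_mul]
      _ = RatFunc.C ((c ^ (p - 1))⁻¹) * (RatFunc.C c ^ (p - 1) * ev a b R ^ m) * rder R := by ring
      _ = _ := by rw [e2, e3]; ring
  rw [e1, iter_mul_of_zero h _ _ _ (rder_pow_p h p (rder R)),
    iter_mul_of_zero h _ _ _ (h.const _), k2] at k1
  have hRp : rder R ^ p ≠ 0 := pow_ne_zero p hR
  have k3 : RatFunc.C ((c ^ (p - 1))⁻¹) * RatFunc.C ((fp a b ^ m).coeff (p - 1)) =
      RatFunc.C ((fp a b ^ m).coeff (p - 1)) := by
    have k4 : rder R ^ p * (RatFunc.C ((c ^ (p - 1))⁻¹) *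
        RatFunc.C ((fp a b ^ m).coeff (p - 1))) =
        rder R ^ p * RatFunc.C ((fp a b ^ m).coeff (p - 1)) := by
      linear_combination -k1
    exact mul_left_cancel₀ hRp k4
  rw [← map_mul] at k3
  have k5 : (c ^ (p - 1))⁻¹ * (fp a b ^ m).coeff (p - 1) = (fp a b ^ m).coeff (p - 1) :=
    (RatFunc.C (K := k)).injective k3
  by_contra hne
  have k6 : (c ^ (p - 1))⁻¹ = 1 := by
    have := mul_right_cancel₀ hne (k5.trans (one_mul _).symm)
    exact this
  have k7 : c ^ (p - 1) = 1 := inv_eq_one.1 k6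
  apply hcp
  calc c ^ p = c ^ (p - 1) * c := by rw [← pow_succ, Nat.sub_add_cancel hp.one_lt.le]
    _ = c := by rw [k7, one_mul]

end SSA
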