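import Pool.Agent.SSA.Targets

/-!
# MP_d74fca_nt, algebraic part, CLS: descent classes
-/

open Polynomial

namespace SSA

namespace CLS_

variable {k : Type} [Field k]

/-- A polynomial over an algebraically closed field all of whose roots have even multiplicity is
a square. -/
theorem isSquare_of_even [IsAlgClosed k] : ∀ (n : ℕ) (G : k[X]), G.natDegree ≤ n →
    (∀ t, Even (G.rootMultiplicity t)) → IsSquare G := by
  intro n
  induction n using Nat.strong_induction_on with
  | _ n ih =>
    intro G hn hG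
    by_cases h0 : G = 0
    · rw [h0]
      exact IsSquare.zero
    by_cases hdeg : G.natDegree = 0
    · obtain ⟨c, hc⟩ := natDegree_eq_zero.1 hdeg
      obtain ⟨z, hz⟩ := IsAlgClosed.exists_pow_nat_eq c (by norm_num : 0 < 2)
      refine ⟨C z, ?_⟩
      rw [← hc, ← C_mul, ← hz, sq]
    · obtain ⟨t, ht⟩ := IsAlgClosed.exists_root G (by
        intro h
        exact hdeg (natDegree_eq_of_degree_eq_some h))
      have h1 : 0 < G.rootMultiplicity t := (rootMultiplicity_pos h0).2 ht
      have h2 : 2 ≤ G.rootMultiplicity t := by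
        obtain ⟨m, hm⟩ := hG t
        omega
      obtain ⟨H, hH⟩ := (le_rootMultiplicity_iff h0).1 h2
      have hH0 : H ≠ 0 := by
        rintro rfl
        rw [mul_zero] at hH
        exact h0 hH
      have hX : ((X - C t) ^ 2 : k[X]) ≠ 0 := pow_ne_zero 2 (X_sub_C_ne_zero t)
      have hd : G.natDegree = 2 + H.natDegree := by
        rw [hH, natDegree_mul hX hH0, natDegree_pow, natDegree_X_sub_C]
      have hE : ∀ s, Even (H.rootMultiplicity s) := by
        intro s
        have h3 := hG s
        rw [hH, rootMultiplicity_mul (mul_ne_zero hX hH0), Nat.even_add] at h3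
        refine h3.1 ?_
        rw [sq, rootMultiplicity_mul (mul_ne_zero (X_sub_C_ne_zero t) (X_sub_C_ne_zero t))]
        exact ⟨_, rfl⟩
      obtain ⟨Y, hY⟩ := ih (n - 1) (by omega) H (by omega) hE
      refine ⟨(X - C t) * Y, ?_⟩
      rw [hH, hY]
      ring

/-- the four polynomials -/
noncomputable def AA (e : Fin 3 → k) (R : RatFunc k) : Fin 4 → k[X] :=
  ![R.num - C (e 0) * R.denom, R.num - C (e 1) * R.denom, R.num - C (e 2) * R.denom, R.denom]

theorem e_inj {a b : k} (h : Hyp a b) {e : Fin 3 → k} (he : fp a b = ∏ i, (X - C (e i))) :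
    Function.Injective e := by
  rw [Fin.prod_univ_three] at he
  have h0 := congrArg (eval 0) he
  have h1 := congrArg (eval 1) he
  have h2 := congrArg (eval (-1)) he
  simp only [fp, eval_add, eval_mul, eval_pow, eval_X, eval_C, eval_sub] at h0 h1 h2
  have h3 : e 0 + e 1 + e 2 = 0 := by
    have h4 : (2 : k) * (e 0 + e 1 + e 2) = 0 := by linear_combination h1 + h2 - 2 * h0
    exact (mul_eq_zero.1 h4).resolve_left h.two
  have h5 : a = e 0 * e 1 + e 0 * e 2 + e 1 * e 2 := by
    have h4 : (2 : k) * (a - (e 0 * e 1 + e 0 * e 2 + e 1 * e 2)) = 0 := by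
      linear_combination h1 - h2
    exact sub_eq_zero.1 ((mul_eq_zero.1 h4).resolve_left h.two)
  have h6 : b = -(e 0 * e 1 * e 2) := by linear_combination h0
  have h7 : 4 * a ^ 3 + 27 * b ^ 2 =
      -((e 0 - e 1) * (e 0 - e 2) * (e 1 - e 2)) ^ 2 := by
    have h8 : e 2 = -e 0 - e 1 := by linear_combination h3
    rw [h5, h6, h8]
    ring
  have h9 : (e 0 - e 1) * (e 0 - e 2) * (e 1 - e 2) ≠ 0 := by
    intro h10
    apply h.disc
    rw [h7, h10]
    ring
  have h01 : e 0 ≠ e 1 := by
    intro hh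
    apply h9
    rw [hh]
    ring
  have h02 : e 0 ≠ e 2 := by
    intro hh
    apply h9
    rw [hh]
    ring
  have h12 : e 1 ≠ e 2 := by
    intro hh
    apply h9
    rw [hh]
    ring
  intro i j hij
  fin_cases i <;> fin_cases j
  · rfl
  · exact absurd hij h01
  · exact absurd hij h02
  · exact absurd hij.symm h01
  · rfl
  · exact absurd hij h12
  · exact absurd hij.symm h02
  · exact absurd hij.symm h12
  · rfl

section

variable {e : Fin 3 → k} {R : RatFunc k}

theorem AA_ne (hR : ∀ c : k, R ≠ RatFunc.C c) (i : Fin 4) : AA e R i ≠ 0 := by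
  have key : ∀ c : k, R.num - C c * R.denom ≠ 0 := by
    intro c h
    apply hR c
    have h1 : R.num = C c * R.denom := sub_eq_zero.1 h
    conv_lhs => rw [← RatFunc.num_div_denom R]
    rw [h1, map_mul, mul_div_assoc, div_self, mul_one, RatFunc.algebraMap_C]
    exact RatFunc.algebraMap_ne_zero (RatFunc.denom_ne_zero R)
  fin_cases i
  · exact key (e 0)
  · exact key (e 1)
  · exact key (e 2)
  · exact RatFunc.denom_ne_zero R

theorem common (t : k) (h1 : R.num.eval t = 0) (h2 : R.denom.eval t = 0) : False := by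
  obtain ⟨u, v, huv⟩ := RatFunc.isCoprime_num_denom R
  have := congrArg (eval t) huv
  rw [eval_add, eval_mul, eval_mul, h1, h2, mul_zero, mul_zero, add_zero, eval_one] at this
  exact zero_ne_one this

theorem AA_disj (he : Function.Injective e) (t : k) (i j : Fin 4) (hij : i ≠ j)
    (hi : (AA e R i).eval t = 0) (hj : (AA e R j).eval t = 0) : False := by
  have key : ∀ a b : Fin 3, a ≠ b → (R.num - C (e a) * R.denom).eval t = 0 →
      (R.num - C (e b) * R.denom).eval t = 0 → False := by
    intro a b hab h1 h2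
    rw [eval_sub, eval_mul, eval_C] at h1 h2
    have h3 : (e b - e a) * R.denom.eval t = 0 := by linear_combination h1 - h2
    have h4 : e b - e a ≠ 0 := fun h => hab (he (sub_eq_zero.1 h)).symm
    have h5 := (mul_eq_zero.1 h3).resolve_left h4
    rw [h5, mul_zero, sub_zero] at h1
    exact common t h1 h5
  have key2 : ∀ a : Fin 3, (R.num - C (e a) * R.denom).eval t = 0 → R.denom.eval t = 0 →
      False := by
    intro a h1 h2
    rw [eval_sub, eval_mul, eval_C, h2, mul_zero, sub_zero] at h1
    exact common t h1 h2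
  fin_cases i <;> fin_cases j
  · exact hij rfl
  · exact key 0 1 (by decide) hi hj
  · exact key 0 2 (by decide) hi hj
  · exact key2 0 hi hj
  · exact key 1 0 (by decide) hi hj
  · exact hij rfl
  · exact key 1 2 (by decide) hi hj
  · exact key2 1 hi hj
  · exact key 2 0 (by decide) hi hj
  · exact key 2 1 (by decide) hi hj
  · exact hij rfl
  · exact key2 2 hi hj
  · exact key2 0 hj hi
  · exact key2 1 hj hi
  · exact key2 2 hj hi
  · exact hij rfl

theorem mult_disj (hR : ∀ c : k, R ≠ RatFunc.C c) (he : Function.Injective e) (t : k)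
    (i j : Fin 4) (hij : i ≠ j) (hi : (AA e R i).rootMultiplicity t ≠ 0) :
    (AA e R j).rootMultiplicity t = 0 := by
  by_contra hj
  refine AA_disj (R := R) he t i j hij ?_ ?_
  · exact (rootMultiplicity_pos (AA_ne hR i)).1 (Nat.pos_of_ne_zero hi)
  · exact (rootMultiplicity_pos (AA_ne hR j)).1 (Nat.pos_of_ne_zero hj)

/-- the parity of the sum of the multiplicities -/
theorem mult_sum {a b : k} (hf : fp a b = ∏ i, (X - C (e i))) (hR : ∀ c : k, R ≠ RatFunc.C c)
    {S : RatFunc k} (hS : ff a b * S ^ 2 = ev a b R) (t : k) :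
    (∑ i, (AA e R i).rootMultiplicity t) % 2 = (fp a b).rootMultiplicity t % 2 := by
  have hff : ff a b = algebraMap k[X] (RatFunc k) (fp a b) := by
    unfold ff fp
    simp
  have hev : ev a b R = (R - RatFunc.C (e 0)) * (R - RatFunc.C (e 1)) * (R - RatFunc.C (e 2)) := by
    have h1 := congrArg (fun p => aeval R p) hf
    simp only [fp, Fin.prod_univ_three, map_add, map_mul, map_pow, map_sub, aeval_X, aeval_C,
      RatFunc.algebraMap_eq_C] at h1
    exact h1
  have hD0 : algebraMap k[X] (RatFunc k) R.denom ≠ 0 :=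
    RatFunc.algebraMap_ne_zero (RatFunc.denom_ne_zero R)
  have hU0 : algebraMap k[X] (RatFunc k) S.denom ≠ 0 :=
    RatFunc.algebraMap_ne_zero (RatFunc.denom_ne_zero S)
  have hsub : ∀ c : k, R - RatFunc.C c =
      algebraMap k[X] (RatFunc k) (R.num - C c * R.denom) /
        algebraMap k[X] (RatFunc k) R.denom := by
    intro c
    rw [map_sub, map_mul, RatFunc.algebraMap_C, sub_div, mul_div_assoc, div_self hD0, mul_one,
      RatFunc.num_div_denom]
  have hpoly : fp a b * (S.num * R.denom ^ 2) ^ 2 =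
      S.denom ^ 2 * (AA e R 0 * AA e R 1 * AA e R 2 * AA e R 3) := by
    apply RatFunc.algebraMap_injective k
    have h2 : ff a b * (algebraMap k[X] (RatFunc k) S.num /
        algebraMap k[X] (RatFunc k) S.denom) ^ 2 = ev a b R := by
      rw [RatFunc.num_div_denom]
      exact hS
    rw [hff, hev, hsub, hsub, hsub] at h2
    change _ = algebraMap k[X] (RatFunc k) (S.denom ^ 2 * ((R.num - C (e 0) * R.denom) *
      (R.num - C (e 1) * R.denom) * (R.num - C (e 2) * R.denom) * R.denom))
    simp only [map_mul, map_pow]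
    field_simp at h2
    linear_combination (algebraMap k[X] (RatFunc k) R.denom) * h2
  have hA : AA e R 0 * AA e R 1 * AA e R 2 * AA e R 3 ≠ 0 :=
    mul_ne_zero (mul_ne_zero (mul_ne_zero (AA_ne hR 0) (AA_ne hR 1)) (AA_ne hR 2)) (AA_ne hR 3)
  have hS0 : S.denom ≠ 0 := RatFunc.denom_ne_zero S
  have hfp : fp a b ≠ 0 := by
    intro h
    rw [h, zero_mul] at hpoly
    exact (mul_ne_zero (pow_ne_zero 2 hS0) hA) hpoly.symm
  have hn : S.num * R.denom ^ 2 ≠ 0 := by
    intro h
    rw [h, zero_pow (by norm_num), mul_zero] at hpoly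
    exact (mul_ne_zero (pow_ne_zero 2 hS0) hA) hpoly.symm
  obtain ⟨q, hq⟩ : ∃ q, q = S.num * R.denom ^ 2 := ⟨_, rfl⟩
  rw [← hq] at hpoly hn
  have h3 := congrArg (rootMultiplicity t) hpoly
  rw [rootMultiplicity_mul (mul_ne_zero hfp (pow_ne_zero 2 hn)),
    rootMultiplicity_mul (mul_ne_zero (pow_ne_zero 2 hS0) hA), sq, sq,
    rootMultiplicity_mul (mul_ne_zero hn hn), rootMultiplicity_mul (mul_ne_zero hS0 hS0),
    rootMultiplicity_mul hA, rootMultiplicity_mul (left_ne_zero_of_mul hA),
    rootMultiplicity_mul (left_ne_zero_of_mul (left_ne_zero_of_mul hA))] at h3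
  rw [Fin.sum_univ_four]
  omega

end

end CLS_

open CLS_ in
theorem p_CLS (h1 : T_API) (h2 : T_RFG) : T_CLS := by
  classical
  intro k _ _ a b hyp e he
  have hinj := e_inj hyp he
  obtain ⟨-, hz, -, hP, -⟩ := h1 k a b hyp
  have hconst := (h2 k).2.1
  have hnc : ∀ P : MM a b, dd P ≠ 0 → ∀ c : k, xr P ≠ RatFunc.C c := by
    intro P hd c hc
    exact hd ((hconst _).2 ⟨c, hc⟩)
  have hne : ∀ P : MM a b, dd P ≠ 0 → P ≠ 0 := by
    rintro P hd rfl
    apply hd
    exact (hconst _).2 ⟨0, by rw [hz.1, map_zero]⟩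
  have hfpm : ∀ t, (fp a b).rootMultiplicity t = ∑ i, if t = e i then 1 else 0 := by
    intro t
    have h01 : ((X - C (e 0)) * (X - C (e 1)) : k[X]) ≠ 0 :=
      mul_ne_zero (X_sub_C_ne_zero _) (X_sub_C_ne_zero _)
    rw [he, Fin.prod_univ_three, Fin.sum_univ_three,
      rootMultiplicity_mul (mul_ne_zero h01 (X_sub_C_ne_zero _)), rootMultiplicity_mul h01,
      rootMultiplicity_X_sub_C, rootMultiplicity_X_sub_C, rootMultiplicity_X_sub_C]
  have hout : ∀ t, (∀ j, t ≠ e j) → (fp a b).rootMultiplicity t = 0 := by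
    intro t ht
    rw [hfpm]
    exact Finset.sum_eq_zero fun i _ => if_neg (ht i)
  have hin : ∀ j, (fp a b).rootMultiplicity (e j) = 1 := by
    intro j
    rw [hfpm, Finset.sum_eq_single j]
    · exact if_pos rfl
    · intro i _ hij
      exact if_neg fun h => hij (hinj h).symm
    · intro h
      exact absurd (Finset.mem_univ j) h
  -- the sum of the multiplicities is one of them
  have hone : ∀ P : MM a b, dd P ≠ 0 → ∀ t, ∀ i, (AA e (xr P) i).rootMultiplicity t ≠ 0 →
      ∑ j, (AA e (xr P) j).rootMultiplicity t = (AA e (xr P) i).rootMultiplicity t := by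
    intro P hd t i hi
    rw [Finset.sum_eq_single i]
    · intro j _ hij
      exact mult_disj (hnc P hd) hinj t i j hij.symm hi
    · intro h
      exact absurd (Finset.mem_univ i) h
  have hev : ∀ P : MM a b, dd P ≠ 0 → ∀ t, (∀ j, t ≠ e j) → ∀ i,
      Even ((AA e (xr P) i).rootMultiplicity t) := by
    intro P hd t ht i
    by_cases h0 : (AA e (xr P) i).rootMultiplicity t = 0
    · rw [h0]
      exact Even.zero
    · have h3 := mult_sum he (hnc P hd) (hP P (hne P hd)).1 t
      rw [hout t ht, hone P hd t i h0] at h3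
      exact Nat.even_iff.2 h3
  have hodd : ∀ P : MM a b, dd P ≠ 0 → ∀ j, ∃ i,
      Odd ((AA e (xr P) i).rootMultiplicity (e j)) := by
    intro P hd j
    by_contra hcon
    push Not at hcon
    have h3 := mult_sum he (hnc P hd) (hP P (hne P hd)).1 (e j)
    rw [hin j] at h3
    have h4 : ∀ i, (AA e (xr P) i).rootMultiplicity (e j) % 2 = 0 := by
      intro i
      exact Nat.even_iff.1 (Nat.not_odd_iff_even.1 (hcon i))
    rw [Fin.sum_univ_four] at h3
    have := h4 0
    have := h4 1
    have := h4 2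
    have := h4 3
    omega
  let δ : MM a b → (Fin 3 → Fin 4) := fun P j =>
    if h : ∃ i, Odd ((AA e (xr P) i).rootMultiplicity (e j)) then h.choose else 0
  have hδ : ∀ P : MM a b, dd P ≠ 0 → ∀ j i,
      Odd ((AA e (xr P) i).rootMultiplicity (e j)) ↔ δ P j = i := by
    intro P hd j i
    have hex := hodd P hd j
    have h3 : δ P j = hex.choose := dif_pos hex
    have h4 := hex.choose_spec
    rw [h3]
    constructor
    · intro hi
      by_contra hne'
      have h5 := mult_disj (hnc P hd) hinj (e j) hex.choose i hne' (by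
        intro h0
        rw [h0] at h4
        exact absurd h4 (by decide))
      rw [h5] at hi
      exact absurd hi (by decide)
    · intro h5
      rw [← h5]
      exact h4
  refine ⟨δ, ?_⟩
  intro P Q hPd hQd hPQ i
  -- the polynomial is a square
  have hsame : ∀ (l : Fin 4) (t : k), Even ((AA e (xr P) l).rootMultiplicity t +
      (AA e (xr Q) l).rootMultiplicity t) := by
    intro l t
    by_cases ht : ∀ j, t ≠ e j
    · exact (hev P hPd t ht l).add (hev Q hQd t ht l)
    · push Not at ht
      obtain ⟨j, rfl⟩ := ht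
      rw [Nat.even_add, ← Nat.not_odd_iff_even, ← Nat.not_odd_iff_even, not_iff_not,
        hδ P hPd j l, hδ Q hQd j l, hPQ]
  obtain ⟨l, hl⟩ : ∃ l : Fin 4, ∀ R : RatFunc k, AA e R l = R.num - C (e i) * R.denom := by
    fin_cases i
    · exact ⟨0, fun R => rfl⟩
    · exact ⟨1, fun R => rfl⟩
    · exact ⟨2, fun R => rfl⟩
  have hG0 : AA e (xr P) l * AA e (xr Q) l * (AA e (xr P) 3 * AA e (xr Q) 3) ≠ 0 :=
    mul_ne_zero (mul_ne_zero (AA_ne (hnc P hPd) _) (AA_ne (hnc Q hQd) _))
      (mul_ne_zero (AA_ne (hnc P hPd) _) (AA_ne (hnc Q hQd) _))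
  obtain ⟨Y, hY⟩ := isSquare_of_even _
    (AA e (xr P) l * AA e (xr Q) l * (AA e (xr P) 3 * AA e (xr Q) 3)) le_rfl (by
      intro t
      rw [rootMultiplicity_mul hG0, rootMultiplicity_mul (left_ne_zero_of_mul hG0),
        rootMultiplicity_mul (right_ne_zero_of_mul hG0)]
      exact (hsame l t).add (hsame 3 t))
  have hDP : algebraMap k[X] (RatFunc k) (xr P).denom ≠ 0 :=
    RatFunc.algebraMap_ne_zero (RatFunc.denom_ne_zero _)
  have hDQ : algebraMap k[X] (RatFunc k) (xr Q).denom ≠ 0 :=
    RatFunc.algebraMap_ne_zero (RatFunc.denom_ne_zero _)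
  have hsub : ∀ R : RatFunc k, R - RatFunc.C (e i) =
      algebraMap k[X] (RatFunc k) (AA e R l) / algebraMap k[X] (RatFunc k) R.denom := by
    intro R
    have hD0 : algebraMap k[X] (RatFunc k) R.denom ≠ 0 :=
      RatFunc.algebraMap_ne_zero (RatFunc.denom_ne_zero R)
    rw [hl, map_sub, map_mul, RatFunc.algebraMap_C, sub_div, mul_div_assoc, div_self hD0, mul_one,
      RatFunc.num_div_denom]
  refine ⟨algebraMap k[X] (RatFunc k) Y / (algebraMap k[X] (RatFunc k) (xr P).denom *
    algebraMap k[X] (RatFunc k) (xr Q).denom), ?_⟩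
  have hY' := congrArg (algebraMap k[X] (RatFunc k)) hY
  have e3 : ∀ R : RatFunc k, AA e R 3 = R.denom := fun R => rfl
  rw [e3, e3] at hY'
  simp only [map_mul] at hY'
  rw [hsub, hsub]
  field_simp
  linear_combination hY'

end SSA
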