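import Pool.Agent.SSA.Targets

/-!
# MP_d74fca_nt, algebraic part: composition with Frobenius (job SSA-FRB)
-/

open Polynomial

namespace SSA

namespace FRB_

/-- the degree of `X^n` -/
theorem rdeg_Xp {k : Type} [Field k] (h3 : T_RFG) (n : ℕ) :
    rdeg ((RatFunc.X : RatFunc k) ^ n) = n := by
  obtain ⟨h, -, -⟩ := h3 k
  have := h (X ^ n) 1 one_ne_zero isCoprime_one_right
  simpa using this

theorem Xp_ne {k : Type} [Field k] (h3 : T_RFG) {n : ℕ} (hn : n ≠ 0) (c : k) :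
    (RatFunc.X : RatFunc k) ^ n ≠ RatFunc.C c := by
  intro h
  obtain ⟨-, h', -⟩ := h3 k
  have h1 : rdeg ((RatFunc.X : RatFunc k) ^ n) = 0 := (h' _).2 ⟨c, h⟩
  rw [rdeg_Xp h3] at h1
  exact hn h1

/-- composition with `X^p` as a ring homomorphism -/
theorem exists_endo {k : Type} [Field k] (h2 : T_RFC) (h3 : T_RFG) {p : ℕ} (hp : p ≠ 0) :
    ∃ φ : RatFunc k →+* RatFunc k, ∀ g : RatFunc k, rcomp g (RatFunc.X ^ p) = φ g := by
  obtain ⟨hadd, -, hmul, -, -, hC, -⟩ := h2 k (RatFunc.X ^ p) (Xp_ne h3 hp)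
  refine ⟨{ toFun := fun g => rcomp g (RatFunc.X ^ p)
            map_one' := ?_
            map_mul' := fun g h => hmul g h
            map_zero' := ?_
            map_add' := fun g h => hadd g h }, fun g => rfl⟩
  · simpa using hC 1
  · simpa using hC 0

section

variable {k : Type} [Field k] {p : ℕ} [Fact p.Prime] [CharP k p]

theorem zc_pow (a : ZMod p) : (zc p k a) ^ p = zc p k a := by
  rw [← map_pow, ZMod.pow_card]

/-- what is needed about composition with `X^p` -/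
structure IsPhi (p : ℕ) (A B : k) (φ : RatFunc k →+* RatFunc k) : Prop where
  eq : ∀ g : RatFunc k, rcomp g (RatFunc.X ^ p) = φ g
  C : ∀ c : k, φ (RatFunc.C c) = RatFunc.C c
  X : φ RatFunc.X = RatFunc.X ^ p
  f : φ (ff A B) = ff A B ^ p

theorem exists_phi (h2 : T_RFC) (h3 : T_RFG) (a b : ZMod p) :
    ∃ φ : RatFunc k →+* RatFunc k, IsPhi p (zc p k a) (zc p k b) φ := by
  have hp : p.Prime := Fact.out
  obtain ⟨φ, hφ⟩ := exists_endo (k := k) h2 h3 hp.ne_zero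
  obtain ⟨-, -, -, -, -, hC, hX, -⟩ := h2 k (RatFunc.X ^ p) (Xp_ne h3 hp.ne_zero)
  refine ⟨φ, hφ, fun c => by rw [← hφ, hC], by rw [← hφ, hX], ?_⟩
  have : ExpChar (RatFunc k) p := ExpChar.prime hp
  unfold ff
  rw [map_add, map_add, map_mul, map_pow, ← hφ RatFunc.X, ← hφ (RatFunc.C _),
    ← hφ (RatFunc.C _), hC, hC, hX, add_pow_char, add_pow_char, mul_pow]
  have e1 : ∀ c : ZMod p, (RatFunc.C (zc p k c) : RatFunc k) ^ p = RatFunc.C (zc p k c) := by
    intro c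
    rw [← map_pow, zc_pow]
  rw [e1, e1]
  ring

variable {A B : k}

/-- consequences of the API used here -/
theorem api (h1 : T_API) (hH : Hyp A B) :
    ff A B ≠ 0 ∧
  (∀ R S : RatFunc k, ff A B * S ^ 2 = ev A B R →
    mkP A B R S ≠ 0 ∧ xr (mkP A B R S) = R ∧ yr (mkP A B R S) = S) ∧
  (∀ P : MM A B, P ≠ 0 → ff A B * yr P ^ 2 = ev A B (xr P) ∧ P = mkP A B (xr P) (yr P)) ∧
  (∀ P : MM A B, xr (-P) = xr P ∧ yr (-P) = - yr P) ∧
  (∀ P Q : MM A B, P ≠ 0 → Q ≠ 0 → xr P = xr Q → P = Q ∨ P = -Q) ∧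
  (∀ P Q : MM A B, P ≠ 0 → Q ≠ 0 → xr P ≠ xr Q → P + Q ≠ 0 ∧
    xr (P + Q) = ff A B * ((yr P - yr Q) / (xr P - xr Q)) ^ 2 - xr P - xr Q ∧
    yr (P + Q) = -((yr P - yr Q) / (xr P - xr Q) * (xr (P + Q) - xr P) + yr P)) ∧
  (∀ P : MM A B, P ≠ 0 → yr P ≠ 0 → P + P ≠ 0 ∧
    xr (P + P) = ff A B * ((3 * xr P ^ 2 + RatFunc.C A) / (2 * ff A B * yr P)) ^ 2 - 2 * xr P ∧
    yr (P + P) = -((3 * xr P ^ 2 + RatFunc.C A) / (2 * ff A B * yr P) * (xr (P + P) - xr P)
      + yr P)) ∧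
  (∀ P : MM A B, yr P = 0 → P + P = 0) := by
  obtain ⟨h0, -, h⟩ := h1 k A B hH
  exact ⟨h0, h⟩

theorem ext_pt (h1 : T_API) (hH : Hyp A B) {P Q : MM A B} (hP : P ≠ 0) (hQ : Q ≠ 0)
    (hx : xr P = xr Q) (hy : yr P = yr Q) : P = Q := by
  obtain ⟨-, -, h, -⟩ := api h1 hH
  rw [(h P hP).2, (h Q hQ).2, hx, hy]

/-- the coordinates of `frb P` -/
theorem frb_coord (h1 : T_API) (hH : Hyp A B) {φ : RatFunc k →+* RatFunc k}
    (hφ : IsPhi p A B φ) (h5 : 5 ≤ p) {P : MM A B} (hP : P ≠ 0) :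
    frb p P ≠ 0 ∧ xr (frb p P) = φ (xr P) ∧
      yr (frb p P) = φ (yr P) * ff A B ^ ((p - 1) / 2) := by
  have hp : p.Prime := Fact.out
  obtain ⟨-, hmk, hpt, -⟩ := api h1 hH
  have hodd : 2 * ((p - 1) / 2) + 1 = p := by
    have := hp.eq_two_or_odd
    omega
  have e : ff A B * (φ (yr P) * ff A B ^ ((p - 1) / 2)) ^ 2 = ev A B (φ (xr P)) := by
    have e1 : ff A B * (φ (yr P) * ff A B ^ ((p - 1) / 2)) ^ 2
        = ff A B ^ (2 * ((p - 1) / 2) + 1) * φ (yr P) ^ 2 := by ring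
    rw [e1, hodd, ← hφ.f, ← map_pow, ← map_mul, (hpt P hP).1]
    unfold ev
    rw [map_add, map_add, map_mul, map_pow, hφ.C, hφ.C]
  have h := hmk _ _ e
  have hf : frb p P = mkP A B (φ (xr P)) (φ (yr P) * ff A B ^ ((p - 1) / 2)) := by
    unfold frb
    rw [if_neg hP, hφ.eq, hφ.eq]
  rw [hf]
  exact h

theorem frb_zero : frb p (0 : MM A B) = 0 := by
  unfold frb
  rw [if_pos rfl]

theorem frb_neg (h1 : T_API) (hH : Hyp A B) {φ : RatFunc k →+* RatFunc k}
    (hφ : IsPhi p A B φ) (h5 : 5 ≤ p) (P : MM A B) : frb p (-P) = - frb p P := by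
  obtain ⟨-, -, -, hneg, -⟩ := api h1 hH
  by_cases hP : P = 0
  · subst hP
    rw [neg_zero, frb_zero, neg_zero]
  · have hP' : -P ≠ 0 := neg_ne_zero.2 hP
    obtain ⟨a1, a2, a3⟩ := frb_coord h1 hH hφ h5 hP
    obtain ⟨b1, b2, b3⟩ := frb_coord h1 hH hφ h5 hP'
    refine ext_pt h1 hH b1 (neg_ne_zero.2 a1) ?_ ?_
    · rw [b2, (hneg _).1, (hneg _).1, a2]
    · rw [b3, (hneg _).2, (hneg _).2, a3, map_neg, neg_mul]

theorem frb_add (h1 : T_API) (hH : Hyp A B) {φ : RatFunc k →+* RatFunc k}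
    (hφ : IsPhi p A B φ) (h5 : 5 ≤ p) (P Q : MM A B) :
    frb p (P + Q) = frb p P + frb p Q := by
  have hp : p.Prime := Fact.out
  have hodd : 2 * ((p - 1) / 2) + 1 = p := by
    have := hp.eq_two_or_odd
    omega
  obtain ⟨hf0, hmk, hpt, hneg, heq, hadd, hdbl, htwo⟩ := api h1 hH
  by_cases hP : P = 0
  · subst hP
    rw [zero_add, frb_zero, zero_add]
  by_cases hQ : Q = 0
  · subst hQ
    rw [add_zero, frb_zero, add_zero]
  obtain ⟨a1, a2, a3⟩ := frb_coord h1 hH hφ h5 hP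
  obtain ⟨b1, b2, b3⟩ := frb_coord h1 hH hφ h5 hQ
  have hff : ∀ z : RatFunc k, φ (ff A B * z ^ 2)
      = ff A B * (φ z * ff A B ^ ((p - 1) / 2)) ^ 2 := by
    intro z
    rw [map_mul, map_pow, hφ.f]
    nth_rewrite 1 [← hodd]
    ring
  have hg0 : ff A B ^ ((p - 1) / 2) ≠ 0 := pow_ne_zero _ hf0
  by_cases hx : xr P = xr Q
  · rcases heq P Q hP hQ hx with rfl | rfl
    · by_cases hy : yr P = 0
      · rw [htwo P hy, frb_zero, htwo (frb p P) (by rw [a3, hy, map_zero, zero_mul])]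
      · have hy' : yr (frb p P) ≠ 0 := by
          rw [a3]
          refine mul_ne_zero ?_ hg0
          exact (map_ne_zero φ).2 hy
        obtain ⟨c1, c2, c3⟩ := hdbl P hP hy
        obtain ⟨d1, d2, d3⟩ := hdbl (frb p P) a1 hy'
        obtain ⟨e1, e2, e3⟩ := frb_coord h1 hH hφ h5 c1
        have hm : (3 * xr (frb p P) ^ 2 + RatFunc.C A) / (2 * ff A B * yr (frb p P))
            = φ ((3 * xr P ^ 2 + RatFunc.C A) / (2 * ff A B * yr P))
              * ff A B ^ ((p - 1) / 2) := by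
          rw [a2, a3, map_div₀, map_add, map_mul, map_mul, map_mul, map_pow, hφ.C, hφ.f,
            map_ofNat, map_ofNat]
          have h2f : (2 : RatFunc k) ≠ 0 := by
            have := hH.two
            intro h
            apply this
            have h' : (RatFunc.C (2 : k) : RatFunc k) = RatFunc.C 0 := by
              rw [map_ofNat, map_zero, h]
            exact RatFunc.C_injective h'
          have hyφ : φ (yr P) ≠ 0 := (map_ne_zero φ).2 hy
          have e4 : ff A B ^ p = ff A B * (ff A B ^ ((p - 1) / 2)) ^ 2 := by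
            nth_rewrite 1 [← hodd]
            ring
          rw [e4]
          field_simp
        have hxx : xr (frb p (P + P)) = xr (frb p P + frb p P) := by
          rw [e2, c2, d2, hm, map_sub, hff, map_mul, map_ofNat, a2]
        refine ext_pt h1 hH e1 d1 hxx ?_
        rw [e3, c3, d3, hm, ← hxx, e2, a2, a3, map_neg, map_add, map_mul, map_sub]
        ring
    · rw [neg_add_cancel, frb_zero, frb_neg h1 hH hφ h5, neg_add_cancel]
  · have hx' : xr (frb p P) ≠ xr (frb p Q) := by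
      rw [a2, b2]
      exact fun h => hx (φ.injective h)
    obtain ⟨c1, c2, c3⟩ := hadd P Q hP hQ hx
    obtain ⟨d1, d2, d3⟩ := hadd (frb p P) (frb p Q) a1 b1 hx'
    obtain ⟨e1, e2, e3⟩ := frb_coord h1 hH hφ h5 c1
    have hm : (yr (frb p P) - yr (frb p Q)) / (xr (frb p P) - xr (frb p Q))
        = φ ((yr P - yr Q) / (xr P - xr Q)) * ff A B ^ ((p - 1) / 2) := by
      rw [a2, a3, b2, b3, map_div₀, map_sub, map_sub, ← sub_mul, mul_div_right_comm]
    have hxx : xr (frb p (P + Q)) = xr (frb p P + frb p Q) := by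
      rw [e2, c2, d2, hm, map_sub, map_sub, hff, a2, b2]
    refine ext_pt h1 hH e1 d1 hxx ?_
    rw [e3, c3, d3, hm, ← hxx, e2, a2, a3, map_neg, map_add, map_mul, map_sub]
    ring

end

end FRB_

open FRB_ in
theorem p_FRB (h1 : T_API) (h2 : T_RFC) (h3 : T_RFG) : T_FRB := by
  intro p _ k _ _ h5 a b hH
  have hp : p.Prime := Fact.out
  obtain ⟨φ, hφ⟩ := exists_phi (k := k) h2 h3 a b
  refine ⟨frb_add h1 hH hφ h5, fun P => ?_, ?_⟩
  · by_cases hP : P = 0
    · subst hP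
      rw [frb_zero]
      have : dd (0 : MM (zc p k a) (zc p k b)) = 0 := by
        unfold dd
        obtain ⟨-, ⟨h, -⟩, -⟩ := h1 k (zc p k a) (zc p k b) hH
        rw [h]
        unfold rdeg
        simp
      rw [this, mul_zero]
    · obtain ⟨-, a2, -⟩ := frb_coord h1 hH hφ h5 hP
      obtain ⟨-, -, -, -, -, -, -, -, -, -, -, -, hdeg, -⟩ :=
        h2 k (RatFunc.X ^ p) (Xp_ne h3 hp.ne_zero)
      unfold dd
      rw [a2, ← hφ.eq, hdeg, rdeg_Xp h3, mul_comm]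
  · obtain ⟨hf0, hmk, hpt, hneg, heq, hadd, hdbl, htwo⟩ := api h1 hH
    have e : ff (zc p k a) (zc p k b) * 1 ^ 2 = ev (zc p k a) (zc p k b) RatFunc.X := by
      unfold ff ev
      ring
    obtain ⟨m1, m2, m3⟩ := hmk _ _ e
    unfold frb idM piM
    rw [if_neg m1, m2, m3, hφ.eq, hφ.eq, hφ.X, map_one, one_mul]

end SSA
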