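import Pool.Agent.SSA.TargetsB
import Pool.Agent.SSA.FRB

/-!
# CMP: composition with a fixed nonconstant map from the right
-/

set_option autoImplicit false

open Polynomial

namespace SSA

namespace CMP_

variable {k : Type} [Field k]

/-- composition with `R` as a ring homomorphism -/
theorem exists_endo (h2 : T_RFC) (R : RatFunc k) (hR : ∀ c : k, R ≠ RatFunc.C c) :
    ∃ φ : RatFunc k →+* RatFunc k, (∀ g : RatFunc k, rcomp g R = φ g) ∧
      (∀ c : k, φ (RatFunc.C c) = RatFunc.C c) ∧ φ RatFunc.X = R := by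
  obtain ⟨hadd, -, hmul, -, -, hC, hX, -⟩ := h2 k R hR
  exact ⟨{ toFun := fun g => rcomp g R
           map_one' := by simpa using hC 1
           map_mul' := fun g h => hmul g h
           map_zero' := by simpa using hC 0
           map_add' := fun g h => hadd g h }, fun g => rfl, hC, hX⟩

variable {A B : k}

/-- what is needed about the composition with the point `(R, T)` -/
structure IsPhi (A B : k) (R T : RatFunc k) (φ : RatFunc k →+* RatFunc k) : Prop where
  C : ∀ c : k, φ (RatFunc.C c) = RatFunc.C c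
  X : φ RatFunc.X = R
  f : φ (ff A B) = ff A B * T ^ 2
  T0 : T ≠ 0

/-- the map on points -/
noncomputable def cm (A B : k) (T : RatFunc k) (φ : RatFunc k →+* RatFunc k) (P : MM A B) :
    MM A B :=
  if P = 0 then 0 else mkP A B (φ (xr P)) (φ (yr P) * T)

theorem coord (h1 : T_API) (hH : Hyp A B) {R T : RatFunc k} {φ : RatFunc k →+* RatFunc k}
    (hφ : IsPhi A B R T φ) {P : MM A B} (hP : P ≠ 0) :
    cm A B T φ P ≠ 0 ∧ xr (cm A B T φ P) = φ (xr P) ∧ yr (cm A B T φ P) = φ (yr P) * T := by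
  obtain ⟨-, hmk, hpt, -⟩ := FRB_.api h1 hH
  have e : ff A B * (φ (yr P) * T) ^ 2 = ev A B (φ (xr P)) := by
    have e1 : ff A B * (φ (yr P) * T) ^ 2 = (ff A B * T ^ 2) * φ (yr P) ^ 2 := by ring
    rw [e1, ← hφ.f, ← map_pow, ← map_mul, (hpt P hP).1]
    unfold ev
    rw [map_add, map_add, map_mul, map_pow, hφ.C, hφ.C]
  have h := hmk _ _ e
  have hf : cm A B T φ P = mkP A B (φ (xr P)) (φ (yr P) * T) := by
    unfold cm
    rw [if_neg hP]
  rw [hf]
  exact h

theorem cm_zero (T : RatFunc k) (φ : RatFunc k →+* RatFunc k) : cm A B T φ 0 = 0 := by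
  unfold cm
  rw [if_pos rfl]

theorem cm_neg (h1 : T_API) (hH : Hyp A B) {R T : RatFunc k} {φ : RatFunc k →+* RatFunc k}
    (hφ : IsPhi A B R T φ) (P : MM A B) : cm A B T φ (-P) = - cm A B T φ P := by
  obtain ⟨-, -, -, hneg, -⟩ := FRB_.api h1 hH
  by_cases hP : P = 0
  · subst hP
    rw [neg_zero, cm_zero, neg_zero]
  · have hP' : -P ≠ 0 := neg_ne_zero.2 hP
    obtain ⟨a1, a2, a3⟩ := coord h1 hH hφ hP
    obtain ⟨b1, b2, b3⟩ := coord h1 hH hφ hP'
    refine FRB_.ext_pt h1 hH b1 (neg_ne_zero.2 a1) ?_ ?_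
    · rw [b2, (hneg _).1, (hneg _).1, a2]
    · rw [b3, (hneg _).2, (hneg _).2, a3, map_neg, neg_mul]

theorem cm_add (h1 : T_API) (hH : Hyp A B) {R T : RatFunc k} {φ : RatFunc k →+* RatFunc k}
    (hφ : IsPhi A B R T φ) (P Q : MM A B) :
    cm A B T φ (P + Q) = cm A B T φ P + cm A B T φ Q := by
  obtain ⟨hf0, hmk, hpt, hneg, heq, hadd, hdbl, htwo⟩ := FRB_.api h1 hH
  by_cases hP : P = 0
  · subst hP
    rw [zero_add, cm_zero, zero_add]
  by_cases hQ : Q = 0
  · subst hQ
    rw [add_zero, cm_zero, add_zero]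
  obtain ⟨a1, a2, a3⟩ := coord h1 hH hφ hP
  obtain ⟨b1, b2, b3⟩ := coord h1 hH hφ hQ
  have hff : ∀ z : RatFunc k, φ (ff A B * z ^ 2) = ff A B * (φ z * T) ^ 2 := by
    intro z
    rw [map_mul, map_pow, hφ.f]
    ring
  have hg0 : T ≠ 0 := hφ.T0
  by_cases hx : xr P = xr Q
  · rcases heq P Q hP hQ hx with rfl | rfl
    · by_cases hy : yr P = 0
      · rw [htwo P hy, cm_zero, htwo (cm A B T φ P) (by rw [a3, hy, map_zero, zero_mul])]
      · have hy' : yr (cm A B T φ P) ≠ 0 := by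
          rw [a3]
          refine mul_ne_zero ?_ hg0
          exact (map_ne_zero φ).2 hy
        obtain ⟨c1, c2, c3⟩ := hdbl P hP hy
        obtain ⟨d1, d2, d3⟩ := hdbl (cm A B T φ P) a1 hy'
        obtain ⟨e1, e2, e3⟩ := coord h1 hH hφ c1
        have hm : (3 * xr (cm A B T φ P) ^ 2 + RatFunc.C A) / (2 * ff A B * yr (cm A B T φ P))
            = φ ((3 * xr P ^ 2 + RatFunc.C A) / (2 * ff A B * yr P)) * T := by
          rw [a2, a3, map_div₀, map_add, map_mul, map_mul, map_mul, map_pow, hφ.C, hφ.f,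
            map_ofNat, map_ofNat]
          have h2f : (2 : RatFunc k) ≠ 0 := by
            have := hH.two
            intro h
            apply this
            have h' : (RatFunc.C (2 : k) : RatFunc k) = RatFunc.C 0 := by
              rw [map_ofNat, map_zero, h]
            exact RatFunc.C_injective h'
          have hyφ : φ (yr P) ≠ 0 := (map_ne_zero φ).2 hy
          field_simp
        have hxx : xr (cm A B T φ (P + P)) = xr (cm A B T φ P + cm A B T φ P) := by
          rw [e2, c2, d2, hm, map_sub, hff, map_mul, map_ofNat, a2]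
        refine FRB_.ext_pt h1 hH e1 d1 hxx ?_
        rw [e3, c3, d3, hm, ← hxx, e2, a2, a3, map_neg, map_add, map_mul, map_sub]
        ring
    · rw [neg_add_cancel, cm_zero, cm_neg h1 hH hφ, neg_add_cancel]
  · have hx' : xr (cm A B T φ P) ≠ xr (cm A B T φ Q) := by
      rw [a2, b2]
      exact fun h => hx (φ.injective h)
    obtain ⟨c1, c2, c3⟩ := hadd P Q hP hQ hx
    obtain ⟨d1, d2, d3⟩ := hadd (cm A B T φ P) (cm A B T φ Q) a1 b1 hx'
    obtain ⟨e1, e2, e3⟩ := coord h1 hH hφ c1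
    have hm : (yr (cm A B T φ P) - yr (cm A B T φ Q)) / (xr (cm A B T φ P) - xr (cm A B T φ Q))
        = φ ((yr P - yr Q) / (xr P - xr Q)) * T := by
      rw [a2, a3, b2, b3, map_div₀, map_sub, map_sub, ← sub_mul, mul_div_right_comm]
    have hxx : xr (cm A B T φ (P + Q)) = xr (cm A B T φ P + cm A B T φ Q) := by
      rw [e2, c2, d2, hm, map_sub, map_sub, hff, a2, b2]
    refine FRB_.ext_pt h1 hH e1 d1 hxx ?_
    rw [e3, c3, d3, hm, ← hxx, e2, a2, a3, map_neg, map_add, map_mul, map_sub]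
    ring

end CMP_

open CMP_ in
theorem p_CMP (h1 : T_API) (h2 : T_RFC) : T_CMP := by
  intro k _ a b hH P hP
  obtain ⟨φ, hφe, hφC, hφX⟩ := exists_endo h2 (xr P) hP
  obtain ⟨hf0, hmk, hpt, hneg, heq, hadd, hdbl, htwo⟩ := FRB_.api h1 hH
  obtain ⟨-, ⟨hx0, -⟩, -⟩ := h1 k a b hH
  have hP0 : P ≠ 0 := by
    rintro rfl
    apply hP 0
    rw [hx0, map_zero]
  have hff : φ (ff a b) = ff a b * yr P ^ 2 := by
    rw [(hpt P hP0).1]
    unfold ff ev
    rw [map_add, map_add, map_mul, map_pow, hφC, hφC, hφX]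
  have hT : yr P ≠ 0 := by
    intro h
    rw [h] at hff
    have : φ (ff a b) = 0 := by rw [hff]; ring
    exact hf0 ((map_eq_zero φ).1 this)
  have hφ : IsPhi a b (xr P) (yr P) φ := ⟨hφC, hφX, hff, hT⟩
  refine ⟨{ toFun := cm a b (yr P) φ
            map_zero' := cm_zero _ _
            map_add' := cm_add h1 hH hφ }, ?_, ?_, ?_⟩
  · show cm a b (yr P) φ (idM a b) = P
    have e : ff a b * 1 ^ 2 = ev a b RatFunc.X := by
      unfold ff ev
      ring
    obtain ⟨m1, m2, m3⟩ := hmk _ _ e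
    obtain ⟨c1, c2, c3⟩ := coord h1 hH hφ m1
    refine FRB_.ext_pt h1 hH c1 hP0 ?_ ?_
    · show xr (cm a b (yr P) φ (mkP a b RatFunc.X 1)) = xr P
      rw [c2, m2, hφX]
    · show yr (cm a b (yr P) φ (mkP a b RatFunc.X 1)) = yr P
      rw [c3, m3, map_one, one_mul]
  · intro Q
    show dd (cm a b (yr P) φ Q) = dd Q * dd P
    by_cases hQ : Q = 0
    · subst hQ
      rw [cm_zero]
      have : dd (0 : MM a b) = 0 := by
        unfold dd
        rw [hx0]
        unfold rdeg
        simp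
      rw [this, zero_mul]
    · obtain ⟨-, a2, -⟩ := coord h1 hH hφ hQ
      obtain ⟨-, -, -, -, -, -, -, -, -, -, -, -, hdeg, -⟩ := h2 k (xr P) hP
      unfold dd
      rw [a2, ← hφe, hdeg]
  · intro Q hQ
    obtain ⟨a1, a2, a3⟩ := coord h1 hH hφ hQ
    refine ⟨a1, ?_, ?_⟩
    · show xr (cm a b (yr P) φ Q) = rcomp (xr Q) (xr P)
      rw [a2, hφe]
    · show yr (cm a b (yr P) φ Q) = rcomp (yr Q) (xr P) * yr P
      rw [a3, hφe]

end SSA
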