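import Pool.Agent.SSA.Defs

/-!
# MP_d74fca_nt, algebraic part (helper22): targets
-/

open Polynomial

namespace SSA

/-! ## Rational functions -/

/-- RFD: derivative -/
def T_RFD : Prop := ∀ (k : Type) [Field k],
  (∀ R S : RatFunc k, rder (R + S) = rder R + rder S) ∧
  (∀ R S : RatFunc k, rder (R - S) = rder R - rder S) ∧
  (∀ R S : RatFunc k, rder (R * S) = rder R * S + R * rder S) ∧
  (∀ R S : RatFunc k, S ≠ 0 → rder (R / S) = (rder R * S - R * rder S) / S ^ 2) ∧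
  (∀ (R : RatFunc k) (n : ℕ), rder (R ^ n) = n * R ^ (n - 1) * rder R) ∧
  (∀ R : RatFunc k, rder (-R) = - rder R) ∧
  (∀ P : k[X], rder (algebraMap k[X] (RatFunc k) P) = algebraMap k[X] (RatFunc k) (derivative P)) ∧
  (∀ c : k, rder (RatFunc.C c) = 0) ∧ rder (RatFunc.X : RatFunc k) = 1

/-- RFG: degree -/
def T_RFG : Prop := ∀ (k : Type) [Field k],
  (∀ N D : k[X], D ≠ 0 → IsCoprime N D →
    rdeg (algebraMap k[X] (RatFunc k) N / algebraMap k[X] (RatFunc k) D) =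
      max N.natDegree D.natDegree) ∧
  (∀ R : RatFunc k, rdeg R = 0 ↔ ∃ c : k, R = RatFunc.C c) ∧
  (∀ (R : RatFunc k) (α β γ δ : k), α * δ - β * γ ≠ 0 →
    RatFunc.C γ * R + RatFunc.C δ ≠ 0 →
    rdeg ((RatFunc.C α * R + RatFunc.C β) / (RatFunc.C γ * R + RatFunc.C δ)) = rdeg R)

/-- RFC: composition with a nonconstant rational function -/
def T_RFC : Prop := ∀ (k : Type) [Field k] (R : RatFunc k), (∀ c : k, R ≠ RatFunc.C c) →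
  (∀ g h : RatFunc k, rcomp (g + h) R = rcomp g R + rcomp h R) ∧
  (∀ g h : RatFunc k, rcomp (g - h) R = rcomp g R - rcomp h R) ∧
  (∀ g h : RatFunc k, rcomp (g * h) R = rcomp g R * rcomp h R) ∧
  (∀ g h : RatFunc k, rcomp (g / h) R = rcomp g R / rcomp h R) ∧
  (∀ (g : RatFunc k) (n : ℕ), rcomp (g ^ n) R = rcomp g R ^ n) ∧
  (∀ c : k, rcomp (RatFunc.C c) R = RatFunc.C c) ∧
  rcomp RatFunc.X R = R ∧ rcomp R RatFunc.X = R ∧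
  (∀ P : k[X], rcomp (algebraMap k[X] (RatFunc k) P) R = aeval R P) ∧
  (∀ g : RatFunc k, rcomp g R = 0 → g = 0) ∧
  (∀ g h : RatFunc k, rcomp g R = rcomp h R → g = h) ∧
  (∀ g : RatFunc k, rder (rcomp g R) = rcomp (rder g) R * rder R) ∧
  (∀ g : RatFunc k, rdeg (rcomp g R) = rdeg g * rdeg R) ∧
  (∀ T : RatFunc k, (∀ c : k, T ≠ RatFunc.C c) → (∀ c : k, rcomp R T ≠ RatFunc.C c) ∧
    ∀ g : RatFunc k, rcomp (rcomp g R) T = rcomp g (rcomp R T))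

/-- RFM: change of coefficients -/
def T_RFM : Prop := ∀ (k k' : Type) [Field k] [Field k'] (σ : k →+* k'),
  (∀ R S : RatFunc k, rmap σ (R + S) = rmap σ R + rmap σ S) ∧
  (∀ R S : RatFunc k, rmap σ (R - S) = rmap σ R - rmap σ S) ∧
  (∀ R S : RatFunc k, rmap σ (R * S) = rmap σ R * rmap σ S) ∧
  (∀ R S : RatFunc k, rmap σ (R / S) = rmap σ R / rmap σ S) ∧
  (∀ (R : RatFunc k) (n : ℕ), rmap σ (R ^ n) = rmap σ R ^ n) ∧
  (∀ P : k[X], rmap σ (algebraMap k[X] (RatFunc k) P) = algebraMap k'[X] (RatFunc k') (P.map σ)) ∧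
  (∀ c : k, rmap σ (RatFunc.C c) = RatFunc.C (σ c)) ∧ rmap σ RatFunc.X = RatFunc.X ∧
  (∀ R S : RatFunc k, rmap σ R = rmap σ S → R = S) ∧
  (∀ R : RatFunc k, rmap σ (rder R) = rder (rmap σ R)) ∧
  (∀ R : RatFunc k, rdeg (rmap σ R) = rdeg R) ∧
  (∀ g R : RatFunc k, (∀ c : k, R ≠ RatFunc.C c) → rmap σ (rcomp g R) = rcomp (rmap σ g) (rmap σ R))

/-! ## The group of odd maps -/

/-- API of the points -/
def T_API : Prop := ∀ (k : Type) [Field k] (a b : k), Hyp a b →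
  ff a b ≠ 0 ∧ (xr (0 : MM a b) = 0 ∧ yr (0 : MM a b) = 0) ∧
  (∀ R S : RatFunc k, ff a b * S ^ 2 = ev a b R →
    mkP a b R S ≠ 0 ∧ xr (mkP a b R S) = R ∧ yr (mkP a b R S) = S) ∧
  (∀ P : MM a b, P ≠ 0 → ff a b * yr P ^ 2 = ev a b (xr P) ∧ P = mkP a b (xr P) (yr P)) ∧
  (∀ P : MM a b, xr (-P) = xr P ∧ yr (-P) = - yr P) ∧
  (∀ P Q : MM a b, P ≠ 0 → Q ≠ 0 → xr P = xr Q → P = Q ∨ P = -Q) ∧
  (∀ P Q : MM a b, P ≠ 0 → Q ≠ 0 → xr P ≠ xr Q → P + Q ≠ 0 ∧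
    xr (P + Q) = ff a b * ((yr P - yr Q) / (xr P - xr Q)) ^ 2 - xr P - xr Q ∧
    yr (P + Q) = -((yr P - yr Q) / (xr P - xr Q) * (xr (P + Q) - xr P) + yr P)) ∧
  (∀ P : MM a b, P ≠ 0 → yr P ≠ 0 → P + P ≠ 0 ∧
    xr (P + P) = ff a b * ((3 * xr P ^ 2 + RatFunc.C a) / (2 * ff a b * yr P)) ^ 2 - 2 * xr P ∧
    yr (P + P) = -((3 * xr P ^ 2 + RatFunc.C a) / (2 * ff a b * yr P) * (xr (P + P) - xr P)
      + yr P)) ∧
  (∀ P : MM a b, yr P = 0 → P + P = 0)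

/-- XPM: formulas for `x(P ± Q)` and `x(2P)` -/
def T_XPM : Prop := ∀ (k : Type) [Field k] (a b : k), Hyp a b →
  (∀ P Q : MM a b, P ≠ 0 → Q ≠ 0 → xr P ≠ xr Q → P + Q ≠ 0 ∧ P - Q ≠ 0 ∧
    xr (P + Q) + xr (P - Q) =
      2 * ((xr P * xr Q + RatFunc.C a) * (xr P + xr Q) + 2 * RatFunc.C b) / (xr P - xr Q) ^ 2 ∧
    xr (P + Q) * xr (P - Q) =
      ((xr P * xr Q - RatFunc.C a) ^ 2 - 4 * RatFunc.C b * (xr P + xr Q)) / (xr P - xr Q) ^ 2) ∧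
  (∀ P : MM a b, P ≠ 0 → yr P ≠ 0 → P + P ≠ 0 ∧
    xr (P + P) = (xr P ^ 4 - 2 * RatFunc.C a * xr P ^ 2 - 8 * RatFunc.C b * xr P + RatFunc.C a ^ 2) /
      (4 * ev a b (xr P))) ∧
  (∀ P : MM a b, P ≠ 0 → (∃ c : k, xr P = RatFunc.C c) → yr P = 0)

/-- TRS: translation by a point of order two -/
def T_TRS : Prop := ∀ (k : Type) [Field k] (a b : k), Hyp a b → ∀ e : k, e ^ 3 + a * e + b = 0 →
  mkP a b (RatFunc.C e) 0 ≠ 0 ∧ xr (mkP a b (RatFunc.C e) 0) = RatFunc.C e ∧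
  mkP a b (RatFunc.C e) 0 + mkP a b (RatFunc.C e) 0 = 0 ∧
  ∀ P : MM a b, P ≠ 0 → xr P ≠ RatFunc.C e → P + mkP a b (RatFunc.C e) 0 ≠ 0 ∧
    xr (P + mkP a b (RatFunc.C e) 0) =
      RatFunc.C e + RatFunc.C (3 * e ^ 2 + a) / (xr P - RatFunc.C e)

/-- PAR: parallelogram law -/
def T_PAR : Prop := ∀ (k : Type) [Field k] [IsAlgClosed k] (a b : k), Hyp a b →
  ∀ P Q : MM a b, dd (P + Q) + dd (P - Q) = 2 * dd P + 2 * dd Q

/-- DDA: additivity of the action on the differential -/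
def T_DDA : Prop := ∀ (k : Type) [Field k] (a b : k), Hyp a b →
  (∀ P Q : MM a b, DD (P + Q) = DD P + DD Q) ∧ (∀ P : MM a b, DD (-P) = - DD P) ∧
  DD (0 : MM a b) = 0 ∧ DD (idM a b) = 1

/-! ## Abstract quadratic forms -/

/-- nonnegative quadratic form on an abelian group -/
def Par {A : Type} [AddCommGroup A] (q : A → ℤ) : Prop :=
  (∀ x y, q (x + y) + q (x - y) = 2 * q x + 2 * q y) ∧ ∀ x, 0 ≤ q x

/-- bilinear form -/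
def bl {A : Type} [AddCommGroup A] (q : A → ℤ) (x y : A) : ℤ := q (x + y) - q x - q y

/-- Gram matrix -/
def gram {A : Type} [AddCommGroup A] (q : A → ℤ) {n : ℕ} (v : Fin n → A) :
    Matrix (Fin n) (Fin n) ℤ := fun i j => bl q (v i) (v j)

/-- QFA -/
def T_QFA : Prop := ∀ (A : Type) [AddCommGroup A] (q : A → ℤ), Par q →
  q 0 = 0 ∧ (∀ x, q (-x) = q x) ∧ (∀ x, bl q x x = 2 * q x) ∧ (∀ x y, bl q x y = bl q y x) ∧
  (∀ x y z, bl q (x + y) z = bl q x z + bl q y z) ∧ (∀ x y, bl q (-x) y = - bl q x y) ∧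
  (∀ (n : ℤ) (x y : A), bl q (n • x) y = n * bl q x y) ∧
  (∀ (n : ℤ) (x : A), q (n • x) = n ^ 2 * q x) ∧
  (∀ x y, (bl q x y) ^ 2 ≤ 4 * q x * q y) ∧ (∀ x y, q x = 0 → q (x + y) = q y)

/-- GRD: Gram determinants -/
def T_GRD : Prop := ∀ (A : Type) [AddCommGroup A] (q : A → ℤ), Par q → ∀ (n : ℕ) (v : Fin n → A),
  0 ≤ (gram q v).det ∧
  (∀ U : Matrix (Fin n) (Fin n) ℤ,
    (gram q (fun j => ∑ i, U j i • v i)).det = U.det ^ 2 * (gram q v).det) ∧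
  ((gram q v).det ≠ 0 → ∀ c : Fin n → ℤ, c ≠ 0 → 0 < q (∑ i, c i • v i))

/-- RKA: abstract descent for the rank -/
def T_RKA : Prop := ∀ (A : Type) [AddCommGroup A] (q : A → ℤ), Par q → ∀ n : ℕ,
  (∀ v : Fin n → A, (gram q v).det ≠ 0 → ∃ K : Finset (Fin n), K.Nonempty ∧ ∃ T H : A, q T = 0 ∧
    (∑ i ∈ K, v i) + T = H + H) →
  ∀ v : Fin n → A, (gram q v).det = 0

/-- LT2: sublattices of rank two -/
def T_LT2 : Prop := ∀ (A : Type) [AddCommGroup A] (q : A → ℤ), Par q → ∀ L : AddSubgroup A,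
  (∀ v : Fin 3 → A, (∀ i, v i ∈ L) → (gram q v).det = 0) →
  (∃ x ∈ L, ∃ y ∈ L, 4 * q x * q y - (bl q x y) ^ 2 ≠ 0) →
  ∃ e₁ ∈ L, ∃ e₂ ∈ L, 0 < q e₁ ∧ 0 < 4 * q e₁ * q e₂ - (bl q e₁ e₂) ^ 2 ∧
    ∀ v ∈ L, ∃ m n : ℤ, q v = q e₁ * m ^ 2 + bl q e₁ e₂ * m * n + q e₂ * n ^ 2

/-! ## Rank at most four -/

/-- CLS: descent classes -/
def T_CLS : Prop := ∀ (k : Type) [Field k] [IsAlgClosed k] (a b : k), Hyp a b →
  ∀ e : Fin 3 → k, fp a b = ∏ i, (X - C (e i)) →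
  ∃ δ : MM a b → (Fin 3 → Fin 4), ∀ P Q : MM a b, dd P ≠ 0 → dd Q ≠ 0 → δ P = δ Q →
    ∀ i, IsSquare ((xr P - RatFunc.C (e i)) * (xr Q - RatFunc.C (e i)))

/-- HLV: halving -/
def T_HLV : Prop := ∀ (k : Type) [Field k] (a b : k), Hyp a b →
  ∀ e : Fin 3 → k, fp a b = ∏ i, (X - C (e i)) →
  ∀ P Q : MM a b, P ≠ 0 → Q ≠ 0 → P ≠ Q → P ≠ -Q →
  (∀ i, xr P ≠ RatFunc.C (e i)) → (∀ i, xr Q ≠ RatFunc.C (e i)) →
  (∀ i, IsSquare ((xr P - RatFunc.C (e i)) * (xr Q - RatFunc.C (e i)))) →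
  ∃ H : MM a b, P + Q = H + H

/-- RK4: rank at most four -/
def T_RK4 : Prop := ∀ (k : Type) [Field k] [IsAlgClosed k] (a b : k), Hyp a b →
  ∀ v : Fin 5 → MM a b, (gram (fun P : MM a b => (dd P : ℤ)) v).det = 0

/-! ## Characteristic `p` -/

/-- FRB: composition with Frobenius -/
def T_FRB : Prop := ∀ (p : ℕ) [Fact p.Prime] (k : Type) [Field k] [CharP k p], 5 ≤ p →
  ∀ a b : ZMod p, Hyp (zc p k a) (zc p k b) →
  (∀ P Q : MM (zc p k a) (zc p k b), frb p (P + Q) = frb p P + frb p Q) ∧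
  (∀ P : MM (zc p k a) (zc p k b), dd (frb p P) = p * dd P) ∧
  frb p (idM (zc p k a) (zc p k b)) = piM p (zc p k a) (zc p k b)

/-- INS: inseparable maps -/
def T_INS : Prop := ∀ (p : ℕ) [Fact p.Prime] (k : Type) [Field k] [CharP k p], 5 ≤ p →
  ∀ a b : ZMod p, Hyp (zc p k a) (zc p k b) →
  ∀ P : MM (zc p k a) (zc p k b), DD P = 0 → ∃ Q : MM (zc p k a) (zc p k b), P = frb p Q

/-- TAU: automorphisms of `k` -/
def T_TAU : Prop := ∀ (k : Type) [Field k] (a b : k), Hyp a b → ∀ σ : k ≃+* k, σ a = a → σ b = b →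
  (∀ P Q : MM a b, tau σ (P + Q) = tau σ P + tau σ Q) ∧
  (∀ P : MM a b, dd (tau σ P) = dd P) ∧
  (∀ P : MM a b, xr (tau σ P) = rmap σ.toRingHom (xr P) ∧ yr (tau σ P) = rmap σ.toRingHom (yr P)) ∧
  tau σ (idM a b) = idM a b ∧
  (∀ p : ℕ, p.Prime → 5 ≤ p → CharP k p → a ^ p = a → b ^ p = b →
    tau σ (piM p a b) = piM p a b)

/-- NPI: degree of `1 - π` -/
def T_NPI : Prop := ∀ (p : ℕ) [Fact p.Prime] (k : Type) [Field k] [CharP k p], 5 ≤ p →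
  ∀ a b : ZMod p, Hyp (zc p k a) (zc p k b) →
  dd (idM (zc p k a) (zc p k b)) = 1 ∧ dd (piM p (zc p k a) (zc p k b)) = p ∧
  dd (idM (zc p k a) (zc p k b) - piM p (zc p k a) (zc p k b)) = Naff p a b + 1

/-- HB: Hasse's bound -/
def T_HB : Prop := ∀ (p : ℕ) [Fact p.Prime] (k : Type) [Field k] [CharP k p] [IsAlgClosed k],
  5 ≤ p → ∀ a b : ZMod p, Hyp (zc p k a) (zc p k b) →
  BB (idM (zc p k a) (zc p k b)) (piM p (zc p k a) (zc p k b)) = (p : ℤ) - Naff p a b ∧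
  ((p : ℤ) - Naff p a b) ^ 2 ≤ 4 * p

/-- LOG: the Cartier operator on logarithmic derivatives -/
def T_LOG : Prop := ∀ (p : ℕ) [Fact p.Prime] (k : Type) [Field k] [CharP k p] [IsAlgClosed k],
  p ≠ 2 → (∀ R : RatFunc k, rder^[p] R = 0) ∧
  ∀ R : RatFunc k, R ≠ 0 → - (rder^[p - 1] (rder R / R)) = (rder R / R) ^ p

/-- CAR: Cartier's operator and the Hasse invariant -/
def T_CAR : Prop := ∀ (p : ℕ) [Fact p.Prime] (k : Type) [Field k] [CharP k p] [IsAlgClosed k],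
  5 ≤ p → ∀ a b : k, Hyp a b → ∀ (R : RatFunc k) (c : k), rder R ≠ 0 → c ≠ 0 → c ^ p ≠ c →
  rder R ^ 2 * ff a b = RatFunc.C c ^ 2 * ev a b R → (fp a b ^ ((p - 1) / 2)).coeff (p - 1) = 0

/-- HIN: number of points and Hasse invariant -/
def T_HIN : Prop := ∀ (p : ℕ) [Fact p.Prime], 5 ≤ p → ∀ a b : ZMod p,
  ((Naff p a b : ℕ) : ZMod p) = - (fp a b ^ ((p - 1) / 2)).coeff (p - 1)

/-- SS: a CM map with `c ∉ F_p` forces `N = p` -/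
def T_SS : Prop := ∀ (p : ℕ) [Fact p.Prime] (k : Type) [Field k] [CharP k p] [IsAlgClosed k],
  5 ≤ p → ∀ a b : ZMod p, Hyp (zc p k a) (zc p k b) → ∀ (R : RatFunc k) (c : k), rder R ≠ 0 →
  c ≠ 0 → c ^ p ≠ c →
  rder R ^ 2 * ff (zc p k a) (zc p k b) = RatFunc.C c ^ 2 * ev (zc p k a) (zc p k b) R →
  Naff p a b = p

/-- DG1: maps of degree one -/
def T_DG1 : Prop := ∀ (k : Type) [Field k] [IsAlgClosed k] (a b : k), Hyp a b → a ≠ 0 → b ≠ 0 →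
  ∀ P : MM a b, dd P = 1 → P + P = idM a b + idM a b ∨ P + P = -(idM a b + idM a b)

/-- data of a CM map of degree `ℓ` in characteristic `p` -/
def Dat (p : ℕ) [Fact p.Prime] (k : Type) [Field k] [CharP k p] (a b : ZMod p) (ℓ : ℕ)
    (R : RatFunc k) (c : k) (σ : k ≃+* k) : Prop :=
  c ≠ 0 ∧ c ^ 2 = -(ℓ : k) ∧ σ c = -c ∧ rmap σ.toRingHom R = R ∧
  rder R ^ 2 * ff (zc p k a) (zc p k b) = RatFunc.C c ^ 2 * ev (zc p k a) (zc p k b) R ∧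
  rdeg R = ℓ

/-- ORT: the point of a CM map -/
def T_ORT : Prop := ∀ (p : ℕ) [Fact p.Prime] (k : Type) [Field k] [CharP k p] [IsAlgClosed k],
  5 ≤ p → ∀ a b : ZMod p, Hyp (zc p k a) (zc p k b) → ∀ (ℓ : ℕ) (R : RatFunc k) (c : k)
  (σ : k ≃+* k), 0 < ℓ → Dat p k a b ℓ R c σ → c ^ p = -c ∧ rder R ≠ 0 ∧
  ∃ α : MM (zc p k a) (zc p k b), DD α = RatFunc.C c ∧ dd α = ℓ ∧
    BB α (idM (zc p k a) (zc p k b)) = 0 ∧ BB α (piM p (zc p k a) (zc p k b)) = 0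

/-- UCC: pairing of two elements with known action on the differential -/
def T_UCC : Prop := ∀ (p : ℕ) [Fact p.Prime] (k : Type) [Field k] [CharP k p] [IsAlgClosed k],
  5 ≤ p → ∀ a b : ZMod p, Hyp (zc p k a) (zc p k b) →
  ∀ (α β : MM (zc p k a) (zc p k b)) (c d : k), c ≠ 0 → d ≠ 0 → c ^ p = -c → d ^ p = -d →
  DD α = RatFunc.C c → DD β = RatFunc.C d → ((dd α : ℕ) : k) = -c ^ 2 →
  ((dd β : ℕ) : k) = -d ^ 2 → ((BB α β : ℤ) : k) = -2 * c * d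

/-- INERT -/
def T_INERT : Prop := ∀ (p : ℕ) [Fact p.Prime] (k : Type) [Field k] [CharP k p] [IsAlgClosed k],
  5 ≤ p → ∀ a b : ZMod p, Hyp (zc p k a) (zc p k b) → ∀ F : Finset ℕ,
  (∀ ℓ ∈ F, ℓ.Prime ∧ ∃ (R : RatFunc k) (c : k) (σ : k ≃+* k), Dat p k a b ℓ R c σ) →
  (F.Nonempty → Naff p a b = p) ∧
  (2 ≤ F.card → ∃ A B C : ℤ, 0 < A ∧ 0 < 4 * A * C - B ^ 2 ∧ (p : ℤ) ∣ 4 * A * C - B ^ 2 ∧
    ∀ ℓ ∈ F, ∃ x y : ℤ, A * x ^ 2 + B * x * y + C * y ^ 2 = (ℓ : ℤ))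

/-- RAM -/
def T_RAM : Prop := ∀ (p : ℕ) [Fact p.Prime] (k : Type) [Field k] [CharP k p] [IsAlgClosed k],
  11 ≤ p → ∀ a b : ZMod p, Hyp (zc p k a) (zc p k b) → a ≠ 0 → b ≠ 0 →
  (∃ R : RatFunc k, rder R ^ 2 * ff (zc p k a) (zc p k b) = ev (zc p k a) (zc p k b) R ∧
    rdeg R = p + 1) → Naff p a b = p

end SSA
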