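import Mathlib
import Pool.Agent.SSA.Targets

/-!
# SSA-DDA: additivity of the action on `dx/y`
-/

open Polynomial

namespace SSA

namespace DDA_

/-- the algebra behind the addition formula -/
theorem alg_add {K : Type} [Field K] {f f' R₁ R₂ S₁ S₂ R₁' R₂' S₁' S₂' m m' A B D₁ D₂ : K}
    (hd : R₁ ≠ R₂) (e₁ : f * S₁ ^ 2 = R₁ ^ 3 + A * R₁ + B) (e₂ : f * S₂ ^ 2 = R₂ ^ 3 + A * R₂ + B)
    (hR₁ : R₁' = S₁ * D₁) (hR₂ : R₂' = S₂ * D₂)
    (hS₁ : 2 * f * S₁' = (3 * R₁ ^ 2 + A) * D₁ - f' * S₁)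
    (hS₂ : 2 * f * S₂' = (3 * R₂ ^ 2 + A) * D₂ - f' * S₂)
    (hm : m * (R₁ - R₂) = S₁ - S₂) (hm' : m' * (R₁ - R₂) + m * (R₁' - R₂') = S₁' - S₂') :
    f' * m ^ 2 + f * (2 * m * m') - R₁' - R₂' =
      -(m * ((f * m ^ 2 - R₁ - R₂) - R₁) + S₁) * (D₁ + D₂) := by
  have hd' : R₁ - R₂ ≠ 0 := sub_ne_zero.2 hd
  have hG : f * m * (S₁ + S₂) = R₁ ^ 2 + R₁ * R₂ + R₂ ^ 2 + A := by
    apply mul_right_cancel₀ hd'
    linear_combination (f * (S₁ + S₂)) * hm + e₁ - e₂
  apply mul_right_cancel₀ hd'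
  linear_combination (2 * f * m) * hm' + m * hS₁ - m * hS₂ +
    (f' * m + f * m ^ 2 * (D₁ + D₂) - (R₁ - R₂) * D₂) * hm +
    (-2 * f * m ^ 2 - (R₁ - R₂)) * hR₁ + (2 * f * m ^ 2 - (R₁ - R₂)) * hR₂ +
    (-m * D₁ + m * D₂) * hG

/-- the algebra behind the doubling formula -/
theorem alg_dbl {K : Type} [Field K] {f f' R S R' S' m m' A D : K}
    (hS0 : S ≠ 0) (hR : R' = S * D)
    (hS : 2 * f * S' = (3 * R ^ 2 + A) * D - f' * S)
    (hm : 2 * f * S * m = 3 * R ^ 2 + A)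
    (hm' : 2 * f' * S * m + 2 * f * S' * m + 2 * f * S * m' = 6 * R * R') :
    f' * m ^ 2 + f * (2 * m * m') - 2 * R' =
      -(m * ((f * m ^ 2 - 2 * R) - R) + S) * (D + D) := by
  apply mul_right_cancel₀ hS0
  linear_combination m * hm' - m ^ 2 * hS + (6 * R * m - 2 * S) * hR + m ^ 2 * D * hm

variable {k : Type} [Field k] {a b : k}

theorem two_ne (h : Hyp a b) : (2 : RatFunc k) ≠ 0 := by
  have h0 : (RatFunc.C (2 : k)) ≠ 0 := (_root_.map_ne_zero _).2 h.two
  rwa [map_ofNat] at h0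

/-- the three facts on one point -/
theorem facts (h1 : T_API) (h2 : T_RFD) (h : Hyp a b) (P : MM a b) (hP : P ≠ 0) :
    ff a b * yr P ^ 2 = xr P ^ 3 + RatFunc.C a * xr P + RatFunc.C b ∧
    rder (xr P) = yr P * DD P ∧
    2 * ff a b * rder (yr P) = (3 * xr P ^ 2 + RatFunc.C a) * DD P - rder (ff a b) * yr P := by
  obtain ⟨hadd, hsub, hmul, hdiv, hpow, hneg, hpol, hC, hX⟩ := h2 k
  obtain ⟨hff, -, -, hpt, -, -, -, -, -⟩ := h1 k a b h
  have he : ff a b * yr P ^ 2 = xr P ^ 3 + RatFunc.C a * xr P + RatFunc.C b := (hpt P hP).1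
  have hd : rder (ff a b) * yr P ^ 2 + ff a b * (2 * yr P * rder (yr P)) =
      (3 * xr P ^ 2 + RatFunc.C a) * rder (xr P) := by
    have h3 := congrArg rder he
    rw [hmul, hpow, hadd, hadd, hmul, hpow, hC, hC] at h3
    simp only [Nat.add_one_sub_one, Nat.cast_ofNat, pow_one, zero_mul, zero_add, add_zero] at h3
    rw [h3]
    ring
  have hR : rder (xr P) = yr P * DD P := by
    by_cases hS : yr P = 0
    · rw [hS] at he hd
      rw [hS, zero_mul]
      have h4 : (3 * xr P ^ 2 + RatFunc.C a) * rder (xr P) = 0 := by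
        rw [← hd]; ring
      rcases mul_eq_zero.1 h4 with h5 | h5
      · exfalso
        apply h.disc
        have h6 : RatFunc.C (4 * a ^ 3 + 27 * b ^ 2) = 0 := by
          simp only [map_add, map_mul, map_pow]
          have c4 : RatFunc.C (4 : k) = 4 := map_ofNat _ 4
          have c27 : RatFunc.C (27 : k) = 27 := map_ofNat _ 27
          rw [c4, c27]
          have ha : RatFunc.C a = -(3 * xr P ^ 2) := by linear_combination h5
          have hb : RatFunc.C b = 2 * xr P ^ 3 := by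
            rw [ha] at he
            linear_combination -he
          rw [ha, hb]
          ring
        exact (map_eq_zero _).1 h6
      · exact h5
    · unfold DD
      field_simp
  refine ⟨he, hR, ?_⟩
  by_cases hS : yr P = 0
  · have hD : DD P = 0 := by unfold DD; rw [hS, div_zero]
    have h0 : rder (0 : RatFunc k) = 0 := by
      have := hC 0
      rwa [map_zero] at this
    rw [hS, hD, h0]
    ring
  · apply mul_right_cancel₀ hS
    rw [hR] at hd
    linear_combination hd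

/-- (2) for points with different abscissas -/
theorem two_add (h1 : T_API) (h2 : T_RFD) (h : Hyp a b) (P Q : MM a b) (hP : P ≠ 0) (hQ : Q ≠ 0)
    (hx : xr P ≠ xr Q) : rder (xr (P + Q)) = yr (P + Q) * (DD P + DD Q) := by
  obtain ⟨hadd, hsub, hmul, hdiv, hpow, hneg, hpol, hC, hX⟩ := h2 k
  obtain ⟨eP, rP, sP⟩ := facts h1 h2 h P hP
  obtain ⟨eQ, rQ, sQ⟩ := facts h1 h2 h Q hQ
  obtain ⟨hff, -, -, -, -, -, hsum, -, -⟩ := h1 k a b h
  obtain ⟨-, hx3, hy3⟩ := hsum P Q hP hQ hx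
  have hd : xr P - xr Q ≠ 0 := sub_ne_zero.2 hx
  set m := (yr P - yr Q) / (xr P - xr Q) with hmdef
  have hm : m * (xr P - xr Q) = yr P - yr Q := by
    rw [hmdef]; field_simp
  have hm' : rder m * (xr P - xr Q) + m * (rder (xr P) - rder (xr Q)) =
      rder (yr P) - rder (yr Q) := by
    rw [← hsub, ← hsub, ← hmul, hm]
  have key := alg_add (f' := rder (ff a b)) hx eP eQ rP rQ sP sQ hm hm'
  rw [hy3, hx3, hsub, hsub, hmul, hpow]
  simp only [Nat.cast_ofNat, Nat.reduceSub, pow_one]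
  exact key

/-- (2) for doubling -/
theorem two_dbl (h1 : T_API) (h2 : T_RFD) (h : Hyp a b) (P : MM a b) (hP : P ≠ 0)
    (hy : yr P ≠ 0) : rder (xr (P + P)) = yr (P + P) * (DD P + DD P) := by
  obtain ⟨hadd, hsub, hmul, hdiv, hpow, hneg, hpol, hC, hX⟩ := h2 k
  obtain ⟨eP, rP, sP⟩ := facts h1 h2 h P hP
  obtain ⟨hff, -, -, -, -, -, -, hdb, -⟩ := h1 k a b h
  obtain ⟨-, hx3, hy3⟩ := hdb P hP hy
  have h2' := two_ne h
  set m := (3 * xr P ^ 2 + RatFunc.C a) / (2 * ff a b * yr P) with hmdef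
  have hm : 2 * ff a b * yr P * m = 3 * xr P ^ 2 + RatFunc.C a := by
    rw [hmdef]; field_simp
  have c2 : rder (2 : RatFunc k) = 0 := by
    have := hC 2
    rwa [map_ofNat] at this
  have c3 : rder (3 : RatFunc k) = 0 := by
    have := hC 3
    rwa [map_ofNat] at this
  have hm' : 2 * rder (ff a b) * yr P * m + 2 * ff a b * rder (yr P) * m +
      2 * ff a b * yr P * rder m = 6 * xr P * rder (xr P) := by
    have h4 := congrArg rder hm
    rw [hmul, hmul, hmul, c2, hadd, hmul, c3, hpow, hC] at h4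
    simp only [Nat.cast_ofNat, Nat.reduceSub, pow_one] at h4
    linear_combination h4
  have key := alg_dbl (f' := rder (ff a b)) hy rP sP hm hm'
  rw [hy3, hx3, hsub, hmul, hpow, hmul, c2]
  simp only [Nat.cast_ofNat, Nat.reduceSub, pow_one]
  linear_combination key

theorem DD_zero_of_yr {P : MM a b} (h : yr P = 0) : DD P = 0 := by
  unfold DD; rw [h, div_zero]

theorem DD_of_two {P Q : MM a b} {D : RatFunc k} (hy : yr (P + Q) ≠ 0)
    (h : rder (xr (P + Q)) = yr (P + Q) * D) : DD (P + Q) = D := by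
  unfold DD
  rw [h]
  field_simp

theorem DD_neg (h1 : T_API) (h : Hyp a b) (P : MM a b) : DD (-P) = - DD P := by
  obtain ⟨-, -, -, -, hn, -, -, -, -⟩ := h1 k a b h
  unfold DD
  rw [(hn P).1, (hn P).2, div_neg]

theorem DD_zero (h1 : T_API) (h : Hyp a b) : DD (0 : MM a b) = 0 := by
  obtain ⟨-, hz, -, -, -, -, -, -, -⟩ := h1 k a b h
  exact DD_zero_of_yr hz.2

/-- `2P = 0` gives `S = 0` -/
theorem yr_of_two (h1 : T_API) (h : Hyp a b) (P : MM a b) (hP : P + P = 0) : yr P = 0 := by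
  obtain ⟨-, -, -, -, hn, -, -, -, -⟩ := h1 k a b h
  have h3 : P = -P := eq_neg_of_add_eq_zero_left hP
  have h4 : yr P = - yr P := by
    conv_lhs => rw [h3]
    exact (hn P).2
  have h5 : 2 * yr P = 0 := by linear_combination h4
  exact (mul_eq_zero.1 h5).resolve_left (two_ne h)

/-- if `T = P + Q` has order two then `DD Q = - DD P` -/
theorem case_two (h1 : T_API) (h2 : T_RFD) (h : Hyp a b) (P Q : MM a b) (hP : P ≠ 0) (hQ : Q ≠ 0)
    (hT : P + Q ≠ 0) (hy : yr (P + Q) = 0) : DD P + DD Q = 0 := by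
  obtain ⟨-, -, -, -, hn, hxx, -, -, h22⟩ := h1 k a b h
  have hTT : (P + Q) + (P + Q) = 0 := h22 _ hy
  have hDT : DD (P + Q) = 0 := DD_zero_of_yr hy
  have hQe : (P + Q) + (-P) = Q := by abel
  have hnP : -P ≠ 0 := neg_ne_zero.2 hP
  by_cases hx : xr (P + Q) = xr (-P)
  · exfalso
    rcases hxx _ _ hT hnP hx with h3 | h3
    · -- `P + Q = -P`
      have hyP : yr P = 0 := by
        have h4 : yr (P + Q) = - yr P := by rw [h3]; exact (hn P).2
        rw [hy] at h4
        exact neg_eq_zero.1 h4.symm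
      have h5 : P + P = 0 := h22 _ hyP
      apply hQ
      have h6 : Q = -(P + P) := by
        have : Q = (P + Q) + (-P) := hQe.symm
        rw [this, h3]; abel
      rw [h6, h5, neg_zero]
    · -- `P + Q = P`
      rw [neg_neg] at h3
      apply hQ
      have h6 : P + Q = P + 0 := by rw [h3, add_zero]
      exact add_left_cancel h6
  · have h3 := two_add h1 h2 h (P + Q) (-P) hT hnP hx
    rw [hQe, hDT, DD_neg h1 h P, zero_add] at h3
    by_cases hyQ : yr Q = 0
    · have hDQ : DD Q = 0 := DD_zero_of_yr hyQ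
      have h5 : Q + Q = 0 := h22 _ hyQ
      have h6 : P + P = 0 := by
        have : P + P = ((P + Q) + (P + Q)) - (Q + Q) := by abel
        rw [this, hTT, h5, sub_zero]
      rw [hDQ, DD_zero_of_yr (yr_of_two h1 h P h6), add_zero]
    · have h7 : DD Q = - DD P := by
        unfold DD at h3 ⊢
        rw [h3]
        field_simp
      rw [h7]; ring

theorem DD_add (h1 : T_API) (h2 : T_RFD) (h : Hyp a b) (P Q : MM a b) :
    DD (P + Q) = DD P + DD Q := by
  have hz := DD_zero h1 h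
  obtain ⟨-, -, -, -, hn, hxx, -, -, h22⟩ := h1 k a b h
  by_cases hP : P = 0
  · rw [hP, zero_add, hz, zero_add]
  by_cases hQ : Q = 0
  · rw [hQ, add_zero, hz, add_zero]
  by_cases hT : P + Q = 0
  · have h3 : Q = -P := (neg_eq_of_add_eq_zero_right hT).symm
    rw [hT, hz, h3, DD_neg h1 h P]
    ring
  by_cases hy : yr (P + Q) = 0
  · rw [DD_zero_of_yr hy, case_two h1 h2 h P Q hP hQ hT hy]
  by_cases hx : xr P = xr Q
  · rcases hxx P Q hP hQ hx with h3 | h3
    · subst h3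
      have hyP : yr P ≠ 0 := fun h4 => hT (h22 P h4)
      exact DD_of_two hy (two_dbl h1 h2 h P hP hyP)
    · exact absurd (by rw [h3]; abel) hT
  · exact DD_of_two hy (two_add h1 h2 h P Q hP hQ hx)

theorem DD_id (h1 : T_API) (h2 : T_RFD) (h : Hyp a b) : DD (idM a b) = 1 := by
  obtain ⟨hadd, hsub, hmul, hdiv, hpow, hneg, hpol, hC, hX⟩ := h2 k
  obtain ⟨-, -, hmk, -, -, -, -, -, -⟩ := h1 k a b h
  obtain ⟨-, hx, hy⟩ := hmk RatFunc.X 1 (by unfold ff ev; ring)
  unfold idM DD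
  rw [hx, hy, hX, div_one]

end DDA_

theorem p_DDA (h1 : T_API) (h2 : T_RFD) (_h3 : T_XPM) : T_DDA := by
  intro k _ a b h
  exact ⟨DDA_.DD_add h1 h2 h, DDA_.DD_neg h1 h, DDA_.DD_zero h1 h, DDA_.DD_id h1 h2 h⟩

end SSA
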