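import Pool.Agent.SSA.Targets

/-!
# RK4: the rank is at most four
-/

set_option autoImplicit false

open Polynomial

namespace SSA

namespace RK4_

section Rat

variable {k : Type} [Field k]

theorem rdeg_C (c : k) : rdeg (RatFunc.C c) = 0 := by
  unfold rdeg
  rw [RatFunc.num_C, RatFunc.denom_C]
  simp

theorem const_of_rdeg {R : RatFunc k} (h : rdeg R = 0) : ∃ c : k, R = RatFunc.C c := by
  unfold rdeg at h
  have hn : R.num.natDegree = 0 := by omega
  have hd : R.denom.natDegree = 0 := by omega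
  obtain ⟨n, hn⟩ := natDegree_eq_zero.1 hn
  obtain ⟨d, hd⟩ := natDegree_eq_zero.1 hd
  refine ⟨n / d, ?_⟩
  rw [← RatFunc.num_div_denom R, ← hn, ← hd, RatFunc.algebraMap_C, RatFunc.algebraMap_C, map_div₀]

/-- the three roots -/
theorem exists_roots [IsAlgClosed k] (a b : k) :
    ∃ e : Fin 3 → k, fp a b = ∏ i, (X - C (e i)) := by
  have hm : (fp a b).Monic := by
    unfold fp
    monicity!
  have hdeg : (fp a b).natDegree = 3 := by
    unfold fp
    compute_degree!
  have hs : (fp a b).Splits := IsAlgClosed.splits _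
  have hc : (fp a b).roots.card = 3 := by
    rw [← hdeg]
    exact hs.natDegree_eq_card_roots.symm
  have hp := hs.eq_prod_roots
  rw [hm.leadingCoeff, map_one, one_mul] at hp
  obtain ⟨x, y, z, hxyz⟩ := Multiset.card_eq_three.1 hc
  refine ⟨![x, y, z], ?_⟩
  rw [hp, hxyz]
  simp [Fin.prod_univ_three, mul_assoc]

theorem sym_rel {a b : k} (h2 : (2 : k) ≠ 0) {e : Fin 3 → k} (he : fp a b = ∏ i, (X - C (e i))) :
    e 0 + e 1 + e 2 = 0 ∧ e 0 * e 1 + e 0 * e 2 + e 1 * e 2 = a ∧ e 0 * e 1 * e 2 = -b := by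
  have h0 := congrArg (fun p : k[X] => p.eval 0) he
  have h1 := congrArg (fun p : k[X] => p.eval 1) he
  have hm := congrArg (fun p : k[X] => p.eval (-1)) he
  simp only [fp, Fin.prod_univ_three, eval_add, eval_mul, eval_pow, eval_X, eval_C, eval_sub] at h0 h1 hm
  refine ⟨?_, ?_, ?_⟩
  · apply mul_left_cancel₀ h2
    linear_combination h1 + hm - 2 * h0
  · apply mul_left_cancel₀ h2
    linear_combination (-1) * h1 + hm
  · linear_combination h0

theorem root_eq {a b : k} {e : Fin 3 → k} (he : fp a b = ∏ i, (X - C (e i))) (i : Fin 3) :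
    e i ^ 3 + a * e i + b = 0 := by
  have h0 := congrArg (fun p : k[X] => p.eval (e i)) he
  simp only [fp, eval_add, eval_mul, eval_pow, eval_X, eval_C] at h0
  rw [h0, eval_prod]
  exact Finset.prod_eq_zero (Finset.mem_univ i) (by simp)

theorem disc_eq {a b : k} (h2 : (2 : k) ≠ 0) {e : Fin 3 → k} (he : fp a b = ∏ i, (X - C (e i))) :
    4 * a ^ 3 + 27 * b ^ 2 = -((e 0 - e 1) * (e 0 - e 2) * (e 1 - e 2)) ^ 2 := by
  obtain ⟨h0, h1, h3⟩ := sym_rel h2 he
  have hb : b = -(e 0 * e 1 * e 2) := by rw [h3]; ring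
  have hz : e 2 = -(e 0) - e 1 := by linear_combination h0
  rw [hb, ← h1, hz]
  ring

theorem e_inj {a b : k} (hyp : Hyp a b) {e : Fin 3 → k} (he : fp a b = ∏ i, (X - C (e i))) :
    Function.Injective e := by
  have hd := hyp.disc
  rw [disc_eq hyp.two he] at hd
  have h01 : e 0 ≠ e 1 := by
    intro h
    apply hd
    rw [h]
    ring
  have h02 : e 0 ≠ e 2 := by
    intro h
    apply hd
    rw [h]
    ring
  have h12 : e 1 ≠ e 2 := by
    intro h
    apply hd
    rw [h]
    ring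
  intro i j hij
  fin_cases i <;> fin_cases j <;> first | rfl | (exfalso; simp at hij; tauto)

end Rat

section Tors

variable {k : Type} [Field k] {a b : k}

/-- the points of order two and `0` -/
noncomputable def TT (a b : k) (e : Fin 3 → k) (j : Fin 4) : MM a b :=
  Fin.cases (motive := fun _ => MM a b) 0 (fun i => mkP a b (RatFunc.C (e i)) 0) j

theorem TT_zero (e : Fin 3 → k) : TT a b e 0 = 0 := rfl

theorem TT_succ (e : Fin 3 → k) (i : Fin 3) : TT a b e i.succ = mkP a b (RatFunc.C (e i)) 0 := rfl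

theorem TT_add (h3 : T_TRS) (hyp : Hyp a b) {e : Fin 3 → k}
    (he : fp a b = ∏ i, (X - C (e i))) (j : Fin 4) : TT a b e j + TT a b e j = 0 := by
  refine Fin.cases ?_ (fun i => ?_) j
  · rw [TT_zero, add_zero]
  · rw [TT_succ]
    exact (h3 k a b hyp (e i) (root_eq he i)).2.2.1

theorem TT_dd (h1 : T_API) (h3 : T_TRS) (hyp : Hyp a b) {e : Fin 3 → k}
    (he : fp a b = ∏ i, (X - C (e i))) (j : Fin 4) : dd (TT a b e j) = 0 := by
  refine Fin.cases ?_ (fun i => ?_) j
  · rw [TT_zero]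
    unfold dd
    rw [(h1 k a b hyp).2.1.1, ← map_zero (RatFunc.C : k →+* RatFunc k)]
    exact rdeg_C 0
  · rw [TT_succ]
    unfold dd
    rw [(h3 k a b hyp (e i) (root_eq he i)).2.1]
    exact rdeg_C _

theorem TT_inj (h3 : T_TRS) (hyp : Hyp a b) {e : Fin 3 → k}
    (he : fp a b = ∏ i, (X - C (e i))) : Function.Injective (TT a b e) := by
  intro j
  refine Fin.cases ?_ (fun i => ?_) j
  · intro l
    refine Fin.cases ?_ (fun i => ?_) l
    · intro _
      rfl
    · intro h
      rw [TT_zero, TT_succ] at h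
      exact absurd h.symm (h3 k a b hyp (e i) (root_eq he i)).1
  · intro l
    refine Fin.cases ?_ (fun i' => ?_) l
    · intro h
      rw [TT_zero, TT_succ] at h
      exact absurd h (h3 k a b hyp (e i) (root_eq he i)).1
    · intro h
      rw [TT_succ, TT_succ] at h
      have hx := congrArg xr h
      rw [(h3 k a b hyp (e i) (root_eq he i)).2.1, (h3 k a b hyp (e i') (root_eq he i')).2.1] at hx
      have := e_inj hyp he (RatFunc.C_injective hx)
      rw [this]

end Tors

section Sums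

variable {A : Type} [AddCommGroup A]

theorem sum_ind (v : Fin 5 → A) (I : Finset (Fin 5)) :
    ∑ i ∈ I, v i = ∑ i, (if i ∈ I then (1 : ℤ) else 0) • v i := by
  rw [← Finset.sum_filter_add_sum_filter_not Finset.univ (fun i => i ∈ I)]
  have h0 : ∑ i ∈ Finset.univ.filter (fun i => i ∉ I), (if i ∈ I then (1 : ℤ) else 0) • v i = 0 := by
    apply Finset.sum_eq_zero
    intro i hi
    rw [if_neg (Finset.mem_filter.1 hi).2, zero_smul]
  rw [h0, add_zero]
  have hI : Finset.univ.filter (fun i => i ∈ I) = I := by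
    ext i
    simp
  rw [hI]
  apply Finset.sum_congr rfl
  intro i hi
  rw [if_pos hi, one_smul]

theorem sum_symm (v : Fin 5 → A) (I J : Finset (Fin 5)) :
    ∑ i ∈ I, v i + ∑ i ∈ J, v i =
      ∑ i ∈ (I \ J) ∪ (J \ I), v i + (∑ i ∈ I ∩ J, v i + ∑ i ∈ I ∩ J, v i) := by
  rw [sum_ind v I, sum_ind v J, sum_ind v ((I \ J) ∪ (J \ I)), sum_ind v (I ∩ J),
    ← Finset.sum_add_distrib, ← Finset.sum_add_distrib, ← Finset.sum_add_distrib]
  apply Finset.sum_congr rfl
  intro i _
  rw [← add_smul, ← add_smul, ← add_smul]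
  congr 1
  by_cases h1 : i ∈ I <;> by_cases h2 : i ∈ J <;> simp [h1, h2]

theorem sum_add_ind (v : Fin 5 → A) (I J : Finset (Fin 5)) :
    ∑ i, ((if i ∈ I then (1 : ℤ) else 0) + (if i ∈ J then (1 : ℤ) else 0)) • v i =
      ∑ i ∈ I, v i + ∑ i ∈ J, v i := by
  rw [sum_ind v I, sum_ind v J, ← Finset.sum_add_distrib]
  exact Finset.sum_congr rfl fun i _ => add_smul _ _ _

theorem sum_sub_ind (v : Fin 5 → A) (I J : Finset (Fin 5)) :
    ∑ i, ((if i ∈ I then (1 : ℤ) else 0) - (if i ∈ J then (1 : ℤ) else 0)) • v i =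
      ∑ i ∈ I, v i - ∑ i ∈ J, v i := by
  rw [sum_ind v I, sum_ind v J, ← Finset.sum_sub_distrib]
  exact Finset.sum_congr rfl fun i _ => sub_smul _ _ _

theorem card_ne : Fintype.card {I : Finset (Fin 5) // I.Nonempty} = 31 := by
  rfl

end Sums

end RK4_

open RK4_

theorem p_RK4 (h1 : T_API) (h2 : T_XPM) (h3 : T_TRS) (h4 : T_PAR) (h5 : T_QFA) (h6 : T_GRD)
    (h7 : T_RKA) (h8 : T_CLS) (h9 : T_HLV) : T_RK4 := by
  intro k _ _ a b hyp v
  have hpar : Par (fun P : MM a b => (dd P : ℤ)) :=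
    ⟨fun x y => by
      have := h4 k a b hyp x y
      show (dd (x + y) : ℤ) + dd (x - y) = 2 * dd x + 2 * dd y
      exact_mod_cast this, fun x => Int.natCast_nonneg _⟩
  refine h7 (MM a b) _ hpar 5 ?_ v
  clear v
  intro v hv
  obtain ⟨e, he⟩ := exists_roots a b
  obtain ⟨δ, hδ⟩ := h8 k a b hyp e he
  obtain ⟨hq0, -, -, -, -, -, -, hq2, -, hqT⟩ := h5 (MM a b) _ hpar
  have hpos := (h6 (MM a b) _ hpar 5 v).2.2 hv
  beta_reduce at hq0 hq2 hqT hpos
  -- torsion points do not matter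
  have hT : ∀ (j : Fin 4) (x : MM a b), dd (x + TT a b e j) = dd x := by
    intro j x
    have := hqT (TT a b e j) x (by rw [TT_dd h1 h3 hyp he j]; rfl)
    rw [add_comm] at this
    exact_mod_cast this
  have hdd0 : dd (0 : MM a b) = 0 := by exact_mod_cast hq0
  -- positivity of the nonzero combinations
  have hposc : ∀ (c : Fin 5 → ℤ), c ≠ 0 → ∀ j l : Fin 4,
      dd (∑ i, c i • v i + TT a b e j + TT a b e l) ≠ 0 := by
    intro c hc j l h0
    rw [hT, hT] at h0
    have := hpos c hc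
    rw [h0] at this
    exact lt_irrefl _ this
  let P : {I : Finset (Fin 5) // I.Nonempty} × Fin 4 → MM a b :=
    fun s => ∑ i ∈ s.1.1, v i + TT a b e s.2
  have hP0 : ∀ s, dd (P s) ≠ 0 := by
    intro s
    show dd (∑ i ∈ s.1.1, v i + TT a b e s.2) ≠ 0
    rw [sum_ind]
    have hc : (fun i : Fin 5 => if i ∈ s.1.1 then (1 : ℤ) else 0) ≠ 0 := by
      intro h
      obtain ⟨i, hi⟩ := s.1.2
      have := congrFun h i
      simp [hi] at this
    have := hposc _ hc s.2 0
    rwa [TT_zero, add_zero] at this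
  have hne : ∀ x : MM a b, dd x ≠ 0 → x ≠ 0 := by
    intro x hx h0
    rw [h0] at hx
    exact hx hdd0
  have hnc : ∀ x : MM a b, dd x ≠ 0 → ∀ i, xr x ≠ RatFunc.C (e i) := by
    intro x hx i h0
    apply hx
    unfold dd
    rw [h0]
    exact rdeg_C _
  -- pigeonhole
  obtain ⟨s, t, hst, hδst⟩ := Fintype.exists_ne_map_eq_of_card_lt
    (fun s : {I : Finset (Fin 5) // I.Nonempty} × Fin 4 => δ (P s)) (by
      rw [Fintype.card_prod, card_ne, Fintype.card_fin, Fintype.card_fun, Fintype.card_fin,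
        Fintype.card_fin]
      norm_num)
  have hsq := hδ (P s) (P t) (hP0 s) (hP0 t) hδst
  obtain ⟨⟨I, hI⟩, j⟩ := s
  obtain ⟨⟨J, hJ⟩, l⟩ := t
  have hs0 := hP0 (⟨I, hI⟩, j)
  have ht0 := hP0 (⟨J, hJ⟩, l)
  have hPs : P (⟨I, hI⟩, j) = ∑ i ∈ I, v i + TT a b e j := rfl
  have hPt : P (⟨J, hJ⟩, l) = ∑ i ∈ J, v i + TT a b e l := rfl
  rw [hPs] at hs0 hsq
  rw [hPt] at ht0 hsq
  have hsum0 : dd ((∑ i ∈ I, v i + TT a b e j) + (∑ i ∈ J, v i + TT a b e l)) ≠ 0 := by
    have e1 : (∑ i ∈ I, v i + TT a b e j) + (∑ i ∈ J, v i + TT a b e l) =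
        ∑ i, ((if i ∈ I then (1 : ℤ) else 0) + (if i ∈ J then (1 : ℤ) else 0)) • v i +
          TT a b e j + TT a b e l := by
      rw [sum_add_ind v I J]
      abel
    rw [e1]
    apply hposc
    intro h
    obtain ⟨i, hi⟩ := hI
    have := congrFun h i
    simp only [hi, if_true, Pi.zero_apply] at this
    split_ifs at this <;> omega
  have hneg : (∑ i ∈ I, v i + TT a b e j) ≠ -(∑ i ∈ J, v i + TT a b e l) := by
    intro h
    apply hsum0
    rw [h, neg_add_cancel]
    exact hdd0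
  by_cases hIJ : I = J
  · -- same subset, different torsion points: impossible
    exfalso
    subst hIJ
    have hjl : j ≠ l := by
      intro h
      apply hst
      rw [h]
    have hTne : TT a b e j ≠ TT a b e l := fun h => hjl (TT_inj h3 hyp he h)
    have hPQ : (∑ i ∈ I, v i + TT a b e j) ≠ (∑ i ∈ I, v i + TT a b e l) := by
      intro h
      exact hTne (add_left_cancel h)
    obtain ⟨H, hH⟩ := h9 k a b hyp e he _ _ (hne _ hs0) (hne _ ht0) hPQ hneg (hnc _ hs0)
      (hnc _ ht0) hsq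
    have hH' : (H - ∑ i ∈ I, v i) + (H - ∑ i ∈ I, v i) = TT a b e j + TT a b e l := by
      have : (H - ∑ i ∈ I, v i) + (H - ∑ i ∈ I, v i) =
          (H + H) - (∑ i ∈ I, v i + ∑ i ∈ I, v i) := by abel
      rw [this, ← hH]
      abel
    have hT2 : TT a b e j + TT a b e l ≠ 0 := by
      intro h
      apply hTne
      have h' := TT_add h3 hyp he l
      exact add_right_cancel (h.trans h'.symm)
    generalize H - ∑ i ∈ I, v i = H' at hH'
    have hH0 : H' ≠ 0 := by
      intro h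
      apply hT2
      rw [← hH', h, add_zero]
    have hdH : dd H' = 0 := by
      have e1 : dd (H' + H') = 0 := by
        rw [hH', hT, TT_dd h1 h3 hyp he j]
      have e2 := hq2 2 H'
      rw [two_zsmul, e1] at e2
      have : (dd H' : ℤ) = 0 := by
        push_cast at e2
        omega
      exact_mod_cast this
    have hy : yr H' = 0 := (h2 k a b hyp).2.2 H' hH0 (const_of_rdeg hdH)
    apply hT2
    rw [← hH']
    exact (h1 k a b hyp).2.2.2.2.2.2.2.2 H' hy
  · have hPQ : (∑ i ∈ I, v i + TT a b e j) ≠ (∑ i ∈ J, v i + TT a b e l) := by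
      intro h
      have hc : (fun i : Fin 5 => (if i ∈ I then (1 : ℤ) else 0) - (if i ∈ J then (1 : ℤ) else 0)) ≠
          0 := by
        intro h0
        apply hIJ
        ext i
        have := congrFun h0 i
        simp only [Pi.zero_apply] at this
        by_cases h1 : i ∈ I <;> by_cases h2 : i ∈ J <;> simp [h1, h2] at this ⊢
      apply hposc _ hc j l
      have e1 : ∑ i, ((if i ∈ I then (1 : ℤ) else 0) - (if i ∈ J then (1 : ℤ) else 0)) • v i +
          TT a b e j + TT a b e l = 0 := by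
        rw [sum_sub_ind v I J]
        have hl := TT_add h3 hyp he l
        have : ∑ i ∈ I, v i - ∑ i ∈ J, v i + TT a b e j + TT a b e l =
            (∑ i ∈ I, v i + TT a b e j) - ∑ i ∈ J, v i + TT a b e l := by abel
        rw [this, h]
        have : ∑ i ∈ J, v i + TT a b e l - ∑ i ∈ J, v i + TT a b e l = TT a b e l + TT a b e l := by
          abel
        rw [this, hl]
      rw [e1]
      exact hdd0
    obtain ⟨H, hH⟩ := h9 k a b hyp e he _ _ (hne _ hs0) (hne _ ht0) hPQ hneg (hnc _ hs0)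
      (hnc _ ht0) hsq
    refine ⟨(I \ J) ∪ (J \ I), ?_, TT a b e j + TT a b e l, H - ∑ i ∈ I ∩ J, v i, ?_, ?_⟩
    · by_contra hK
      rw [Finset.not_nonempty_iff_eq_empty, Finset.union_eq_empty, Finset.sdiff_eq_empty_iff_subset,
        Finset.sdiff_eq_empty_iff_subset] at hK
      exact hIJ (Finset.Subset.antisymm hK.1 hK.2)
    · show ((dd (TT a b e j + TT a b e l) : ℕ) : ℤ) = 0
      rw [hT, TT_dd h1 h3 hyp he j]
      rfl
    · have e1 : (H - ∑ i ∈ I ∩ J, v i) + (H - ∑ i ∈ I ∩ J, v i) =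
          (H + H) - (∑ i ∈ I ∩ J, v i + ∑ i ∈ I ∩ J, v i) := by abel
      rw [e1, ← hH]
      have e2 : (∑ i ∈ I, v i + TT a b e j) + (∑ i ∈ J, v i + TT a b e l) =
          (∑ i ∈ I, v i + ∑ i ∈ J, v i) + (TT a b e j + TT a b e l) := by abel
      rw [e2, sum_symm v I J]
      abel

end SSA
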