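import Pool.Agent.SSA.TargetsB
import Pool.Agent.SSA.CLS
import Pool.Agent.SSA.RK4

/-!
# MP_d74fca_nt, algebraic part, DDC: the action on the differential is a constant
-/

set_option autoImplicit false

open Polynomial

namespace SSA

namespace DDC_

open CLS_

variable {k : Type} [Field k]

/-- the numerator of the derivative -/
noncomputable def WW (R : RatFunc k) : k[X] :=
  derivative R.num * R.denom - R.num * derivative R.denom

theorem WW_eq (R : RatFunc k) (c : k) : WW R =
    derivative (R.num - C c * R.denom) * R.denom -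
      (R.num - C c * R.denom) * derivative R.denom := by
  unfold WW
  rw [derivative_sub, derivative_mul, derivative_C]
  ring

theorem ff_eq (a b : k) : ff a b = algebraMap k[X] (RatFunc k) (fp a b) := by
  unfold ff fp
  simp

theorem sub_C_eq (R : RatFunc k) (c : k) : R - RatFunc.C c =
    algebraMap k[X] (RatFunc k) (R.num - C c * R.denom) /
      algebraMap k[X] (RatFunc k) R.denom := by
  have hD0 : algebraMap k[X] (RatFunc k) R.denom ≠ 0 :=
    RatFunc.algebraMap_ne_zero (RatFunc.denom_ne_zero R)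
  rw [map_sub, map_mul, RatFunc.algebraMap_C, sub_div, mul_div_assoc, div_self hD0, mul_one,
    RatFunc.num_div_denom]

theorem ev_fac {a b : k} {e : Fin 3 → k} (hf : fp a b = ∏ i, (X - C (e i))) (R : RatFunc k) :
    ev a b R = (R - RatFunc.C (e 0)) * (R - RatFunc.C (e 1)) * (R - RatFunc.C (e 2)) := by
  have h1 := congrArg (fun p => aeval R p) hf
  simp only [fp, Fin.prod_univ_three, map_add, map_mul, map_pow, map_sub, aeval_X, aeval_C,
    RatFunc.algebraMap_eq_C] at h1
  exact h1

/-- `ev R = A₀A₁A₂/D³` -/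
theorem ev_AA {a b : k} {e : Fin 3 → k} (hf : fp a b = ∏ i, (X - C (e i))) (R : RatFunc k) :
    ev a b R * algebraMap k[X] (RatFunc k) R.denom ^ 3 =
      algebraMap k[X] (RatFunc k) (AA e R 0 * AA e R 1 * AA e R 2) := by
  have hD0 : algebraMap k[X] (RatFunc k) R.denom ≠ 0 :=
    RatFunc.algebraMap_ne_zero (RatFunc.denom_ne_zero R)
  rw [ev_fac hf, sub_C_eq, sub_C_eq, sub_C_eq]
  change _ = algebraMap k[X] (RatFunc k) ((R.num - C (e 0) * R.denom) *
      (R.num - C (e 1) * R.denom) * (R.num - C (e 2) * R.denom))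
  simp only [map_mul]
  field_simp

theorem poly_id {a b : k} {e : Fin 3 → k} {R S : RatFunc k}
    (hf : fp a b = ∏ i, (X - C (e i))) (hS : ff a b * S ^ 2 = ev a b R) :
    fp a b * (S.num * R.denom ^ 2) ^ 2 =
      S.denom ^ 2 * (AA e R 0 * AA e R 1 * AA e R 2 * AA e R 3) := by
  have hU0 : algebraMap k[X] (RatFunc k) S.denom ≠ 0 :=
    RatFunc.algebraMap_ne_zero (RatFunc.denom_ne_zero S)
  apply RatFunc.algebraMap_injective k
  have h1 := ev_AA hf R
  have h2 : S * algebraMap k[X] (RatFunc k) S.denom = algebraMap k[X] (RatFunc k) S.num := by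
    have h5 := RatFunc.num_div_denom S
    rw [div_eq_iff hU0] at h5
    exact h5.symm
  have h3 : AA e R 3 = R.denom := rfl
  rw [h3]
  simp only [map_mul, map_pow] at h1 ⊢
  rw [← ff_eq, ← h2]
  have h4 : ff a b * (S * algebraMap k[X] (RatFunc k) S.denom *
      algebraMap k[X] (RatFunc k) R.denom ^ 2) ^ 2 = (ff a b * S ^ 2) *
      algebraMap k[X] (RatFunc k) S.denom ^ 2 * algebraMap k[X] (RatFunc k) R.denom ^ 4 := by ring
  rw [h4, hS]
  linear_combination (algebraMap k[X] (RatFunc k) S.denom ^ 2 *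
    algebraMap k[X] (RatFunc k) R.denom) * h1

theorem dvd_W {e : Fin 3 → k} {R : RatFunc k} (i : Fin 4) (t : k) :
    (X - C t) ^ ((AA e R i).rootMultiplicity t - 1) ∣ WW R := by
  have key : ∀ G H : k[X], (X - C t) ^ (G.rootMultiplicity t - 1) ∣
      derivative G * H - G * derivative H := by
    intro G H
    have h1 : (X - C t) ^ (G.rootMultiplicity t) ∣ G := pow_rootMultiplicity_dvd G t
    have h2 := pow_sub_one_dvd_derivative_of_pow_dvd h1
    have h3 : (X - C t) ^ (G.rootMultiplicity t - 1) ∣ G :=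
      (pow_dvd_pow _ (Nat.sub_le _ _)).trans h1
    exact dvd_sub (h2.mul_right _) (h3.mul_right _)
  have key2 : ∀ c : k, (X - C t) ^ ((R.num - C c * R.denom).rootMultiplicity t - 1) ∣ WW R := by
    intro c
    rw [WW_eq R c]
    exact key _ _
  fin_cases i
  · exact key2 (e 0)
  · exact key2 (e 1)
  · exact key2 (e 2)
  · have := key R.denom R.num
    have h4 : WW R = -(derivative R.denom * R.num - R.denom * derivative R.num) := by
      unfold WW
      ring
    rw [h4, dvd_neg]
    exact this

theorem deg_wr (G H : k[X]) :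
    (derivative G * H - G * derivative H).natDegree ≤ G.natDegree + H.natDegree - 1 := by
  refine (natDegree_sub_le _ _).trans (max_le ?_ ?_)
  · by_cases h0 : G.natDegree = 0
    · rw [derivative_of_natDegree_zero h0]
      simp
    · refine natDegree_mul_le.trans ?_
      have := natDegree_derivative_le G
      omega
  · by_cases h0 : H.natDegree = 0
    · rw [derivative_of_natDegree_zero h0]
      simp
    · refine natDegree_mul_le.trans ?_
      have := natDegree_derivative_le H
      omega

theorem deg_W {R : RatFunc k} (hW : WW R ≠ 0) (c : k) :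
    (WW R).natDegree + 1 ≤ (R.num - C c * R.denom).natDegree + R.denom.natDegree := by
  have h1 := deg_wr (R.num - C c * R.denom) R.denom
  rw [← WW_eq R c] at h1
  have h2 : (R.num - C c * R.denom).natDegree + R.denom.natDegree ≠ 0 := by
    intro h0
    apply hW
    rw [WW_eq R c, derivative_of_natDegree_zero (by omega), derivative_of_natDegree_zero (by omega)]
    simp
  omega

theorem deg_pair {e : Fin 3 → k} (R : RatFunc k) (i j : Fin 3) (hij : e i ≠ e j) :
    R.denom.natDegree ≤ max (R.num - C (e i) * R.denom).natDegree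
      (R.num - C (e j) * R.denom).natDegree := by
  have h1 : C (e j - e i) * R.denom =
      (R.num - C (e i) * R.denom) - (R.num - C (e j) * R.denom) := by
    rw [C_sub]; ring
  have h2 : (C (e j - e i) * R.denom).natDegree = R.denom.natDegree :=
    natDegree_C_mul (sub_ne_zero.2 (Ne.symm hij))
  rw [← h2, h1]
  exact natDegree_sub_le _ _

theorem deg_pair' (R : RatFunc k) (c d : k) :
    (R.num - C c * R.denom).natDegree ≤ max (R.num - C d * R.denom).natDegree
      R.denom.natDegree := by
  have h1 : R.num - C c * R.denom = (R.num - C d * R.denom) + C (d - c) * R.denom := by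
    rw [C_sub]; ring
  rw [h1]
  refine (natDegree_add_le _ _).trans (max_le_max le_rfl ?_)
  exact natDegree_C_mul_le _ _

/-- main statement about polynomials -/
theorem exists_c [IsAlgClosed k] {a b : k} (hyp : Hyp a b) {e : Fin 3 → k}
    (hf : fp a b = ∏ i, (X - C (e i))) {R S : RatFunc k} (hR : ∀ c : k, R ≠ RatFunc.C c)
    (hS : ff a b * S ^ 2 = ev a b R) :
    ∃ c : k, WW R ^ 2 * fp a b = (AA e R 0 * AA e R 1 * AA e R 2 * AA e R 3) * C c := by
  classical
  by_cases hW : WW R = 0
  · exact ⟨0, by rw [hW]; simp⟩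
  have hinj := e_inj hyp hf
  have hA : AA e R 0 * AA e R 1 * AA e R 2 * AA e R 3 ≠ 0 :=
    mul_ne_zero (mul_ne_zero (mul_ne_zero (AA_ne hR 0) (AA_ne hR 1)) (AA_ne hR 2)) (AA_ne hR 3)
  have hdf : (fp a b).natDegree = 3 := by
    unfold fp
    compute_degree!
  have hf0 : fp a b ≠ 0 := by
    intro h
    rw [h] at hdf
    simp at hdf
  have hWf : WW R ^ 2 * fp a b ≠ 0 := mul_ne_zero (pow_ne_zero 2 hW) hf0
  -- divisibility
  have hdvd : AA e R 0 * AA e R 1 * AA e R 2 * AA e R 3 ∣ WW R ^ 2 * fp a b := by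
    rw [IsAlgClosed.dvd_iff_roots_le_roots hA hWf, Multiset.le_iff_count]
    intro t
    rw [count_roots, count_roots, rootMultiplicity_mul hWf, sq,
      rootMultiplicity_mul (mul_ne_zero hW hW), rootMultiplicity_mul hA,
      rootMultiplicity_mul (left_ne_zero_of_mul hA),
      rootMultiplicity_mul (left_ne_zero_of_mul (left_ne_zero_of_mul hA))]
    have hd : ∀ i j : Fin 4, i ≠ j → (AA e R i).rootMultiplicity t = 0 ∨
        (AA e R j).rootMultiplicity t = 0 := by
      intro i j hij
      by_cases h0 : (AA e R i).rootMultiplicity t = 0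
      · exact Or.inl h0
      · exact Or.inr (mult_disj hR hinj t i j hij h0)
    have hw : ∀ i : Fin 4, (AA e R i).rootMultiplicity t - 1 ≤ (WW R).rootMultiplicity t :=
      fun i => (le_rootMultiplicity_iff hW).2 (dvd_W i t)
    have hpar := mult_sum hf hR hS t
    rw [Fin.sum_univ_four] at hpar
    have d01 := hd 0 1 (by decide)
    have d02 := hd 0 2 (by decide)
    have d03 := hd 0 3 (by decide)
    have d12 := hd 1 2 (by decide)
    have d13 := hd 1 3 (by decide)
    have d23 := hd 2 3 (by decide)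
    have w0 := hw 0
    have w1 := hw 1
    have w2 := hw 2
    have w3 := hw 3
    omega
  -- degrees
  have hdeg : (WW R ^ 2 * fp a b).natDegree ≤
      (AA e R 0 * AA e R 1 * AA e R 2 * AA e R 3).natDegree := by
    have hS0 : S.denom ≠ 0 := RatFunc.denom_ne_zero S
    have hp := poly_id hf hS
    have hn : S.num * R.denom ^ 2 ≠ 0 := by
      intro h
      rw [h, zero_pow (by norm_num), mul_zero] at hp
      exact (mul_ne_zero (pow_ne_zero 2 hS0) hA) hp.symm
    have h3 := congrArg natDegree hp
    rw [natDegree_mul hf0 (pow_ne_zero 2 hn), natDegree_mul (pow_ne_zero 2 hS0) hA,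
      natDegree_pow, natDegree_pow, natDegree_mul (left_ne_zero_of_mul hA) (AA_ne hR 3),
      natDegree_mul (left_ne_zero_of_mul (left_ne_zero_of_mul hA)) (AA_ne hR 2),
      natDegree_mul (AA_ne hR 0) (AA_ne hR 1), hdf] at h3
    rw [natDegree_mul (pow_ne_zero 2 hW) hf0, natDegree_pow,
      natDegree_mul (left_ne_zero_of_mul hA) (AA_ne hR 3),
      natDegree_mul (left_ne_zero_of_mul (left_ne_zero_of_mul hA)) (AA_ne hR 2),
      natDegree_mul (AA_ne hR 0) (AA_ne hR 1), hdf]
    have a0 : (AA e R 0).natDegree = (R.num - C (e 0) * R.denom).natDegree := rfl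
    have a1 : (AA e R 1).natDegree = (R.num - C (e 1) * R.denom).natDegree := rfl
    have a2 : (AA e R 2).natDegree = (R.num - C (e 2) * R.denom).natDegree := rfl
    have a3 : (AA e R 3).natDegree = R.denom.natDegree := rfl
    rw [a0, a1, a2, a3] at h3 ⊢
    have w0 := deg_W hW (e 0)
    have w1 := deg_W hW (e 1)
    have w2 := deg_W hW (e 2)
    have p01 := deg_pair R 0 1 (fun h => absurd (hinj h) (by decide))
    have p02 := deg_pair R 0 2 (fun h => absurd (hinj h) (by decide))
    have p12 := deg_pair R 1 2 (fun h => absurd (hinj h) (by decide))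
    have q01 := deg_pair' R (e 0) (e 1)
    have q10 := deg_pair' R (e 1) (e 0)
    have q02 := deg_pair' R (e 0) (e 2)
    have q20 := deg_pair' R (e 2) (e 0)
    have q12 := deg_pair' R (e 1) (e 2)
    have q21 := deg_pair' R (e 2) (e 1)
    omega
  obtain ⟨q, hq⟩ := hdvd
  have hq0 : q ≠ 0 := by
    rintro rfl
    rw [mul_zero] at hq
    exact hWf hq
  rw [hq, natDegree_mul hA hq0] at hdeg
  obtain ⟨c, hc⟩ := natDegree_eq_zero.1 (show q.natDegree = 0 by omega)
  exact ⟨c, by rw [hq, hc]⟩

end DDC_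

open DDC_ CLS_ in
theorem p_DDC (h1 : T_API) (h2 : T_RFD) : T_DDC := by
  intro k _ _ a b hyp P
  obtain ⟨hff, ⟨hx0, hy0⟩, _, hcv, _⟩ := h1 k a b hyp
  by_cases hP : P = 0
  · refine ⟨0, ?_⟩
    unfold DD
    rw [hP, hy0, div_zero, map_zero]
  by_cases hy : yr P = 0
  · refine ⟨0, ?_⟩
    unfold DD
    rw [hy, div_zero, map_zero]
  by_cases hR : ∃ c : k, xr P = RatFunc.C c
  · obtain ⟨c, hc⟩ := hR
    refine ⟨0, ?_⟩
    unfold DD
    rw [hc, (h2 k).2.2.2.2.2.2.2.1 c, zero_div, map_zero]
  push Not at hR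
  have hS := (hcv P hP).1
  obtain ⟨e, hf⟩ := RK4_.exists_roots a b
  obtain ⟨c, hc⟩ := exists_c hyp hf hR hS
  set R := xr P with hRdef
  set S := yr P with hSdef
  have hD0 : algebraMap k[X] (RatFunc k) R.denom ≠ 0 :=
    RatFunc.algebraMap_ne_zero (RatFunc.denom_ne_zero R)
  have hev0 : ev a b R ≠ 0 := by
    rw [← hS]
    exact mul_ne_zero hff (pow_ne_zero 2 hy)
  -- the square is constant
  have hsq : DD P ^ 2 = RatFunc.C c := by
    have e1 : DD P = algebraMap k[X] (RatFunc k) (WW R) /
        algebraMap k[X] (RatFunc k) (R.denom ^ 2) / S := rfl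
    have e2 := congrArg (algebraMap k[X] (RatFunc k)) hc
    have e3 := ev_AA hf R
    have e4 : AA e R 3 = R.denom := rfl
    rw [map_mul, map_pow, ← ff_eq, map_mul, map_mul (algebraMap k[X] (RatFunc k)) _ (AA e R 3),
      ← e3, e4, RatFunc.algebraMap_C] at e2
    have e5 : (algebraMap k[X] (RatFunc k) (WW R) ^ 2) * (ff a b * S ^ 2) =
        (ev a b R * algebraMap k[X] (RatFunc k) R.denom ^ 4 * RatFunc.C c) * S ^ 2 := by
      linear_combination S ^ 2 * e2
    rw [hS] at e5
    have e6 : (algebraMap k[X] (RatFunc k) (WW R) ^ 2) =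
        RatFunc.C c * S ^ 2 * algebraMap k[X] (RatFunc k) R.denom ^ 4 := by
      apply mul_right_cancel₀ hev0
      linear_combination e5
    rw [e1, map_pow, div_pow, div_pow, e6]
    field_simp
  obtain ⟨z, hz⟩ := IsAlgClosed.exists_pow_nat_eq c (by norm_num : 0 < 2)
  have h5 : (DD P - RatFunc.C z) * (DD P + RatFunc.C z) = 0 := by
    have : (DD P - RatFunc.C z) * (DD P + RatFunc.C z) = DD P ^ 2 - RatFunc.C z ^ 2 := by ring
    rw [this, hsq, ← map_pow, hz, sub_self]
  rcases mul_eq_zero.1 h5 with h6 | h6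
  · exact ⟨z, sub_eq_zero.1 h6⟩
  · exact ⟨-z, by rw [map_neg]; exact eq_neg_of_add_eq_zero_left h6⟩

end SSA
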