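import Pool.Agent.SSA.Targets

/-!
# MP_d74fca_nt, algebraic part: maps of degree one (target DG1)
-/

open Polynomial

namespace SSA

namespace DG1_

variable {k : Type} [Field k]

theorem ff_eq (a b : k) : ff a b = algebraMap k[X] (RatFunc k) (fp a b) := by
  simp [ff, fp, RatFunc.algebraMap_X, RatFunc.algebraMap_C]

theorem fp_sqf {a b : k} (h : 4 * a ^ 3 + 27 * b ^ 2 ≠ 0) : Squarefree (fp a b) := by
  apply Polynomial.Separable.squarefree
  have hd : derivative (fp a b) = 3 * X ^ 2 + C a := by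
    have h3 : (C 2 + 1 : k[X]) = 3 := by
      rw [show (C 2 : k[X]) = 2 from map_ofNat C 2]; norm_num
    simp [fp, h3]
  rw [Polynomial.separable_def, hd]
  refine ⟨C (4 * a ^ 3 + 27 * b ^ 2)⁻¹ * (-18 * C a * X + 27 * C b),
    C (4 * a ^ 3 + 27 * b ^ 2)⁻¹ * (6 * C a * X ^ 2 - 9 * C b * X + 4 * C a ^ 2), ?_⟩
  have h1 : C (4 * a ^ 3 + 27 * b ^ 2)⁻¹ * (4 * C a ^ 3 + 27 * C b ^ 2) = (1 : k[X]) := by
    have : (4 * C a ^ 3 + 27 * C b ^ 2 : k[X]) = C (4 * a ^ 3 + 27 * b ^ 2) := by
      simp only [map_add, map_mul, map_pow, map_ofNat]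
    rw [this, ← C_mul, inv_mul_cancel₀ h, C_1]
  rw [← h1, fp]
  ring

theorem root_simple {a b e : k} (h : 4 * a ^ 3 + 27 * b ^ 2 ≠ 0) (he : e ^ 3 + a * e + b = 0) :
    3 * e ^ 2 + a ≠ 0 := by
  intro h3
  apply h
  linear_combination (-18 * a * e + 27 * b) * he + (6 * a * e ^ 2 - 9 * b * e + 4 * a ^ 2) * h3

theorem fp_natDegree (a b : k) : (fp a b).natDegree = 3 := by
  unfold fp; compute_degree!

theorem fp_ne (a b : k) : fp a b ≠ 0 := by
  intro h
  have := fp_natDegree a b
  rw [h] at this; simp at this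

theorem num_eq (S : RatFunc k) :
    algebraMap k[X] (RatFunc k) S.num = algebraMap k[X] (RatFunc k) S.denom * S := by
  have hq : algebraMap k[X] (RatFunc k) S.denom ≠ 0 :=
    (map_ne_zero_iff _ (RatFunc.algebraMap_injective k)).2 S.denom_ne_zero
  have h := RatFunc.num_div_denom S
  rw [div_eq_iff hq] at h
  rw [h, mul_comm]

/-- if `f S^2 = f(uX+v)` then `u = 1` and `v = 0` -/
theorem key {a b : k} (h : 4 * a ^ 3 + 27 * b ^ 2 ≠ 0) (h3 : (3 : k) ≠ 0) (ha : a ≠ 0) (hb : b ≠ 0)
    {u v : k} (hu : u ≠ 0)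
    {S : RatFunc k} (hS : ff a b * S ^ 2 = ev a b (RatFunc.C u * RatFunc.X + RatFunc.C v)) :
    u = 1 ∧ v = 0 := by
  set F : k[X] := (C u * X + C v) ^ 3 + C a * (C u * X + C v) + C b with hF
  have e1 : ev a b (RatFunc.C u * RatFunc.X + RatFunc.C v) = algebraMap k[X] (RatFunc k) F := by
    simp [ev, hF, RatFunc.algebraMap_X, RatFunc.algebraMap_C]
  rw [e1, ff_eq] at hS
  have e2 : fp a b * S.num ^ 2 = S.denom ^ 2 * F := by
    apply RatFunc.algebraMap_injective k
    rw [map_mul, map_mul, map_pow, map_pow, ← hS, num_eq]; ring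
  have hcop : IsCoprime (S.denom ^ 2) (S.num ^ 2) :=
    ((RatFunc.isCoprime_num_denom S).symm).pow
  have hdvd : S.denom ^ 2 ∣ fp a b := by
    apply hcop.dvd_of_dvd_mul_right
    rw [e2]; exact dvd_mul_right _ _
  have hun : IsUnit S.denom := by
    apply fp_sqf h
    rw [← pow_two]; exact hdvd
  have hd1 : S.denom = 1 := (RatFunc.monic_denom S).eq_one_of_isUnit hun
  rw [hd1, one_pow, one_mul] at e2
  have hFdeg : F.natDegree = 3 := by
    rw [hF]
    have : (C u * X + C v) ^ 3 + C a * (C u * X + C v) + C b =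
      C (u ^ 3) * X ^ 3 + C (3 * u ^ 2 * v) * X ^ 2 + C (3 * u * v ^ 2 + a * u) * X +
        C (v ^ 3 + a * v + b) := by
      simp only [map_add, map_mul, map_pow, map_ofNat]; ring
    rw [this]
    compute_degree!
  have hn0 : S.num ≠ 0 := by
    intro h0
    rw [h0] at e2
    have : F = 0 := by rw [← e2]; simp
    rw [this] at hFdeg; simp at hFdeg
  have hdeg : S.num.natDegree = 0 := by
    have h5 := congrArg natDegree e2
    rw [natDegree_mul (fp_ne a b) (pow_ne_zero _ hn0), natDegree_pow, fp_natDegree, hFdeg] at h5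
    omega
  obtain ⟨s, hs⟩ := natDegree_eq_zero.1 hdeg
  rw [← hs] at e2
  have e3 : C (s ^ 2) * X ^ 3 + C (s ^ 2 * a) * X + C (s ^ 2 * b) =
      C (u ^ 3) * X ^ 3 + C (3 * u ^ 2 * v) * X ^ 2 + C (3 * u * v ^ 2 + a * u) * X +
        C (v ^ 3 + a * v + b) := by
    rw [hF, fp] at e2
    simp only [map_add, map_mul, map_pow, map_ofNat]
    linear_combination e2
  have c0 := congrArg (fun P => coeff P 0) e3
  have c1 := congrArg (fun P => coeff P 1) e3
  have c2 := congrArg (fun P => coeff P 2) e3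
  have c3 := congrArg (fun P => coeff P 3) e3
  simp only [coeff_add, coeff_C_mul, coeff_X_pow, coeff_X, coeff_C] at c0 c1 c2 c3
  norm_num at c0 c1 c2 c3
  have hv : v = 0 := by
    rcases c2 with (c2 | c2) | c2
    · exact absurd c2 h3
    · exact absurd c2 hu
    · exact c2
  subst hv
  have hs1 : s ^ 2 = 1 := by
    apply mul_right_cancel₀ hb; linear_combination c0
  have hs2 : s ^ 2 = u := by
    apply mul_right_cancel₀ ha; linear_combination c1
  exact ⟨by rw [← hs2, hs1], rfl⟩

/-- the value at infinity of the first component of a map of degree one is infinite or a root -/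
theorem inf_root {a b : k} {R S : RatFunc k} (hS : ff a b * S ^ 2 = ev a b R)
    (hd : R.denom.natDegree = 1) (hn : R.num.natDegree ≤ 1) :
    (R.num.coeff 1) ^ 3 + a * R.num.coeff 1 + b = 0 := by
  by_contra hne
  set N := R.num with hN
  set D := R.denom with hD
  have hmon : D.Monic := RatFunc.monic_denom R
  have e2 : fp a b * S.num ^ 2 * D ^ 3 =
      S.denom ^ 2 * (N ^ 3 + C a * (N * D ^ 2) + C b * D ^ 3) := by
    apply RatFunc.algebraMap_injective k
    simp only [map_mul, map_add, map_pow, RatFunc.algebraMap_C]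
    rw [num_eq S, hN, num_eq R, ← hD, ← ff_eq]
    have := hS
    rw [ev] at this
    linear_combination (algebraMap k[X] (RatFunc k) S.denom) ^ 2 *
      (algebraMap k[X] (RatFunc k) D) ^ 3 * this
  have hDc : D.coeff 1 = 1 := by
    have := hmon.coeff_natDegree; rwa [hd] at this
  have hle : (N ^ 3 + C a * (N * D ^ 2) + C b * D ^ 3).natDegree ≤ 3 := by
    have h1 : (N ^ 3).natDegree ≤ 3 := by
      refine natDegree_pow_le.trans ?_; omega
    have h2 : (N * D ^ 2).natDegree ≤ 3 := by
      refine natDegree_mul_le.trans ?_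
      have := natDegree_pow_le (p := D) (n := 2)
      omega
    have h3 : (D ^ 3).natDegree ≤ 3 := by
      refine natDegree_pow_le.trans ?_; omega
    refine (natDegree_add_le _ _).trans (max_le ((natDegree_add_le _ _).trans (max_le h1 ?_)) ?_)
    · exact (natDegree_C_mul_le _ _).trans h2
    · exact (natDegree_C_mul_le _ _).trans h3
  have hco : (N ^ 3 + C a * (N * D ^ 2) + C b * D ^ 3).coeff 3 =
      (N.coeff 1) ^ 3 + a * N.coeff 1 + b := by
    have h1 : (N ^ 3).coeff 3 = N.coeff 1 ^ 3 := by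
      have := coeff_pow_of_natDegree_le (p := N) (m := 3) (n := 1) hn
      simpa using this
    have h2 : (D ^ 2).coeff 2 = 1 := by
      have := coeff_pow_of_natDegree_le (p := D) (m := 2) (n := 1) hd.le
      simpa [hDc] using this
    have h3 : (D ^ 3).coeff 3 = 1 := by
      have := coeff_pow_of_natDegree_le (p := D) (m := 3) (n := 1) hd.le
      simpa [hDc] using this
    have h4 : (N * D ^ 2).coeff 3 = N.coeff 1 := by
      have h5 : (D ^ 2).natDegree ≤ 2 := natDegree_pow_le.trans (by omega)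
      have := coeff_mul_add_eq_of_natDegree_le hn h5
      rw [show 1 + 2 = 3 from rfl] at this
      rw [this, h2, mul_one]
    rw [coeff_add, coeff_add, coeff_C_mul, coeff_C_mul, h1, h3, h4, mul_one]
  have hE : (N ^ 3 + C a * (N * D ^ 2) + C b * D ^ 3).natDegree = 3 := by
    apply le_antisymm hle
    apply le_natDegree_of_ne_zero
    rw [hco]; exact hne
  have hE0 : (N ^ 3 + C a * (N * D ^ 2) + C b * D ^ 3) ≠ 0 := by
    intro h0; rw [h0] at hE; simp at hE
  have hq0 : S.denom ≠ 0 := S.denom_ne_zero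
  have hp0 : S.num ≠ 0 := by
    intro h0
    rw [h0] at e2
    have : S.denom ^ 2 * (N ^ 3 + C a * (N * D ^ 2) + C b * D ^ 3) = 0 := by
      rw [← e2]; simp
    rcases mul_eq_zero.1 this with h | h
    · exact hq0 (pow_eq_zero_iff (two_ne_zero) |>.1 h)
    · exact hE0 h
  have hD0 : D ≠ 0 := hmon.ne_zero
  have h5 := congrArg natDegree e2
  rw [natDegree_mul (mul_ne_zero (fp_ne a b) (pow_ne_zero _ hp0)) (pow_ne_zero _ hD0),
    natDegree_mul (fp_ne a b) (pow_ne_zero _ hp0), natDegree_mul (pow_ne_zero _ hq0) hE0,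
    natDegree_pow, natDegree_pow, natDegree_pow, fp_natDegree, hE, hd] at h5
  omega

end DG1_

open DG1_ in
theorem p_DG1 (h1 : T_API) (h3 : T_TRS) : T_DG1 := by
  intro k _ _ a b hyp ha hb P hP
  obtain ⟨hf0, ⟨hx0, hy0⟩, hmk, hpt, hneg, hxeq, hadd, hdbl, htwo⟩ := h1 k a b hyp
  have hrd0 : rdeg (0 : RatFunc k) = 0 := by simp [rdeg]
  -- `P ≠ 0`
  have hP0 : P ≠ 0 := by
    rintro rfl
    rw [dd, hx0, hrd0] at hP
    exact absurd hP (by norm_num)
  -- reduction: it suffices to find `T` of order two with linear `xr (P+T)`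
  have red : ∀ T : MM a b, T + T = 0 → P + T ≠ 0 →
      (∃ u v : k, u ≠ 0 ∧ xr (P + T) = RatFunc.C u * RatFunc.X + RatFunc.C v) →
      P + P = idM a b + idM a b ∨ P + P = -(idM a b + idM a b) := by
    intro T hT hPT ⟨u, v, hu, hx⟩
    have e1 := (hpt (P + T) hPT).1
    rw [hx] at e1
    obtain ⟨hu1, hv0⟩ := key hyp.disc hyp.three ha hb hu e1
    have hid : ff a b * (1 : RatFunc k) ^ 2 = ev a b RatFunc.X := by
      rw [ev, ff]; ring
    obtain ⟨hid0, hidx, hidy⟩ := hmk _ _ hid
    have hPP : P + P = (P + T) + (P + T) := by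
      rw [show (P + T) + (P + T) = (P + P) + (T + T) by abel, hT, add_zero]
    have hxx : xr (P + T) = xr (idM a b) := by
      rw [hx, idM, hidx, hu1, hv0]; simp
    rcases hxeq (P + T) (idM a b) hPT hid0 hxx with h | h
    · left; rw [hPP, h]
    · right; rw [hPP, h]; abel
  set R := xr P with hR
  have hdeg : max R.num.natDegree R.denom.natDegree = 1 := hP
  have hmon : R.denom.Monic := RatFunc.monic_denom R
  have hRS := (hpt P hP0).1
  have hnum := num_eq R
  rcases Nat.lt_or_ge R.denom.natDegree 1 with hd | hd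
  · -- polynomial case
    have hD1 : R.denom = 1 := by
      apply hmon.natDegree_eq_zero.1; omega
    have hn1 : R.num.natDegree = 1 := by omega
    apply red 0 (by simp) (by simpa using hP0)
    refine ⟨R.num.coeff 1, R.num.coeff 0, ?_, ?_⟩
    · have := leadingCoeff_ne_zero.2 (show R.num ≠ 0 by rintro h; rw [h] at hn1; simp at hn1)
      rwa [leadingCoeff, hn1] at this
    · rw [add_zero, ← hR]
      have e := eq_X_add_C_of_natDegree_le_one hn1.le
      rw [hD1, map_one, one_mul] at hnum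
      conv_lhs => rw [← hnum, e]
      simp only [map_add, map_mul, RatFunc.algebraMap_X, RatFunc.algebraMap_C]
  · have hd1 : R.denom.natDegree = 1 := by omega
    have hn1 : R.num.natDegree ≤ 1 := by omega
    have hroot := inf_root hRS hd1 hn1
    rw [← hR] at hroot
    set e : k := R.num.coeff 1 with he
    obtain ⟨hT0, hTx, hTT, hTadd⟩ := h3 k a b hyp e hroot
    have hDc : R.denom.coeff 1 = 1 := by
      have := hmon.coeff_natDegree; rwa [hd1] at this
    have hN := eq_X_add_C_of_natDegree_le_one hn1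
    have hD := eq_X_add_C_of_natDegree_le_one hd1.le
    rw [← he] at hN
    rw [hDc, C_1, one_mul] at hD
    set w : k := R.num.coeff 0 - e * R.denom.coeff 0 with hw
    have hNw : R.num = C e * R.denom + C w := by
      conv_lhs => rw [hN]
      conv_rhs => rw [hD]
      rw [hw, C_sub, C_mul]; ring
    have hDm : algebraMap k[X] (RatFunc k) R.denom ≠ 0 :=
      (map_ne_zero_iff _ (RatFunc.algebraMap_injective k)).2 R.denom_ne_zero
    have hRe : (R - RatFunc.C e) * algebraMap k[X] (RatFunc k) R.denom = RatFunc.C w := by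
      have h6 := congrArg (algebraMap k[X] (RatFunc k)) hNw
      rw [hnum, map_add, map_mul, RatFunc.algebraMap_C, RatFunc.algebraMap_C] at h6
      linear_combination h6
    have hw0 : w ≠ 0 := by
      intro h0
      rw [h0, map_zero] at hRe
      rcases mul_eq_zero.1 hRe with h | h
      · have h7 : R = RatFunc.C e := sub_eq_zero.1 h
        rw [h7, RatFunc.denom_C] at hd1
        simp at hd1
      · exact hDm h
    have hRe0 : R ≠ RatFunc.C e := by
      intro h
      rw [h, sub_self, zero_mul] at hRe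
      exact hw0 ((map_eq_zero_iff _ (RatFunc.C_injective)).1 hRe.symm)
    obtain ⟨hPT, hPTx⟩ := hTadd P hP0 hRe0
    have hs := root_simple hyp.disc hroot
    have hwC : (RatFunc.C w : RatFunc k) ≠ 0 := by
      rw [Ne, map_eq_zero_iff _ (RatFunc.C_injective)]; exact hw0
    apply red _ hTT hPT
    refine ⟨(3 * e ^ 2 + a) / w, e + (3 * e ^ 2 + a) / w * R.denom.coeff 0,
      div_ne_zero hs hw0, ?_⟩
    rw [hPTx, ← hR]
    have hsub : R - RatFunc.C e ≠ 0 := sub_ne_zero.2 hRe0
    have hinv : RatFunc.C (3 * e ^ 2 + a) / (R - RatFunc.C e) =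
        RatFunc.C ((3 * e ^ 2 + a) / w) * algebraMap k[X] (RatFunc k) R.denom := by
      rw [div_eq_iff hsub, map_div₀, div_mul_eq_mul_div, div_mul_eq_mul_div, eq_div_iff hwC, ← hRe]
      ring
    have hDX : algebraMap k[X] (RatFunc k) R.denom = RatFunc.X + RatFunc.C (R.denom.coeff 0) := by
      conv_lhs => rw [hD]
      rw [map_add, RatFunc.algebraMap_X, RatFunc.algebraMap_C]
    rw [hinv, hDX, map_add, map_mul]
    ring

end SSA
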