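import Mathlib

/-!
# MP_d74fca_nt, algebraic part (helper22): definitions

`k` a field, `ff a b = X^3 + aX + b` in `k(X)`, and the curve `Wt a b : y^2 = x^3 + a f^2 x + b f^3` over
`k(X)`. A pair `(R,S)` of rational functions with `f S^2 = R^3 + aR + b` is the point `(fR, f^2 S)`
(it is the map `(x,y) ↦ (R(x), y S(x))` of the curve `y^2 = x^3+ax+b` to itself).
-/

open Polynomial

namespace SSA

variable {k : Type} [Field k]

noncomputable instance instDecRF : DecidableEq (RatFunc k) := Classical.decEq _

/-- degree of a rational function -/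
noncomputable def rdeg (R : RatFunc k) : ℕ := max R.num.natDegree R.denom.natDegree

/-- derivative of a rational function -/
noncomputable def rder (R : RatFunc k) : RatFunc k :=
  algebraMap k[X] (RatFunc k) (derivative R.num * R.denom - R.num * derivative R.denom) /
    algebraMap k[X] (RatFunc k) (R.denom ^ 2)

/-- composition `g(R)` (meaningful for nonconstant `R`, or if `R` is no pole of `g`) -/
noncomputable def rcomp (g R : RatFunc k) : RatFunc k := aeval R g.num / aeval R g.denom

/-- a homomorphism of fields applied to the coefficients -/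
noncomputable def rmap {k' : Type} [Field k'] (σ : k →+* k') (R : RatFunc k) : RatFunc k' :=
  algebraMap k'[X] (RatFunc k') (R.num.map σ) / algebraMap k'[X] (RatFunc k') (R.denom.map σ)

/-- `X^3 + aX + b` as a polynomial -/
noncomputable def fp (a b : k) : k[X] := X ^ 3 + C a * X + C b

/-- `X^3 + aX + b` as a rational function -/
noncomputable def ff (a b : k) : RatFunc k := RatFunc.X ^ 3 + RatFunc.C a * RatFunc.X + RatFunc.C b

/-- `R^3 + aR + b` -/
noncomputable def ev (a b : k) (R : RatFunc k) : RatFunc k := R ^ 3 + RatFunc.C a * R + RatFunc.C b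

/-- the twisted curve over `k(X)` -/
noncomputable def Wt (a b : k) : WeierstrassCurve (RatFunc k) :=
  ⟨0, 0, 0, RatFunc.C a * ff a b ^ 2, RatFunc.C b * ff a b ^ 3⟩

/-- its group of points, i.e. the odd maps of `y^2 = x^3+ax+b` to itself -/
abbrev MM (a b : k) : Type := (Wt a b).toAffine.Point

/-- standing hypotheses -/
structure Hyp (a b : k) : Prop where
  two : (2 : k) ≠ 0
  three : (3 : k) ≠ 0
  disc : 4 * a ^ 3 + 27 * b ^ 2 ≠ 0

open Classical in
/-- the point belonging to a pair `(R, S)` -/
noncomputable def mkP (a b : k) (R S : RatFunc k) : MM a b :=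
  if h : (Wt a b).toAffine.Nonsingular (ff a b * R) (ff a b ^ 2 * S) then .some _ _ h else 0

/-- first component of the pair -/
noncomputable def xr {a b : k} : MM a b → RatFunc k
  | .zero => 0
  | .some x _ _ => x / ff a b

/-- second component of the pair -/
noncomputable def yr {a b : k} : MM a b → RatFunc k
  | .zero => 0
  | .some _ y _ => y / ff a b ^ 2

/-- degree of a point -/
noncomputable def dd {a b : k} (P : MM a b) : ℕ := rdeg (xr P)

/-- the bilinear form of the degree -/
noncomputable def BB {a b : k} (P Q : MM a b) : ℤ := (dd (P + Q) : ℤ) - dd P - dd Q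

/-- action on the differential `dx/y` -/
noncomputable def DD {a b : k} (P : MM a b) : RatFunc k := rder (xr P) / yr P

/-- the identity -/
noncomputable def idM (a b : k) : MM a b := mkP a b RatFunc.X 1

/-- the Frobenius -/
noncomputable def piM (p : ℕ) (a b : k) : MM a b :=
  mkP a b (RatFunc.X ^ p) (ff a b ^ ((p - 1) / 2))

/-- composition with Frobenius -/
noncomputable def frb (p : ℕ) {a b : k} (P : MM a b) : MM a b :=
  if P = 0 then 0 else
    mkP a b (rcomp (xr P) (RatFunc.X ^ p)) (rcomp (yr P) (RatFunc.X ^ p) * ff a b ^ ((p - 1) / 2))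

/-- automorphism of `k` applied to a point -/
noncomputable def tau {a b : k} (σ : k ≃+* k) (P : MM a b) : MM a b :=
  if P = 0 then 0 else mkP a b (rmap σ.toRingHom (xr P)) (rmap σ.toRingHom (yr P))

/-- number of affine points of `y^2 = x^3 + ax + b` over `F_p` -/
noncomputable def Naff (p : ℕ) (a b : ZMod p) : ℕ :=
  Nat.card {P : ZMod p × ZMod p // P.2 ^ 2 = P.1 ^ 3 + a * P.1 + b}

/-- the ring homomorphism `F_p → k` -/
noncomputable def zc (p : ℕ) (k : Type) [Field k] [CharP k p] : ZMod p →+* k := ZMod.castHom dvd_rfl k

end SSA
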