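import Pool.Agent.SSA.Targets

/-! Gram determinants of nonnegative quadratic forms on abelian groups. -/

open Polynomial

namespace SSA

namespace GRD_

open Matrix

section

variable {A : Type} [AddCommGroup A] {q : A → ℤ}

theorem bl_sum_left (h1 : T_QFA) (hq : Par q) {ι : Type} (s : Finset ι) (c : ι → ℤ) (v : ι → A)
    (y : A) : bl q (∑ i ∈ s, c i • v i) y = ∑ i ∈ s, c i * bl q (v i) y := by
  obtain ⟨_, _, _, _, hadd, _, hsm, _⟩ := h1 A q hq
  classical
  induction s using Finset.induction_on with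
  | empty =>
    have := hsm 0 0 y
    simpa using this
  | insert i s hi ih =>
    rw [Finset.sum_insert hi, Finset.sum_insert hi, hadd, hsm, ih]

theorem bl_sum_right (h1 : T_QFA) (hq : Par q) {ι : Type} (s : Finset ι) (c : ι → ℤ) (v : ι → A)
    (y : A) : bl q y (∑ i ∈ s, c i • v i) = ∑ i ∈ s, c i * bl q y (v i) := by
  obtain ⟨_, _, _, hsym, _⟩ := h1 A q hq
  rw [hsym, bl_sum_left h1 hq]
  exact Finset.sum_congr rfl fun i _ => by rw [hsym]

theorem two_q (h1 : T_QFA) (hq : Par q) {n : ℕ} (v : Fin n → A) (c : Fin n → ℤ) :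
    2 * q (∑ i, c i • v i) = c ⬝ᵥ (gram q v *ᵥ c) := by
  obtain ⟨_, _, hdiag, _⟩ := h1 A q hq
  rw [← hdiag, bl_sum_left h1 hq]
  unfold dotProduct
  refine Finset.sum_congr rfl fun i _ => ?_
  rw [bl_sum_right h1 hq]
  simp only [mulVec, dotProduct, gram]
  congr 1
  exact Finset.sum_congr rfl fun j _ => by ring

theorem det_nonneg (h1 : T_QFA) (hq : Par q) {n : ℕ} (v : Fin n → A) : 0 ≤ (gram q v).det := by
  obtain ⟨_, _, _, hsym, _⟩ := h1 A q hq
  set G : Matrix (Fin n) (Fin n) ℝ := (gram q v).map (Int.castRingHom ℝ) with hG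
  have hdet : ((gram q v).det : ℝ) = G.det := by
    rw [hG, ← RingHom.mapMatrix_apply, ← RingHom.map_det]; simp
  have hint : ∀ c : Fin n → ℤ, 0 ≤ (fun i => (c i : ℝ)) ⬝ᵥ (G *ᵥ (fun i => (c i : ℝ))) := by
    intro c
    have h2 := two_q h1 hq v c
    have h3 : (0 : ℤ) ≤ c ⬝ᵥ (gram q v *ᵥ c) := by
      rw [← h2]; have := hq.2 (∑ i, c i • v i); linarith
    have h4 : (fun i => (c i : ℝ)) ⬝ᵥ (G *ᵥ (fun i => (c i : ℝ))) =
        ((c ⬝ᵥ (gram q v *ᵥ c) : ℤ) : ℝ) := by
      simp only [dotProduct, mulVec, hG, Matrix.map_apply]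
      push_cast
      rfl
    rw [h4]
    exact_mod_cast h3
  have hrat : ∀ c : Fin n → ℚ, 0 ≤ (fun i => (c i : ℝ)) ⬝ᵥ (G *ᵥ (fun i => (c i : ℝ))) := by
    intro c
    set N : ℕ := ∏ i, (c i).den with hN
    have hN0 : 0 < N := Finset.prod_pos fun i _ => (c i).pos
    have hz : ∀ i, ∃ z : ℤ, (z : ℝ) = N * (c i : ℝ) := by
      intro i
      have hd : (c i).den ∣ N := Finset.dvd_prod_of_mem _ (Finset.mem_univ i)
      obtain ⟨m, hm⟩ := hd
      refine ⟨m * (c i).num, ?_⟩
      rw [hm]
      have h5 : (c i : ℝ) = (c i).num / (c i).den := by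
        exact_mod_cast (Rat.num_div_den (c i)).symm
      have h6 : ((c i).den : ℝ) ≠ 0 := by exact_mod_cast (c i).den_nz
      rw [h5]
      push_cast
      field_simp
    choose z hz using hz
    have h7 := hint z
    have h8 : (fun i => (z i : ℝ)) = (N : ℝ) • (fun i => (c i : ℝ)) := by
      funext i; simp [hz i]
    rw [h8, mulVec_smul, smul_dotProduct, dotProduct_smul, smul_eq_mul, smul_eq_mul,
      ← mul_assoc] at h7
    have hN1 : (0 : ℝ) < (N : ℝ) * N := by positivity
    exact nonneg_of_mul_nonneg_right h7 hN1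
  have hreal : ∀ x : Fin n → ℝ, 0 ≤ x ⬝ᵥ (G *ᵥ x) := by
    have hd : DenseRange (Pi.map (fun (_ : Fin n) (r : ℚ) => (r : ℝ))) :=
      DenseRange.piMap fun _ => Rat.denseRange_cast
    have hc : Continuous fun x : Fin n → ℝ => x ⬝ᵥ (G *ᵥ x) := by
      simp only [dotProduct, mulVec]
      fun_prop
    have hcl : IsClosed {x : Fin n → ℝ | 0 ≤ x ⬝ᵥ (G *ᵥ x)} := isClosed_le continuous_const hc
    intro x
    exact hd.induction_on x hcl hrat
  have hps : G.PosSemidef := by
    apply Matrix.PosSemidef.of_dotProduct_mulVec_nonneg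
    · ext i j
      simp only [hG, conjTranspose_apply, Matrix.map_apply, gram, star_trivial]
      rw [hsym]
    · intro x
      simpa using hreal x
  have := hps.det_nonneg
  rw [← hdet] at this
  exact_mod_cast this

theorem gram_transform (h1 : T_QFA) (hq : Par q) {n : ℕ} (v : Fin n → A)
    (U : Matrix (Fin n) (Fin n) ℤ) :
    gram q (fun j => ∑ i, U j i • v i) = U * gram q v * Uᵀ := by
  ext a b
  simp only [gram]
  rw [bl_sum_left h1 hq, Matrix.mul_assoc, Matrix.mul_apply]
  refine Finset.sum_congr rfl fun i _ => ?_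
  rw [bl_sum_right h1 hq, Matrix.mul_apply]
  congr 1
  refine Finset.sum_congr rfl fun j _ => ?_
  simp only [gram, transpose_apply]
  ring

end

end GRD_

open GRD_ Matrix in
theorem p_GRD (h1 : T_QFA) : T_GRD := by
  intro A _ q hq n v
  refine ⟨det_nonneg h1 hq v, ?_, ?_⟩
  · intro U
    rw [gram_transform h1 hq, det_mul, det_mul, det_transpose]
    ring
  · intro hdet c hc
    rcases (hq.2 (∑ i, c i • v i)).lt_or_eq with h | h
    · exact h
    · exfalso
      apply hc
      obtain ⟨_, _, _, _, _, _, _, _, _, hnull⟩ := h1 A q hq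
      apply Matrix.eq_zero_of_vecMul_eq_zero hdet
      funext j
      have h2 : bl q (∑ i, c i • v i) (v j) = 0 := by
        unfold bl
        rw [hnull _ _ h.symm, ← h]
        ring
      rw [bl_sum_left h1 hq] at h2
      simpa [vecMul, dotProduct, gram] using h2

end SSA
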