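import Pool.Agent.SSA.Targets

/-!
# HB: Hasse's bound
-/

namespace SSA

theorem p_HB (h1 : T_NPI) (h2 : T_PAR) (h3 : T_QFA) : T_HB := by
  intro p _ k _ _ _ hp a b hH
  obtain ⟨n1, n2, n3⟩ := h1 p k hp a b hH
  set I : MM (zc p k a) (zc p k b) := idM (zc p k a) (zc p k b) with hI
  set F : MM (zc p k a) (zc p k b) := piM p (zc p k a) (zc p k b) with hF
  set q : MM (zc p k a) (zc p k b) → ℤ := fun P => (dd P : ℤ) with hq
  have hpar : Par q := by
    refine ⟨fun x y => ?_, fun x => by simp [hq]⟩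
    have := h2 k (zc p k a) (zc p k b) hH x y
    simp only [hq]
    exact_mod_cast this
  obtain ⟨-, q2, -, q4, -, q6, -, -, q9, -⟩ := h3 (MM (zc p k a) (zc p k b)) q hpar
  have hB : BB I F = bl q I F := rfl
  have e1 : q I = 1 := by simp only [hq, n1]; rfl
  have e2 : q F = p := by simp only [hq, n2]
  have e3 : q (I - F) = (Naff p a b : ℤ) + 1 := by simp only [hq, n3]; push_cast; ring
  -- `q (I - F) = q I + q F - bl q I F`
  have e4 : bl q I (-F) = - bl q I F := by
    rw [q4 I (-F), q6 F I, q4 F I]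
  have e5 : bl q I (-F) = q (I - F) - q I - q F := by
    unfold bl
    rw [q2 F, ← sub_eq_add_neg]
  have e6 : bl q I F = (p : ℤ) - Naff p a b := by
    have : - bl q I F = ((Naff p a b : ℤ) + 1) - 1 - p := by
      rw [← e4, e5, e1, e2, e3]
    linarith
  refine ⟨by rw [hB, e6], ?_⟩
  have e7 := q9 I F
  rw [e6, e1, e2] at e7
  linarith

end SSA
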