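import Pool.Agent.SSA.TargetsB
import Pool.Agent.SSA.FRB

/-!
# HC: Hamilton-Cayley for Frobenius, up to torsion
-/

set_option autoImplicit false
set_option linter.unusedSectionVars false

open Polynomial

namespace SSA

namespace HC_

section

variable {k : Type} [Field k] {p : ℕ} [Fact p.Prime] [CharP k p] {A B : k}

theorem odd_eq (h5 : 5 ≤ p) : 2 * ((p - 1) / 2) + 1 = p := by
  have hp : p.Prime := Fact.out
  have := hp.eq_two_or_odd
  omega

/-- coordinates of the identity -/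
theorem id_coord (h1 : T_API) (hH : Hyp A B) :
    idM A B ≠ 0 ∧ xr (idM A B) = RatFunc.X ∧ yr (idM A B) = 1 := by
  obtain ⟨-, hmk, -⟩ := FRB_.api h1 hH
  refine hmk _ _ ?_
  unfold ff ev
  ring

/-- coordinates of Frobenius -/
theorem pi_coord (h1 : T_API) (hH : Hyp A B) {φ : RatFunc k →+* RatFunc k}
    (hφ : FRB_.IsPhi p A B φ) (h5 : 5 ≤ p) :
    piM p A B ≠ 0 ∧ xr (piM p A B) = RatFunc.X ^ p ∧
      yr (piM p A B) = ff A B ^ ((p - 1) / 2) := by
  obtain ⟨-, hmk, -⟩ := FRB_.api h1 hH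
  refine hmk _ _ ?_
  have e1 : ff A B * (ff A B ^ ((p - 1) / 2)) ^ 2 = ff A B ^ (2 * ((p - 1) / 2) + 1) := by ring
  rw [e1, odd_eq h5, ← hφ.f]
  unfold ff ev
  rw [map_add, map_add, map_mul, map_pow, hφ.C, hφ.C, hφ.X]

theorem X_ne (h3 : T_RFG) (h5 : 5 ≤ p) : (RatFunc.X : RatFunc k) ≠ RatFunc.X ^ p := by
  intro h
  have h1 := FRB_.rdeg_Xp (k := k) h3 p
  have h2 := FRB_.rdeg_Xp (k := k) h3 1
  rw [← h] at h1
  rw [pow_one, h1] at h2
  omega

/-- coordinates of `1 + π` are fixed by `φ = Frobenius` -/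
theorem fix (h1 : T_API) (h3 : T_RFG) (hH : Hyp A B) {φ : RatFunc k →+* RatFunc k}
    (hφ : FRB_.IsPhi p A B φ) (h5 : 5 ≤ p) :
    φ (xr (idM A B + piM p A B)) = xr (idM A B + piM p A B) ^ p ∧
    φ (yr (idM A B + piM p A B)) = yr (idM A B + piM p A B) ^ p := by
  have hp : p.Prime := Fact.out
  have : ExpChar (RatFunc k) p := ExpChar.prime hp
  obtain ⟨i0, i1, i2⟩ := id_coord h1 hH
  obtain ⟨j0, j1, j2⟩ := pi_coord h1 hH hφ h5
  obtain ⟨-, -, -, -, -, hadd, -⟩ := FRB_.api h1 hH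
  obtain ⟨-, hx, hy⟩ := hadd _ _ i0 j0 (by rw [i1, j1]; exact X_ne h3 h5)
  let L : Subfield (RatFunc k) := RingHom.eqLocusField φ (frobenius (RatFunc k) p)
  have hX : (RatFunc.X : RatFunc k) ∈ L := hφ.X
  have hf : ff A B ∈ L := hφ.f
  have hXp : (RatFunc.X : RatFunc k) ^ p ∈ L := pow_mem hX p
  have hfp : ff A B ^ ((p - 1) / 2) ∈ L := pow_mem hf _
  have hm : (yr (idM A B) - yr (piM p A B)) / (xr (idM A B) - xr (piM p A B)) ∈ L := by
    rw [i1, i2, j1, j2]
    exact div_mem (sub_mem (one_mem L) hfp) (sub_mem hX hXp)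
  have h6 : xr (idM A B + piM p A B) ∈ L := by
    rw [hx]
    refine sub_mem (sub_mem (mul_mem hf (pow_mem hm 2)) ?_) ?_
    · rw [i1]; exact hX
    · rw [j1]; exact hXp
  have h7 : yr (idM A B + piM p A B) ∈ L := by
    rw [hy]
    refine neg_mem (add_mem (mul_mem hm (sub_mem h6 ?_)) ?_)
    · rw [i1]; exact hX
    · rw [i2]; exact one_mem L
  exact ⟨h6, h7⟩

end

end HC_

open HC_ in
/-- HC: Hamilton-Cayley for Frobenius, up to torsion -/
theorem p_HC (hAPI : T_API) (hPAR : T_PAR) (hQFA : T_QFA) (hFRB : T_FRB) (hNPI : T_NPI)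
    (hHB : T_HB) (hCMP : T_CMP) (hRFC : T_RFC) (hRFG : T_RFG) : T_HC := by
  intro p _ k _ _ _ h5 a b hH
  have hp : p.Prime := Fact.out
  obtain ⟨φ, hφ⟩ := FRB_.exists_phi (k := k) hRFC hRFG a b
  set A := zc p k a with hA
  set B := zc p k b with hB
  set i := idM A B with hi
  set π := piM p A B with hπ
  set t : ℤ := (p : ℤ) - Naff p a b with ht
  obtain ⟨hff, hmk, hpt, hneg, hcase, hadd, hdbl, htor⟩ := FRB_.api hAPI hH
  obtain ⟨i0, i1, i2⟩ := id_coord hAPI hH
  obtain ⟨j0, j1, j2⟩ := pi_coord hAPI hH hφ h5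
  obtain ⟨d1, d2, d3⟩ := hNPI p k h5 a b hH
  obtain ⟨b1, b2⟩ := hHB p k h5 a b hH
  obtain ⟨f1, f2, f3⟩ := hFRB p k h5 a b hH
  have hpar := hPAR k A B hH
  let q : MM A B → ℤ := fun P => (dd P : ℤ)
  have hq : Par q := by
    refine ⟨fun x y => ?_, fun x => Int.natCast_nonneg _⟩
    have := hpar x y
    change ((dd (x + y) : ℕ) : ℤ) + ((dd (x - y) : ℕ) : ℤ) = 2 * (dd x : ℤ) + 2 * (dd y : ℤ)
    exact_mod_cast this
  obtain ⟨q0, qneg, qself, qsymm, qadd, qnegl, qsmul, -, -, -⟩ := hQFA (MM A B) q hq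
  have qi : q i = 1 := by
    change ((dd i : ℕ) : ℤ) = 1
    rw [d1]; rfl
  have qπ : q π = p := by
    change ((dd π : ℕ) : ℤ) = p
    rw [d2]
  have qip : q (i - π) = 1 + p - t := by
    change ((dd (i - π) : ℕ) : ℤ) = _
    rw [d3, ht]
    push_cast
    ring
  have bip : bl q i π = t := b1
  -- `P = 1 + π`
  set P := i + π with hP
  have qP : q P = 1 + p + t := by
    have e : bl q i π = q P - q i - q π := rfl
    rw [bip, qi, qπ] at e
    linarith
  have hp2 : (5 : ℤ) ≤ p := by exact_mod_cast h5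
  have qP0 : q P ≠ 0 := by
    intro h0
    rw [qP] at h0
    have e1 : t = -(1 + p) := by linarith
    rw [← ht, e1] at b2
    nlinarith
  have hxP : ∀ c : k, xr P ≠ RatFunc.C c := by
    intro c hc
    apply qP0
    change ((dd P : ℕ) : ℤ) = 0
    have : dd P = 0 := by
      unfold dd
      exact ((hRFG k).2.1 _).2 ⟨c, hc⟩
    rw [this]; rfl
  have hP0 : P ≠ 0 := by
    intro h0
    apply hxP 0
    rw [h0, map_zero]
    rfl
  obtain ⟨Φ, c1, c2, c3⟩ := hCMP k A B hH P hxP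
  have c1' : Φ i = P := c1
  -- `Φ π = frb P`
  obtain ⟨g1, g2, g3⟩ := FRB_.frb_coord hAPI hH hφ h5 hP0
  obtain ⟨k1, k2, k3⟩ := c3 π j0
  obtain ⟨x1, x2⟩ := fix hAPI hRFG hH hφ h5
  obtain ⟨radd, -, rmul, -, rpow, rC, rX, -⟩ := hRFC k (xr P) hxP
  have hΦπ : Φ π = frb p P := by
    refine FRB_.ext_pt hAPI hH k1 g1 ?_ ?_
    · rw [k2, g2, j1, rpow, rX]
      exact x1.symm
    · rw [k3, g3, j2, rpow]
      have e1 : rcomp (ff A B) (xr P) = ev A B (xr P) := by
        unfold ff ev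
        rw [radd, radd, rmul, rpow, rX, rC, rC]
      have e2 : φ (yr P) = yr P ^ p := x2
      rw [e1, ← (hpt P hP0).1, e2, mul_pow, ← pow_mul]
      have e3 : yr P ^ p = yr P ^ (2 * ((p - 1) / 2)) * yr P := by
        rw [← pow_succ, odd_eq h5]
      rw [e3]
      ring
  have fP : frb p P = π + frb p π := by
    rw [hP, f1, f3]
  have hΦ : Φ (π - i) = frb p π - i := by
    rw [map_sub, c1', hΦπ, fP, hP]
    abel
  set F := frb p π with hF
  have qF : q F = p * p := by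
    change ((dd (frb p π) : ℕ) : ℤ) = _
    rw [f2 π, d2]
    push_cast
    ring
  have qFi : q (F - i) = (1 + p - t) * (1 + p + t) := by
    have e1 := c2 (π - i)
    rw [hΦ] at e1
    have e2 : q (F - i) = q (π - i) * q P := by
      change ((dd (F - i) : ℕ) : ℤ) = (dd (π - i) : ℤ) * (dd P : ℤ)
      rw [e1]
      push_cast
      ring
    have e3 : q (π - i) = q (i - π) := by
      rw [← qneg (i - π), neg_sub]
    rw [e2, e3, qip, qP]
  have bFi : bl q F i = t ^ 2 - 2 * p := by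
    have e1 := hq.1 F i
    have e2 : bl q F i = q (F + i) - q F - q i := rfl
    rw [qFi, qF, qi] at e1
    rw [qF, qi] at e2
    rw [e2]
    linear_combination e1
  have bFπ : bl q F π = p * t := by
    have e0 : frb p i = π := f3
    have e1 : F + π = frb p (π + i) := by
      rw [f1, e0]
    have e2 : q (F + π) = p * q (π + i) := by
      rw [e1]
      change ((dd (frb p (π + i)) : ℕ) : ℤ) = _
      rw [f2 (π + i)]
      push_cast
      rfl
    have e3 : bl q F π = q (F + π) - q F - q π := rfl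
    rw [e3, e2, add_comm π i, ← hP, qP, qF, qπ]
    ring
  -- the quadratic form of `z`
  set z := F - t • π + (p : ℤ) • i with hz
  have hzz : z = F + (-t) • π + (p : ℤ) • i := by
    rw [hz, neg_smul, sub_eq_add_neg]
  have qaddr : ∀ x y w, bl q w (x + y) = bl q w x + bl q w y := by
    intro x y w
    rw [qsymm w, qadd, qsymm x, qsymm y]
  have qsmulr : ∀ (n : ℤ) x y, bl q x (n • y) = n * bl q x y := by
    intro n x y
    rw [qsymm x, qsmul, qsymm y]
  have hq2 : 2 * q z = 0 := by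
    rw [← qself z, hzz]
    simp only [qadd, qaddr, qsmul, qsmulr]
    rw [qself F, qself π, qself i, qsymm π F, qsymm i F, qsymm π i, bFi, bFπ, bip, qF, qπ, qi]
    ring
  have hqz : q z = 0 := by linarith
  have : ((dd z : ℕ) : ℤ) = 0 := hqz
  exact_mod_cast this

end SSA
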