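import Pool.Agent.SSA.Targets

/-!
# MP_d74fca_nt, algebraic part: number of points mod `p` and the Hasse invariant
-/

open Polynomial

namespace SSA

namespace HIN_

variable {p : ℕ} [Fact p.Prime]

theorem ringChar_ne_two (hp : 5 ≤ p) : ringChar (ZMod p) ≠ 2 := by
  rw [ZMod.ringChar_zmod_n]; omega

theorem card_sqrts (hp : 5 ≤ p) (u : ZMod p) :
    ((Nat.card {y : ZMod p // y ^ 2 = u} : ℕ) : ZMod p) = 1 + u ^ ((p - 1) / 2) := by
  have h1 := quadraticChar_card_sqrts (ringChar_ne_two hp) u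
  have h2 := quadraticChar_eq_pow_of_char_ne_two' (ringChar_ne_two hp) u
  have h3 : Nat.card {y : ZMod p // y ^ 2 = u} = ({x : ZMod p | x ^ 2 = u}.toFinset).card := by
    rw [Set.toFinset_card, ← Nat.card_eq_fintype_card]
    rfl
  have h4 : p / 2 = (p - 1) / 2 := by
    have hodd : p % 2 = 1 := by
      have := (Fact.out : p.Prime).eq_two_or_odd
      omega
    omega
  rw [ZMod.card, h4] at h2
  have h5 : ((({x : ZMod p | x ^ 2 = u}.toFinset).card : ℤ) : ZMod p) =
      ((quadraticChar (ZMod p) u + 1 : ℤ) : ZMod p) := by rw [h1]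
  rw [h3, ← h2]
  push_cast at h5 ⊢
  rw [h5]; ring

theorem Naff_eq (a b : ZMod p) :
    Naff p a b = ∑ x : ZMod p, Nat.card {y : ZMod p // y ^ 2 = x ^ 3 + a * x + b} := by
  unfold Naff
  rw [Nat.card_congr (Equiv.subtypeProdEquivSigmaSubtype
    (fun (x y : ZMod p) => y ^ 2 = x ^ 3 + a * x + b)), Nat.card_sigma]

theorem sum_pow_all (_hp : 5 ≤ p) (i : ℕ) (hi : i < 2 * (p - 1)) :
    ∑ x : ZMod p, x ^ i = if i = p - 1 then (-1 : ZMod p) else 0 := by
  rcases Nat.lt_or_ge i (p - 1) with h | h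
  · rw [if_neg (by omega)]
    exact FiniteField.sum_pow_lt_card_sub_one (ZMod p) i (by rw [ZMod.card]; exact h)
  · have hi0 : i ≠ 0 := by omega
    have h1 : ∑ x : ZMod p, x ^ i = ∑ x : (ZMod p)ˣ, (x : ZMod p) ^ i := by
      have h2 : ∑ x : ZMod p, x ^ i = ∑ x ∈ Finset.univ.filter (fun x : ZMod p => x ≠ 0), x ^ i := by
        rw [Finset.sum_filter]
        refine Finset.sum_congr rfl fun x _ => ?_
        by_cases hx : x = 0
        · rw [if_neg (by simp [hx]), hx, zero_pow hi0]
        · rw [if_pos hx]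
      rw [h2]
      symm
      refine Finset.sum_bij (fun (u : (ZMod p)ˣ) _ => (u : ZMod p)) ?_ ?_ ?_ ?_
      · intro u _
        simp
      · intro u _ v _ h
        exact Units.ext h
      · intro x hx
        have hx0 : x ≠ 0 := by simpa using hx
        exact ⟨Units.mk0 x hx0, Finset.mem_univ _, rfl⟩
      · intro u _
        rfl
    rw [h1]
    have h3 := FiniteField.sum_pow_units (ZMod p) i
    rw [ZMod.card] at h3
    rw [h3]
    have h5 : (p - 1 ∣ i) ↔ i = p - 1 := by
      constructor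
      · rintro ⟨c, hc⟩
        have hc1 : c < 2 := by
          by_contra hcon
          have h6 : (p - 1) * 2 ≤ (p - 1) * c := Nat.mul_le_mul_left _ (by omega)
          omega
        have hc2 : c ≠ 0 := by
          rintro rfl
          omega
        have hc3 : c = 1 := by omega
        rw [hc, hc3, mul_one]
      · intro h6
        rw [h6]
    by_cases h7 : i = p - 1
    · rw [if_pos (h5.2 h7), if_pos h7]
    · rw [if_neg (fun h8 => h7 (h5.1 h8)), if_neg h7]

theorem natDegree_fp (a b : ZMod p) : (fp a b).natDegree ≤ 3 := by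
  unfold fp
  compute_degree

theorem natDegree_pow (hp : 5 ≤ p) (a b : ZMod p) :
    (fp a b ^ ((p - 1) / 2)).natDegree < 2 * (p - 1) := by
  have h1 : (fp a b ^ ((p - 1) / 2)).natDegree ≤ (p - 1) / 2 * 3 :=
    natDegree_pow_le_of_le _ (natDegree_fp a b)
  omega

theorem eval_fp (a b x : ZMod p) : (fp a b).eval x = x ^ 3 + a * x + b := by
  simp [fp]

theorem sum_eval (hp : 5 ≤ p) (P : (ZMod p)[X]) (hP : P.natDegree < 2 * (p - 1)) :
    ∑ x : ZMod p, P.eval x = - P.coeff (p - 1) := by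
  have h1 : ∀ x : ZMod p, P.eval x = ∑ i ∈ Finset.range (2 * (p - 1)), P.coeff i * x ^ i :=
    fun x => eval_eq_sum_range' hP x
  simp_rw [h1]
  rw [Finset.sum_comm]
  have h2 : ∀ i ∈ Finset.range (2 * (p - 1)), ∑ x : ZMod p, P.coeff i * x ^ i =
      if i = p - 1 then - P.coeff (p - 1) else 0 := by
    intro i hi
    rw [← Finset.mul_sum, sum_pow_all hp i (Finset.mem_range.1 hi)]
    by_cases h3 : i = p - 1
    · rw [if_pos h3, if_pos h3, h3]; ring
    · rw [if_neg h3, if_neg h3, mul_zero]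
  rw [Finset.sum_congr rfl h2, Finset.sum_ite_eq', if_pos (Finset.mem_range.2 (by omega))]

end HIN_

open HIN_ in
theorem p_HIN : T_HIN := by
  intro p _ hp a b
  rw [Naff_eq a b]
  push_cast
  have h1 : ∀ x : ZMod p, ((Nat.card {y : ZMod p // y ^ 2 = x ^ 3 + a * x + b} : ℕ) : ZMod p) =
      1 + (fp a b ^ ((p - 1) / 2)).eval x := by
    intro x
    rw [card_sqrts hp, eval_pow, eval_fp]
  rw [Finset.sum_congr rfl fun x _ => h1 x, Finset.sum_add_distrib,
    sum_eval hp _ (natDegree_pow hp a b)]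
  simp

end SSA
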