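import Pool.Agent.SSA.Targets

/-!
# MP_d74fca_nt, algebraic part: HLV (halving), helper47
-/

open Polynomial

namespace SSA

namespace HLV_

variable {k : Type} [Field k]

/-- coefficients of the cubic in terms of its roots -/
theorem coeffs (a b : k) (e : Fin 3 → k) (he : fp a b = ∏ i, (X - C (e i))) :
    e 0 + e 1 + e 2 = 0 ∧ a = e 0 * e 1 + e 0 * e 2 + e 1 * e 2 ∧ b = -(e 0 * e 1 * e 2) := by
  obtain ⟨s, hs⟩ : ∃ s, s = e 0 + e 1 + e 2 := ⟨_, rfl⟩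
  obtain ⟨t, ht⟩ : ∃ t, t = e 0 * e 1 + e 0 * e 2 + e 1 * e 2 := ⟨_, rfl⟩
  obtain ⟨u, hu⟩ : ∃ u, u = e 0 * e 1 * e 2 := ⟨_, rfl⟩
  have h2 : fp a b = X ^ 3 - C s * X ^ 2 + C t * X - C u := by
    rw [he, Fin.prod_univ_three, hs, ht, hu]
    simp only [C_add, C_mul]
    ring
  unfold fp at h2
  have c0 := congrArg (fun p : k[X] => p.coeff 0) h2
  have c1 := congrArg (fun p : k[X] => p.coeff 1) h2
  have c2 := congrArg (fun p : k[X] => p.coeff 2) h2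
  simp [coeff_X, coeff_C, coeff_X_pow] at c0 c1 c2
  rw [← hs, ← ht, ← hu]
  refine ⟨?_, ?_, ?_⟩
  · linear_combination c2
  · linear_combination c1
  · linear_combination c0

theorem ev_eq (a b : k) (e : Fin 3 → k) (he : fp a b = ∏ i, (X - C (e i))) (R : RatFunc k) :
    ev a b R = (R - RatFunc.C (e 0)) * (R - RatFunc.C (e 1)) * (R - RatFunc.C (e 2)) := by
  obtain ⟨h0, h1, h2⟩ := coeffs a b e he
  have g0 : RatFunc.C (e 0) + RatFunc.C (e 1) + RatFunc.C (e 2) = (0 : RatFunc k) := by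
    rw [← map_add, ← map_add, h0, map_zero]
  unfold ev
  rw [h1, h2]
  simp only [map_add, map_mul, map_neg]
  linear_combination R ^ 2 * g0

/-- the chord identity -/
theorem chord {K : Type} [Field K] (f a b R1 S1 R2 S2 m R3 e : K)
    (h1 : f * S1 ^ 2 = R1 ^ 3 + a * R1 + b) (h2 : f * S2 ^ 2 = R2 ^ 3 + a * R2 + b)
    (hne : R1 ≠ R2) (hm : m = (S1 - S2) / (R1 - R2)) (h3 : R3 = f * m ^ 2 - R1 - R2)
    (he : e ^ 3 + a * e + b = 0) :
    (R1 - e) * (R2 - e) * (R3 - e) = f * (S1 + m * (e - R1)) ^ 2 := by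
  have hd : R1 - R2 ≠ 0 := sub_ne_zero.mpr hne
  have hm' : m * (R1 - R2) = S1 - S2 := by rw [hm]; field_simp
  -- key relation : f * m * (S1 + S2) = R1^2 + R1 R2 + R2^2 + a
  have key : f * m * (S1 + S2) = R1 ^ 2 + R1 * R2 + R2 ^ 2 + a := by
    apply mul_right_cancel₀ hd
    linear_combination f * (S1 + S2) * hm' + h1 - h2
  subst h3
  have hS2 : S2 = S1 - m * (R1 - R2) := by linear_combination hm'
  rw [hS2] at key
  linear_combination -he - h1 - (e - R1) * key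

/-- the algebra of halving -/
theorem half {K : Type} [Field K] (f a b R3 S3 e0 e1 e2 r0 r1 r2 : K) (hf : f ≠ 0) (h2 : (2 : K) ≠ 0)
    (hs : e0 + e1 + e2 = 0) (ha : a = e0 * e1 + e0 * e2 + e1 * e2) (hb : b = -(e0 * e1 * e2))
    (h01 : e0 ≠ e1) (h02 : e0 ≠ e2) (h12 : e1 ≠ e2)
    (hr0 : r0 ^ 2 = f * (R3 - e0)) (hr1 : r1 ^ 2 = f * (R3 - e1)) (hr2 : r2 ^ 2 = f * (R3 - e2))
    (hr : r0 * r1 * r2 = f ^ 2 * S3) :
    ∃ RH SH : K, f * SH ^ 2 = RH ^ 3 + a * RH + b ∧ SH ≠ 0 ∧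
      f * ((3 * RH ^ 2 + a) / (2 * f * SH)) ^ 2 - 2 * RH = R3 ∧
      -((3 * RH ^ 2 + a) / (2 * f * SH) * (R3 - RH) + SH) = S3 := by
  obtain ⟨RH, hRH⟩ : ∃ RH, RH = (f * R3 + (r0 * r1 + r0 * r2 + r1 * r2)) / f := ⟨_, rfl⟩
  obtain ⟨SH, hSH⟩ : ∃ SH, SH = (r0 + r1) * (r0 + r2) * (r1 + r2) / f ^ 2 := ⟨_, rfl⟩
  have hRH' : f * RH = f * R3 + (r0 * r1 + r0 * r2 + r1 * r2) := by rw [hRH]; field_simp
  have hSH' : f ^ 2 * SH = (r0 + r1) * (r0 + r2) * (r1 + r2) := by rw [hSH]; field_simp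
  have k0 : f * (RH - e0) = (r0 + r1) * (r0 + r2) := by linear_combination hRH' - hr0
  have k1 : f * (RH - e1) = (r0 + r1) * (r1 + r2) := by linear_combination hRH' - hr1
  have k2 : f * (RH - e2) = (r0 + r2) * (r1 + r2) := by linear_combination hRH' - hr2
  have n01 : r0 + r1 ≠ 0 := by
    intro h
    apply h01
    apply mul_left_cancel₀ hf
    linear_combination hr0 - hr1 - (r0 - r1) * h
  have n02 : r0 + r2 ≠ 0 := by
    intro h
    apply h02
    apply mul_left_cancel₀ hf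
    linear_combination hr0 - hr2 - (r0 - r2) * h
  have n12 : r1 + r2 ≠ 0 := by
    intro h
    apply h12
    apply mul_left_cancel₀ hf
    linear_combination hr1 - hr2 - (r1 - r2) * h
  have hSne : SH ≠ 0 := by
    intro h
    rw [h, mul_zero] at hSH'
    exact mul_ne_zero (mul_ne_zero n01 n02) n12 hSH'.symm
  have hev : RH ^ 3 + a * RH + b = (RH - e0) * (RH - e1) * (RH - e2) := by
    rw [ha, hb]
    linear_combination RH ^ 2 * hs
  have hder : 3 * RH ^ 2 + a = (RH - e0) * (RH - e1) + (RH - e0) * (RH - e2) +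
      (RH - e1) * (RH - e2) := by
    rw [ha]
    linear_combination 2 * RH * hs
  have hslope : (3 * RH ^ 2 + a) / (2 * f * SH) = (r0 + r1 + r2) / f := by
    rw [div_eq_div_iff (mul_ne_zero (mul_ne_zero h2 hf) hSne) hf]
    have hf2 : f ^ 2 ≠ 0 := pow_ne_zero 2 hf
    apply mul_left_cancel₀ hf2
    rw [hder]
    have e1' : f ^ 2 * (((RH - e0) * (RH - e1) + (RH - e0) * (RH - e2) +
      (RH - e1) * (RH - e2)) * f) = f * ((f * (RH - e0)) * (f * (RH - e1)) +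
        (f * (RH - e0)) * (f * (RH - e2)) + (f * (RH - e1)) * (f * (RH - e2))) := by ring
    rw [e1', k0, k1, k2]
    linear_combination (-2) * f * (r0 + r1 + r2) * hSH'
  refine ⟨RH, SH, ?_, hSne, ?_, ?_⟩
  · rw [hev]
    have hf3 : f ^ 3 ≠ 0 := pow_ne_zero 3 hf
    apply mul_left_cancel₀ hf3
    have e1' : f ^ 3 * ((RH - e0) * (RH - e1) * (RH - e2)) =
      (f * (RH - e0)) * (f * (RH - e1)) * (f * (RH - e2)) := by ring
    rw [e1', k0, k1, k2]
    linear_combination (f ^ 2 * SH + (r0 + r1) * (r0 + r2) * (r1 + r2)) * hSH'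
  · rw [hslope]
    apply mul_left_cancel₀ hf
    have : f * (f * ((r0 + r1 + r2) / f) ^ 2 - 2 * RH) = (r0 + r1 + r2) ^ 2 - 2 * (f * RH) := by
      field_simp
    rw [this, hRH']
    linear_combination hr0 + hr1 + hr2 - f * hs
  · rw [hslope]
    have hf2 : f ^ 2 ≠ 0 := pow_ne_zero 2 hf
    apply mul_left_cancel₀ hf2
    have : f ^ 2 * -((r0 + r1 + r2) / f * (R3 - RH) + SH) =
      -((r0 + r1 + r2) * (f * R3 - f * RH) + f ^ 2 * SH) := by
      field_simp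
    rw [this, hRH', hSH', ← hr]
    ring

end HLV_

open HLV_ in
theorem p_HLV (h1 : T_API) : T_HLV := by
  intro k _ a b hyp e he P Q hP hQ hPQ hPQ' hPe hQe hsq
  obtain ⟨hf, -, hmk, hpt, hneg, hxeq, hadd, hdbl, -⟩ := h1 k a b hyp
  obtain ⟨c0, c1, c2⟩ := coeffs a b e he
  have hx : xr P ≠ xr Q := by
    intro h
    rcases hxeq P Q hP hQ h with h' | h'
    · exact hPQ h'
    · exact hPQ' h'
  obtain ⟨hne, hx3, hy3⟩ := hadd P Q hP hQ hx
  obtain ⟨hPc, -⟩ := hpt P hP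
  obtain ⟨hQc, -⟩ := hpt Q hQ
  obtain ⟨h3c, h3mk⟩ := hpt (P + Q) hne
  -- roots
  have hroot : ∀ i, RatFunc.C (e i) ^ 3 + RatFunc.C a * RatFunc.C (e i) + RatFunc.C b
      = (0 : RatFunc k) := by
    intro i
    have := ev_eq a b e he (RatFunc.C (e i))
    unfold ev at this
    rw [this]
    fin_cases i <;> simp
  set f := ff a b with hfdef
  set m := (yr P - yr Q) / (xr P - xr Q) with hm
  have hsqr : ∀ i, ∃ r : RatFunc k, r ^ 2 = f * (xr (P + Q) - RatFunc.C (e i)) := by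
    intro i
    obtain ⟨q, hq⟩ := hsq i
    have hch := chord f (RatFunc.C a) (RatFunc.C b) (xr P) (yr P) (xr Q) (yr Q) m (xr (P + Q))
      (RatFunc.C (e i)) hPc hQc hx hm hx3 (hroot i)
    have hP0 : xr P - RatFunc.C (e i) ≠ 0 := sub_ne_zero.mpr (hPe i)
    have hQ0 : xr Q - RatFunc.C (e i) ≠ 0 := sub_ne_zero.mpr (hQe i)
    have hq0 : q ≠ 0 := by
      intro h
      rw [h, mul_zero] at hq
      exact mul_ne_zero hP0 hQ0 hq
    refine ⟨f * (yr P + m * (RatFunc.C (e i) - xr P)) / q, ?_⟩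
    rw [div_pow, div_eq_iff (pow_ne_zero 2 hq0)]
    rw [hq] at hch
    linear_combination (-f) * hch
  obtain ⟨r0, hr0⟩ := hsqr 0
  obtain ⟨r1, hr1⟩ := hsqr 1
  obtain ⟨r2, hr2⟩ := hsqr 2
  have hprod : (r0 * r1 * r2) ^ 2 = (f ^ 2 * yr (P + Q)) ^ 2 := by
    have h4 : (r0 * r1 * r2) ^ 2 = r0 ^ 2 * r1 ^ 2 * r2 ^ 2 := by ring
    rw [h4, hr0, hr1, hr2]
    rw [ev_eq a b e he] at h3c
    linear_combination (-f ^ 3) * h3c
  obtain ⟨r0', hr0', hrr⟩ : ∃ r0' : RatFunc k, r0' ^ 2 = f * (xr (P + Q) - RatFunc.C (e 0)) ∧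
      r0' * r1 * r2 = f ^ 2 * yr (P + Q) := by
    rcases sq_eq_sq_iff_eq_or_eq_neg.mp hprod with h | h
    · exact ⟨r0, hr0, h⟩
    · exact ⟨-r0, by rw [neg_pow_two]; exact hr0, by linear_combination -h⟩
  -- distinct roots
  have hdisc : 4 * a ^ 3 + 27 * b ^ 2 = -((e 0 - e 1) * (e 0 - e 2) * (e 1 - e 2)) ^ 2 := by
    rw [c1, c2]
    have h20 : e 2 = -(e 0 + e 1) := by linear_combination c0
    rw [h20]
    ring
  have hd := hyp.disc
  rw [hdisc] at hd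
  have hd' : (e 0 - e 1) * (e 0 - e 2) * (e 1 - e 2) ≠ 0 := by
    intro h
    apply hd
    rw [h]
    ring
  have hCinj : Function.Injective (RatFunc.C : k →+* RatFunc k) := (RatFunc.C : k →+* RatFunc k).injective
  have d01 : (RatFunc.C (e 0) : RatFunc k) ≠ RatFunc.C (e 1) := fun h =>
    left_ne_zero_of_mul (left_ne_zero_of_mul hd') (sub_eq_zero.mpr (hCinj h))
  have d02 : (RatFunc.C (e 0) : RatFunc k) ≠ RatFunc.C (e 2) := fun h =>
    right_ne_zero_of_mul (left_ne_zero_of_mul hd') (sub_eq_zero.mpr (hCinj h))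
  have d12 : (RatFunc.C (e 1) : RatFunc k) ≠ RatFunc.C (e 2) := fun h =>
    right_ne_zero_of_mul hd' (sub_eq_zero.mpr (hCinj h))
  have h2 : (2 : RatFunc k) ≠ 0 := by
    intro h
    apply hyp.two
    apply hCinj
    rw [map_zero, map_ofNat, h]
  obtain ⟨RH, SH, hcH, hS0, hxH, hyH⟩ := half f (RatFunc.C a) (RatFunc.C b) (xr (P + Q)) (yr (P + Q))
    (RatFunc.C (e 0)) (RatFunc.C (e 1)) (RatFunc.C (e 2)) r0' r1 r2 hf h2
    (by rw [← map_add, ← map_add, c0, map_zero])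
    (by conv_lhs => rw [c1]
        simp only [map_add, map_mul])
    (by conv_lhs => rw [c2]
        simp only [map_neg, map_mul]) d01 d02 d12 hr0' hr1 hr2 hrr
  obtain ⟨hH0, hHx, hHy⟩ := hmk RH SH hcH
  refine ⟨mkP a b RH SH, ?_⟩
  obtain ⟨hHH0, hHHx, hHHy⟩ := hdbl (mkP a b RH SH) hH0 (by rw [hHy]; exact hS0)
  have e1 : xr (mkP a b RH SH + mkP a b RH SH) = xr (P + Q) := by
    rw [hHHx, hHx, hHy]
    exact hxH
  have e2 : yr (mkP a b RH SH + mkP a b RH SH) = yr (P + Q) := by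
    rw [hHHy, e1, hHx, hHy]
    exact hyH
  obtain ⟨-, hmk2⟩ := hpt _ hHH0
  rw [h3mk, hmk2, e1, e2]

end SSA
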