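import Pool.Agent.SSA.Targets

set_option autoImplicit false

/-!
# INERT: the maps belonging to the inert primes
-/

open Polynomial

namespace SSA

namespace INERT_

/-- the Gram determinant with an orthogonal first vector -/
theorem gram_cons {A : Type} [AddCommGroup A] (q : A → ℤ) {n : ℕ} (x : A) (v : Fin n → A)
    (h : ∀ i, bl q x (v i) = 0) :
    (gram q (Fin.cons x v : Fin (n + 1) → A)).det = bl q x x * (gram q v).det := by
  rw [Matrix.det_succ_row_zero, Fin.sum_univ_succ, Finset.sum_eq_zero, add_zero]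
  · have h1 : (gram q (Fin.cons x v : Fin (n + 1) → A)).submatrix Fin.succ
        (Fin.succAbove (0 : Fin (n + 1))) = gram q v := by
      ext i j
      simp only [Matrix.submatrix_apply, gram, Fin.cons_succ, Fin.zero_succAbove]
    rw [h1]
    simp only [gram, Fin.cons_zero, Fin.val_zero, pow_zero, one_mul]
  · intro i _
    have h1 : gram q (Fin.cons x v : Fin (n + 1) → A) 0 i.succ = 0 := by
      simp only [gram, Fin.cons_zero, Fin.cons_succ]
      exact h i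
    rw [h1, mul_zero, zero_mul]

/-- four times the product of two different primes is not a square -/
theorem not_sq {l l' : ℕ} (hl : l.Prime) (hl' : l'.Prime) (h : l ≠ l') (u : ℤ) :
    4 * (l : ℤ) * l' - u ^ 2 ≠ 0 := by
  intro h0
  have h1 : (2 : ℤ) ∣ u := by
    have h2 : (2 : ℤ) ∣ u ^ 2 := ⟨2 * l * l', by linarith⟩
    exact Int.prime_two.dvd_of_dvd_pow h2
  obtain ⟨w, rfl⟩ := h1
  have h2 : (l : ℤ) * l' = w ^ 2 := by nlinarith
  have hlp : Prime (l : ℤ) := Nat.prime_iff_prime_int.mp hl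
  have h3 : (l : ℤ) ∣ w := hlp.dvd_of_dvd_pow ⟨(l' : ℤ), h2.symm⟩
  obtain ⟨z, rfl⟩ := h3
  have hl0 : (l : ℤ) ≠ 0 := hlp.ne_zero
  have h4 : (l' : ℤ) = l * z ^ 2 := by
    apply mul_left_cancel₀ hl0
    rw [h2]
    ring
  have h5 : (l : ℤ) ∣ (l' : ℤ) := ⟨z ^ 2, h4⟩
  have h6 : l ∣ l' := by exact_mod_cast h5
  exact h ((Nat.prime_dvd_prime_iff_eq hl hl').mp h6)

end INERT_

open INERT_ in
/-- INERT -/
theorem p_INERT (_h1 : T_RFD) (h2 : T_ORT) (h3 : T_UCC) (h4 : T_SS) (h5 : T_HB) (h6 : T_RK4)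
    (h7 : T_LT2) (h8 : T_QFA) (h9 : T_PAR) (h10 : T_DDA) (h11 : T_NPI) : T_INERT := by
  intro p _ k _ _ _ hp a b hyp F hF
  have hpp : p.Prime := Fact.out
  -- the first claim
  have hfirst : F.Nonempty → Naff p a b = p := by
    rintro ⟨ℓ, hℓ⟩
    obtain ⟨hprime, R, c, σ, hD⟩ := hF ℓ hℓ
    obtain ⟨hcp, hder, _⟩ := h2 p k hp a b hyp ℓ R c σ hprime.pos hD
    obtain ⟨hc0, hc2, _, _, hrel, _⟩ := hD
    refine h4 p k hp a b hyp R c hder hc0 ?_ hrel
    rw [hcp]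
    intro h
    have h' : (2 : k) * c = 0 := by linear_combination (-1 : k) * h
    rcases mul_eq_zero.mp h' with h' | h'
    · exact hyp.two h'
    · exact hc0 h'
  refine ⟨hfirst, ?_⟩
  intro hcard
  have hne : F.Nonempty := Finset.card_pos.mp (by omega)
  have hN : Naff p a b = p := hfirst hne
  -- the points
  have hα : ∀ ℓ : ℕ, ∃ (α : MM (zc p k a) (zc p k b)) (c : k), ℓ ∈ F →
      ℓ.Prime ∧ c ≠ 0 ∧ c ^ 2 = -(ℓ : k) ∧ c ^ p = -c ∧ DD α = RatFunc.C c ∧ dd α = ℓ ∧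
      BB α (idM (zc p k a) (zc p k b)) = 0 ∧ BB α (piM p (zc p k a) (zc p k b)) = 0 := by
    intro ℓ
    by_cases hℓ : ℓ ∈ F
    · obtain ⟨hprime, R, c, σ, hD⟩ := hF ℓ hℓ
      obtain ⟨hcp, hder, α, e1, e2, e3, e4⟩ := h2 p k hp a b hyp ℓ R c σ hprime.pos hD
      obtain ⟨hc0, hc2, _, _, hrel, _⟩ := hD
      exact ⟨α, c, fun _ => ⟨hprime, hc0, hc2, hcp, e1, e2, e3, e4⟩⟩
    · exact ⟨0, 0, fun h => absurd h hℓ⟩
  choose α c hαc using hα
  -- the quadratic form
  set q : MM (zc p k a) (zc p k b) → ℤ := fun P => (dd P : ℤ) with hq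
  have hPar : Par q := by
    refine ⟨fun x y => ?_, fun x => Int.natCast_nonneg _⟩
    have := h9 k (zc p k a) (zc p k b) hyp x y
    simp only [hq]
    exact_mod_cast this
  have hbl : ∀ x y, bl q x y = BB x y := fun _ _ => rfl
  obtain ⟨q0, qneg, qdiag, qsymm, qadd, qnegl, _, _, _, _⟩ :=
    h8 (MM (zc p k a) (zc p k b)) q hPar
  obtain ⟨dadd, dneg, dzero, _⟩ := h10 k (zc p k a) (zc p k b) hyp
  have hbl0 : ∀ y, bl q 0 y = 0 := by
    intro y
    have h := qadd 0 0 y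
    rw [add_zero] at h
    linarith
  have hCinj : Function.Injective (RatFunc.C : k →+* RatFunc k) := RingHom.injective _
  set L : AddSubgroup (MM (zc p k a) (zc p k b)) := AddSubgroup.closure (α '' (F : Set ℕ)) with hL
  have hαL : ∀ ℓ ∈ F, α ℓ ∈ L := fun ℓ hℓ => AddSubgroup.subset_closure ⟨ℓ, hℓ, rfl⟩
  -- orthogonality to the identity and to Frobenius
  have horth : ∀ z : MM (zc p k a) (zc p k b), (∀ ℓ ∈ F, bl q (α ℓ) z = 0) →
      ∀ v ∈ L, bl q v z = 0 := by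
    intro z hz v hv
    refine AddSubgroup.closure_induction (p := fun v _ => bl q v z = 0) ?_ ?_ ?_ ?_ hv
    · rintro _ ⟨ℓ, hℓ, rfl⟩
      exact hz ℓ hℓ
    · exact hbl0 z
    · intro x y _ _ hx hy
      rw [qadd, hx, hy, add_zero]
    · intro x _ hx
      rw [qnegl, hx, neg_zero]
  have hid : ∀ v ∈ L, bl q v (idM (zc p k a) (zc p k b)) = 0 :=
    horth _ fun ℓ hℓ => (hαc ℓ hℓ).2.2.2.2.2.2.1
  have hpi : ∀ v ∈ L, bl q v (piM p (zc p k a) (zc p k b)) = 0 :=
    horth _ fun ℓ hℓ => (hαc ℓ hℓ).2.2.2.2.2.2.2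
  -- the action on the differential
  have hDD : ∀ v ∈ L, ∃ d : k, DD v = RatFunc.C d := by
    intro v hv
    refine AddSubgroup.closure_induction (p := fun v _ => ∃ d : k, DD v = RatFunc.C d)
      ?_ ?_ ?_ ?_ hv
    · rintro _ ⟨ℓ, hℓ, rfl⟩
      exact ⟨c ℓ, (hαc ℓ hℓ).2.2.2.2.1⟩
    · exact ⟨0, by rw [dzero, map_zero]⟩
    · rintro x y _ _ ⟨d, hd⟩ ⟨d', hd'⟩
      exact ⟨d + d', by rw [dadd, hd, hd', map_add]⟩
    · rintro x _ ⟨d, hd⟩
      exact ⟨-d, by rw [dneg, hd, map_neg]⟩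
  -- general additive extension
  have hext : ∀ (w : MM (zc p k a) (zc p k b)) (e : k),
      (∀ ℓ ∈ F, ((bl q (α ℓ) w : ℤ) : k) = -2 * c ℓ * e) →
      ∀ v ∈ L, ∀ d : k, DD v = RatFunc.C d → ((bl q v w : ℤ) : k) = -2 * d * e := by
    intro w e hw v hv
    refine AddSubgroup.closure_induction (p := fun v _ => ∀ d : k, DD v = RatFunc.C d →
      ((bl q v w : ℤ) : k) = -2 * d * e) ?_ ?_ ?_ ?_ hv
    · rintro _ ⟨ℓ, hℓ, rfl⟩ d hd
      have h := (hαc ℓ hℓ).2.2.2.2.1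
      rw [hd] at h
      rw [hCinj h]
      exact hw ℓ hℓ
    · intro d hd
      rw [dzero] at hd
      have : d = 0 := hCinj (by rw [← hd, map_zero])
      rw [hbl0, this]
      simp
    · intro x y hx' hy' hx hy d hd
      obtain ⟨d1, hd1⟩ := hDD x hx'
      obtain ⟨d2, hd2⟩ := hDD y hy'
      rw [dadd, hd1, hd2, ← map_add] at hd
      rw [← hCinj hd, qadd]
      push_cast
      rw [hx d1 hd1, hy d2 hd2]
      ring
    · intro x hx' hx d hd
      obtain ⟨d1, hd1⟩ := hDD x hx'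
      rw [dneg, hd1, ← map_neg] at hd
      rw [← hCinj hd, qnegl]
      push_cast
      rw [hx d1 hd1]
      ring
  have hpair : ∀ v ∈ L, ∀ w ∈ L, ∀ d e : k, DD v = RatFunc.C d → DD w = RatFunc.C e →
      ((bl q v w : ℤ) : k) = -2 * d * e := by
    intro v hv w hw d e hd he
    refine hext w e ?_ v hv d hd
    intro ℓ hℓ
    rw [qsymm]
    have h := hext (α ℓ) (c ℓ) ?_ w hw e he
    · rw [h]; ring
    · intro ℓ' hℓ'
      obtain ⟨_, a2, a3, a4, a5, a6, _, _⟩ := hαc ℓ hℓ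
      obtain ⟨_, b2, b3, b4, b5, b6, _, _⟩ := hαc ℓ' hℓ'
      have h := h3 p k hp a b hyp (α ℓ') (α ℓ) (c ℓ') (c ℓ) b2 a2 b4 a4 b5 a5
        (by rw [b6, b3, neg_neg]) (by rw [a6, a3, neg_neg])
      exact h
  -- the Gram determinants
  have hnpi := h11 p k hp a b hyp
  have hgram : ∀ v : Fin 3 → MM (zc p k a) (zc p k b), (∀ i, v i ∈ L) → (gram q v).det = 0 := by
    intro v hv
    have hdet := h6 k (zc p k a) (zc p k b) hyp
      (Fin.cons (idM (zc p k a) (zc p k b)) (Fin.cons (piM p (zc p k a) (zc p k b)) v))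
    have hBid : bl q (idM (zc p k a) (zc p k b)) (piM p (zc p k a) (zc p k b)) = 0 := by
      rw [hbl, (h5 p k hp a b hyp).1, hN, sub_self]
    have e1 : (gram q (Fin.cons (idM (zc p k a) (zc p k b))
        (Fin.cons (piM p (zc p k a) (zc p k b)) v) : Fin 5 → MM (zc p k a) (zc p k b))).det =
        bl q (idM (zc p k a) (zc p k b)) (idM (zc p k a) (zc p k b)) *
          (gram q (Fin.cons (piM p (zc p k a) (zc p k b)) v :
            Fin 4 → MM (zc p k a) (zc p k b))).det := by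
      apply gram_cons
      intro i
      refine Fin.cases ?_ (fun j => ?_) i
      · exact hBid
      · rw [Fin.cons_succ, qsymm]
        exact hid _ (hv j)
    have e2 : (gram q (Fin.cons (piM p (zc p k a) (zc p k b)) v :
            Fin 4 → MM (zc p k a) (zc p k b))).det =
        bl q (piM p (zc p k a) (zc p k b)) (piM p (zc p k a) (zc p k b)) * (gram q v).det := by
      apply gram_cons
      intro i
      rw [qsymm]
      exact hpi _ (hv i)
    have hdet' : (gram q (Fin.cons (idM (zc p k a) (zc p k b))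
        (Fin.cons (piM p (zc p k a) (zc p k b)) v) : Fin 5 → MM (zc p k a) (zc p k b))).det = 0 :=
      hdet
    rw [e1, e2, qdiag, qdiag] at hdet'
    have f1 : q (idM (zc p k a) (zc p k b)) = 1 := by
      simp only [hq, hnpi.1]
      norm_num
    have f2 : q (piM p (zc p k a) (zc p k b)) = p := by
      simp only [hq, hnpi.2.1]
    rw [f1, f2] at hdet'
    have hp0 : (p : ℤ) ≠ 0 := by exact_mod_cast hpp.ne_zero
    rcases mul_eq_zero.mp hdet' with h | h
    · norm_num at h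
    · rcases mul_eq_zero.mp h with h | h
      · exfalso
        rcases mul_eq_zero.mp h with h | h
        · norm_num at h
        · exact hp0 h
      · exact h
  -- two different primes
  obtain ⟨ℓ, hℓ, ℓ', hℓ', hll⟩ := Finset.one_lt_card.mp (by omega : 1 < F.card)
  obtain ⟨e₁, he₁, e₂, he₂, hpos, hdisc, hrep⟩ := h7 (MM (zc p k a) (zc p k b)) q hPar L hgram
    ⟨α ℓ, hαL ℓ hℓ, α ℓ', hαL ℓ' hℓ', by
      have g1 : q (α ℓ) = ℓ := by
        simp only [hq, (hαc ℓ hℓ).2.2.2.2.2.1]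
      have g2 : q (α ℓ') = ℓ' := by
        simp only [hq, (hαc ℓ' hℓ').2.2.2.2.2.1]
      rw [g1, g2]
      exact not_sq (hαc ℓ hℓ).1 (hαc ℓ' hℓ').1 hll _⟩
  refine ⟨q e₁, bl q e₁ e₂, q e₂, hpos, hdisc, ?_, ?_⟩
  · rw [← CharP.intCast_eq_zero_iff k p]
    obtain ⟨d1, hd1⟩ := hDD e₁ he₁
    obtain ⟨d2, hd2⟩ := hDD e₂ he₂
    have g1 := hpair e₁ he₁ e₁ he₁ d1 d1 hd1 hd1
    have g2 := hpair e₂ he₂ e₂ he₂ d2 d2 hd2 hd2
    have g3 := hpair e₁ he₁ e₂ he₂ d1 d2 hd1 hd2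
    rw [qdiag] at g1 g2
    push_cast at g1 g2 ⊢
    have k1 : ((q e₁ : ℤ) : k) = - d1 ^ 2 := by
      apply mul_left_cancel₀ hyp.two
      rw [g1]
      ring
    have k2 : ((q e₂ : ℤ) : k) = - d2 ^ 2 := by
      apply mul_left_cancel₀ hyp.two
      rw [g2]
      ring
    rw [k1, k2, g3]
    ring
  · intro m hm
    obtain ⟨x, y, hxy⟩ := hrep (α m) (hαL m hm)
    refine ⟨x, y, ?_⟩
    rw [← hxy]
    simp only [hq, (hαc m hm).2.2.2.2.2.1]

end SSA
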