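import Pool.Agent.SSA.Targets

/-!
# INS: inseparable maps factor through the Frobenius
-/

set_option autoImplicit false

open Polynomial

namespace SSA

namespace INS_

variable {k : Type} [Field k]

/-- `X ^ p` is not constant -/
theorem xp_nonconst (p : ℕ) (hp : p ≠ 0) (c : k) :
    (RatFunc.X : RatFunc k) ^ p ≠ RatFunc.C c := by
  intro h
  rw [← RatFunc.algebraMap_X, ← RatFunc.algebraMap_C, ← map_pow] at h
  have h1 := RatFunc.algebraMap_injective k h
  have h2 := congrArg natDegree h1
  rw [natDegree_X_pow, natDegree_C] at h2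
  exact hp h2

/-- a rational function with zero derivative is a function of `X ^ p` -/
theorem desc (h3 : T_RFC) (p : ℕ) [Fact p.Prime] [CharP k p] (R : RatFunc k)
    (hR : rder R = 0) : ∃ G : RatFunc k, R = rcomp G (RatFunc.X ^ p) := by
  have hp0 : p ≠ 0 := (Fact.out : p.Prime).ne_zero
  have hD0 : R.denom ≠ 0 := RatFunc.denom_ne_zero R
  have hD1 : algebraMap k[X] (RatFunc k) (R.denom ^ 2) ≠ 0 := by
    rw [Ne, map_eq_zero_iff _ (RatFunc.algebraMap_injective k)]
    exact pow_ne_zero 2 hD0
  have h4 : derivative R.num * R.denom - R.num * derivative R.denom = 0 := by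
    rw [rder, div_eq_zero_iff] at hR
    rcases hR with hR | hR
    · exact (map_eq_zero_iff _ (RatFunc.algebraMap_injective k)).1 hR
    · exact absurd hR hD1
  have h5 : R.denom ∣ R.num * derivative R.denom :=
    ⟨derivative R.num, by linear_combination -h4⟩
  have h6 : R.denom ∣ derivative R.denom :=
    (RatFunc.isCoprime_num_denom R).symm.dvd_of_dvd_mul_left h5
  have h7 : derivative R.denom = 0 := by
    by_contra h8
    have h9 := degree_le_of_dvd h6 h8
    have h10 := degree_derivative_lt hD0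
    exact absurd h10 (not_lt.2 h9)
  have h8 : derivative R.num = 0 := by
    rw [h7, mul_zero, sub_zero] at h4
    rcases mul_eq_zero.1 h4 with h9 | h9
    · exact h9
    · exact absurd h9 hD0
  obtain ⟨-, -, -, hdiv, -, -, -, -, hpoly, -⟩ := h3 k (RatFunc.X ^ p) (xp_nonconst p hp0)
  refine ⟨algebraMap k[X] (RatFunc k) (contract p R.num) /
    algebraMap k[X] (RatFunc k) (contract p R.denom), ?_⟩
  rw [hdiv, hpoly, hpoly, ← expand_aeval, ← expand_aeval, expand_contract p h8 hp0,
    expand_contract p h7 hp0, RatFunc.aeval_X_left_eq_algebraMap,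
    RatFunc.aeval_X_left_eq_algebraMap, RatFunc.num_div_denom]

/-- the statement for coefficients fixed by the Frobenius -/
theorem core (h1 : T_API) (h2 : T_RFD) (h3 : T_RFC) (p : ℕ) [Fact p.Prime] [CharP k p]
    (hp5 : 5 ≤ p) (A B : k) (hA : A ^ p = A) (hB : B ^ p = B) (hyp : Hyp A B) (P : MM A B)
    (hP : DD P = 0) : ∃ Q : MM A B, P = frb p Q := by
  have hpp : p.Prime := Fact.out
  have hp0 : p ≠ 0 := hpp.ne_zero
  obtain ⟨hff, -, hmk, hpt, -⟩ := h1 k A B hyp
  obtain ⟨dadd, dsub, dmul, ddiv, dpow, dneg, dpoly, dC, dX⟩ := h2 k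
  obtain ⟨cadd, csub, cmul, cdiv, cpow, cC, cX, cXX, cpoly, czero, cinj, cder, -, -⟩ :=
    h3 k (RatFunc.X ^ p) (INS_.xp_nonconst p hp0)
  have : CharP (RatFunc k) p :=
    charP_of_injective_ringHom (RatFunc.C : k →+* RatFunc k).injective p
  by_cases hP0 : P = 0
  · refine ⟨0, ?_⟩
    rw [hP0, frb, if_pos rfl]
  obtain ⟨hcurve, hPmk⟩ := hpt P hP0
  have htwo : (2 : RatFunc k) ≠ 0 := by
    have h := (map_ne_zero (RatFunc.C : k →+* RatFunc k)).2 hyp.two
    rwa [map_ofNat] at h
  -- the derivative of the first component vanishes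
  have hR : rder (xr P) = 0 := by
    by_cases hS : yr P = 0
    · by_contra hne
      rw [hS, ev] at hcurve
      have h4 : xr P ^ 3 + RatFunc.C A * xr P + RatFunc.C B = 0 := by
        rw [← hcurve]
        ring
      have h5 := congrArg rder h4
      rw [dadd, dadd, dmul, dpow, dC, dC] at h5
      have h6 : rder (0 : RatFunc k) = 0 := by
        have := dC 0
        rwa [map_zero] at this
      rw [h6] at h5
      have h7 : (3 * xr P ^ 2 + RatFunc.C A) * rder (xr P) = 0 := by
        rw [← h5]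
        push_cast
        ring
      have h8 : 3 * xr P ^ 2 + RatFunc.C A = 0 := by
        rcases mul_eq_zero.1 h7 with h8 | h8
        · exact h8
        · exact absurd h8 hne
      have h9 : RatFunc.C (4 * A ^ 3 + 27 * B ^ 2) = (0 : RatFunc k) := by
        have h10 : RatFunc.C (4 * A ^ 3 + 27 * B ^ 2) =
            4 * (RatFunc.C A : RatFunc k) ^ 3 + 27 * (RatFunc.C B) ^ 2 := by
          simp only [map_add, map_mul, map_pow, map_ofNat]
        rw [h10]
        linear_combination (27 * RatFunc.C B - 27 * xr P ^ 3 - 27 * RatFunc.C A * xr P) * h4 +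
          (9 * xr P ^ 4 + 15 * RatFunc.C A * xr P ^ 2 + 4 * RatFunc.C A ^ 2) * h8
      exact hyp.disc ((map_eq_zero _).1 h9)
    · rw [DD, div_eq_zero_iff] at hP
      rcases hP with h | h
      · exact h
      · exact absurd h hS
  obtain ⟨G, hG⟩ := INS_.desc h3 p (xr P) hR
  obtain ⟨m, hm⟩ : ∃ m : ℕ, p = 2 * m + 1 := by
    rcases hpp.eq_two_or_odd' with h | h
    · omega
    · exact h
  have hm' : (p - 1) / 2 = m := by omega
  -- the cubic polynomial
  have hff' : rcomp (ff A B) (RatFunc.X ^ p) = ff A B ^ p := by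
    rw [ff, cadd, cadd, cpow, cmul, cX, cC, cC, add_pow_char, add_pow_char, mul_pow,
      ← map_pow RatFunc.C A, ← map_pow RatFunc.C B, hA, hB]
    ring
  have hevG : ev A B (xr P) = rcomp (ev A B G) (RatFunc.X ^ p) := by
    rw [ev, ev, cadd, cadd, cpow, cmul, cC, cC, ← hG]
  have hfp0 : ff A B ^ m ≠ 0 := pow_ne_zero _ hff
  set T : RatFunc k := yr P / ff A B ^ m with hT
  have hTS : T * ff A B ^ m = yr P := by
    rw [hT, div_mul_cancel₀ _ hfp0]
  have hT2 : ff A B ^ p * T ^ 2 = ev A B (xr P) := by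
    rw [← hcurve, ← hTS]
    have : ff A B ^ p = ff A B ^ (2 * m + 1) := by rw [← hm]
    rw [this]
    ring
  have hT3 : T ^ 2 = rcomp (ev A B G / ff A B) (RatFunc.X ^ p) := by
    rw [cdiv, hff', ← hevG, ← hT2, mul_div_cancel_left₀ _ (pow_ne_zero _ hff)]
  have hT4 : rder T = 0 := by
    have h4 := congrArg rder hT3
    have h5 : rder ((RatFunc.X : RatFunc k) ^ p) = 0 := by
      rw [dpow, CharP.cast_eq_zero, zero_mul, zero_mul]
    rw [cder, h5, mul_zero, dpow] at h4
    by_cases hT0 : T = 0
    · have := dC 0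
      rw [map_zero] at this
      rw [hT0, this]
    · rcases mul_eq_zero.1 h4 with h6 | h6
      · exfalso
        rcases mul_eq_zero.1 h6 with h7 | h7
        · apply htwo
          push_cast at h7
          exact h7
        · exact pow_ne_zero _ hT0 h7
      · exact h6
  obtain ⟨H, hH⟩ := INS_.desc h3 p T hT4
  have hGH : ff A B * H ^ 2 = ev A B G := by
    apply cinj
    rw [cmul, cpow, hff', ← hH, hT2, hevG]
  obtain ⟨hQ0, hQx, hQy⟩ := hmk G H hGH
  refine ⟨mkP A B G H, ?_⟩
  rw [frb, if_neg hQ0, hQx, hQy, ← hG, ← hH, hm', hTS]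
  exact hPmk

end INS_

/-- INS: maps which act as zero on the differential factor through the Frobenius -/
theorem p_INS (h1 : T_API) (h2 : T_RFD) (h3 : T_RFC) : T_INS := by
  intro p _ k _ _ hp5 a b hyp P hP
  exact INS_.core h1 h2 h3 p hp5 _ _ (by rw [← map_pow, ZMod.pow_card])
    (by rw [← map_pow, ZMod.pow_card]) hyp P hP

end SSA
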