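import Pool.Agent.SSA.Targets

/-!
# MP_d74fca_nt, algebraic part: the Cartier operator on logarithmic derivatives (job SSA-LOG)
-/

open Polynomial

namespace SSA

namespace LOG_

variable {k : Type} [Field k]

/-- the basic rules used here -/
structure Rules (k : Type) [Field k] : Prop where
  add : ∀ R S : RatFunc k, rder (R + S) = rder R + rder S
  sub : ∀ R S : RatFunc k, rder (R - S) = rder R - rder S
  mul : ∀ R S : RatFunc k, rder (R * S) = rder R * S + R * rder S
  div : ∀ R S : RatFunc k, S ≠ 0 → rder (R / S) = (rder R * S - R * rder S) / S ^ 2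
  pow : ∀ (R : RatFunc k) (n : ℕ), rder (R ^ n) = n * R ^ (n - 1) * rder R
  neg : ∀ R : RatFunc k, rder (-R) = - rder R
  alg : ∀ P : k[X], rder (algebraMap k[X] (RatFunc k) P) = algebraMap k[X] (RatFunc k) (derivative P)
  cst : ∀ c : k, rder (RatFunc.C c) = 0
  var : rder (RatFunc.X : RatFunc k) = 1

lemma rules (h1 : T_RFD) : Rules k := by
  obtain ⟨a1, a2, a3, a4, a5, a6, a7, a8, a9⟩ := h1 k
  exact ⟨a1, a2, a3, a4, a5, a6, a7, a8, a9⟩

lemma zero (h : Rules k) : rder (0 : RatFunc k) = 0 := by
  have := h.cst 0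
  rwa [map_zero] at this

lemma iter_add (h : Rules k) (n : ℕ) (R S : RatFunc k) :
    rder^[n] (R + S) = rder^[n] R + rder^[n] S := by
  induction n generalizing R S with
  | zero => rfl
  | succ n ih => rw [Function.iterate_succ_apply, Function.iterate_succ_apply,
      Function.iterate_succ_apply, h.add, ih]

lemma iter_sub (h : Rules k) (n : ℕ) (R S : RatFunc k) :
    rder^[n] (R - S) = rder^[n] R - rder^[n] S := by
  induction n generalizing R S with
  | zero => rfl
  | succ n ih => rw [Function.iterate_succ_apply, Function.iterate_succ_apply,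
      Function.iterate_succ_apply, h.sub, ih]

lemma iter_zero (h : Rules k) (n : ℕ) : rder^[n] (0 : RatFunc k) = 0 := by
  induction n with
  | zero => rfl
  | succ n ih => rw [Function.iterate_succ_apply, zero h, ih]

lemma iter_alg (h : Rules k) (n : ℕ) (P : k[X]) :
    rder^[n] (algebraMap k[X] (RatFunc k) P) = algebraMap k[X] (RatFunc k) (derivative^[n] P) := by
  induction n generalizing P with
  | zero => rfl
  | succ n ih => rw [Function.iterate_succ_apply, Function.iterate_succ_apply, h.alg, ih]

lemma iter_mul_const (h : Rules k) (n : ℕ) (G F : RatFunc k) (hG : rder G = 0) :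
    rder^[n] (G * F) = G * rder^[n] F := by
  induction n generalizing F with
  | zero => rfl
  | succ n ih => rw [Function.iterate_succ_apply, Function.iterate_succ_apply, h.mul, hG,
      zero_mul, zero_add, ih]

lemma nat_cst (h : Rules k) (n : ℕ) : rder (n : RatFunc k) = 0 := by
  have := h.cst (n : k)
  rwa [map_natCast] at this

lemma inv_der (h : Rules k) (S : RatFunc k) (hS : S ≠ 0) (hd : rder S = 1) :
    rder S⁻¹ = - (S⁻¹) ^ 2 := by
  have h1 := h.div 1 S hS
  have h2 : rder (1 : RatFunc k) = 0 := by
    have := h.cst 1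
    rwa [map_one] at this
  rw [h2, hd, zero_mul, zero_sub, one_mul, one_div] at h1
  rw [h1, inv_pow, neg_div, one_div]

/-- iterated derivative of `v` with `v' = -v^2` -/
lemma iter_inv (h : Rules k) (v : RatFunc k) (hv : rder v = - v ^ 2) (m : ℕ) :
    rder^[m] v = (-1) ^ m * (m.factorial : RatFunc k) * v ^ (m + 1) := by
  induction m with
  | zero => simp
  | succ m ih =>
    rw [Function.iterate_succ_apply', ih]
    have hc : rder ((-1) ^ m * (m.factorial : RatFunc k)) = 0 := by
      rcases neg_one_pow_eq_or (RatFunc k) m with h0 | h0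
      · rw [h0, one_mul, nat_cst h]
      · rw [h0, neg_one_mul, h.neg, nat_cst h, neg_zero]
    rw [h.mul, hc, zero_mul, zero_add, h.pow, hv, Nat.factorial_succ, Nat.add_sub_cancel]
    push_cast
    ring

variable (p : ℕ) [Fact p.Prime] [CharP k p]

lemma fact_zero : ((p.factorial : ℕ) : k) = 0 := by
  rw [CharP.cast_eq_zero_iff k p]
  exact Nat.dvd_factorial (Fact.out : p.Prime).pos le_rfl

lemma der_iter_p (P : k[X]) : derivative^[p] P = 0 := by
  rw [← Polynomial.factorial_smul_hasseDeriv]
  ext n
  rw [LinearMap.smul_apply, Polynomial.coeff_smul, nsmul_eq_mul, fact_zero p, zero_mul,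
    Polynomial.coeff_zero]

omit [Fact (Nat.Prime p)] in
lemma charRF : CharP (RatFunc k) p :=
  charP_of_injective_algebraMap (RatFunc.C_injective (K := k)) p

omit [Fact (Nat.Prime p)] in
lemma der_pow_p (h : Rules k) (G : RatFunc k) : rder (G ^ p) = 0 := by
  have : CharP (RatFunc k) p := charRF p
  rw [h.pow, CharP.cast_eq_zero (RatFunc k) p, zero_mul, zero_mul]

lemma iter_p (h : Rules k) (R : RatFunc k) : rder^[p] R = 0 := by
  have hp : 0 < p := (Fact.out : p.Prime).pos
  have hD : algebraMap k[X] (RatFunc k) R.denom ≠ 0 := by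
    rw [Ne, map_eq_zero_iff _ (RatFunc.algebraMap_injective k)]
    exact R.denom_ne_zero
  have h1 : R = ((algebraMap k[X] (RatFunc k) R.denom)⁻¹) ^ p *
      algebraMap k[X] (RatFunc k) (R.num * R.denom ^ (p - 1)) := by
    have h2 := RatFunc.num_div_denom R
    rw [map_mul, map_pow, inv_pow]
    nth_rewrite 1 [← h2]
    have h3 : (algebraMap k[X] (RatFunc k) R.denom) ^ p =
        (algebraMap k[X] (RatFunc k) R.denom) ^ (p - 1) * algebraMap k[X] (RatFunc k) R.denom := by
      rw [← pow_succ, Nat.sub_add_cancel hp]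
    rw [h3]
    field_simp
  rw [h1, iter_mul_const h p _ _ (der_pow_p p h _), iter_alg h, der_iter_p p, map_zero, mul_zero]

/-- logarithmic derivative -/
noncomputable def L (R : RatFunc k) : RatFunc k := rder R / R

lemma L_mul (h : Rules k) {R S : RatFunc k} (hR : R ≠ 0) (hS : S ≠ 0) :
    L (R * S) = L R + L S := by
  unfold L
  rw [h.mul]
  field_simp

lemma L_div (h : Rules k) {R S : RatFunc k} (hR : R ≠ 0) (hS : S ≠ 0) :
    L (R / S) = L R - L S := by
  unfold L
  rw [h.div _ _ hS]
  field_simp

/-- the identity for one function -/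
def Good (F : RatFunc k) : Prop := - (rder^[p - 1] F) = F ^ p

lemma Good.add (h : Rules k) {F G : RatFunc k} (hF : Good p F) (hG : Good p G) :
    Good p (F + G) := by
  unfold Good at *
  have : CharP (RatFunc k) p := charRF p
  rw [iter_add h, add_pow_char, ← hF, ← hG]
  ring

lemma Good.sub (h : Rules k) {F G : RatFunc k} (hF : Good p F) (hG : Good p G) :
    Good p (F - G) := by
  unfold Good at *
  have : CharP (RatFunc k) p := charRF p
  rw [iter_sub h, sub_pow_char, ← hF, ← hG]
  ring

omit [CharP k p] in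
lemma Good.zero (h : Rules k) : Good p (0 : RatFunc k) := by
  unfold Good
  rw [iter_zero h, neg_zero, zero_pow (Fact.out : p.Prime).ne_zero]

lemma good_inv (h : Rules k) (hp2 : p ≠ 2) (v : RatFunc k) (hv : rder v = - v ^ 2) :
    Good p v := by
  have hp : p.Prime := Fact.out
  unfold Good
  have : CharP (RatFunc k) p := charRF p
  rw [iter_inv h v hv, Nat.sub_add_cancel hp.one_le]
  have hodd : Even (p - 1) := by
    rcases hp.eq_two_or_odd' with h0 | h0
    · exact absurd h0 hp2
    · exact Nat.Odd.sub_odd h0 odd_one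
  have hW : (((p - 1).factorial : ℕ) : RatFunc k) = -1 := by
    have h1 := ZMod.wilsons_lemma p
    have h2 := congrArg (ZMod.castHom (dvd_refl p) (RatFunc k)) h1
    rw [map_natCast, map_neg, map_one] at h2
    exact h2
  rw [hodd.neg_one_pow, hW]
  ring

lemma good_X_sub (h : Rules k) (hp2 : p ≠ 2) (t : k) :
    Good p (L (algebraMap k[X] (RatFunc k) (X - C t))) := by
  have hne : algebraMap k[X] (RatFunc k) (X - C t) ≠ 0 := by
    rw [Ne, map_eq_zero_iff _ (RatFunc.algebraMap_injective k)]
    exact X_sub_C_ne_zero t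
  have hd : rder (algebraMap k[X] (RatFunc k) (X - C t)) = 1 := by
    rw [h.alg, derivative_sub, derivative_X, derivative_C, sub_zero, map_one]
  unfold L
  rw [hd, one_div]
  exact good_inv p h hp2 _ (inv_der h _ hne hd)

lemma good_prod (h : Rules k) (hp2 : p ≠ 2) (s : Multiset k) :
    Good p (L (algebraMap k[X] (RatFunc k) (s.map fun a => X - C a).prod)) := by
  induction s using Multiset.induction_on with
  | empty =>
    rw [Multiset.map_zero, Multiset.prod_zero, map_one]
    have h2 : rder (1 : RatFunc k) = 0 := by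
      have := h.cst 1
      rwa [map_one] at this
    unfold L
    rw [h2, zero_div]
    exact Good.zero p h
  | cons a s ih =>
    rw [Multiset.map_cons, Multiset.prod_cons, map_mul]
    have hne : algebraMap k[X] (RatFunc k) (X - C a) ≠ 0 := by
      rw [Ne, map_eq_zero_iff _ (RatFunc.algebraMap_injective k)]
      exact X_sub_C_ne_zero a
    have hne2 : algebraMap k[X] (RatFunc k) (s.map fun a => X - C a).prod ≠ 0 := by
      rw [Ne, map_eq_zero_iff _ (RatFunc.algebraMap_injective k)]
      exact (monic_multiset_prod_of_monic s (fun a => X - C a) fun a _ => monic_X_sub_C a).ne_zero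
    rw [L_mul h hne hne2]
    exact Good.add p h (good_X_sub p h hp2 a) ih

lemma good_poly [IsAlgClosed k] (h : Rules k) (hp2 : p ≠ 2) (P : k[X]) (hP : P ≠ 0) :
    Good p (L (algebraMap k[X] (RatFunc k) P)) := by
  have h1 := (IsAlgClosed.splits P).eq_prod_roots
  rw [h1, map_mul]
  have hc : algebraMap k[X] (RatFunc k) (C P.leadingCoeff) ≠ 0 := by
    rw [Ne, map_eq_zero_iff _ (RatFunc.algebraMap_injective k), C_eq_zero, leadingCoeff_eq_zero]
    exact hP
  have hne2 : algebraMap k[X] (RatFunc k) (P.roots.map fun a => X - C a).prod ≠ 0 := by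
    rw [Ne, map_eq_zero_iff _ (RatFunc.algebraMap_injective k)]
    exact (monic_multiset_prod_of_monic P.roots (fun a => X - C a)
      fun a _ => monic_X_sub_C a).ne_zero
  rw [L_mul h hc hne2]
  refine Good.add p h ?_ (good_prod p h hp2 _)
  have h2 : L (algebraMap k[X] (RatFunc k) (C P.leadingCoeff)) = 0 := by
    unfold L
    rw [h.alg, derivative_C, map_zero, zero_div]
  rw [h2]
  exact Good.zero p h

end LOG_

theorem p_LOG (h1 : T_RFD) : T_LOG := by
  intro p _ k _ _ _ hp2
  have h := LOG_.rules (k := k) h1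
  refine ⟨fun R => LOG_.iter_p p h R, fun R hR => ?_⟩
  have hN : R.num ≠ 0 := RatFunc.num_ne_zero hR
  have hD := R.denom_ne_zero
  have hN' : algebraMap k[X] (RatFunc k) R.num ≠ 0 := by
    rw [Ne, map_eq_zero_iff _ (RatFunc.algebraMap_injective k)]
    exact hN
  have hD' : algebraMap k[X] (RatFunc k) R.denom ≠ 0 := by
    rw [Ne, map_eq_zero_iff _ (RatFunc.algebraMap_injective k)]
    exact hD
  have h2 := LOG_.Good.sub p h (LOG_.good_poly p h hp2 _ hN) (LOG_.good_poly p h hp2 _ hD)
  rw [← LOG_.L_div h hN' hD', RatFunc.num_div_denom] at h2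
  exact h2

end SSA
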