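import Pool.Agent.SSA.Targets

/-!
# LT2: sublattices of rank two
-/

namespace SSA

namespace LT2_

/-- the key computation for a third vector -/
theorem key (a b c D x1 x2 qv m n : ℤ) (hD : D = 4 * a * c - b ^ 2) (hD0 : 0 < D)
    (hdet : 2 * qv * D = (2 * c * x1 - b * x2) * x1 + (2 * a * x2 - b * x1) * x2)
    (hX : 2 * c * x1 - b * x2 = m * D) (hY : 2 * a * x2 - b * x1 = n * D) :
    qv = a * m ^ 2 + b * m * n + c * n ^ 2 := by
  have h1 : D * x1 = D * (2 * a * m + b * n) := by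
    have e1 : D * x1 = 2 * a * (2 * c * x1 - b * x2) + b * (2 * a * x2 - b * x1) := by
      rw [hD]; ring
    rw [e1, hX, hY]; ring
  have h2 : D * x2 = D * (b * m + 2 * c * n) := by
    have e1 : D * x2 = b * (2 * c * x1 - b * x2) + 2 * c * (2 * a * x2 - b * x1) := by
      rw [hD]; ring
    rw [e1, hX, hY]; ring
  have h1' := mul_left_cancel₀ hD0.ne' h1
  have h2' := mul_left_cancel₀ hD0.ne' h2
  rw [hX, hY] at hdet
  have h3 : D * (2 * qv) = D * (2 * (a * m ^ 2 + b * m * n + c * n ^ 2)) := by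
    have e : D * (2 * qv) = m * D * x1 + n * D * x2 := by rw [← hdet]; ring
    rw [e, h1', h2']; ring
  have h4 := mul_left_cancel₀ hD0.ne' h3
  linarith

/-- nearest integer -/
theorem nearest (Y D : ℤ) (hD : 0 < D) : ∃ n : ℤ, 4 * (Y - n * D) ^ 2 ≤ D ^ 2 := by
  refine ⟨(2 * Y + D) / (2 * D), ?_⟩
  set n := (2 * Y + D) / (2 * D) with hn
  have h1 : 2 * D * n + (2 * Y + D) % (2 * D) = 2 * Y + D := Int.mul_ediv_add_emod _ _
  have h2 : 0 ≤ (2 * Y + D) % (2 * D) := Int.emod_nonneg _ (by omega)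
  have h3 : (2 * Y + D) % (2 * D) < 2 * D := Int.emod_lt_of_pos _ (by omega)
  have h4 : -D ≤ 2 * (Y - n * D) := by
    have : 2 * (Y - n * D) = (2 * Y + D) % (2 * D) - D := by linear_combination -h1
    linarith
  have h5 : 2 * (Y - n * D) ≤ D := by
    have : 2 * (Y - n * D) = (2 * Y + D) % (2 * D) - D := by linear_combination -h1
    linarith
  have h6 := abs_le.2 ⟨h4, h5⟩
  have h7 : (2 * (Y - n * D)) ^ 2 ≤ D ^ 2 := by
    rw [← sq_abs]
    exact pow_le_pow_left₀ (abs_nonneg _) h6 2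
  calc 4 * (Y - n * D) ^ 2 = (2 * (Y - n * D)) ^ 2 := by ring
    _ ≤ D ^ 2 := h7

end LT2_

open LT2_ in
theorem p_LT2 (h1 : T_QFA) (_h2 : T_GRD) : T_LT2 := by
  intro A _ q hq L hrank hex
  obtain ⟨_, _, hxx, hsymm, hadd, hneg, hsmul, _, hCS, _⟩ := h1 A q hq
  have haddr : ∀ x y z, bl q x (y + z) = bl q x y + bl q x z := by
    intro x y z
    rw [hsymm, hadd, hsymm y x, hsymm z x]
  have hsmulr : ∀ (n : ℤ) (x y : A), bl q x (n • y) = n * bl q x y := by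
    intro n x y
    rw [hsymm, hsmul, hsymm y x]
  have hnegr : ∀ x y : A, bl q x (-y) = - bl q x y := by
    intro x y
    rw [hsymm, hneg, hsymm y x]
  have hG0 : ∀ x y : A, 0 ≤ 4 * q x * q y - (bl q x y) ^ 2 := fun x y => by
    linarith [hCS x y]
  -- minimal pair
  have hex' : ∃ d : ℕ, 0 < d ∧ ∃ x ∈ L, ∃ y ∈ L, 4 * q x * q y - (bl q x y) ^ 2 = (d : ℤ) := by
    obtain ⟨x, hx, y, hy, h⟩ := hex
    refine ⟨(4 * q x * q y - (bl q x y) ^ 2).toNat, ?_, x, hx, y, hy, ?_⟩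
    · have := hG0 x y
      omega
    · have := hG0 x y
      omega
  classical
  obtain ⟨hd0, e₁, he₁, e₂, he₂, hD⟩ := Nat.find_spec hex'
  set d := Nat.find hex' with hd
  have hmin : ∀ x ∈ L, ∀ y ∈ L, 0 < 4 * q x * q y - (bl q x y) ^ 2 →
      (d : ℤ) ≤ 4 * q x * q y - (bl q x y) ^ 2 := by
    intro x hx y hy h
    have h3 := Nat.find_min' hex' (m := (4 * q x * q y - (bl q x y) ^ 2).toNat)
      ⟨by omega, x, hx, y, hy, by omega⟩
    rw [← hd] at h3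
    omega
  have hd0' : (0 : ℤ) < d := by exact_mod_cast hd0
  have hq1 : 0 < q e₁ := by
    rcases (hq.2 e₁).lt_or_eq with h | h
    · exact h
    · exfalso
      rw [← h] at hD
      have := sq_nonneg (bl q e₁ e₂)
      linarith
  refine ⟨e₁, he₁, e₂, he₂, hq1, by rw [hD]; exact hd0', fun v hv => ?_⟩
  -- the determinant identity for a vector of `L`
  have hdet : ∀ w ∈ L, 2 * q w * (d : ℤ) =
      (2 * q e₂ * bl q e₁ w - bl q e₁ e₂ * bl q e₂ w) * bl q e₁ w +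
      (2 * q e₁ * bl q e₂ w - bl q e₁ e₂ * bl q e₁ w) * bl q e₂ w := by
    intro w hw
    have h3 := hrank ![e₁, e₂, w] (by
      intro i
      fin_cases i
      · exact he₁
      · exact he₂
      · exact hw)
    rw [Matrix.det_fin_three] at h3
    simp only [gram, Matrix.cons_val_zero, Matrix.cons_val_one, Matrix.cons_val] at h3
    rw [hxx, hxx, hxx, hsymm e₂ e₁, hsymm w e₁, hsymm w e₂] at h3
    rw [← hD]
    linear_combination h3
  -- coordinates are integers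
  have hYint : ∃ n : ℤ, 2 * q e₁ * bl q e₂ v - bl q e₁ e₂ * bl q e₁ v = n * d := by
    obtain ⟨n, hn⟩ := nearest (2 * q e₁ * bl q e₂ v - bl q e₁ e₂ * bl q e₁ v) d hd0'
    refine ⟨n, ?_⟩
    have hw : v + (-n) • e₂ ∈ L := L.add_mem hv (L.zsmul_mem he₂ _)
    have h3 := hdet _ hw
    have b1 : bl q e₁ (v + (-n) • e₂) = bl q e₁ v - n * bl q e₁ e₂ := by
      rw [haddr, hsmulr]; ring
    have b2 : bl q e₂ (v + (-n) • e₂) = bl q e₂ v - n * (2 * q e₂) := by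
      rw [haddr, hsmulr, hxx]; ring
    set w := v + (-n) • e₂ with hwdef
    have hsq : (d : ℤ) * (4 * q e₁ * q w - (bl q e₁ w) ^ 2) =
        ((2 * q e₁ * bl q e₂ v - bl q e₁ e₂ * bl q e₁ v) - n * d) ^ 2 := by
      have e1 : (2 * q e₁ * bl q e₂ v - bl q e₁ e₂ * bl q e₁ v) - n * d =
          2 * q e₁ * bl q e₂ w - bl q e₁ e₂ * bl q e₁ w := by
        rw [b1, b2, ← hD]; ring
      rw [e1]
      have e2 : (d : ℤ) * (4 * q e₁ * q w - (bl q e₁ w) ^ 2) =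
          2 * q e₁ * (2 * q w * d) - d * (bl q e₁ w) ^ 2 := by ring
      rw [e2, h3, ← hD]
      ring
    by_contra hne
    have hne' : (2 * q e₁ * bl q e₂ v - bl q e₁ e₂ * bl q e₁ v) - n * d ≠ 0 := sub_ne_zero.2 hne
    have hpos : 0 < ((2 * q e₁ * bl q e₂ v - bl q e₁ e₂ * bl q e₁ v) - n * d) ^ 2 := by positivity
    rw [← hsq] at hpos hn
    have hGpos : 0 < 4 * q e₁ * q w - (bl q e₁ w) ^ 2 := by
      exact (mul_pos_iff_of_pos_left hd0').1 hpos
    have h4 := hmin e₁ he₁ w hw hGpos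
    nlinarith
  have hXint : ∃ m : ℤ, 2 * q e₂ * bl q e₁ v - bl q e₁ e₂ * bl q e₂ v = m * d := by
    obtain ⟨n, hn⟩ := nearest (2 * q e₂ * bl q e₁ v - bl q e₁ e₂ * bl q e₂ v) d hd0'
    refine ⟨n, ?_⟩
    have hw : v + (-n) • e₁ ∈ L := L.add_mem hv (L.zsmul_mem he₁ _)
    have h3 := hdet _ hw
    have b1 : bl q e₂ (v + (-n) • e₁) = bl q e₂ v - n * bl q e₁ e₂ := by
      rw [haddr, hsmulr, hsymm e₂ e₁]; ring
    have b2 : bl q e₁ (v + (-n) • e₁) = bl q e₁ v - n * (2 * q e₁) := by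
      rw [haddr, hsmulr, hxx]; ring
    set w := v + (-n) • e₁ with hwdef
    have hsq : (d : ℤ) * (4 * q e₂ * q w - (bl q e₂ w) ^ 2) =
        ((2 * q e₂ * bl q e₁ v - bl q e₁ e₂ * bl q e₂ v) - n * d) ^ 2 := by
      have e1 : (2 * q e₂ * bl q e₁ v - bl q e₁ e₂ * bl q e₂ v) - n * d =
          2 * q e₂ * bl q e₁ w - bl q e₁ e₂ * bl q e₂ w := by
        rw [b1, b2, ← hD]; ring
      rw [e1]
      have e2 : (d : ℤ) * (4 * q e₂ * q w - (bl q e₂ w) ^ 2) =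
          2 * q e₂ * (2 * q w * d) - d * (bl q e₂ w) ^ 2 := by ring
      rw [e2, h3, ← hD]
      ring
    by_contra hne
    have hne' : (2 * q e₂ * bl q e₁ v - bl q e₁ e₂ * bl q e₂ v) - n * d ≠ 0 := sub_ne_zero.2 hne
    have hpos : 0 < ((2 * q e₂ * bl q e₁ v - bl q e₁ e₂ * bl q e₂ v) - n * d) ^ 2 := by positivity
    rw [← hsq] at hpos hn
    have hGpos : 0 < 4 * q e₂ * q w - (bl q e₂ w) ^ 2 := by
      exact (mul_pos_iff_of_pos_left hd0').1 hpos
    have h4 := hmin e₂ he₂ w hw hGpos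
    nlinarith
  obtain ⟨n, hn⟩ := hYint
  obtain ⟨m, hm⟩ := hXint
  refine ⟨m, n, ?_⟩
  exact key (q e₁) (bl q e₁ e₂) (q e₂) d (bl q e₁ v) (bl q e₂ v) (q v) m n hD.symm hd0'
    (hdet v hv) hm hn

end SSA
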