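import Pool.Agent.SSA.Targets

open Polynomial

namespace SSA
namespace NPI_

/-- product over all points of `F_p` -/
lemma prod_eq (p : ℕ) [Fact p.Prime] (k : Type) [Field k] [CharP k p] :
    ∏ t : ZMod p, (X - C (zc p k t)) = (X ^ p - X : k[X]) := by
  have hp1 : 1 < p := (Fact.out : p.Prime).one_lt
  have h : ∏ t : ZMod p, (X - C t) = (X ^ p - X : (ZMod p)[X]) := by
    have hr := FiniteField.roots_X_pow_card_sub_X (ZMod p)
    rw [ZMod.card] at hr
    have hd : (X ^ p - X : (ZMod p)[X]).natDegree = p :=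
      FiniteField.X_pow_card_sub_X_natDegree_eq (ZMod p) hp1
    have hm : (X ^ p - X : (ZMod p)[X]).Monic := by
      apply monic_X_pow_sub
      rw [degree_X]
      exact_mod_cast hp1
    have := Polynomial.prod_multiset_X_sub_C_of_monic_of_roots_card_eq hm
      (by rw [hr, hd]; simp [ZMod.card])
    rw [hr] at this
    exact this
  have := congrArg (Polynomial.map (zc p k)) h
  rw [Polynomial.map_prod] at this
  simpa using this

/-- value of `X^3+aX+b` -/
def uu (p : ℕ) (a b t : ZMod p) : ZMod p := t ^ 3 + a * t + b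

lemma eval_fp (p : ℕ) [Fact p.Prime] (k : Type) [Field k] [CharP k p] (a b t : ZMod p) :
    (fp (zc p k a) (zc p k b)).eval (zc p k t) = zc p k (uu p a b t) := by
  simp [fp, uu]

lemma eval_g (p : ℕ) [Fact p.Prime] (k : Type) [Field k] [CharP k p] (hp : 5 ≤ p)
    (a b t : ZMod p) :
    (fp (zc p k a) (zc p k b) ^ ((p - 1) / 2)).eval (zc p k t) =
      ((quadraticChar (ZMod p) (uu p a b t) : ℤ) : k) := by
  have hodd : p / 2 = (p - 1) / 2 := by
    have := (Fact.out : p.Prime).eq_two_or_odd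
    omega
  have hc : ringChar (ZMod p) ≠ 2 := by
    rw [ZMod.ringChar_zmod_n]; omega
  rw [eval_pow, eval_fp, ← map_pow]
  have := quadraticChar_eq_pow_of_char_ne_two' hc (uu p a b t)
  rw [ZMod.card, hodd] at this
  rw [← this]
  simp

lemma naff (p : ℕ) [Fact p.Prime] (hp : 5 ≤ p) (a b : ZMod p) :
    ((Naff p a b : ℕ) : ℤ) = ∑ t : ZMod p, (quadraticChar (ZMod p) (uu p a b t) + 1) := by
  classical
  have hc : ringChar (ZMod p) ≠ 2 := by
    rw [ZMod.ringChar_zmod_n]; omega
  unfold Naff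
  rw [Nat.card_eq_fintype_card, Fintype.card_subtype]
  have : (Finset.univ.filter (fun P : ZMod p × ZMod p => P.2 ^ 2 = P.1 ^ 3 + a * P.1 + b)) =
      (Finset.univ.sigma (fun t : ZMod p => {x : ZMod p | x ^ 2 = uu p a b t}.toFinset)).map
        (Equiv.sigmaEquivProd _ _).toEmbedding := by
    ext ⟨x, y⟩
    simp only [Finset.mem_filter, Finset.mem_univ, true_and, Finset.mem_map_equiv,
      Finset.mem_sigma, Set.mem_toFinset]
    rfl
  rw [this, Finset.card_map, Finset.card_sigma]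
  push_cast
  exact Finset.sum_congr rfl fun t _ => quadraticChar_card_sqrts hc _

lemma fp_natDegree {k : Type} [Field k] (a b : k) : (fp a b).natDegree = 3 ∧ (fp a b).Monic := by
  have h : (fp a b).natDegree = 3 := by unfold fp; compute_degree!
  refine ⟨h, ?_⟩
  rw [Monic, leadingCoeff, h]
  simp [fp]

/-- numerator -/
noncomputable def Nm (p : ℕ) {k : Type} [Field k] (a b : k) : k[X] :=
  fp a b * (1 + fp a b ^ ((p - 1) / 2)) ^ 2 - (X + X ^ p) * (X ^ p - X) ^ 2

lemma fp_pow (p : ℕ) [Fact p.Prime] (k : Type) [Field k] [CharP k p] (a b : ZMod p) :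
    fp (zc p k a) (zc p k b) ^ p = X ^ (3 * p) + C (zc p k a) * X ^ p + C (zc p k b) := by
  have : ExpChar k[X] p := inferInstance
  unfold fp
  rw [add_pow_expChar, add_pow_expChar, mul_pow, ← C_pow, ← C_pow, ← map_pow, ← map_pow,
    ZMod.pow_card, ZMod.pow_card, ← pow_mul]

lemma num_eq (p : ℕ) [Fact p.Prime] (k : Type) [Field k] [CharP k p] (hp : 5 ≤ p)
    (a b : ZMod p) :
    Nm p (zc p k a) (zc p k b) = X ^ (2 * p + 1) +
      (2 * (fp (zc p k a) (zc p k b) * fp (zc p k a) (zc p k b) ^ ((p - 1) / 2)) + X ^ (p + 2) +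
        C (zc p k a) * X ^ p + C (zc p k a) * X + 2 * C (zc p k b)) := by
  have hodd : 1 + 2 * ((p - 1) / 2) = p := by
    have := (Fact.out : p.Prime).eq_two_or_odd
    omega
  have h1 : fp (zc p k a) (zc p k b) * (fp (zc p k a) (zc p k b) ^ ((p - 1) / 2)) ^ 2 =
      X ^ (3 * p) + C (zc p k a) * X ^ p + C (zc p k b) := by
    rw [← fp_pow, ← pow_mul, ← pow_succ']
    congr 1
    omega
  unfold Nm
  have h2 : fp (zc p k a) (zc p k b) * (1 + fp (zc p k a) (zc p k b) ^ ((p - 1) / 2)) ^ 2 =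
      fp (zc p k a) (zc p k b) + 2 * (fp (zc p k a) (zc p k b) * fp (zc p k a) (zc p k b) ^ ((p - 1) / 2))
      + fp (zc p k a) (zc p k b) * (fp (zc p k a) (zc p k b) ^ ((p - 1) / 2)) ^ 2 := by ring
  rw [h2, h1]
  have h3 : fp (zc p k a) (zc p k b) = X ^ 3 + C (zc p k a) * X + C (zc p k b) := rfl
  generalize hg : fp (zc p k a) (zc p k b) * fp (zc p k a) (zc p k b) ^ ((p - 1) / 2) = g
  rw [h3]
  ring

lemma num_natDegree (p : ℕ) [Fact p.Prime] (k : Type) [Field k] [CharP k p] (hp : 5 ≤ p)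
    (a b : ZMod p) : (Nm p (zc p k a) (zc p k b)).natDegree = 2 * p + 1 := by
  rw [num_eq p k hp]
  have h0 : (fp (zc p k a) (zc p k b) * fp (zc p k a) (zc p k b) ^ ((p - 1) / 2)).natDegree
      ≤ 3 + ((p - 1) / 2) * 3 := by
    refine natDegree_mul_le.trans ?_
    refine add_le_add (fp_natDegree _ _).1.le ?_
    refine natDegree_pow_le.trans ?_
    rw [(fp_natDegree _ _).1]
  have h1 : (2 * (fp (zc p k a) (zc p k b) * fp (zc p k a) (zc p k b) ^ ((p - 1) / 2)) +
      X ^ (p + 2) + C (zc p k a) * X ^ p + C (zc p k a) * X + 2 * C (zc p k b)).natDegree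
      < (X ^ (2 * p + 1) : k[X]).natDegree := by
    rw [natDegree_X_pow]
    have e2 : (2 : k[X]) = C 2 := (map_ofNat C 2).symm
    rw [e2, ← C_mul]
    have : (C 2 * (fp (zc p k a) (zc p k b) * fp (zc p k a) (zc p k b) ^ ((p - 1) / 2)) +
      X ^ (p + 2) + C (zc p k a) * X ^ p + C (zc p k a) * X + C (2 * zc p k b)).natDegree ≤ 2 * p := by
      refine natDegree_add_le_of_degree_le ?_ (by rw [natDegree_C]; omega)
      refine natDegree_add_le_of_degree_le ?_ ((natDegree_C_mul_le _ _).trans (by rw [natDegree_X]; omega))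
      refine natDegree_add_le_of_degree_le ?_ ((natDegree_C_mul_X_pow_le _ _).trans (by omega))
      refine natDegree_add_le_of_degree_le ?_ (by rw [natDegree_X_pow]; omega)
      refine (natDegree_C_mul_le _ _).trans (h0.trans ?_)
      omega
    omega
  rw [natDegree_add_eq_left_of_natDegree_lt h1, natDegree_X_pow]

lemma eval_num (p : ℕ) [Fact p.Prime] (k : Type) [Field k] [CharP k p] (hp : 5 ≤ p)
    (a b t : ZMod p) : (Nm p (zc p k a) (zc p k b)).eval (zc p k t) =
      zc p k (uu p a b t) * (1 + ((quadraticChar (ZMod p) (uu p a b t) : ℤ) : k)) ^ 2 := by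
  unfold Nm
  rw [eval_sub, eval_mul, eval_mul, eval_pow, eval_add, eval_g p k hp, eval_fp]
  have : (X ^ p - X : k[X]).eval (zc p k t) = 0 := by
    rw [eval_sub, eval_pow, eval_X, ← map_pow, ZMod.pow_card, sub_self]
  rw [eval_pow, this]
  simp

lemma dvd_XpX (p : ℕ) [Fact p.Prime] (k : Type) [Field k] [CharP k p] (t : ZMod p) :
    (X - C (zc p k t)) ∣ (X ^ p - X : k[X]) := by
  rw [← prod_eq p k]
  exact Finset.dvd_prod_of_mem _ (Finset.mem_univ t)

lemma dvd_neg (p : ℕ) [Fact p.Prime] (k : Type) [Field k] [CharP k p] (hp : 5 ≤ p)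
    (a b t : ZMod p) (h : quadraticChar (ZMod p) (uu p a b t) = -1) :
    (X - C (zc p k t)) ^ 2 ∣ Nm p (zc p k a) (zc p k b) := by
  unfold Nm
  refine dvd_sub (Dvd.dvd.mul_left (pow_dvd_pow_of_dvd ?_ 2) _)
    (Dvd.dvd.mul_left (pow_dvd_pow_of_dvd (dvd_XpX p k t) 2) _)
  rw [dvd_iff_isRoot, IsRoot, eval_add, eval_g p k hp, h]
  simp

lemma dvd_zero' (p : ℕ) [Fact p.Prime] (k : Type) [Field k] [CharP k p] (hp : 5 ≤ p)
    (a b t : ZMod p) (h : uu p a b t = 0) :
    (X - C (zc p k t)) ∣ Nm p (zc p k a) (zc p k b) := by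
  rw [dvd_iff_isRoot, IsRoot, eval_num p k hp, h]
  simp

lemma not_dvd_pos (p : ℕ) [Fact p.Prime] (k : Type) [Field k] [CharP k p] (hp : 5 ≤ p)
    (a b t : ZMod p) (h : quadraticChar (ZMod p) (uu p a b t) = 1)
    (h2 : (2 : k) ≠ 0) :
    ¬ (X - C (zc p k t)) ∣ Nm p (zc p k a) (zc p k b) := by
  rw [dvd_iff_isRoot, IsRoot, eval_num p k hp, h]
  have hu : uu p a b t ≠ 0 := by
    intro h0
    rw [h0] at h
    simp at h
  have hz : zc p k (uu p a b t) ≠ 0 := (_root_.map_ne_zero _).2 hu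
  have : (1 + (((1 : ℤ) : ℤ) : k)) ≠ 0 := by
    simpa [one_add_one_eq_two] using h2
  exact mul_ne_zero hz (pow_ne_zero 2 this)

lemma not_dvd_zero (p : ℕ) [Fact p.Prime] (k : Type) [Field k] [CharP k p] (hp : 5 ≤ p)
    (a b t : ZMod p) (h : uu p a b t = 0) (H : Hyp (zc p k a) (zc p k b)) :
    ¬ (X - C (zc p k t)) ^ 2 ∣ Nm p (zc p k a) (zc p k b) := by
  intro hd
  have hd2 : (X - C (zc p k t)) ^ 2 ∣
      fp (zc p k a) (zc p k b) * (1 + fp (zc p k a) (zc p k b) ^ ((p - 1) / 2)) ^ 2 := by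
    have := dvd_add hd (Dvd.dvd.mul_left (pow_dvd_pow_of_dvd (dvd_XpX p k t) 2) (X + X ^ p))
    unfold Nm at this
    rwa [sub_add_cancel] at this
  have hcop : IsCoprime ((X - C (zc p k t)) ^ 2)
      ((1 + fp (zc p k a) (zc p k b) ^ ((p - 1) / 2)) ^ 2) := by
    apply IsCoprime.pow
    rw [(irreducible_X_sub_C _).coprime_iff_not_dvd, dvd_iff_isRoot, IsRoot, eval_add, eval_g p k hp, h]
    simp
  obtain ⟨q, hq⟩ := hcop.dvd_of_dvd_mul_right hd2
  have e0 := eval_fp p k a b t
  rw [h, map_zero] at e0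
  have e1 : (derivative (fp (zc p k a) (zc p k b))).eval (zc p k t) = 0 := by
    rw [hq, derivative_mul, derivative_pow]
    simp
  have e2 : (derivative (fp (zc p k a) (zc p k b))).eval (zc p k t) =
      3 * zc p k t ^ 2 + zc p k a := by
    simp [fp]
    norm_num
  have e3 : (fp (zc p k a) (zc p k b)).eval (zc p k t) =
      zc p k t ^ 3 + zc p k a * zc p k t + zc p k b := by
    simp [fp]
  rw [e2] at e1
  rw [e3] at e0
  apply H.disc
  generalize zc p k t = t' at *
  generalize zc p k a = a' at *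
  generalize zc p k b = b' at *
  have ha : a' = - (3 * t' ^ 2) := by linear_combination e1
  have hb : b' = 2 * t' ^ 3 := by linear_combination e0 - t' * e1
  rw [ha, hb]
  ring

open Finset in
lemma key (p : ℕ) [Fact p.Prime] (k : Type) [Field k] [CharP k p] (hp : 5 ≤ p) (a b : ZMod p)
    (H : Hyp (zc p k a) (zc p k b)) :
    ∃ Q R G : k[X], Nm p (zc p k a) (zc p k b) = Q * G ∧ (X ^ p - X : k[X]) ^ 2 = R * G ∧
      IsCoprime Q R ∧ R ≠ 0 ∧ G ≠ 0 ∧ max Q.natDegree R.natDegree = Naff p a b + 1 := by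
  classical
  set F : ZMod p → k := fun t => zc p k t with hF
  have hFinj : Function.Injective F := (zc p k).injective
  set χ : ZMod p → ℤ := fun t => quadraticChar (ZMod p) (uu p a b t) with hχ
  set S1 : Finset (ZMod p) := univ.filter (fun t => χ t = 1) with hS1
  set S2 : Finset (ZMod p) := univ.filter (fun t => χ t = -1) with hS2
  set S0 : Finset (ZMod p) := univ.filter (fun t => uu p a b t = 0) with hS0
  have hχ0 : ∀ t, uu p a b t = 0 → χ t = 0 := fun t h => by simp [hχ, h]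
  have htri : ∀ t, uu p a b t = 0 ∨ χ t = 1 ∨ χ t = -1 := by
    intro t
    by_cases h : uu p a b t = 0
    · exact Or.inl h
    · exact Or.inr (quadraticChar_dichotomy h)
  set G2 : k[X] := ∏ t ∈ S2, (X - C (F t)) ^ 2 with hG2
  set G0 : k[X] := ∏ t ∈ S0, (X - C (F t)) with hG0
  set G1 : k[X] := ∏ t ∈ S1, (X - C (F t)) ^ 2 with hG1
  have hcop : ∀ t s : ZMod p, t ≠ s → IsCoprime (X - C (F t)) (X - C (F s)) := fun t s h =>
    isCoprime_X_sub_C_of_isUnit_sub (sub_ne_zero.2 (fun e => h (hFinj e))).isUnit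
  have hd02 : IsCoprime G2 G0 := by
    refine IsCoprime.prod_left fun t ht => IsCoprime.prod_right fun s hs => ?_
    refine IsCoprime.pow_left (hcop t s ?_)
    rintro rfl
    rw [hS2, mem_filter] at ht
    rw [hS0, mem_filter] at hs
    have := hχ0 _ hs.2
    rw [this] at ht
    simp at ht
  have hG2d : G2 ∣ Nm p (zc p k a) (zc p k b) := by
    refine Finset.prod_dvd_of_coprime (fun t _ s _ h => IsCoprime.pow (hcop t s h)) fun t ht => ?_
    rw [hS2, mem_filter] at ht
    exact dvd_neg p k hp a b t ht.2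
  have hG0d : G0 ∣ Nm p (zc p k a) (zc p k b) := by
    refine Finset.prod_dvd_of_coprime (fun t _ s _ h => hcop t s h) fun t ht => ?_
    rw [hS0, mem_filter] at ht
    exact dvd_zero' p k hp a b t ht.2
  obtain ⟨Q, hQ⟩ := hd02.mul_dvd hG2d hG0d
  have hG1ne : G1 ≠ 0 := prod_ne_zero_iff.2 fun t _ => pow_ne_zero 2 (X_sub_C_ne_zero _)
  have hG2ne : G2 ≠ 0 := prod_ne_zero_iff.2 fun t _ => pow_ne_zero 2 (X_sub_C_ne_zero _)
  have hG0ne : G0 ≠ 0 := prod_ne_zero_iff.2 fun t _ => (X_sub_C_ne_zero _)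
  have hprod : (X ^ p - X : k[X]) ^ 2 = (G1 * G0) * (G2 * G0) := by
    rw [← prod_eq p k]
    have hU : (univ : Finset (ZMod p)) = S1 ∪ (S2 ∪ S0) := by
      ext t
      simp only [hS1, hS2, hS0, mem_union, mem_filter, mem_univ, true_and, true_iff]
      rcases htri t with h | h | h
      · exact Or.inr (Or.inr h)
      · exact Or.inl h
      · exact Or.inr (Or.inl h)
    have hdis1 : Disjoint S1 (S2 ∪ S0) := by
      rw [disjoint_left]
      intro t h1 h2
      rw [hS1, mem_filter] at h1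
      rw [mem_union, hS2, hS0, mem_filter, mem_filter] at h2
      rcases h2 with h2 | h2
      · rw [h1.2] at h2; simp at h2
      · rw [hχ0 t h2.2] at h1; simp at h1
    have hdis2 : Disjoint S2 S0 := by
      rw [disjoint_left]
      intro t h1 h2
      rw [hS2, mem_filter] at h1
      rw [hS0, mem_filter] at h2
      rw [hχ0 t h2.2] at h1; simp at h1
    have e : ∏ t : ZMod p, (X - C (zc p k t)) =
        (∏ t ∈ S1, (X - C (F t))) * ((∏ t ∈ S2, (X - C (F t))) * ∏ t ∈ S0, (X - C (F t))) := by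
      rw [hU, prod_union hdis1, prod_union hdis2]
    rw [e, hG1, hG2, hG0, prod_pow, prod_pow]
    ring
  have hcopQ : IsCoprime Q (G1 * G0) := by
    refine IsCoprime.mul_right (IsCoprime.prod_right fun t ht => IsCoprime.pow_right ?_)
      (IsCoprime.prod_right fun t ht => ?_)
    · rw [isCoprime_comm, (irreducible_X_sub_C _).coprime_iff_not_dvd]
      intro hd
      rw [hS1, mem_filter] at ht
      refine not_dvd_pos p k hp a b t ht.2 H.two ?_
      rw [hQ]
      exact Dvd.dvd.mul_left hd _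
    · rw [isCoprime_comm, (irreducible_X_sub_C _).coprime_iff_not_dvd]
      intro hd
      have ht' := ht
      rw [hS0, mem_filter] at ht'
      refine not_dvd_zero p k hp a b t ht'.2 H ?_
      rw [hQ, pow_two]
      refine mul_dvd_mul (Dvd.dvd.mul_left (Finset.dvd_prod_of_mem _ ht) _) hd
  have hQne : Q ≠ 0 := by
    rintro rfl
    rw [mul_zero] at hQ
    have := num_natDegree p k hp a b
    rw [hQ, natDegree_zero] at this
    omega
  have hdeg1 : G1.natDegree = 2 * #S1 := by
    rw [hG1, natDegree_prod _ _ (fun t _ => pow_ne_zero 2 (X_sub_C_ne_zero _))]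
    simp [natDegree_pow, mul_comm]
  have hdeg2 : G2.natDegree = 2 * #S2 := by
    rw [hG2, natDegree_prod _ _ (fun t _ => pow_ne_zero 2 (X_sub_C_ne_zero _))]
    simp [natDegree_pow, mul_comm]
  have hdeg0 : G0.natDegree = #S0 := by
    rw [hG0, natDegree_prod _ _ (fun t _ => (X_sub_C_ne_zero _))]
    simp
  have hQdeg : Q.natDegree + 2 * #S2 + #S0 = 2 * p + 1 := by
    have := num_natDegree p k hp a b
    rw [hQ, natDegree_mul (mul_ne_zero hG2ne hG0ne) hQne, natDegree_mul hG2ne hG0ne, hdeg2,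
      hdeg0] at this
    omega
  have hPdeg : (2 * #S1 + #S0) + (2 * #S2 + #S0) = 2 * p := by
    have := congrArg natDegree hprod
    rw [natDegree_pow, FiniteField.X_pow_card_sub_X_natDegree_eq k (Fact.out : p.Prime).one_lt,
      natDegree_mul (mul_ne_zero hG1ne hG0ne) (mul_ne_zero hG2ne hG0ne),
      natDegree_mul hG1ne hG0ne, natDegree_mul hG2ne hG0ne, hdeg1, hdeg2, hdeg0] at this
    omega
  have hN : Naff p a b = 2 * #S1 + #S0 := by
    have h1 : ((Naff p a b : ℕ) : ℤ) = 2 * #S1 + #S0 := by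
      rw [naff p hp]
      have : ∀ t : ZMod p, quadraticChar (ZMod p) (uu p a b t) + 1 =
          2 * (if χ t = 1 then 1 else 0) + (if uu p a b t = 0 then 1 else 0) := by
        intro t
        rcases htri t with h | h | h
        · simp [hχ, h]
        · have h0 : uu p a b t ≠ 0 := fun h0 => by rw [hχ0 t h0] at h; simp at h
          rw [if_pos h, if_neg h0]
          have : quadraticChar (ZMod p) (uu p a b t) = 1 := h
          rw [this]; norm_num
        · have h0 : uu p a b t ≠ 0 := fun h0 => by rw [hχ0 t h0] at h; simp at h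
          rw [if_neg (by rw [h]; norm_num), if_neg h0]
          have : quadraticChar (ZMod p) (uu p a b t) = -1 := h
          rw [this]; norm_num
      rw [sum_congr rfl fun t _ => this t, sum_add_distrib, ← mul_sum, sum_boole, sum_boole]
    exact_mod_cast h1
  refine ⟨Q, G1 * G0, G2 * G0, ?_, hprod, hcopQ, mul_ne_zero hG1ne hG0ne,
    mul_ne_zero hG2ne hG0ne, ?_⟩
  · rw [hQ]; ring
  · rw [natDegree_mul hG1ne hG0ne, hdeg1, hdeg0, hN]
    omega

end NPI_

open NPI_ in
theorem p_NPI (h1 : T_API) (h2 : T_RFG) : T_NPI := by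
  intro p _ k _ _ hp a b H
  have hodd : 1 + 2 * ((p - 1) / 2) = p := by
    have := (Fact.out : p.Prime).eq_two_or_odd
    omega
  have hp1 : 1 < p := (Fact.out : p.Prime).one_lt
  set A := zc p k a with hA
  set B := zc p k b with hB
  obtain ⟨hf, hzero, hmk, hpt, hneg, heq, hadd, -, -⟩ := h1 k A B H
  have hffp : ff A B = algebraMap k[X] (RatFunc k) (fp A B) := by
    simp [ff, fp, RatFunc.algebraMap_X, RatFunc.algebraMap_C]
  have hXid : ff A B * (1 : RatFunc k) ^ 2 = ev A B RatFunc.X := by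
    simp [ff, ev]
  have hpi : ff A B * (ff A B ^ ((p - 1) / 2)) ^ 2 = ev A B (RatFunc.X ^ p) := by
    rw [← pow_mul, ← pow_succ', show (p - 1) / 2 * 2 + 1 = p by omega, hffp, ← map_pow, hA, hB,
      fp_pow]
    rw [map_add, map_add, map_mul, map_pow, map_pow, RatFunc.algebraMap_X, RatFunc.algebraMap_C,
      RatFunc.algebraMap_C]
    unfold ev
    ring
  obtain ⟨i1, i2, i3⟩ := hmk _ _ hXid
  obtain ⟨j1, j2, j3⟩ := hmk _ _ hpi
  have hone : IsCoprime (X : k[X]) 1 := isCoprime_one_right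
  refine ⟨?_, ?_, ?_⟩
  · unfold dd idM
    rw [i2]
    simp [rdeg, RatFunc.num_X, RatFunc.denom_X]
  · unfold dd piM
    rw [j2]
    have := (h2 k).1 (X ^ p) 1 one_ne_zero isCoprime_one_right
    simpa [RatFunc.algebraMap_X] using this
  · have hnepi : -(piM p A B) ≠ 0 := by
      rw [neg_ne_zero]; exact j1
    obtain ⟨n1, n2⟩ := hneg (piM p A B)
    have hXne : (RatFunc.X : RatFunc k) ≠ RatFunc.X ^ p := by
      intro h
      rw [← RatFunc.algebraMap_X, ← map_pow] at h
      have h' := RatFunc.algebraMap_injective k h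
      exact FiniteField.X_pow_card_sub_X_ne_zero k hp1 (sub_eq_zero.2 h'.symm)
    have hxne : xr (idM A B) ≠ xr (-(piM p A B)) := by
      rw [n1]
      unfold idM piM
      rw [i2, j2]
      exact hXne
    have hx := (hadd (idM A B) (-(piM p A B)) i1 hnepi hxne).2.1
    rw [← sub_eq_add_neg, n1, n2] at hx
    unfold dd
    rw [hx]
    unfold idM piM
    rw [i2, i3, j2, j3]
    obtain ⟨Q, R, G, hQ, hR, hQR, hRne, hGne, hdeg⟩ := key p k hp a b H
    rw [← hdeg, ← (h2 k).1 Q R hRne hQR]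
    congr 1
    have hRK : algebraMap k[X] (RatFunc k) R ≠ 0 := by
      rwa [Ne, map_eq_zero_iff _ (RatFunc.algebraMap_injective k)]
    have hGK : algebraMap k[X] (RatFunc k) G ≠ 0 := by
      rwa [Ne, map_eq_zero_iff _ (RatFunc.algebraMap_injective k)]
    have hQ' := congrArg (algebraMap k[X] (RatFunc k)) hQ
    have hR' := congrArg (algebraMap k[X] (RatFunc k)) hR
    rw [map_mul] at hQ' hR'
    have hD : (RatFunc.X ^ p - RatFunc.X : RatFunc k) ^ 2 =
        algebraMap k[X] (RatFunc k) R * algebraMap k[X] (RatFunc k) G := by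
      rw [← hR']
      simp [RatFunc.algebraMap_X]
    have hN : ff A B * (1 + ff A B ^ ((p - 1) / 2)) ^ 2 -
        (RatFunc.X + RatFunc.X ^ p) * (RatFunc.X ^ p - RatFunc.X) ^ 2 =
        algebraMap k[X] (RatFunc k) Q * algebraMap k[X] (RatFunc k) G := by
      rw [← hQ', hffp]
      simp [Nm, RatFunc.algebraMap_X, hA, hB]
    have hDne : (RatFunc.X ^ p - RatFunc.X : RatFunc k) ≠ 0 := sub_ne_zero.2 hXne.symm
    have e : ff A B * ((1 - -(ff A B ^ ((p - 1) / 2))) / (RatFunc.X - RatFunc.X ^ p)) ^ 2 -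
        RatFunc.X - RatFunc.X ^ p = (ff A B * (1 + ff A B ^ ((p - 1) / 2)) ^ 2 -
        (RatFunc.X + RatFunc.X ^ p) * (RatFunc.X ^ p - RatFunc.X) ^ 2) /
        (RatFunc.X ^ p - RatFunc.X) ^ 2 := by
      have hDne' : (RatFunc.X - RatFunc.X ^ p : RatFunc k) ≠ 0 := sub_ne_zero.2 hXne
      field_simp
      ring
    rw [e, hN, hD, mul_div_mul_right _ _ hGK]

end SSA
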