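import Pool.Agent.SSA.Targets

/-!
# SS: a CM map with `c ∉ F_p` forces `N = p`
-/

open Polynomial

namespace SSA

theorem SS_.num (p N : ℕ) (hp : 5 ≤ p) (hd : (p : ℤ) ∣ (N : ℤ))
    (h : ((p : ℤ) - N) ^ 2 ≤ 4 * p) : N = p := by
  obtain ⟨m, hm⟩ := hd
  rw [hm] at h
  have hp' : (5 : ℤ) ≤ (p : ℤ) := by exact_mod_cast hp
  have h1 : (p : ℤ) * ((1 - m) ^ 2 * (p : ℤ)) ≤ (p : ℤ) * 4 := by
    have h0 : (p : ℤ) * ((1 - m) ^ 2 * (p : ℤ)) = ((p : ℤ) - p * m) ^ 2 := by ring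
    rw [h0]
    linarith
  have h2 : (1 - m) ^ 2 * (p : ℤ) ≤ 4 := le_of_mul_le_mul_left h1 (by linarith)
  have h3 : (1 - m) ^ 2 < 1 := by
    by_contra h4
    have h5 : (1 : ℤ) ≤ (1 - m) ^ 2 := by omega
    nlinarith
  have h4 : (1 - m) ^ 2 = 0 := by
    have := sq_nonneg (1 - m)
    omega
  have h5 : 1 - m = 0 := by
    simpa using h4
  have h6 : m = 1 := by omega
  rw [h6, mul_one] at hm
  exact_mod_cast hm

theorem SS_.coeff (p : ℕ) [Fact p.Prime] (k : Type) [Field k] [CharP k p] (a b : ZMod p)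
    (n m : ℕ) : (fp (zc p k a) (zc p k b) ^ n).coeff m = zc p k ((fp a b ^ n).coeff m) := by
  have h : fp (zc p k a) (zc p k b) ^ n = (fp a b ^ n).map (zc p k) := by
    simp [fp, Polynomial.map_pow]
  rw [h, coeff_map]

theorem p_SS (h1 : T_CAR) (h2 : T_HIN) (h3 : T_HB) : T_SS := by
  intro p _ k _ _ _ hp a b hH R c hR hc hcp heq
  have h4 := h1 p k hp (zc p k a) (zc p k b) hH R c hR hc hcp heq
  rw [SS_.coeff] at h4
  have h5 : (fp a b ^ ((p - 1) / 2)).coeff (p - 1) = 0 :=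
    (map_eq_zero (zc p k)).mp h4
  have h6 := h2 p hp a b
  rw [h5, neg_zero] at h6
  have h7 : p ∣ Naff p a b := (ZMod.natCast_eq_zero_iff _ _).mp h6
  have h8 := (h3 p k hp a b hH).2
  exact SS_.num p _ hp (by exact_mod_cast h7) h8

end SSA
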