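import Pool.Agent.SSA.Targets

/-!
# MP_d74fca_nt, algebraic part: UCC
-/

open Polynomial

namespace SSA

namespace UCC_

/-- elements fixed by the Frobenius are natural numbers -/
theorem exists_nat (p : ℕ) [Fact p.Prime] (k : Type) [Field k] [CharP k p] (x : k)
    (hx : x ^ p = x) : ∃ m : ℕ, (m : k) = x := by
  have h1 : x ∈ (⊥ : Subfield k) := (Subfield.mem_bot_iff_pow_eq_self (F := k) (p := p)).2 hx
  rw [← ZMod.fieldRange_castHom_eq_bot p] at h1
  obtain ⟨y, hy⟩ := h1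
  refine ⟨y.val, ?_⟩
  rw [← hy]
  have h2 : ((y.val : ℕ) : ZMod p) = y := ZMod.natCast_zmod_val y
  rw [← map_natCast (ZMod.castHom (dvd_refl p) k) y.val, h2]

end UCC_

open UCC_ in
/-- UCC -/
theorem p_UCC (h1 : T_DDA) (h2 : T_INS) (h3 : T_FRB) (h4 : T_PAR) (h5 : T_QFA) : T_UCC := by
  intro p _ k _ _ _ hp a b hH α β c d hc hd hcp hdp hα hβ hdα hdβ
  obtain ⟨dadd, dneg, dzero, -⟩ := h1 k _ _ hH
  -- the natural number
  have hx : (d / c) ^ p = d / c := by
    rw [div_pow, hcp, hdp, neg_div_neg_eq]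
  obtain ⟨m, hm⟩ := exists_nat p k (d / c) hx
  have hmc : (m : k) * c = d := by
    rw [hm]
    field_simp
  -- the hom
  let D : MM (zc p k a) (zc p k b) →+ RatFunc k := AddMonoidHom.mk' DD dadd
  let v := β + (-(m : ℤ)) • α
  have hv : DD v = 0 := by
    have e1 : D v = D β + (-(m : ℤ)) • D α := by
      simp only [v, map_add, map_zsmul]
    have e2 : D β = RatFunc.C d := hβ
    have e3 : D α = RatFunc.C c := hα
    have e4 : D v = DD v := rfl
    rw [← e4, e1, e2, e3, ← hmc, map_mul]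
    simp
  obtain ⟨Q, hQ⟩ := h2 p k hp a b hH v hv
  have hdv : dd v = p * dd Q := by
    rw [hQ]
    exact (h3 p k hp a b hH).2.1 Q
  have hdvk : ((dd v : ℕ) : k) = 0 := by
    rw [hdv]
    push_cast
    rw [CharP.cast_eq_zero, zero_mul]
  -- the quadratic form
  have hpar : Par (fun P : MM (zc p k a) (zc p k b) => (dd P : ℤ)) := by
    refine ⟨fun x y => ?_, fun x => Int.natCast_nonneg _⟩
    have := h4 k _ _ hH x y
    show ((dd (x + y) : ℤ)) + (dd (x - y) : ℤ) = 2 * (dd x : ℤ) + 2 * (dd y : ℤ)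
    exact_mod_cast this
  obtain ⟨-, -, -, hsym, -, -, hbl, hsq, -, -⟩ := h5 _ _ hpar
  have e1 : (dd v : ℤ) = dd β + (m : ℤ) ^ 2 * dd α - m * BB α β := by
    have g1 := hsym β ((-(m : ℤ)) • α)
    have g2 := hbl (-(m : ℤ)) α β
    have g3 := hsq (-(m : ℤ)) α
    rw [g2] at g1
    unfold bl at g1
    unfold BB
    simp only at g1 g3
    have g4 : (dd v : ℤ) = dd (β + (-(m : ℤ)) • α) := rfl
    rw [g4]
    linarith [g1, g3]
  have e2 : (0 : k) = -d ^ 2 + (m : k) ^ 2 * (-c ^ 2) - m * ((BB α β : ℤ) : k) := by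
    have := congrArg (Int.cast : ℤ → k) e1
    push_cast at this
    rw [hdvk, hdα, hdβ] at this
    exact this
  have hmne : (m : k) ≠ 0 := by
    rw [hm]
    exact div_ne_zero hd hc
  apply mul_left_cancel₀ hmne
  rw [← hmc] at e2 ⊢
  linear_combination e2

end SSA
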