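import Pool.Agent.SSA.TargetsB
import Pool.Agent.SSA.UCC
import Pool.Agent.SSA.SS

/-!
# MP_d74fca_nt, algebraic part (helper22): in the ordinary case the rank is two (helper4)
-/

open Polynomial

namespace SSA

namespace ORD_

/-- determinant of the Gram matrix of three elements -/
lemma det_gram {A : Type} [AddCommGroup A] (q : A → ℤ) (hq : Par q) (hQ : T_QFA) (x y z : A) :
    (gram q ![x, y, z]).det =
      2 * q x * (2 * q y * (2 * q z) - bl q y z * bl q y z)
      - bl q x y * (bl q x y * (2 * q z) - bl q y z * bl q x z)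
      + bl q x z * (bl q x y * bl q y z - 2 * q y * bl q x z) := by
  obtain ⟨-, -, hd, hs, -⟩ := hQ A q hq
  rw [Matrix.det_fin_three]
  simp only [gram, Matrix.cons_val_zero, Matrix.cons_val_one, Matrix.cons_val, hd]
  rw [hs y x, hs z x, hs z y]
  ring

end ORD_

open ORD_ in
theorem p_ORD (h1 : T_API) (h2 : T_PAR) (h3 : T_QFA) (h4 : T_GRD) (h5 : T_FRB) (h6 : T_INS)
    (h7 : T_DDA) (h8 : T_DDC) (h9 : T_CAR) (h10 : T_HIN) (h11 : T_HC) (h12 : T_NPI)
    (h13 : T_HB) : T_ORD := by
  intro p _ k _ _ _ hp a b hH hN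
  set I := idM (zc p k a) (zc p k b) with hI
  set Pi1 := piM p (zc p k a) (zc p k b) with hPi1
  set q : MM (zc p k a) (zc p k b) → ℤ := fun P => (dd P : ℤ) with hqdef
  have hpar : Par q := by
    refine ⟨fun x y => ?_, fun x => Int.natCast_nonneg _⟩
    have := h2 k _ _ hH x y
    show ((dd (x + y) : ℤ)) + (dd (x - y) : ℤ) = 2 * (dd x : ℤ) + 2 * (dd y : ℤ)
    exact_mod_cast this
  obtain ⟨-, -, hd, hs, hadd, hneg, hsm, -, hcs, -⟩ := h3 _ q hpar
  obtain ⟨fadd, fdd, fid'⟩ := h5 p k hp a b hH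
  have fid : frb p I = Pi1 := fid'
  obtain ⟨did, dpi, -⟩ := h12 p k hp a b hH
  obtain ⟨dadd, dneg, dzero, done⟩ := h7 k _ _ hH
  obtain ⟨-, -, -, apt, -⟩ := h1 k _ _ hH
  have hHB := (h13 p k hp a b hH).1
  have hHC := h11 p k hp a b hH
  set t : ℤ := (p : ℤ) - Naff p a b with ht
  have hp0 : (0 : ℤ) < p := by
    have : 0 < p := by omega
    exact_mod_cast this
  -- basic values
  have qI : q I = 1 := by
    show (dd I : ℤ) = 1
    rw [did]; norm_num
  have qP : q Pi1 = p := by
    show (dd Pi1 : ℤ) = p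
    rw [dpi]
  have bIP : bl q I Pi1 = t := hHB
  -- bilinear form of Frobenius images
  have bF : ∀ x y, bl q (frb p x) (frb p y) = p * bl q x y := by
    intro x y
    show ((dd (frb p x + frb p y) : ℤ)) - (dd (frb p x) : ℤ) - (dd (frb p y) : ℤ) =
      p * (((dd (x + y) : ℤ)) - (dd x : ℤ) - (dd y : ℤ))
    rw [← fadd, fdd, fdd, fdd]
    push_cast
    ring
  have qF : ∀ x, q (frb p x) = p * q x := by
    intro x
    show ((dd (frb p x) : ℤ)) = p * (dd x : ℤ)
    rw [fdd]
    push_cast
    ring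
  -- Hamilton-Cayley
  have bHC : ∀ y, bl q (frb p Pi1) y = t * bl q Pi1 y - p * bl q I y := by
    intro y
    have e0 : q (frb p Pi1 - t • Pi1 + (p : ℤ) • I) = 0 := by
      show ((dd (frb p Pi1 - t • Pi1 + (p : ℤ) • I) : ℕ) : ℤ) = 0
      rw [hHC]; norm_num
    have e1 := hcs (frb p Pi1 - t • Pi1 + (p : ℤ) • I) y
    rw [e0] at e1
    have e2 : bl q (frb p Pi1 - t • Pi1 + (p : ℤ) • I) y = 0 := by
      have : (bl q (frb p Pi1 - t • Pi1 + (p : ℤ) • I) y) ^ 2 ≤ 0 := by
        simpa using e1
      exact pow_eq_zero_iff (two_ne_zero) |>.mp (le_antisymm this (sq_nonneg _))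
    rw [hadd, sub_eq_add_neg, hadd, hneg, hsm, hsm] at e2
    linarith
  -- every v is n id + frb w
  have key : ∀ v : MM (zc p k a) (zc p k b), ∃ (n : ℤ) (w : MM (zc p k a) (zc p k b)),
      v = n • I + frb p w := by
    intro v
    obtain ⟨c, hc⟩ := h8 k _ _ hH v
    have hcp : c ^ p = c := by
      by_contra hne
      have hc0 : c ≠ 0 := by
        intro h0
        apply hne
        rw [h0, zero_pow (by omega)]
      have hCc : RatFunc.C c ≠ (0 : RatFunc k) := by
        rw [Ne, map_eq_zero]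
        exact hc0
      have hv0 : v ≠ 0 := by
        intro h0
        rw [h0, dzero] at hc
        exact hCc hc.symm
      have hy0 : yr v ≠ 0 := by
        intro h0
        unfold DD at hc
        rw [h0, div_zero] at hc
        exact hCc hc.symm
      have hR : rder (xr v) = RatFunc.C c * yr v := by
        unfold DD at hc
        rw [← hc, div_mul_cancel₀ _ hy0]
      have hR0 : rder (xr v) ≠ 0 := by
        rw [hR]
        exact mul_ne_zero hCc hy0
      have heq : rder (xr v) ^ 2 * ff (zc p k a) (zc p k b) =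
          RatFunc.C c ^ 2 * ev (zc p k a) (zc p k b) (xr v) := by
        rw [← (apt v hv0).1, hR]
        ring
      have h14 := h9 p k hp (zc p k a) (zc p k b) hH (xr v) c hR0 hc0 hne heq
      rw [SS_.coeff] at h14
      have h15 : (fp a b ^ ((p - 1) / 2)).coeff (p - 1) = 0 :=
        (map_eq_zero (zc p k)).mp h14
      have h16 := h10 p hp a b
      rw [h15, neg_zero] at h16
      exact hN ((ZMod.natCast_eq_zero_iff _ _).mp h16)
    obtain ⟨m, hm⟩ := UCC_.exists_nat p k c hcp
    let D : MM (zc p k a) (zc p k b) →+ RatFunc k := AddMonoidHom.mk' DD dadd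
    have hv : DD (v + (-(m : ℤ)) • I) = 0 := by
      have e1 : D (v + (-(m : ℤ)) • I) = D v + (-(m : ℤ)) • D I := by
        rw [map_add, map_zsmul]
      have e2 : D v = RatFunc.C c := hc
      have e3 : D I = 1 := done
      have e4 : D (v + (-(m : ℤ)) • I) = DD (v + (-(m : ℤ)) • I) := rfl
      rw [← e4, e1, e2, e3, ← hm]
      simp
    obtain ⟨w, hw⟩ := h6 p k hp a b hH _ hv
    refine ⟨(m : ℤ), w, ?_⟩
    rw [← hw, neg_smul]
    abel
  -- the determinant and one descent step
  have hG0 : ∀ v, 0 ≤ (gram q ![I, Pi1, v]).det := fun v => (h4 _ q hpar 3 _).1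
  have step : ∀ v, ∃ w, (gram q ![I, Pi1, v]).det = p * (gram q ![I, Pi1, w]).det := by
    intro v
    obtain ⟨n, w, rfl⟩ := key v
    refine ⟨w, ?_⟩
    rw [det_gram q hpar h3, det_gram q hpar h3, qI, qP, bIP]
    set u := frb p w with hu
    have a1 : bl q Pi1 u = p * bl q I w := by
      rw [hu, ← fid, bF]
    have a2 : p * bl q Pi1 w = t * bl q Pi1 u - p * bl q I u := by
      rw [← bHC, hu, bF]
    have a3 : q u = p * q w := qF w
    have a4 : bl q I u = t * bl q I w - bl q Pi1 w := by
      have : (p : ℤ) * bl q I u = p * (t * bl q I w - bl q Pi1 w) := by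
        rw [a1] at a2
        linarith
      exact mul_left_cancel₀ hp0.ne' this
    have b1 : bl q I (n • I + u) = 2 * n + bl q I u := by
      rw [hs I (n • I + u), hadd, hsm, hd, qI, hs u I]
      ring
    have b2 : bl q Pi1 (n • I + u) = n * t + bl q Pi1 u := by
      rw [hs Pi1 (n • I + u), hadd, hsm, bIP, hs u Pi1]
    have b3 : q (n • I + u) = n ^ 2 + n * bl q I u + q u := by
      have c1 := hd (n • I + u)
      rw [hadd, hsm, b1, hs u (n • I + u), hadd, hsm, hd u] at c1
      linarith
    rw [b1, b2, b3, a1, a3, a4]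
    ring
  -- descent
  have main : ∀ (N : ℕ) (v), (gram q ![I, Pi1, v]).det ≤ N → (gram q ![I, Pi1, v]).det = 0 := by
    intro N
    induction N with
    | zero =>
      intro v hv
      exact le_antisymm (by simpa using hv) (hG0 v)
    | succ N ih =>
      intro v hv
      obtain ⟨w, hw⟩ := step v
      have hw0 := hG0 w
      have hp5 : (5 : ℤ) ≤ p := by exact_mod_cast hp
      have hle : (gram q ![I, Pi1, w]).det ≤ N := by
        by_contra hcon
        push Not at hcon
        have h17 : (N : ℤ) + 1 ≤ (gram q ![I, Pi1, w]).det := hcon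
        have h18 : (5 : ℤ) * (gram q ![I, Pi1, w]).det ≤ p * (gram q ![I, Pi1, w]).det :=
          mul_le_mul_of_nonneg_right hp5 hw0
        push_cast at hv
        have h19 : (0 : ℤ) ≤ N := Int.natCast_nonneg N
        linarith
      rw [hw, ih w hle, mul_zero]
  intro v
  exact main (gram q ![I, Pi1, v]).det.toNat v (by rw [Int.toNat_of_nonneg (hG0 v)])

end SSA
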