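import Pool.Agent.SSA.Targets

/-!
# ORT: the point of a CM map
-/

set_option autoImplicit false

open Polynomial

namespace SSA

namespace ORT_

lemma sigma_zc {p : ℕ} {k : Type} [Field k] [CharP k p] (σ : k ≃+* k) (a : ZMod p) :
    σ (zc p k a) = zc p k a := by
  have h : (σ : k →+* k).comp (zc p k) = zc p k := RingHom.ext_zmod _ _
  exact congrArg (fun f : ZMod p →+* k => f a) h

lemma zc_pow {p : ℕ} [Fact p.Prime] {k : Type} [Field k] [CharP k p] (a : ZMod p) :
    (zc p k a) ^ p = zc p k a := by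
  rw [← map_pow, ZMod.pow_card]

/-- elements of the prime field are fixed -/
lemma sigma_fix {p : ℕ} [Fact p.Prime] {k : Type} [Field k] [CharP k p] (σ : k ≃+* k) {c : k}
    (hc : c ^ p = c) : σ c = c := by
  have h1 : c ∈ (⊥ : Subfield k) := (Subfield.mem_bot_iff_pow_eq_self k p).2 hc
  rw [← ZMod.fieldRange_castHom_eq_bot p] at h1
  obtain ⟨m, rfl⟩ := h1
  exact sigma_zc σ m

lemma zc_natCast {p : ℕ} {k : Type} [Field k] [CharP k p] (n : ℕ) :
    zc p k (n : ZMod p) = (n : k) := map_natCast _ _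

lemma frob_c {p : ℕ} [Fact p.Prime] {k : Type} [Field k] [CharP k p]
    (σ : k ≃+* k) {ℓ : ℕ} {c : k} (hc0 : c ≠ 0) (h2 : c ^ 2 = -(ℓ : k)) (hσ : σ c = -c)
    (htwo : (2 : k) ≠ 0) : c ^ p = -c := by
  have h3 : (c ^ p) ^ 2 = c ^ 2 := by
    rw [← pow_mul, mul_comm p 2, pow_mul, h2]
    have h4 : -(ℓ : k) = zc p k (-(ℓ : ZMod p)) := by rw [map_neg, zc_natCast]
    rw [h4, zc_pow]
  rcases sq_eq_sq_iff_eq_or_eq_neg.1 h3 with h5 | h5
  · exfalso
    have h6 := sigma_fix σ h5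
    rw [hσ] at h6
    have h7 : 2 * c = 0 := by linear_combination -h6
    rcases mul_eq_zero.1 h7 with h8 | h8
    · exact htwo h8
    · exact hc0 h8
  · exact h5

/-- a rational function which is a root of `T ^ 3 + a T + b` is constant -/
lemma const_of_ev {k : Type} [Field k] [IsAlgClosed k] {a b : k} {R : RatFunc k}
    (h : ev a b R = 0) : ∃ c : k, R = RatFunc.C c := by
  have hmonic : (fp a b).Monic := by
    unfold fp
    monicity!
  have hint : IsIntegral k R := by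
    refine ⟨fp a b, hmonic, ?_⟩
    rw [← h]
    unfold fp ev
    simp [RatFunc.algebraMap_eq_C]
  have hdeg : (minpoly k R).degree = 1 :=
    IsAlgClosed.degree_eq_one_of_irreducible k (minpoly.irreducible hint)
  obtain ⟨c, hc⟩ := minpoly.mem_range_of_degree_eq_one k R hdeg
  exact ⟨c, by rw [← hc, RatFunc.algebraMap_eq_C]⟩

/-- pairing with an element fixed by an additive map which preserves degrees -/
lemma pair_zero {k : Type} [Field k] [IsAlgClosed k] {a b : k} (H : Hyp a b) (h1 : T_API)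
    (h6 : T_PAR) (t : MM a b → MM a b) (hadd : ∀ P Q, t (P + Q) = t P + t Q)
    (hdd : ∀ P, dd (t P) = dd P) {α β : MM a b} (hα : t α = -α) (hβ : t β = β) :
    BB α β = 0 := by
  obtain ⟨-, -, -, -, hneg, -⟩ := h1 k a b H
  have hddneg : ∀ P : MM a b, dd (-P) = dd P := by
    intro P
    unfold dd
    rw [(hneg P).1]
  have e1 : dd (α + β) = dd (α - β) := by
    rw [← hdd (α + β), hadd, hα, hβ, ← hddneg (α - β)]
    congr 1
    abel
  have e2 := h6 k a b H α β
  rw [← e1] at e2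
  unfold BB
  have e3 : (dd (α + β) : ℤ) + dd (α + β) = 2 * dd α + 2 * dd β := by exact_mod_cast e2
  linarith

end ORT_

open ORT_ in
theorem p_ORT (h1 : T_API) (h3 : T_RFM) (h4 : T_RFG) (h5 : T_TAU) (h6 : T_PAR) :
    T_ORT := by
  intro p _ k _ _ _ hp a b H ℓ R c σ hℓ hD
  obtain ⟨hc0, hc2, hσc, hσR, hode, hdeg⟩ := hD
  have hfrob : c ^ p = -c := frob_c σ hc0 hc2 hσc H.two
  obtain ⟨-, hrdeg0, -⟩ := h4 k
  have hCc : (RatFunc.C c : RatFunc k) ≠ 0 := by
    rw [Ne, map_eq_zero]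
    exact hc0
  have hder : rder R ≠ 0 := by
    intro h0
    rw [h0] at hode
    have hev : ev (zc p k a) (zc p k b) R = 0 := by
      have h7 : RatFunc.C c ^ 2 * ev (zc p k a) (zc p k b) R = 0 := by
        rw [← hode]; ring
      rcases mul_eq_zero.1 h7 with h8 | h8
      · exact absurd h8 (pow_ne_zero 2 hCc)
      · exact h8
    have h9 := (hrdeg0 R).2 (const_of_ev hev)
    omega
  refine ⟨hfrob, hder, ?_⟩
  obtain ⟨-, h00, hmk, hrec, hneg, -⟩ := h1 k _ _ H
  obtain ⟨S, hS⟩ : ∃ S : RatFunc k, S = rder R / RatFunc.C c := ⟨_, rfl⟩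
  have hS0 : S ≠ 0 := by rw [hS]; exact div_ne_zero hder hCc
  have heq : ff (zc p k a) (zc p k b) * S ^ 2 = ev (zc p k a) (zc p k b) R := by
    rw [hS, div_pow]
    field_simp
    linear_combination hode
  obtain ⟨hα0, hxα, hyα⟩ := hmk R S heq
  obtain ⟨α, hα⟩ : ∃ α, α = mkP (zc p k a) (zc p k b) R S := ⟨_, rfl⟩
  rw [← hα] at hα0 hxα hyα
  have hσa := sigma_zc (p := p) σ a
  have hσb := sigma_zc (p := p) σ b
  obtain ⟨hadd, hdd, hcoord, hid, hpi⟩ := h5 k _ _ H σ hσa hσb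
  obtain ⟨-, -, -, hmdiv, -, -, hmC, -, -, hmder, -, -⟩ := h3 k k σ.toRingHom
  -- tau acts by -1
  have hxt : xr (tau σ α) = R := by rw [(hcoord α).1, hxα, hσR]
  have hyt : yr (tau σ α) = -S := by
    rw [(hcoord α).2, hyα, hS, hmdiv, hmder, hσR, hmC]
    have e1 : σ.toRingHom c = -c := hσc
    rw [e1, map_neg, div_neg]
  have ht0 : tau σ α ≠ 0 := by
    intro h0
    rw [h0, h00.2] at hyt
    exact hS0 (by rw [← neg_neg S, ← hyt, neg_zero])
  have hn0 : -α ≠ 0 := neg_ne_zero.2 hα0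
  have htau : tau σ α = -α := by
    rw [(hrec _ ht0).2, (hrec _ hn0).2, hxt, hyt, (hneg α).1, (hneg α).2, hxα, hyα]
  refine ⟨α, ?_, ?_, ?_, ?_⟩
  · unfold DD
    rw [hxα, hyα, hS, div_div_cancel₀ hder]
  · unfold dd
    rw [hxα, hdeg]
  · exact pair_zero H h1 h6 (tau σ) hadd hdd htau hid
  · exact pair_zero H h1 h6 (tau σ) hadd hdd htau
      (hpi p Fact.out hp inferInstance (zc_pow a) (zc_pow b))

end SSA
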