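import Pool.Agent.SSA.Targets

/-!
# MP_d74fca_nt, algebraic part: PAR (parallelogram law for the degree)
-/

open Polynomial

namespace SSA

namespace PAR_

section forms

variable {k : Type} [Field k]

/-- the two forms of the doubling formula have no common zero -/
lemma formsAB {a b : k} (h : Hyp a b) {n d : k}
    (hA : n ^ 4 - 2 * a * n ^ 2 * d ^ 2 - 8 * b * n * d ^ 3 + a ^ 2 * d ^ 4 = 0)
    (hB : 4 * d * (n ^ 3 + a * n * d ^ 2 + b * d ^ 3) = 0) : n = 0 ∧ d = 0 := by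
  by_cases hd : d = 0
  · subst hd
    refine ⟨?_, rfl⟩
    have : n ^ 4 = 0 := by linear_combination hA
    exact pow_eq_zero_iff (by norm_num) |>.1 this
  · exfalso
    have h4 : (4 : k) ≠ 0 := by
      have := mul_ne_zero h.two h.two
      intro h0
      apply this
      rw [← h0]
      norm_num
    have h1 : n ^ 3 + a * n * d ^ 2 + b * d ^ 3 = 0 := by
      rcases mul_eq_zero.1 hB with h2 | h2
      · exact absurd h2 (mul_ne_zero h4 hd)
      · exact h2
    have h2 : (3 * n ^ 2 + a * d ^ 2) ^ 2 = 0 := by linear_combination hA + 8 * n * h1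
    have h3 : 3 * n ^ 2 + a * d ^ 2 = 0 := pow_eq_zero_iff (by norm_num) |>.1 h2
    have h5 : d ^ 2 * (2 * a * n + 3 * b * d) = 0 := by linear_combination 3 * h1 - n * h3
    have h6 : 2 * a * n + 3 * b * d = 0 := by
      rcases mul_eq_zero.1 h5 with h7 | h7
      · exact absurd h7 (pow_ne_zero 2 hd)
      · exact h7
    have h8 : d ^ 2 * (4 * a ^ 3 + 27 * b ^ 2) = 0 := by
      linear_combination 4 * a ^ 2 * h3 - 3 * (2 * a * n - 3 * b * d) * h6
    rcases mul_eq_zero.1 h8 with h7 | h7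
    · exact absurd h7 (pow_ne_zero 2 hd)
    · exact h.disc h7

/-- proportional vectors -/
lemma prop2 {n₁ d₁ n₂ d₂ : k} (h1 : ¬(n₁ = 0 ∧ d₁ = 0)) (h2 : ¬(n₂ = 0 ∧ d₂ = 0))
    (h : n₁ * d₂ - n₂ * d₁ = 0) : ∃ s : k, s ≠ 0 ∧ n₂ = s * n₁ ∧ d₂ = s * d₁ := by
  by_cases hd : d₁ = 0
  · have hn : n₁ ≠ 0 := fun h0 => h1 ⟨h0, hd⟩
    have hd2 : d₂ = 0 := by
      have : n₁ * d₂ = 0 := by rw [hd] at h; linear_combination h
      rcases mul_eq_zero.1 this with h3 | h3
      · exact absurd h3 hn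
      · exact h3
    refine ⟨n₂ / n₁, ?_, ?_, ?_⟩
    · refine div_ne_zero (fun h0 => h2 ⟨h0, hd2⟩) hn
    · field_simp
    · rw [hd, hd2]; ring
  · refine ⟨d₂ / d₁, ?_, ?_, ?_⟩
    · refine div_ne_zero (fun h0 => h2 ⟨?_, h0⟩) hd
      have : n₂ * d₁ = 0 := by rw [h0] at h; linear_combination -h
      rcases mul_eq_zero.1 this with h3 | h3
      · exact h3
      · exact absurd h3 hd
    · field_simp
      linear_combination -h
    · field_simp

/-- the three forms of the addition formula have no common zero -/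
lemma formsU {a b : k} (h : Hyp a b) {n₁ d₁ n₂ d₂ : k} (h1 : ¬(n₁ = 0 ∧ d₁ = 0))
    (h2 : ¬(n₂ = 0 ∧ d₂ = 0)) (hU0 : (n₁ * d₂ - n₂ * d₁) ^ 2 = 0)
    (hU1 : 2 * ((n₁ * n₂ + a * (d₁ * d₂)) * (n₁ * d₂ + n₂ * d₁) + 2 * b * (d₁ * d₂) ^ 2) = 0)
    (hU2 : (n₁ * n₂ - a * (d₁ * d₂)) ^ 2 - 4 * b * (d₁ * d₂) * (n₁ * d₂ + n₂ * d₁) = 0) :
    False := by
  have h0 : n₁ * d₂ - n₂ * d₁ = 0 := pow_eq_zero_iff (by norm_num) |>.1 hU0
  obtain ⟨s, hs, rfl, rfl⟩ := prop2 h1 h2 h0
  apply h1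
  have hs2 : s ^ 2 ≠ 0 := pow_ne_zero 2 hs
  apply formsAB h
  · have : s ^ 2 * (n₁ ^ 4 - 2 * a * n₁ ^ 2 * d₁ ^ 2 - 8 * b * n₁ * d₁ ^ 3 + a ^ 2 * d₁ ^ 4) = 0 := by
      linear_combination hU2
    rcases mul_eq_zero.1 this with h3 | h3
    · exact absurd h3 hs2
    · exact h3
  · have : s ^ 2 * (4 * d₁ * (n₁ ^ 3 + a * n₁ * d₁ ^ 2 + b * d₁ ^ 3)) = 0 := by
      linear_combination hU1
    rcases mul_eq_zero.1 this with h3 | h3
    · exact absurd h3 hs2
    · exact h3

/-- the three forms of sum and product have no common zero -/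
lemma formsV {n₃ d₃ n₄ d₄ : k} (h3 : ¬(n₃ = 0 ∧ d₃ = 0)) (h4 : ¬(n₄ = 0 ∧ d₄ = 0))
    (hV0 : d₃ * d₄ = 0) (hV1 : n₃ * d₄ + n₄ * d₃ = 0) (hV2 : n₃ * n₄ = 0) : False := by
  rcases mul_eq_zero.1 hV0 with h | h
  · have hn : n₃ ≠ 0 := fun h0 => h3 ⟨h0, h⟩
    rw [h, mul_zero, add_zero] at hV1
    have hd4 : d₄ = 0 := (mul_eq_zero.1 hV1).resolve_left hn
    have hn4 : n₄ = 0 := (mul_eq_zero.1 hV2).resolve_left hn
    exact h4 ⟨hn4, hd4⟩
  · have hn : n₄ ≠ 0 := fun h0 => h4 ⟨h0, h⟩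
    rw [h, mul_zero, zero_add] at hV1
    have hd3 : d₃ = 0 := (mul_eq_zero.1 hV1).resolve_left hn
    have hn3 : n₃ = 0 := (mul_eq_zero.1 hV2).resolve_right hn
    exact h3 ⟨hn3, hd3⟩

end forms

section general

variable {k : Type} [Field k] [IsAlgClosed k]

/-- polynomials without common root generate the unit ideal -/
lemma bez (U : Fin 3 → k[X]) (rU : ∀ t : k, ∃ i, (U i).eval t ≠ 0) :
    ∃ c : Fin 3 → k[X], ∑ i, c i * U i = 1 := by
  rw [← Ideal.mem_span_range_iff_exists_fun]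
  obtain ⟨g, hg⟩ := (IsPrincipalIdealRing.principal (Ideal.span (Set.range U))).principal
  have hdvd : ∀ i, g ∣ U i := by
    intro i
    have h1 : U i ∈ Ideal.span (Set.range U) := Ideal.subset_span ⟨i, rfl⟩
    rw [hg] at h1
    exact Ideal.mem_span_singleton.1 h1
  have hnr : ∀ t : k, g.eval t ≠ 0 := by
    intro t ht
    obtain ⟨i, hi⟩ := rU t
    apply hi
    obtain ⟨q, hq⟩ := hdvd i
    rw [hq, eval_mul, ht, zero_mul]
  have hdeg : g.degree = 0 := by
    by_contra hne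
    obtain ⟨t, ht⟩ := IsAlgClosed.exists_root g hne
    exact hnr t ht
  have hunit : IsUnit g := by
    rw [Polynomial.isUnit_iff_degree_eq_zero]
    exact hdeg
  have : Ideal.span (Set.range U) = ⊤ := by
    rw [hg]
    exact Ideal.span_singleton_eq_top.2 hunit
  rw [this]
  exact Submodule.mem_top

lemma mult (U V : Fin 3 → k[X]) (rU : ∀ t : k, ∃ i, (U i).eval t ≠ 0)
    (h : ∀ i j, U i * V j = U j * V i) : ∃ w : k[X], ∀ j, V j = w * U j := by
  obtain ⟨c, hc⟩ := bez U rU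
  refine ⟨∑ i, c i * V i, fun j => ?_⟩
  calc V j = (∑ i, c i * U i) * V j := by rw [hc, one_mul]
    _ = ∑ i, c i * (U i * V j) := by rw [Finset.sum_mul]; congr 1; ext1 i; ring
    _ = ∑ i, c i * (U j * V i) := by simp_rw [h _ j]
    _ = (∑ i, c i * V i) * U j := by rw [Finset.sum_mul]; congr 1; ext1 i; ring

lemma GLle (U V : Fin 3 → k[X]) (M M' : ℕ)
    (hV : ∀ i, (V i).natDegree ≤ M')
    (rU : ∀ t : k, ∃ i, (U i).eval t ≠ 0) (rV : ∀ t : k, ∃ i, (V i).eval t ≠ 0)
    (cU : ∃ i, (U i).coeff M ≠ 0)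
    (h : ∀ i j, U i * V j = U j * V i) : M ≤ M' := by
  obtain ⟨w, hw⟩ := mult U V rU h
  obtain ⟨w', hw'⟩ := mult V U rV (fun i j => by rw [mul_comm, h j i, mul_comm])
  obtain ⟨i, hi⟩ := cU
  have hUi : U i ≠ 0 := by
    rintro h0
    rw [h0] at hi
    simp at hi
  have hM : M ≤ (U i).natDegree := le_natDegree_of_ne_zero hi
  have hVi : V i ≠ 0 := by
    rintro h0
    apply hUi
    rw [hw' i, h0, mul_zero]
  have hwn : w ≠ 0 := by
    rintro h0
    apply hVi
    rw [hw i, h0, zero_mul]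
  have : (V i).natDegree = w.natDegree + (U i).natDegree := by
    rw [hw i, natDegree_mul hwn hUi]
  have := hV i
  omega

/-- two proportional triples without common zero on the projective line have the same degree -/
lemma glob (U V : Fin 3 → k[X]) (M M' : ℕ)
    (hU : ∀ i, (U i).natDegree ≤ M) (hV : ∀ i, (V i).natDegree ≤ M')
    (rU : ∀ t : k, ∃ i, (U i).eval t ≠ 0) (rV : ∀ t : k, ∃ i, (V i).eval t ≠ 0)
    (cU : ∃ i, (U i).coeff M ≠ 0) (cV : ∃ i, (V i).coeff M' ≠ 0)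
    (h : ∀ i j, U i * V j = U j * V i) : M = M' :=
  le_antisymm (GLle U V M M' hV rU rV cU h)
    (GLle V U M' M hU rV rU cV (fun i j => by rw [mul_comm, h j i, mul_comm]))

end general

section ratfunc

variable {k : Type} [Field k]

lemma num_ev (R : RatFunc k) (t : k) : ¬(R.num.eval t = 0 ∧ R.denom.eval t = 0) := by
  rintro ⟨h1, h2⟩
  obtain ⟨u, v, huv⟩ := RatFunc.isCoprime_num_denom R
  have := congrArg (eval t) huv
  simp only [eval_add, eval_mul, h1, h2, mul_zero, add_zero, eval_one] at this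
  exact zero_ne_one this

lemma num_co (R : RatFunc k) : ¬(R.num.coeff (rdeg R) = 0 ∧ R.denom.coeff (rdeg R) = 0) := by
  rintro ⟨h1, h2⟩
  rcases le_total R.denom.natDegree R.num.natDegree with h | h
  · have hm : rdeg R = R.num.natDegree := by rw [rdeg]; exact max_eq_left h
    rw [hm] at h1 h2
    have h3 : R.num = 0 := leadingCoeff_eq_zero.1 h1
    rw [h3] at h h2
    simp only [natDegree_zero, nonpos_iff_eq_zero] at h h2
    rw [← h] at h2
    exact R.denom_ne_zero (leadingCoeff_eq_zero.1 h2)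
  · have hm : rdeg R = R.denom.natDegree := by rw [rdeg]; exact max_eq_right h
    rw [hm] at h2
    exact R.denom_ne_zero (leadingCoeff_eq_zero.1 h2)

lemma num_le (R : RatFunc k) : R.num.natDegree ≤ rdeg R := le_max_left _ _

lemma den_le (R : RatFunc k) : R.denom.natDegree ≤ rdeg R := le_max_right _ _

/-- the pair of numerator and denominator as elements of the field -/
lemma rep (R : RatFunc k) : R * algebraMap k[X] (RatFunc k) R.denom =
    algebraMap k[X] (RatFunc k) R.num := by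
  conv_lhs => rw [← RatFunc.num_div_denom R]
  rw [RatFunc.num_div_denom]
  have h : algebraMap k[X] (RatFunc k) R.denom ≠ 0 := RatFunc.algebraMap_ne_zero R.denom_ne_zero
  rw [← RatFunc.num_div_denom R]
  rw [RatFunc.num_div_denom]
  nth_rewrite 1 [← RatFunc.num_div_denom R]
  rw [div_mul_cancel₀ _ h]

end ratfunc

section dg

variable {k : Type} [Field k]

/-- degree at most `m` with coefficient `c` there -/
def Dg (P : k[X]) (m : ℕ) (c : k) : Prop := P.natDegree ≤ m ∧ P.coeff m = c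

lemma Dg.cst (a : k) : Dg (C a) 0 a := ⟨by rw [natDegree_C], by rw [coeff_C_zero]⟩

lemma Dg.add {P Q : k[X]} {m : ℕ} {c c' : k} (h : Dg P m c) (h' : Dg Q m c') :
    Dg (P + Q) m (c + c') :=
  ⟨(natDegree_add_le P Q).trans (max_le h.1 h'.1), by rw [coeff_add, h.2, h'.2]⟩

lemma Dg.sub {P Q : k[X]} {m : ℕ} {c c' : k} (h : Dg P m c) (h' : Dg Q m c') :
    Dg (P - Q) m (c - c') :=
  ⟨(natDegree_sub_le P Q).trans (max_le h.1 h'.1), by rw [coeff_sub, h.2, h'.2]⟩

lemma Dg.mul {P Q : k[X]} {m n : ℕ} {c c' : k} (h : Dg P m c) (h' : Dg Q n c') :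
    Dg (P * Q) (m + n) (c * c') :=
  ⟨natDegree_mul_le.trans (add_le_add h.1 h'.1), by
    rw [coeff_mul_add_eq_of_natDegree_le h.1 h'.1, h.2, h'.2]⟩

lemma Dg.cmul {P : k[X]} {m : ℕ} {c : k} (a : k) (h : Dg P m c) :
    Dg (C a * P) m (a * c) :=
  ⟨(natDegree_C_mul_le a P).trans h.1, by rw [coeff_C_mul, h.2]⟩

lemma Dg.pow {P : k[X]} {m : ℕ} {c : k} (h : Dg P m c) (n : ℕ) : Dg (P ^ n) (n * m) (c ^ n) := by
  induction n with
  | zero =>
    rw [pow_zero, pow_zero, zero_mul, ← C_1]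
    exact Dg.cst 1
  | succ n ih =>
    have := ih.mul h
    rw [pow_succ, pow_succ, Nat.succ_mul]
    exact this

lemma Dg.congr {P : k[X]} {m m' : ℕ} {c c' : k} (h : Dg P m c) (hm : m = m') (hc : c = c') :
    Dg P m' c' := by rw [← hm, ← hc]; exact h

end dg

section main

set_option linter.unusedSectionVars false

variable {k : Type} [Field k] [IsAlgClosed k] {a b : k}

lemma const_of_ev {R : RatFunc k} (h : ev a b R = 0) : ∃ c : k, R = RatFunc.C c := by
  obtain ⟨e, he⟩ := IsAlgClosed.exists_root (fp a b) (by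
    have : (fp a b).degree = 3 := by
      rw [fp]
      compute_degree!
    rw [this]
    norm_num)
  have he' : e ^ 3 + a * e + b = 0 := by
    simpa [fp, IsRoot.def] using he
  have hE : (RatFunc.C e : RatFunc k) ^ 3 + RatFunc.C a * RatFunc.C e + RatFunc.C b = 0 := by
    rw [← map_pow, ← map_mul, ← map_add, ← map_add, he', map_zero]
  obtain ⟨e', he2⟩ := IsAlgClosed.exists_root (X ^ 2 + C e * X + C (e ^ 2 + a)) (by
    have : (X ^ 2 + C e * X + C (e ^ 2 + a) : k[X]).degree = 2 := by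
      compute_degree!
    rw [this]
    norm_num)
  have he3 : e' ^ 2 + e * e' + (e ^ 2 + a) = 0 := by
    simpa [IsRoot.def] using he2
  have hE' : (RatFunc.C e' : RatFunc k) ^ 2 + RatFunc.C e * RatFunc.C e' +
      (RatFunc.C e ^ 2 + RatFunc.C a) = 0 := by
    have := congrArg (RatFunc.C : k →+* RatFunc k) he3
    simpa only [map_add, map_mul, map_pow, map_zero] using this
  rw [ev] at h
  have h1 : (R - RatFunc.C e) * ((R - RatFunc.C e') * (R + RatFunc.C e + RatFunc.C e')) = 0 := by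
    linear_combination h - hE - (R - RatFunc.C e) * hE'
  rcases mul_eq_zero.1 h1 with h2 | h2
  · exact ⟨e, sub_eq_zero.1 h2⟩
  rcases mul_eq_zero.1 h2 with h3 | h3
  · exact ⟨e', sub_eq_zero.1 h3⟩
  · refine ⟨-e - e', ?_⟩
    rw [map_sub, map_neg]
    linear_combination h3

lemma rdeg_C (c : k) : rdeg (RatFunc.C c) = 0 := by
  rw [rdeg, RatFunc.num_C, RatFunc.denom_C, natDegree_C, natDegree_one, max_self]

lemma rdeg_zero : rdeg (0 : RatFunc k) = 0 := by
  rw [← map_zero (RatFunc.C : k →+* RatFunc k), rdeg_C]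

lemma dg_num (R : RatFunc k) : Dg R.num (rdeg R) (R.num.coeff (rdeg R)) := ⟨num_le R, rfl⟩

lemma dg_den (R : RatFunc k) : Dg R.denom (rdeg R) (R.denom.coeff (rdeg R)) := ⟨den_le R, rfl⟩

/-- degree of the doubling formula -/
lemma dbl (h : Hyp a b) (R T : RatFunc k)
    (hT : T * (4 * ev a b R) =
      R ^ 4 - 2 * RatFunc.C a * R ^ 2 - 8 * RatFunc.C b * R + RatFunc.C a ^ 2) :
    rdeg T = 4 * rdeg R := by
  set N := R.num with hN
  set D := R.denom with hD
  set m := rdeg R with hm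
  have dN := dg_num R
  have dD := dg_den R
  rw [← hN, ← hm] at dN
  rw [← hD, ← hm] at dD
  set n := N.coeff m with hn
  set d := D.coeff m with hd
  set A : k[X] := N ^ 4 - C (2 * a) * (N ^ 2 * D ^ 2) - C (8 * b) * (N * D ^ 3) + C (a ^ 2) * D ^ 4
    with hA
  set B : k[X] := C 4 * (D * (N ^ 3 + C a * (N * D ^ 2) + C b * D ^ 3)) with hB
  have dA : Dg A (4 * m) (n ^ 4 - 2 * a * n ^ 2 * d ^ 2 - 8 * b * n * d ^ 3 + a ^ 2 * d ^ 4) := by
    have h1 := dN.pow 4
    have h2 := (((dN.pow 2).mul (dD.pow 2)).cmul (2 * a)).congr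
      (show 2 * m + 2 * m = 4 * m by ring) rfl
    have h3 := ((dN.mul (dD.pow 3)).cmul (8 * b)).congr (show m + 3 * m = 4 * m by ring) rfl
    have h4 := (dD.pow 4).cmul (a ^ 2)
    exact (((h1.sub h2).sub h3).add h4).congr rfl (by ring)
  have dB : Dg B (4 * m) (4 * d * (n ^ 3 + a * n * d ^ 2 + b * d ^ 3)) := by
    have h1 := dN.pow 3
    have h2 := ((dN.mul (dD.pow 2)).cmul a).congr (show m + 2 * m = 3 * m by ring) rfl
    have h3 := (dD.pow 3).cmul b
    exact ((dD.mul ((h1.add h2).add h3)).cmul 4).congr (by ring) (by ring)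
  have rel : A * T.denom = B * T.num := by
    apply RatFunc.algebraMap_injective k
    have r1 := rep R
    have r2 := rep T
    rw [← hN, ← hD] at r1
    rw [hA, hB]
    simp only [map_mul, map_add, map_sub, map_pow, RatFunc.algebraMap_C, map_ofNat]
    rw [← r1, ← r2]
    rw [ev] at hT
    linear_combination (-(algebraMap k[X] (RatFunc k) D ^ 4 *
      algebraMap k[X] (RatFunc k) T.denom)) * hT
  have := glob ![A, B, 0] ![T.num, T.denom, 0] (4 * m) (rdeg T)
    (by
      intro i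
      fin_cases i
      · exact dA.1
      · exact dB.1
      · simp)
    (by
      intro i
      fin_cases i
      · exact num_le T
      · exact den_le T
      · simp)
    (by
      intro t
      by_contra hc
      push Not at hc
      have h0 := hc 0
      have h1 := hc 1
      simp only [Matrix.cons_val_zero, Matrix.cons_val_one, hA, hB, eval_add, eval_sub, eval_mul,
        eval_pow, eval_C] at h0 h1
      exact num_ev R t (formsAB h (by linear_combination h0) (by linear_combination h1)))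
    (by
      intro t
      by_contra hc
      push Not at hc
      exact num_ev T t ⟨hc 0, hc 1⟩)
    (by
      by_contra hc
      push Not at hc
      have h0 : A.coeff (4 * m) = 0 := hc 0
      have h1 : B.coeff (4 * m) = 0 := hc 1
      rw [dA.2] at h0
      rw [dB.2] at h1
      exact num_co R (formsAB h h0 h1))
    (by
      by_contra hc
      push Not at hc
      exact num_co T ⟨hc 0, hc 1⟩)
    (by
      intro i j
      fin_cases i <;> fin_cases j <;> simp <;>
        first | linear_combination rel | linear_combination -rel)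
  exact this.symm

/-- degree of the addition formula -/
lemma addf (h : Hyp a b) (R₁ R₂ R₃ R₄ : RatFunc k) (hne : R₁ ≠ R₂)
    (hs : (R₃ + R₄) * (R₁ - R₂) ^ 2 =
      2 * ((R₁ * R₂ + RatFunc.C a) * (R₁ + R₂) + 2 * RatFunc.C b))
    (hp : (R₃ * R₄) * (R₁ - R₂) ^ 2 =
      (R₁ * R₂ - RatFunc.C a) ^ 2 - 4 * RatFunc.C b * (R₁ + R₂)) :
    rdeg R₃ + rdeg R₄ = 2 * rdeg R₁ + 2 * rdeg R₂ := by
  have dN₁ := dg_num R₁
  have dD₁ := dg_den R₁
  have dN₂ := dg_num R₂
  have dD₂ := dg_den R₂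
  have dN₃ := dg_num R₃
  have dD₃ := dg_den R₃
  have dN₄ := dg_num R₄
  have dD₄ := dg_den R₄
  have e₁ := num_ev R₁
  have e₂ := num_ev R₂
  have e₃ := num_ev R₃
  have e₄ := num_ev R₄
  have c₁ := num_co R₁
  have c₂ := num_co R₂
  have c₃ := num_co R₃
  have c₄ := num_co R₄
  have r₁ := rep R₁
  have r₂ := rep R₂
  have r₃ := rep R₃
  have r₄ := rep R₄
  generalize R₁.num = N₁ at *
  generalize R₁.denom = D₁ at *
  generalize R₂.num = N₂ at *
  generalize R₂.denom = D₂ at *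
  generalize R₃.num = N₃ at *
  generalize R₃.denom = D₃ at *
  generalize R₄.num = N₄ at *
  generalize R₄.denom = D₄ at *
  generalize rdeg R₁ = m₁ at *
  generalize rdeg R₂ = m₂ at *
  generalize rdeg R₃ = m₃ at *
  generalize rdeg R₄ = m₄ at *
  have hδ : (R₁ - R₂) ^ 2 ≠ 0 := pow_ne_zero 2 (sub_ne_zero.2 hne)
  set U0 : k[X] := (N₁ * D₂ - N₂ * D₁) ^ 2 with hU0
  set U1 : k[X] := C 2 * ((N₁ * N₂ + C a * (D₁ * D₂)) * (N₁ * D₂ + N₂ * D₁) +
    C (2 * b) * (D₁ * D₂) ^ 2) with hU1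
  set U2 : k[X] := (N₁ * N₂ - C a * (D₁ * D₂)) ^ 2 -
    C (4 * b) * ((D₁ * D₂) * (N₁ * D₂ + N₂ * D₁)) with hU2
  set V0 : k[X] := D₃ * D₄ with hV0
  set V1 : k[X] := N₃ * D₄ + N₄ * D₃ with hV1
  set V2 : k[X] := N₃ * N₄ with hV2
  have dDD : Dg (D₁ * D₂) (m₁ + m₂) (D₁.coeff m₁ * D₂.coeff m₂) := dD₁.mul dD₂
  have dNN : Dg (N₁ * N₂) (m₁ + m₂) (N₁.coeff m₁ * N₂.coeff m₂) := dN₁.mul dN₂
  have dND : Dg (N₁ * D₂) (m₁ + m₂) (N₁.coeff m₁ * D₂.coeff m₂) := dN₁.mul dD₂
  have dDN : Dg (N₂ * D₁) (m₁ + m₂) (N₂.coeff m₂ * D₁.coeff m₁) :=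
    (dN₂.mul dD₁).congr (add_comm _ _) rfl
  have dU0 : Dg U0 (2 * m₁ + 2 * m₂) _ := ((dND.sub dDN).pow 2).congr (by ring) rfl
  have dU1 : Dg U1 (2 * m₁ + 2 * m₂) _ :=
    (((((dNN.add (dDD.cmul a)).mul (dND.add dDN)).congr
      (show (m₁ + m₂) + (m₁ + m₂) = 2 * (m₁ + m₂) by ring) rfl).add
      ((dDD.pow 2).cmul (2 * b))).cmul 2).congr (by ring) rfl
  have dU2 : Dg U2 (2 * m₁ + 2 * m₂) _ :=
    (((dNN.sub (dDD.cmul a)).pow 2).sub (((dDD.mul (dND.add dDN)).congr
      (show (m₁ + m₂) + (m₁ + m₂) = 2 * (m₁ + m₂) by ring) rfl).cmul (4 * b))).congr (by ring) rfl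
  have dV0 : Dg V0 (m₃ + m₄) _ := dD₃.mul dD₄
  have dV1 : Dg V1 (m₃ + m₄) _ := (dN₃.mul dD₄).add ((dN₄.mul dD₃).congr (add_comm _ _) rfl)
  have dV2 : Dg V2 (m₃ + m₄) _ := dN₃.mul dN₄
  have inj := RatFunc.algebraMap_injective k
  have q0 : algebraMap k[X] (RatFunc k) U0 = (R₁ - R₂) ^ 2 *
      (algebraMap k[X] (RatFunc k) D₁ * algebraMap k[X] (RatFunc k) D₂) ^ 2 := by
    rw [hU0]
    simp only [map_mul, map_sub, map_pow]
    rw [← r₁, ← r₂]
    ring
  have q1 : algebraMap k[X] (RatFunc k) U1 =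
      (2 * ((R₁ * R₂ + RatFunc.C a) * (R₁ + R₂) + 2 * RatFunc.C b)) *
      (algebraMap k[X] (RatFunc k) D₁ * algebraMap k[X] (RatFunc k) D₂) ^ 2 := by
    rw [hU1]
    simp only [map_mul, map_add, map_pow, RatFunc.algebraMap_C, map_ofNat]
    rw [← r₁, ← r₂]
    ring
  have q2 : algebraMap k[X] (RatFunc k) U2 =
      ((R₁ * R₂ - RatFunc.C a) ^ 2 - 4 * RatFunc.C b * (R₁ + R₂)) *
      (algebraMap k[X] (RatFunc k) D₁ * algebraMap k[X] (RatFunc k) D₂) ^ 2 := by
    rw [hU2]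
    simp only [map_mul, map_add, map_sub, map_pow, RatFunc.algebraMap_C, map_ofNat]
    rw [← r₁, ← r₂]
    ring
  have s0 : algebraMap k[X] (RatFunc k) V0 =
      algebraMap k[X] (RatFunc k) D₃ * algebraMap k[X] (RatFunc k) D₄ := by
    rw [hV0, map_mul]
  have s1 : algebraMap k[X] (RatFunc k) V1 = (R₃ + R₄) *
      (algebraMap k[X] (RatFunc k) D₃ * algebraMap k[X] (RatFunc k) D₄) := by
    rw [hV1]
    simp only [map_mul, map_add]
    rw [← r₃, ← r₄]
    ring
  have s2 : algebraMap k[X] (RatFunc k) V2 = (R₃ * R₄) *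
      (algebraMap k[X] (RatFunc k) D₃ * algebraMap k[X] (RatFunc k) D₄) := by
    rw [hV2]
    simp only [map_mul]
    rw [← r₃, ← r₄]
    ring
  have t01 : U0 * V1 = U1 * V0 := by
    apply inj
    rw [map_mul _ U0 V1, map_mul _ U1 V0, q0, q1, s0, s1, ← hs]
    ring
  have t02 : U0 * V2 = U2 * V0 := by
    apply inj
    rw [map_mul _ U0 V2, map_mul _ U2 V0, q0, q2, s0, s2, ← hp]
    ring
  have t12 : U1 * V2 = U2 * V1 := by
    apply inj
    rw [map_mul _ U1 V2, map_mul _ U2 V1, q1, q2, s1, s2, ← hs, ← hp]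
    ring
  have := glob ![U0, U1, U2] ![V0, V1, V2] (2 * m₁ + 2 * m₂) (m₃ + m₄)
    (by
      intro i
      fin_cases i
      · exact dU0.1
      · exact dU1.1
      · exact dU2.1)
    (by
      intro i
      fin_cases i
      · exact dV0.1
      · exact dV1.1
      · exact dV2.1)
    (by
      intro t
      by_contra hc
      push Not at hc
      have h0 : U0.eval t = 0 := hc 0
      have h1 : U1.eval t = 0 := hc 1
      have h2 : U2.eval t = 0 := hc 2
      simp only [hU0, hU1, hU2, eval_add, eval_sub, eval_mul, eval_pow, eval_C] at h0 h1 h2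
      exact formsU h (e₁ t) (e₂ t) h0 (by linear_combination h1) (by linear_combination h2))
    (by
      intro t
      by_contra hc
      push Not at hc
      have h0 : V0.eval t = 0 := hc 0
      have h1 : V1.eval t = 0 := hc 1
      have h2 : V2.eval t = 0 := hc 2
      simp only [hV0, hV1, hV2, eval_add, eval_mul] at h0 h1 h2
      exact formsV (e₃ t) (e₄ t) h0 h1 h2)
    (by
      by_contra hc
      push Not at hc
      have h0 : U0.coeff (2 * m₁ + 2 * m₂) = 0 := hc 0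
      have h1 : U1.coeff (2 * m₁ + 2 * m₂) = 0 := hc 1
      have h2 : U2.coeff (2 * m₁ + 2 * m₂) = 0 := hc 2
      rw [dU0.2] at h0
      rw [dU1.2] at h1
      rw [dU2.2] at h2
      exact formsU h c₁ c₂ h0 (by linear_combination h1) (by linear_combination h2))
    (by
      by_contra hc
      push Not at hc
      have h0 : V0.coeff (m₃ + m₄) = 0 := hc 0
      have h1 : V1.coeff (m₃ + m₄) = 0 := hc 1
      have h2 : V2.coeff (m₃ + m₄) = 0 := hc 2
      rw [dV0.2] at h0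
      rw [dV1.2] at h1
      rw [dV2.2] at h2
      exact formsV c₃ c₄ h0 h1 h2)
    (by
      intro i j
      fin_cases i <;> fin_cases j <;> simp <;>
        first | linear_combination t01 | linear_combination t02 | linear_combination t12 |
          linear_combination -t01 | linear_combination -t02 | linear_combination -t12)
  exact this.symm

end main

end PAR_

open PAR_ in
theorem p_PAR (h1 : T_API) (h2 : T_XPM) (_h3 : T_RFG) : T_PAR := by
  intro k _ _ a b h P Q
  obtain ⟨hf, ⟨hx0, hy0⟩, hmk, hpt, hneg, hxeq, hadd, hdbl, htwo⟩ := h1 k a b h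
  obtain ⟨hpm, hx2, hcst⟩ := h2 k a b h
  have dd0 : dd (0 : MM a b) = 0 := by rw [dd, hx0, rdeg_zero]
  have ddneg : ∀ P : MM a b, dd (-P) = dd P := fun P => by rw [dd, dd, (hneg P).1]
  have dd2 : ∀ P : MM a b, dd (P + P) = 4 * dd P := by
    intro P
    by_cases hP : P = 0
    · rw [hP, add_zero, dd0]
    by_cases hy : yr P = 0
    · rw [htwo P hy, dd0]
      have h3 := (hpt P hP).1
      rw [hy] at h3
      have h4 : ev a b (xr P) = 0 := by rw [← h3]; ring
      obtain ⟨c, hc⟩ := const_of_ev h4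
      rw [dd, hc, rdeg_C]
    · have hev : 4 * ev a b (xr P) ≠ 0 := by
        rw [← (hpt P hP).1]
        have h4 : (4 : RatFunc k) ≠ 0 := by
          have h5 : (4 : k) ≠ 0 := by
            intro h0
            apply mul_ne_zero h.two h.two
            rw [← h0]
            norm_num
          have h6 : (4 : RatFunc k) = RatFunc.C 4 := by rw [map_ofNat]
          rw [h6]
          exact fun h0 => h5 ((map_eq_zero _).1 h0)
        exact mul_ne_zero h4 (mul_ne_zero hf (pow_ne_zero 2 hy))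
      apply dbl h
      rw [(hx2 P hP hy).2, div_mul_cancel₀ _ hev]
  by_cases hP : P = 0
  · rw [hP, zero_add, zero_sub, ddneg, dd0]; ring
  by_cases hQ : Q = 0
  · rw [hQ, add_zero, sub_zero, dd0]; ring
  by_cases hx : xr P = xr Q
  · rcases hxeq P Q hP hQ hx with h3 | h3
    · rw [h3, sub_self, dd0, dd2]; ring
    · rw [h3, neg_add_cancel, dd0, ddneg, ← neg_add', ddneg, dd2]; ring
  · obtain ⟨-, -, hs, hp⟩ := hpm P Q hP hQ hx
    have hδ : (xr P - xr Q) ^ 2 ≠ 0 := pow_ne_zero 2 (sub_ne_zero.2 hx)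
    apply addf h (xr P) (xr Q) _ _ hx
    · rw [hs, div_mul_cancel₀ _ hδ]
    · rw [hp, div_mul_cancel₀ _ hδ]

end SSA
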