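import Pool.Agent.SSA.Targets

/-!
# QFA: abstract quadratic forms over `ℤ`
-/

set_option autoImplicit false

namespace SSA

namespace QFA_

variable {A : Type} [AddCommGroup A] {q : A → ℤ}

theorem zero (h : Par q) : q 0 = 0 := by
  have := h.1 0 0
  simp only [add_zero, sub_zero] at this
  omega

theorem neg (h : Par q) (x : A) : q (-x) = q x := by
  have := h.1 0 x
  simp only [zero_add, zero_sub, zero h] at this
  omega

theorem self (h : Par q) (x : A) : bl q x x = 2 * q x := by
  have := h.1 x x
  simp only [sub_self, zero h] at this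
  unfold bl
  omega

theorem comm (x y : A) : bl q x y = bl q y x := by
  unfold bl
  rw [add_comm]
  ring

theorem add (h : Par q) (x y z : A) : bl q (x + y) z = bl q x z + bl q y z := by
  have h1 := h.1 (x + z) y
  have h2 := h.1 x (z - y)
  have h3 := h.1 (x + y) z
  have h4 := h.1 z y
  have e1 : x + z + y = x + y + z := by abel
  have e2 : x + (z - y) = x + z - y := by abel
  have e3 : x - (z - y) = x + y - z := by abel
  have e4 : z + y = y + z := by abel
  rw [e1] at h1
  rw [e2, e3] at h2
  rw [e4] at h4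
  unfold bl
  omega

theorem zero_left (h : Par q) (y : A) : bl q 0 y = 0 := by
  unfold bl
  rw [zero_add, zero h]
  ring

theorem neg_left (h : Par q) (x y : A) : bl q (-x) y = - bl q x y := by
  have := add h x (-x) y
  rw [add_neg_cancel, zero_left h] at this
  omega

theorem zsmul (h : Par q) (n : ℤ) (x y : A) : bl q (n • x) y = n * bl q x y := by
  let f : A →+ ℤ :=
    { toFun := fun x => bl q x y
      map_zero' := zero_left h y
      map_add' := fun a b => add h a b y }
  have := map_zsmul f n x
  rw [smul_eq_mul] at this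
  exact this

theorem q_zsmul (h : Par q) (n : ℤ) (x : A) : q (n • x) = n ^ 2 * q x := by
  have h1 := self h (n • x)
  rw [zsmul h, comm, zsmul h, self h] at h1
  have h2 : 2 * q (n • x) = 2 * (n ^ 2 * q x) := by rw [← h1]; ring
  omega

theorem comb (h : Par q) (m n : ℤ) (x y : A) :
    q (m • x + n • y) = m ^ 2 * q x + m * n * bl q x y + n ^ 2 * q y := by
  have h1 : bl q (m • x) (n • y) = m * n * bl q x y := by
    rw [zsmul h, comm, zsmul h, comm]
    ring
  have h2 : q (m • x + n • y) = bl q (m • x) (n • y) + q (m • x) + q (n • y) := by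
    unfold bl
    ring
  rw [h2, h1, q_zsmul h, q_zsmul h]
  ring

theorem cs (h : Par q) (x y : A) : (bl q x y) ^ 2 ≤ 4 * q x * q y := by
  have hx := h.2 x
  have hy := h.2 y
  rcases hx.eq_or_lt with h0 | h0
  · rw [← h0]
    by_contra hc
    have hB : bl q x y ≠ 0 := by
      intro hB
      rw [hB] at hc
      simp at hc
    have hB2 : 1 ≤ (bl q x y) ^ 2 := by
      have := sq_pos_of_ne_zero hB
      omega
    have h1 := comb h (-(bl q x y * (q y + 1))) 1 x y
    have h2 := h.2 ((-(bl q x y * (q y + 1))) • x + (1 : ℤ) • y)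
    rw [h1, ← h0] at h2
    nlinarith
  · have h1 := comb h (bl q x y) (-(2 * q x)) x y
    have h2 := h.2 ((bl q x y) • x + (-(2 * q x)) • y)
    rw [h1] at h2
    have h3 : 0 ≤ q x * (4 * q x * q y - (bl q x y) ^ 2) := by
      have e : (bl q x y) ^ 2 * q x + bl q x y * -(2 * q x) * bl q x y + (-(2 * q x)) ^ 2 * q y =
        q x * (4 * q x * q y - (bl q x y) ^ 2) := by ring
      rwa [e] at h2
    have h4 := nonneg_of_mul_nonneg_right h3 h0
    omega

theorem add_of_zero (h : Par q) (x y : A) (h0 : q x = 0) : q (x + y) = q y := by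
  have h1 := cs h x y
  rw [h0] at h1
  have h2 : bl q x y = 0 := by
    have : (bl q x y) ^ 2 ≤ 0 := by simpa using h1
    exact pow_eq_zero_iff (two_ne_zero) |>.1 (le_antisymm this (sq_nonneg _))
  unfold bl at h2
  omega

end QFA_

theorem p_QFA : T_QFA := fun _ _ _ h =>
  ⟨QFA_.zero h, QFA_.neg h, QFA_.self h, QFA_.comm, QFA_.add h, QFA_.neg_left h, QFA_.zsmul h,
    QFA_.q_zsmul h, QFA_.cs h, QFA_.add_of_zero h⟩

end SSA
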