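import Pool.Agent.SSA.Targets

/-!
# RAM: the ramified case
-/

open Polynomial

namespace SSA

theorem p_RAM (h1 : T_API) (h3 : T_DDA) (h4 : T_INS) (h5 : T_FRB) (h6 : T_PAR)
    (h7 : T_QFA) (h8 : T_NPI) (h9 : T_HB) (h10 : T_DG1) : T_RAM := by
  intro p _ k _ _ _ hp a b hH ha hb hR
  obtain ⟨R, hR1, hR2⟩ := hR
  have hp5 : 5 ≤ p := by omega
  set A := zc p k a with hA
  set B := zc p k b with hB
  have hA0 : A ≠ 0 := by
    rw [hA]
    exact (_root_.map_ne_zero _).2 ha
  have hB0 : B ≠ 0 := by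
    rw [hB]
    exact (_root_.map_ne_zero _).2 hb
  obtain ⟨-, -, hmk, -, hneg, -, -, -, h2t⟩ := h1 k A B hH
  obtain ⟨hDadd, hDneg, hD0, hDid⟩ := h3 k A B hH
  obtain ⟨hfadd, hfdd, hfid⟩ := h5 p k hp5 a b hH
  obtain ⟨hid, hpi, -⟩ := h8 p k hp5 a b hH
  obtain ⟨hBB, -⟩ := h9 p k hp5 a b hH
  let q : MM A B → ℤ := fun P => (dd P : ℤ)
  have hq : Par q := by
    refine ⟨fun x y => ?_, fun x => Int.natCast_nonneg _⟩
    have := h6 k A B hH x y
    show ((dd (x + y) : ℕ) : ℤ) + (dd (x - y) : ℕ) = 2 * (dd x : ℕ) + 2 * (dd y : ℕ)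
    exact_mod_cast this
  obtain ⟨hq0, hqneg, -, hbc, hbadd, hbneg, -, hqn, hcs, hqz⟩ := h7 (MM A B) q hq
  have hqid : q (idM A B) = 1 := by
    show ((dd (idM A B) : ℕ) : ℤ) = 1
    rw [hid]
    rfl
  -- `R' ≠ 0`
  have hR0 : rder R ≠ 0 := by
    intro h0
    have he : ff A B * (0 : RatFunc k) ^ 2 = ev A B R := by
      rw [← hR1, h0]
      ring
    obtain ⟨-, e2, e3⟩ := hmk R 0 he
    have e4 := h2t _ e3
    have e5 := hqn 2 (mkP A B R 0)
    rw [two_zsmul, e4, hq0] at e5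
    have e6 : q (mkP A B R 0) = ((p + 1 : ℕ) : ℤ) := by
      show ((rdeg (xr (mkP A B R 0)) : ℕ) : ℤ) = ((p + 1 : ℕ) : ℤ)
      rw [e2, hR2]
    rw [e6] at e5
    push_cast at e5
    nlinarith
  -- the point `α`
  have he : ff A B * (rder R) ^ 2 = ev A B R := by
    rw [← hR1]
    ring
  obtain ⟨-, e2, e3⟩ := hmk R (rder R) he
  set α : MM A B := mkP A B R (rder R) with hα
  have hDα : DD α = 1 := by
    show rder (xr α) / yr α = 1
    rw [e2, e3, div_self hR0]
  have hqα : q α = p + 1 := by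
    show ((rdeg (xr α) : ℕ) : ℤ) = p + 1
    rw [e2, hR2]
    push_cast
    rfl
  set β : MM A B := α - idM A B with hβ
  have hαβ : β + idM A B = α := by rw [hβ]; abel
  have hDβ : DD β = 0 := by
    rw [hβ, sub_eq_add_neg, hDadd, hDneg, hDα, hDid]
    ring
  obtain ⟨γ, hγ⟩ := h4 p k hp5 a b hH β hDβ
  have hqβ : q β = p * q γ := by
    show ((dd β : ℕ) : ℤ) = p * (dd γ : ℕ)
    rw [hγ, hfdd]
    push_cast
    rfl
  have hblβ : bl q β (idM A B) = (p : ℤ) - q β := by
    show q (β + idM A B) - q β - q (idM A B) = _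
    rw [hαβ, hqα, hqid]
    ring
  have hcsβ := hcs β (idM A B)
  rw [hblβ, hqid] at hcsβ
  have hγ0 : 0 ≤ q γ := hq.2 γ
  have hp11 : (11 : ℤ) ≤ p := by exact_mod_cast hp
  have hγ2 : q γ < 2 := by
    by_contra hlt
    push Not at hlt
    obtain ⟨m, hm⟩ : ∃ m : ℤ, q γ = 2 + m := ⟨q γ - 2, by ring⟩
    have hm0 : 0 ≤ m := by linarith
    rw [hqβ, hm] at hcsβ
    -- `(p (1 + m))² ≤ 4 p (2 + m)`
    have h11 : ((p : ℤ) - p * (2 + m)) ^ 2 = p * (p * (1 + m) ^ 2) := by ring
    rw [h11] at hcsβ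
    have h12 : (p : ℤ) * (1 + m) ^ 2 ≤ 4 * (2 + m) := by
      have : (p : ℤ) * (p * (1 + m) ^ 2) ≤ p * (4 * (2 + m)) := by linarith
      exact le_of_mul_le_mul_left this (by linarith)
    nlinarith
  have hcase : q γ = 0 ∨ q γ = 1 := by omega
  rcases hcase with h0 | h0
  · exfalso
    have e4 : q β = 0 := by rw [hqβ, h0, mul_zero]
    have e5 := hqz β (idM A B) e4
    rw [hαβ, hqα, hqid] at e5
    linarith
  · have hdγ : dd γ = 1 := by
      have : ((dd γ : ℕ) : ℤ) = 1 := h0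
      exact_mod_cast this
    have hfr0 : frb p (0 : MM A B) = 0 := by
      have := hfadd 0 0
      rw [add_zero] at this
      exact left_eq_add.1 this
    have hbl0 : bl q β (idM A B) = 0 := by
      rw [hblβ, hqβ, h0]
      ring
    have hbl2 : bl q (β + β) (idM A B) = 0 := by
      rw [hbadd, hbl0, add_zero]
    have hββ : β + β = frb p (γ + γ) := by rw [hfadd, ← hγ]
    have hpp : frb p (idM A B + idM A B) = piM p A B + piM p A B := by
      rw [hfadd, hfid]
    have key : bl q (piM p A B + piM p A B) (idM A B) = 0 := by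
      rcases h10 k A B hH hA0 hB0 γ hdγ with h | h
      · rw [h, hpp] at hββ
        rw [← hββ]
        exact hbl2
      · have e4 : frb p (-(idM A B + idM A B)) = -(piM p A B + piM p A B) := by
          have e5 := hfadd (-(idM A B + idM A B)) (idM A B + idM A B)
          rw [neg_add_cancel, hfr0, hpp] at e5
          exact eq_neg_of_add_eq_zero_left e5.symm
        rw [h, e4] at hββ
        rw [hββ, hbneg] at hbl2
        linarith
    rw [hbadd] at key
    have e5 : bl q (piM p A B) (idM A B) = 0 := by linarith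
    rw [hbc] at e5
    have e6 : BB (idM A B) (piM p A B) = 0 := e5
    rw [hBB] at e6
    have : (Naff p a b : ℤ) = p := by linarith
    exact_mod_cast this

end SSA
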