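import Pool.Agent.SSA.Targets

/-!
# MP_d74fca_nt, algebraic part (helper22): composition with a nonconstant rational function (helper4)

`rcomp · R` is the field endomorphism of `k(X)` extending evaluation at the transcendental element `R`;
degrees are multiplicative by the tower law, `rdeg R = [k(X) : k(R)]`.
-/

open Polynomial

namespace SSA

namespace RFC_

variable {k : Type} [Field k]

lemma not_C {R : RatFunc k} (hR : ∀ c : k, R ≠ RatFunc.C c) : ¬ ∃ c, R = RatFunc.C c := by
  rintro ⟨c, hc⟩
  exact hR c hc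

lemma aeval_inj {R : RatFunc k} (hR : ∀ c : k, R ≠ RatFunc.C c) :
    Function.Injective (aeval R : k[X] →ₐ[k] RatFunc k) := by
  have h := RatFunc.transcendental_of_ne_C R (not_C hR)
  exact transcendental_iff_injective.mp h

/-- the endomorphism `g ↦ g(R)` -/
noncomputable def Phi (R : RatFunc k) (hR : ∀ c : k, R ≠ RatFunc.C c) : RatFunc k →ₐ[k] RatFunc k :=
  RatFunc.liftAlgHom (aeval R : k[X] →ₐ[k] RatFunc k)
    (nonZeroDivisors_le_comap_nonZeroDivisors_of_injective _ (aeval_inj hR))

lemma Phi_eq (R : RatFunc k) (hR : ∀ c : k, R ≠ RatFunc.C c) (g : RatFunc k) :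
    Phi R hR g = rcomp g R := by
  unfold Phi rcomp
  rw [RatFunc.liftAlgHom_apply]

lemma Phi_algebraMap (R : RatFunc k) (hR : ∀ c : k, R ≠ RatFunc.C c) (P : k[X]) :
    Phi R hR (algebraMap k[X] (RatFunc k) P) = aeval R P := by
  have h : algebraMap k[X] (RatFunc k) P =
      algebraMap k[X] (RatFunc k) P / algebraMap k[X] (RatFunc k) 1 := by simp
  rw [h]
  unfold Phi
  rw [RatFunc.liftAlgHom_apply_div]
  simp

lemma algebraMap_C (c : k) : algebraMap k (RatFunc k) c = RatFunc.C c := by
  rw [RatFunc.algebraMap_eq_C]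

lemma Phi_C (R : RatFunc k) (hR : ∀ c : k, R ≠ RatFunc.C c) (c : k) :
    Phi R hR (RatFunc.C c) = RatFunc.C c := by
  rw [← algebraMap_C, AlgHom.commutes]

lemma Phi_X (R : RatFunc k) (hR : ∀ c : k, R ≠ RatFunc.C c) : Phi R hR RatFunc.X = R := by
  rw [← RatFunc.algebraMap_X, Phi_algebraMap, aeval_X]

lemma Phi_inj (R : RatFunc k) (hR : ∀ c : k, R ≠ RatFunc.C c) : Function.Injective (Phi R hR) :=
  (Phi R hR).toRingHom.injective

lemma ext_hom {φ ψ : RatFunc k →ₐ[k] RatFunc k} (h : φ RatFunc.X = ψ RatFunc.X) : φ = ψ := by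
  apply AlgHom.ext
  intro g
  have hp : ∀ P : k[X], φ (algebraMap k[X] (RatFunc k) P) = ψ (algebraMap k[X] (RatFunc k) P) := by
    intro P
    rw [← RatFunc.aeval_X_left_eq_algebraMap, ← aeval_algHom_apply, ← aeval_algHom_apply, h]
  rw [← RatFunc.num_div_denom g, map_div₀, map_div₀, hp, hp]

lemma rdeg_eq (R : RatFunc k) :
    rdeg R = Module.finrank (IntermediateField.adjoin k {R}) (RatFunc k) := by
  unfold rdeg
  rw [← RatFunc.finrank_eq_max_natDegree]

lemma rdeg_Phi (R : RatFunc k) (hR : ∀ c : k, R ≠ RatFunc.C c) (g : RatFunc k) :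
    rdeg (Phi R hR g) = rdeg g * rdeg R := by
  have h1 : (IntermediateField.adjoin k {g}).map (Phi R hR) =
      IntermediateField.adjoin k {Phi R hR g} := by
    rw [IntermediateField.adjoin_map, Set.image_singleton]
  have h2 : (⊤ : IntermediateField k (RatFunc k)).map (Phi R hR) =
      IntermediateField.adjoin k {R} := by
    rw [← RatFunc.adjoin_X, IntermediateField.adjoin_map, Set.image_singleton, Phi_X]
  have h3 : IntermediateField.adjoin k {Phi R hR g} ≤ IntermediateField.adjoin k {R} := by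
    rw [← h1, ← h2]
    exact IntermediateField.map_mono _ le_top
  have h4 := IntermediateField.relfinrank_mul_finrank_top h3
  have h5 := IntermediateField.relfinrank_map_map (IntermediateField.adjoin k {g})
    (⊤ : IntermediateField k (RatFunc k)) (Phi R hR)
  rw [h1, h2, IntermediateField.relfinrank_top_right] at h5
  rw [rdeg_eq, rdeg_eq g, rdeg_eq R, ← h4, h5]

end RFC_

open RFC_ in
theorem p_RFC (h1 : T_RFD) (h2 : T_RFG) : T_RFC := by
  intro k _ R hR
  obtain ⟨dadd, dsub, dmul, ddiv, dpow, dneg, dpoly, dC, dX⟩ := h1 k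
  obtain ⟨-, g0, -⟩ := h2 k
  have hP := Phi_eq R hR
  -- chain rule on polynomials
  have chp : ∀ P : k[X], rder (aeval R P) = aeval R (derivative P) * rder R := by
    intro P
    induction P using Polynomial.induction_on' with
    | add p q hp hq => rw [map_add, dadd, hp, hq, derivative_add, map_add, add_mul]
    | monomial n a =>
      rw [aeval_monomial, derivative_monomial, aeval_monomial, dmul, algebraMap_C, dC, dpow,
        algebraMap_C, map_mul, zero_mul, zero_add]
      rw [map_natCast]
      ring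
  have deg : ∀ g : RatFunc k, rdeg (rcomp g R) = rdeg g * rdeg R := by
    intro g
    rw [← hP, rdeg_Phi]
  refine ⟨?_, ?_, ?_, ?_, ?_, ?_, ?_, ?_, ?_, ?_, ?_, ?_, deg, ?_⟩
  · intro g h; rw [← hP, ← hP, ← hP, map_add]
  · intro g h; rw [← hP, ← hP, ← hP, map_sub]
  · intro g h; rw [← hP, ← hP, ← hP, map_mul]
  · intro g h; rw [← hP, ← hP, ← hP, map_div₀]
  · intro g n; rw [← hP, ← hP, map_pow]
  · intro c; rw [← hP, Phi_C]
  · rw [← hP, Phi_X]
  · unfold rcomp
    rw [RatFunc.aeval_X_left_eq_algebraMap, RatFunc.aeval_X_left_eq_algebraMap,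
      RatFunc.num_div_denom]
  · intro P; rw [← hP, Phi_algebraMap]
  · intro g hg
    rw [← hP] at hg
    exact (map_eq_zero_iff _ (Phi_inj R hR)).mp hg
  · intro g h hgh
    rw [← hP, ← hP] at hgh
    exact Phi_inj R hR hgh
  · intro g
    have hd : aeval R g.denom ≠ 0 := by
      intro h0
      exact g.denom_ne_zero ((map_eq_zero_iff _ (aeval_inj hR)).mp h0)
    have e1 : rcomp (rder g) R =
        aeval R (derivative g.num * g.denom - g.num * derivative g.denom) /
          aeval R (g.denom ^ 2) := by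
      rw [← hP]
      unfold rder
      rw [map_div₀, Phi_algebraMap, Phi_algebraMap]
    rw [e1]
    unfold rcomp
    rw [ddiv _ _ hd, chp, chp, map_sub, map_mul, map_mul, map_pow]
    field_simp
  · intro T hT
    have nc : ∀ c : k, rcomp R T ≠ RatFunc.C c := by
      intro c hc
      have e1 : rdeg (rcomp R T) = rdeg R * rdeg T := by
        rw [← Phi_eq T hT, rdeg_Phi]
      have e2 : rdeg (rcomp R T) = 0 := (g0 _).mpr ⟨c, hc⟩
      have e3 : rdeg R ≠ 0 := fun h => by
        obtain ⟨c, hc⟩ := (g0 R).mp h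
        exact hR c hc
      have e4 : rdeg T ≠ 0 := fun h => by
        obtain ⟨c, hc⟩ := (g0 T).mp h
        exact hT c hc
      rw [e2] at e1
      exact (mul_ne_zero e3 e4) e1.symm
    refine ⟨nc, ?_⟩
    intro g
    have hcomp : (Phi T hT).comp (Phi R hR) = Phi (rcomp R T) nc := by
      apply ext_hom
      rw [AlgHom.comp_apply, Phi_X, Phi_X, Phi_eq]
    have := congrArg (fun φ : RatFunc k →ₐ[k] RatFunc k => φ g) hcomp
    simp only [AlgHom.comp_apply] at this
    rw [Phi_eq, Phi_eq, Phi_eq] at this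
    exact this

end SSA
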