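import Pool.Agent.SSA.Targets

/-!
# RFD: derivative of rational functions
-/

set_option autoImplicit false

open Polynomial

namespace SSA

namespace RFD_

variable {k : Type} [Field k]

/-- the quotient rule for an arbitrary fraction -/
lemma rder_mk (N D : k[X]) (hD : D ≠ 0) :
    rder (algebraMap k[X] (RatFunc k) N / algebraMap k[X] (RatFunc k) D) =
      algebraMap k[X] (RatFunc k) (derivative N * D - N * derivative D) /
        algebraMap k[X] (RatFunc k) (D ^ 2) := by
  set R : RatFunc k := algebraMap k[X] (RatFunc k) N / algebraMap k[X] (RatFunc k) D with hR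
  have hd : R.denom ≠ 0 := RatFunc.denom_ne_zero R
  have hD' := RatFunc.algebraMap_ne_zero hD
  have hd' := RatFunc.algebraMap_ne_zero hd
  have h1 : N * R.denom = R.num * D := by
    apply RatFunc.algebraMap_injective k
    rw [map_mul, map_mul]
    have h2 := RatFunc.num_div_denom R
    rw [hR, div_eq_div_iff hd' hD', ← hR] at h2
    exact h2.symm
  have h2 : derivative N * R.denom + N * derivative R.denom =
      derivative R.num * D + R.num * derivative D := by
    rw [← derivative_mul, ← derivative_mul, h1]
  have h3 : (derivative R.num * R.denom - R.num * derivative R.denom) * D ^ 2 =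
      (derivative N * D - N * derivative D) * R.denom ^ 2 := by
    linear_combination (-(R.denom * D)) * h2 + (D * derivative R.denom +
      R.denom * derivative D) * h1
  unfold rder
  rw [div_eq_div_iff (RatFunc.algebraMap_ne_zero (pow_ne_zero 2 hd))
    (RatFunc.algebraMap_ne_zero (pow_ne_zero 2 hD)), ← map_mul, ← map_mul, h3]

/-- every rational function is a fraction -/
lemma ex (R : RatFunc k) : ∃ N D : k[X], D ≠ 0 ∧
    R = algebraMap k[X] (RatFunc k) N / algebraMap k[X] (RatFunc k) D ∧
    rder R = algebraMap k[X] (RatFunc k) (derivative N * D - N * derivative D) /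
        algebraMap k[X] (RatFunc k) (D ^ 2) :=
  ⟨R.num, R.denom, RatFunc.denom_ne_zero R, (RatFunc.num_div_denom R).symm, rfl⟩

lemma rder_add (R S : RatFunc k) : rder (R + S) = rder R + rder S := by
  obtain ⟨N, D, hD, hR, hr⟩ := ex R
  obtain ⟨M, E, hE, hS, hs⟩ := ex S
  have hD' := RatFunc.algebraMap_ne_zero hD
  have hE' := RatFunc.algebraMap_ne_zero hE
  have e : R + S = algebraMap k[X] (RatFunc k) (N * E + M * D) /
      algebraMap k[X] (RatFunc k) (D * E) := by
    rw [hR, hS, map_add, map_mul, map_mul, map_mul]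
    field_simp
  rw [e, rder_mk _ _ (mul_ne_zero hD hE), hr, hs]
  simp only [derivative_mul, map_sub, map_add, map_mul, map_pow]
  field_simp
  ring

lemma rder_neg (R : RatFunc k) : rder (-R) = - rder R := by
  obtain ⟨N, D, hD, hR, hr⟩ := ex R
  have e : -R = algebraMap k[X] (RatFunc k) (-N) / algebraMap k[X] (RatFunc k) D := by
    rw [hR, map_neg, neg_div]
  rw [e, rder_mk _ _ hD, hr]
  simp only [map_sub, map_mul, map_pow, map_neg]
  ring

lemma rder_sub (R S : RatFunc k) : rder (R - S) = rder R - rder S := by
  rw [sub_eq_add_neg, rder_add, rder_neg, sub_eq_add_neg]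

lemma rder_mul (R S : RatFunc k) : rder (R * S) = rder R * S + R * rder S := by
  obtain ⟨N, D, hD, hR, hr⟩ := ex R
  obtain ⟨M, E, hE, hS, hs⟩ := ex S
  have hD' := RatFunc.algebraMap_ne_zero hD
  have hE' := RatFunc.algebraMap_ne_zero hE
  have e : R * S = algebraMap k[X] (RatFunc k) (N * M) /
      algebraMap k[X] (RatFunc k) (D * E) := by
    rw [hR, hS, map_mul, map_mul]
    field_simp
  rw [e, rder_mk _ _ (mul_ne_zero hD hE), hr, hs, hR, hS]
  simp only [derivative_mul, map_sub, map_add, map_mul, map_pow]
  field_simp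
  ring

lemma rder_div (R S : RatFunc k) (hS0 : S ≠ 0) :
    rder (R / S) = (rder R * S - R * rder S) / S ^ 2 := by
  have h1 : rder R = rder (R / S) * S + R / S * rder S := by
    rw [← rder_mul, div_mul_cancel₀ R hS0]
  rw [h1]
  field_simp
  ring

lemma rder_poly (P : k[X]) : rder (algebraMap k[X] (RatFunc k) P) =
    algebraMap k[X] (RatFunc k) (derivative P) := by
  have e : algebraMap k[X] (RatFunc k) P = algebraMap k[X] (RatFunc k) P /
      algebraMap k[X] (RatFunc k) 1 := by
    rw [map_one, div_one]
  rw [e, rder_mk _ _ one_ne_zero]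
  simp

lemma rder_one : rder (1 : RatFunc k) = 0 := by
  have := rder_poly (1 : k[X])
  rwa [map_one, derivative_one, map_zero] at this

lemma rder_pow (R : RatFunc k) (n : ℕ) : rder (R ^ n) = n * R ^ (n - 1) * rder R := by
  induction n with
  | zero => rw [pow_zero, rder_one, Nat.cast_zero, zero_mul, zero_mul]
  | succ n ih =>
    rw [pow_succ, rder_mul, ih, Nat.add_sub_cancel]
    rcases Nat.eq_zero_or_pos n with rfl | hn
    · simp
    · obtain ⟨m, rfl⟩ : ∃ m, n = m + 1 := ⟨n - 1, by omega⟩
      rw [Nat.add_sub_cancel]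
      push_cast
      ring

end RFD_

open RFD_ in
theorem p_RFD : T_RFD := by
  intro k _
  refine ⟨rder_add, rder_sub, rder_mul, rder_div, rder_pow, rder_neg, rder_poly, ?_, ?_⟩
  · intro c
    rw [← RatFunc.algebraMap_C, rder_poly, derivative_C, map_zero]
  · rw [← RatFunc.algebraMap_X, rder_poly, derivative_X, map_one]

end SSA
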