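import Pool.Agent.SSA.Targets

set_option autoImplicit false

/-!
# RFG: degree of a rational function
-/

open Polynomial

namespace SSA

namespace RFG_

variable {k : Type} [Field k]

theorem deg_assoc {p q : k[X]} (h1 : p ∣ q) (h2 : q ∣ p) : p.natDegree = q.natDegree :=
  Polynomial.natDegree_eq_of_degree_eq
    (Polynomial.degree_eq_degree_of_associated (associated_of_dvd_dvd h1 h2))

theorem rdeg_div {N D : k[X]} (hD : D ≠ 0) (hc : IsCoprime N D) :
    rdeg (algebraMap k[X] (RatFunc k) N / algebraMap k[X] (RatFunc k) D) =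
      max N.natDegree D.natDegree := by
  set R : RatFunc k := algebraMap k[X] (RatFunc k) N / algebraMap k[X] (RatFunc k) D with hR
  have h1 : R.num * D = N * R.denom := (RatFunc.num_mul_eq_mul_denom_iff hD).2 hR
  have h2 : IsCoprime R.num R.denom := RatFunc.isCoprime_num_denom R
  have e1 : R.denom.natDegree = D.natDegree := by
    refine deg_assoc ?_ ?_
    · exact h2.symm.dvd_of_dvd_mul_left (Dvd.intro_left N h1.symm)
    · exact hc.symm.dvd_of_dvd_mul_left (Dvd.intro_left R.num h1)
  have e2 : R.num.natDegree = N.natDegree := by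
    refine deg_assoc ?_ ?_
    · exact h2.dvd_of_dvd_mul_right (Dvd.intro D h1)
    · exact hc.dvd_of_dvd_mul_right (Dvd.intro R.denom h1.symm)
  unfold rdeg
  rw [e1, e2]

theorem eq_div (R : RatFunc k) :
    R = algebraMap k[X] (RatFunc k) R.num / algebraMap k[X] (RatFunc k) R.denom :=
  (RatFunc.num_div_denom R).symm

theorem rdeg_eq_zero (R : RatFunc k) : rdeg R = 0 ↔ ∃ c : k, R = RatFunc.C c := by
  constructor
  · intro h
    unfold rdeg at h
    have h1 : R.num.natDegree = 0 := by omega
    have h2 : R.denom.natDegree = 0 := by omega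
    have h3 : R.denom = 1 := (RatFunc.monic_denom R).natDegree_eq_zero.1 h2
    refine ⟨R.num.coeff 0, ?_⟩
    have h4 : R.num = C (R.num.coeff 0) := Polynomial.eq_C_of_natDegree_eq_zero h1
    have h5 := eq_div R
    rw [h3, map_one, div_one] at h5
    conv_lhs => rw [h5, h4]
    rw [RatFunc.algebraMap_C]
  · rintro ⟨c, rfl⟩
    unfold rdeg
    rw [RatFunc.num_C, RatFunc.denom_C]
    simp

theorem lin_le (N D : k[X]) (α β : k) :
    (C α * N + C β * D).natDegree ≤ max N.natDegree D.natDegree :=
  (Polynomial.natDegree_add_le _ _).trans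
    (max_le_max (Polynomial.natDegree_C_mul_le _ _) (Polynomial.natDegree_C_mul_le _ _))

theorem mob (R : RatFunc k) (α β γ δ : k) (hdet : α * δ - β * γ ≠ 0)
    (hne : RatFunc.C γ * R + RatFunc.C δ ≠ 0) :
    rdeg ((RatFunc.C α * R + RatFunc.C β) / (RatFunc.C γ * R + RatFunc.C δ)) = rdeg R := by
  set N := R.num with hN
  set D := R.denom with hD
  have hD0 : D ≠ 0 := RatFunc.denom_ne_zero R
  have hDa : algebraMap k[X] (RatFunc k) D ≠ 0 := by
    rw [Ne, FaithfulSMul.algebraMap_eq_zero_iff]
    exact hD0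
  have hR : R = algebraMap k[X] (RatFunc k) N / algebraMap k[X] (RatFunc k) D := eq_div R
  have hc : IsCoprime N D := RatFunc.isCoprime_num_denom R
  set N' := C α * N + C β * D with hN'
  set D' := C γ * N + C δ * D with hD'
  have e1 : RatFunc.C α * R + RatFunc.C β =
      algebraMap k[X] (RatFunc k) N' / algebraMap k[X] (RatFunc k) D := by
    rw [hN', map_add, map_mul, map_mul, RatFunc.algebraMap_C, RatFunc.algebraMap_C]
    rw [eq_div_iff hDa]
    conv_lhs => rw [hR]
    field_simp
  have e2 : RatFunc.C γ * R + RatFunc.C δ =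
      algebraMap k[X] (RatFunc k) D' / algebraMap k[X] (RatFunc k) D := by
    rw [hD', map_add, map_mul, map_mul, RatFunc.algebraMap_C, RatFunc.algebraMap_C]
    rw [eq_div_iff hDa]
    conv_lhs => rw [hR]
    field_simp
  have hD'0 : D' ≠ 0 := by
    intro h
    apply hne
    rw [e2, h, map_zero, zero_div]
  have e3 : (RatFunc.C α * R + RatFunc.C β) / (RatFunc.C γ * R + RatFunc.C δ) =
      algebraMap k[X] (RatFunc k) N' / algebraMap k[X] (RatFunc k) D' := by
    rw [e1, e2, div_div_div_cancel_right₀ hDa]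
  set t := (α * δ - β * γ)⁻¹ with ht
  have ht1 : t * (α * δ - β * γ) = 1 := inv_mul_cancel₀ hdet
  have ht2 : C t * (C α * C δ - C β * C γ) = (1 : k[X]) := by
    rw [← C_mul, ← C_mul, ← C_sub, ← C_mul, ht1, C_1]
  have hNe : N = C (t * δ) * N' + C (-(t * β)) * D' := by
    rw [hN', hD', C_mul, C_neg, C_mul]
    linear_combination (-N) * ht2
  have hDe : D = C (-(t * γ)) * N' + C (t * α) * D' := by
    rw [hN', hD', C_mul, C_neg, C_mul]
    linear_combination (-D) * ht2
  have hc' : IsCoprime N' D' := by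
    obtain ⟨u, v, huv⟩ := hc
    refine ⟨u * C (t * δ) + v * C (-(t * γ)), u * C (-(t * β)) + v * C (t * α), ?_⟩
    calc (u * C (t * δ) + v * C (-(t * γ))) * N' + (u * C (-(t * β)) + v * C (t * α)) * D'
        = u * (C (t * δ) * N' + C (-(t * β)) * D') + v * (C (-(t * γ)) * N' + C (t * α) * D') := by
          ring
      _ = u * N + v * D := by rw [← hNe, ← hDe]
      _ = 1 := huv
  rw [e3, rdeg_div hD'0 hc']
  unfold rdeg
  apply le_antisymm
  · exact max_le (lin_le N D α β) (lin_le N D γ δ)
  · refine max_le ?_ ?_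
    · conv_lhs => rw [← hN, hNe]
      exact lin_le N' D' _ _
    · conv_lhs => rw [← hD, hDe]
      exact lin_le N' D' _ _

end RFG_

open RFG_ in
theorem p_RFG : T_RFG := by
  intro k _
  exact ⟨fun N D hD hc => rdeg_div hD hc, rdeg_eq_zero, mob⟩

end SSA
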