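import Pool.Agent.SSA.Targets

/-!
# MP_d74fca_nt, algebraic part: RFM, change of coefficients
-/

set_option autoImplicit false

open Polynomial
open scoped nonZeroDivisors

namespace SSA

namespace RFM_

variable {k k' : Type} [Field k] [Field k'] (σ : k →+* k')

theorem le_comap : k[X]⁰ ≤ k'[X]⁰.comap (Polynomial.mapRingHom σ) := by
  intro p hp
  rw [Submonoid.mem_comap, mem_nonZeroDivisors_iff_ne_zero]
  rw [mem_nonZeroDivisors_iff_ne_zero] at hp
  simpa using (Polynomial.map_ne_zero_iff σ.injective).2 hp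

/-- the field homomorphism given by `σ` -/
noncomputable def hom : RatFunc k →+* RatFunc k' :=
  RatFunc.mapRingHom (Polynomial.mapRingHom σ) (le_comap σ)

theorem hom_apply (R : RatFunc k) : hom σ R = rmap σ R := by
  have h : hom σ R = RatFunc.map (Polynomial.mapRingHom σ) (le_comap σ) R := by
    rw [← RatFunc.coe_mapRingHom_eq_coe_map]; rfl
  rw [h, RatFunc.map_apply]
  rfl

theorem denom_rmap (R : RatFunc k) : (rmap σ R).denom = R.denom.map σ := by
  have hB : (R.denom.map σ).Monic := (RatFunc.monic_denom R).map σ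
  have hcop : IsCoprime (R.num.map σ) (R.denom.map σ) := by
    have := (RatFunc.isCoprime_num_denom R).map (Polynomial.mapRingHom σ)
    simpa using this
  have hx : (rmap σ R).num * R.denom.map σ = R.num.map σ * (rmap σ R).denom :=
    (RatFunc.num_mul_eq_mul_denom_iff hB.ne_zero).2 rfl
  have h1 : (rmap σ R).denom ∣ R.denom.map σ := RatFunc.denom_div_dvd _ _
  have h2 : R.denom.map σ ∣ (rmap σ R).denom := by
    refine hcop.symm.dvd_of_dvd_mul_left ?_
    rw [← hx]
    exact Dvd.intro_left _ rfl
  exact Polynomial.eq_of_monic_of_associated (RatFunc.monic_denom _) hB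
    (associated_of_dvd_dvd h1 h2)

theorem num_rmap (R : RatFunc k) : (rmap σ R).num = R.num.map σ := by
  have hB : (R.denom.map σ).Monic := (RatFunc.monic_denom R).map σ
  have hx : (rmap σ R).num * R.denom.map σ = R.num.map σ * (rmap σ R).denom :=
    (RatFunc.num_mul_eq_mul_denom_iff hB.ne_zero).2 rfl
  rw [denom_rmap] at hx
  exact mul_right_cancel₀ hB.ne_zero hx

theorem rmap_algebraMap (P : k[X]) :
    rmap σ (algebraMap k[X] (RatFunc k) P) = algebraMap k'[X] (RatFunc k') (P.map σ) := by
  unfold rmap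
  rw [RatFunc.num_algebraMap, RatFunc.denom_algebraMap]
  simp

theorem rmap_C (c : k) : rmap σ (RatFunc.C c) = RatFunc.C (σ c) := by
  rw [← RatFunc.algebraMap_C, rmap_algebraMap, Polynomial.map_C, RatFunc.algebraMap_C]

theorem rmap_X : rmap σ RatFunc.X = RatFunc.X := by
  rw [← RatFunc.algebraMap_X, rmap_algebraMap, Polynomial.map_X, RatFunc.algebraMap_X]

theorem rmap_add (R S : RatFunc k) : rmap σ (R + S) = rmap σ R + rmap σ S := by
  simp only [← hom_apply, map_add]

theorem rmap_sub (R S : RatFunc k) : rmap σ (R - S) = rmap σ R - rmap σ S := by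
  simp only [← hom_apply, map_sub]

theorem rmap_mul (R S : RatFunc k) : rmap σ (R * S) = rmap σ R * rmap σ S := by
  simp only [← hom_apply, map_mul]

theorem rmap_div (R S : RatFunc k) : rmap σ (R / S) = rmap σ R / rmap σ S := by
  simp only [← hom_apply, map_div₀]

theorem rmap_pow (R : RatFunc k) (n : ℕ) : rmap σ (R ^ n) = rmap σ R ^ n := by
  simp only [← hom_apply, map_pow]

theorem rmap_inj (R S : RatFunc k) (h : rmap σ R = rmap σ S) : R = S := by
  simp only [← hom_apply] at h
  exact (hom σ).injective h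

theorem rmap_rder (R : RatFunc k) : rmap σ (rder R) = rder (rmap σ R) := by
  unfold rder
  rw [num_rmap, denom_rmap, rmap_div, rmap_algebraMap, rmap_algebraMap]
  simp [Polynomial.derivative_map]

theorem rdeg_rmap (R : RatFunc k) : rdeg (rmap σ R) = rdeg R := by
  unfold rdeg
  rw [num_rmap, denom_rmap, Polynomial.natDegree_map, Polynomial.natDegree_map]

theorem rmap_aeval (R : RatFunc k) (P : k[X]) :
    rmap σ (aeval R P) = aeval (rmap σ R) (P.map σ) := by
  rw [← hom_apply, ← hom_apply, Polynomial.aeval_def, Polynomial.hom_eval₂, Polynomial.aeval_def,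
    Polynomial.eval₂_map]
  congr 1
  ext c
  simp only [RingHom.coe_comp, Function.comp_apply]
  rw [hom_apply, RatFunc.algebraMap_eq_C, rmap_C]
  rw [RatFunc.algebraMap_eq_C]

theorem rmap_rcomp (g R : RatFunc k) : rmap σ (rcomp g R) = rcomp (rmap σ g) (rmap σ R) := by
  unfold rcomp
  rw [rmap_div, rmap_aeval, rmap_aeval, num_rmap, denom_rmap]

end RFM_

open RFM_ in
/-- RFM: change of coefficients -/
theorem p_RFM' : T_RFM := fun _ _ _ _ σ =>
  ⟨rmap_add σ, rmap_sub σ, rmap_mul σ, rmap_div σ, rmap_pow σ, rmap_algebraMap σ, rmap_C σ,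
    rmap_X σ, rmap_inj σ, rmap_rder σ, rdeg_rmap σ, fun g R _ => rmap_rcomp σ g R⟩

/-- RFM: change of coefficients -/
theorem p_RFM (_ : T_RFD) : T_RFM := p_RFM'

end SSA
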