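import Pool.Agent.SSA.Targets

/-!
# SSA, target RKA (abstract descent for the rank), helper92
-/

open Polynomial

namespace SSA
namespace RKA_

/-- identity with column `i0` replaced by `b`, transposed -/
def U {n : ℕ} (i0 : Fin n) (b : Fin n → ℤ) : Matrix (Fin n) (Fin n) ℤ :=
  ((1 : Matrix (Fin n) (Fin n) ℤ).updateCol i0 b).transpose

lemma U_apply {n : ℕ} (i0 : Fin n) (b : Fin n → ℤ) (j i : Fin n) :
    U i0 b j i = if j = i0 then b i else if i = j then 1 else 0 := by
  unfold U
  rw [Matrix.transpose_apply, Matrix.updateCol_apply]
  by_cases h : j = i0
  · rw [if_pos h, if_pos h]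
  · rw [if_neg h, if_neg h, Matrix.one_apply]

lemma U_det {n : ℕ} (i0 : Fin n) (b : Fin n → ℤ) : (U i0 b).det = b i0 := by
  unfold U
  rw [Matrix.det_transpose, ← Matrix.cramer_apply, Matrix.cramer_one]
  simp

end RKA_

open RKA_ in
theorem p_RKA (h1 : T_QFA) (h2 : T_GRD) : T_RKA := by
  classical
  intro A _ q hq n hyp
  obtain ⟨q0, -, -, hsym, hadd, -, -, -, hCS, -⟩ := h1 A q hq
  have key : ∀ N : ℕ, ∀ v : Fin n → A, (gram q v).det ≤ N → (gram q v).det = 0 := by
    intro N
    induction N with
    | zero =>
      intro v hv
      have := (h2 A q hq n v).1
      exact le_antisymm (by simpa using hv) this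
    | succ N ih =>
      intro v hv
      by_contra hne
      obtain ⟨K, ⟨i0, hi0⟩, T, H, hT, hH⟩ := hyp v hne
      -- the torsion-like element is orthogonal to everything
      have hT0 : ∀ y, bl q T y = 0 := by
        intro y
        have h := hCS T y
        rw [hT] at h
        have h' : (bl q T y) ^ 2 = 0 := le_antisymm (by simpa using h) (sq_nonneg _)
        exact pow_eq_zero_iff (two_ne_zero) |>.1 h'
      have hbl1 : ∀ x y, bl q (x + T) y = bl q x y := by
        intro x y
        rw [hadd, hT0, add_zero]
      have hbl2 : ∀ x y, bl q x (y + T) = bl q x y := by
        intro x y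
        rw [hsym, hbl1, hsym]
      set s : A := ∑ i ∈ K, v i with hs
      set b : Fin n → ℤ := fun i => if i ∈ K then 1 else 0 with hb
      set v' : Fin n → A := Function.update v i0 H with hv'
      set w : Fin n → A := Function.update v i0 s with hw
      set w' : Fin n → A := Function.update v i0 (s + T) with hw'
      -- first step: `w`
      have e1 : (fun j => ∑ i, U i0 b j i • v i) = w := by
        funext j
        rw [hw, Function.update_apply]
        by_cases hj : j = i0
        · rw [if_pos hj]
          simp only [U_apply, if_pos hj, hb, ite_smul, one_smul, zero_smul]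
          rw [Finset.sum_ite_mem, Finset.univ_inter]
        · rw [if_neg hj]
          simp only [U_apply, if_neg hj, ite_smul, one_smul, zero_smul]
          rw [Finset.sum_ite_eq' Finset.univ j, if_pos (Finset.mem_univ _)]
      have d1 : (gram q w).det = (gram q v).det := by
        have h := (h2 A q hq n v).2.1 (U i0 b)
        rw [e1, U_det] at h
        simp only [hb, if_pos hi0] at h
        simpa using h
      -- second step: `w'`
      have e2 : gram q w' = gram q w := by
        have hbl : ∀ x y i j, bl q (Function.update v i0 (s + T) i) y = bl q (w i) y ∧
            bl q x (Function.update v i0 (s + T) j) = bl q x (w j) := by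
          intro x y i j
          rw [hw, Function.update_apply, Function.update_apply, Function.update_apply,
            Function.update_apply]
          constructor
          · by_cases hi : i = i0
            · rw [if_pos hi, if_pos hi, hbl1]
            · rw [if_neg hi, if_neg hi]
          · by_cases hj : j = i0
            · rw [if_pos hj, if_pos hj, hbl2]
            · rw [if_neg hj, if_neg hj]
        funext i j
        show bl q (w' i) (w' j) = bl q (w i) (w j)
        rw [hw', (hbl 0 _ i j).1, (hbl _ 0 i j).2]
      -- third step: doubling
      set c : Fin n → ℤ := fun i => if i = i0 then 2 else 1 with hc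
      have e3 : (fun j => ∑ i, (Matrix.diagonal c) j i • v' i) = w' := by
        funext j
        have : ∑ i, (Matrix.diagonal c) j i • v' i = c j • v' j := by
          rw [Finset.sum_eq_single j]
          · rw [Matrix.diagonal_apply_eq]
          · intro i _ hij
            rw [Matrix.diagonal_apply_ne _ (Ne.symm hij), zero_smul]
          · intro h; exact absurd (Finset.mem_univ _) h
        rw [this, hv', hw', Function.update_apply, Function.update_apply]
        by_cases hj : j = i0
        · simp only [hc, if_pos hj]
          rw [hH, two_zsmul]
        · simp only [hc, if_neg hj]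
          rw [one_zsmul]
      have hprod : ∏ i, c i = 2 := by
        simp only [hc]
        rw [Finset.prod_ite_eq' Finset.univ i0 (fun _ => (2 : ℤ)), if_pos (Finset.mem_univ _)]
      have d2 : (gram q w').det = 4 * (gram q v').det := by
        have h := (h2 A q hq n v').2.1 (Matrix.diagonal c)
        rw [e3, Matrix.det_diagonal, hprod] at h
        rw [h]; norm_num
      have h0 := (h2 A q hq n v').1
      have h4 : (gram q v).det = 4 * (gram q v').det := by rw [← d1, ← e2, d2]
      have h5 : (gram q v').det = 0 := by
        refine ih v' ?_
        push_cast at hv
        omega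
      omega
  intro v
  refine key (gram q v).det.toNat v ?_
  exact Int.self_le_toNat _

end SSA
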