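import Pool.Agent.SSA.TargetsB

/-!
# MP_d74fca_nt, algebraic part: the ramified case, composite squarefree degree
-/

set_option autoImplicit false

open Polynomial

namespace SSA

namespace RM2_

/-- the number theory at the end -/
lemma arith1 (p : ℕ) (hp : p.Prime) (D : ℕ) (hD : Squarefree D) (hpD : p ∣ D) (s t : ℤ)
    (hs : (p : ℤ) ∣ s) (h : s ^ 2 = D * (4 * p - t ^ 2)) : (p : ℤ) ∣ t := by
  obtain ⟨m, rfl⟩ := hpD
  obtain ⟨s', rfl⟩ := hs
  have hp0 : (p : ℤ) ≠ 0 := by exact_mod_cast hp.ne_zero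
  have hpp : Prime (p : ℤ) := Nat.prime_iff_prime_int.1 hp
  have h1 : (p : ℤ) * s' ^ 2 = m * (4 * p - t ^ 2) := by
    apply mul_left_cancel₀ hp0
    push_cast at h
    linear_combination h
  have h2 : (p : ℤ) ∣ m * (4 * p - t ^ 2) := ⟨s' ^ 2, h1.symm⟩
  rcases hpp.dvd_or_dvd h2 with h3 | h3
  · exfalso
    have h4 : p ∣ m := by exact_mod_cast h3
    have h5 : p * p ∣ p * m := Nat.mul_dvd_mul_left p h4
    have h6 := hD p h5
    exact hp.one_lt.ne' (Nat.isUnit_iff.1 h6)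
  · have h4 : (p : ℤ) ∣ t ^ 2 := by
      have h5 : t ^ 2 = 4 * p - (4 * p - t ^ 2) := by ring
      rw [h5]
      exact dvd_sub (Dvd.intro_left 4 rfl) h3
    exact hpp.dvd_of_dvd_pow h4

lemma arith2 (p N : ℕ) (hp : 5 ≤ p) (hN : p ∣ N) (h : ((p : ℤ) - N) ^ 2 ≤ 4 * p) : N = p := by
  obtain ⟨u, rfl⟩ := hN
  have hp5 : (5 : ℤ) ≤ p := by exact_mod_cast hp
  push_cast at h
  have h1 : (p : ℤ) * (1 - u) ^ 2 ≤ 4 := by
    have h2 : (p : ℤ) * (p * (1 - u) ^ 2) ≤ p * 4 := by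
      have : ((p : ℤ) - p * u) ^ 2 = p * (p * (1 - u) ^ 2) := by ring
      rw [this] at h
      linarith
    exact le_of_mul_le_mul_left h2 (by linarith)
  have h3 : (1 - (u : ℤ)) ^ 2 = 0 := by
    by_contra hne
    have h4 : 1 ≤ (1 - (u : ℤ)) ^ 2 := by
      have h5 : 0 < (1 - (u : ℤ)) ^ 2 := lt_of_le_of_ne (sq_nonneg _) (Ne.symm hne)
      exact h5
    nlinarith
  have h6 : (1 - (u : ℤ)) = 0 := pow_eq_zero_iff (two_ne_zero) |>.1 h3
  have h7 : u = 1 := by omega
  rw [h7, mul_one]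

end RM2_

open RM2_ in
theorem p_RM2 (h1 : T_PAR) (h2 : T_QFA) (h3 : T_INS) (h4 : T_FRB) (h5 : T_NPI) (h6 : T_HB)
    (h7 : T_ORD) : T_RM2 := by
  intro p _ k _ _ _ hp a b hyp D β hD hpD hβ hβid hDDβ
  have hpp : p.Prime := Fact.out
  obtain ⟨hBB, hHB⟩ := h6 p k hp a b hyp
  obtain ⟨hid, hpi, _⟩ := h5 p k hp a b hyp
  obtain ⟨hfadd, hfdd, hfid⟩ := h4 p k hp a b hyp
  refine arith2 p (Naff p a b) hp ?_ hHB
  by_contra hN
  have hdet := h7 p k hp a b hyp hN β
  set q : MM (zc p k a) (zc p k b) → ℤ := fun P => (dd P : ℤ) with hq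
  have hpar : Par q := by
    refine ⟨fun x y => ?_, fun x => by simp [hq]⟩
    have := h1 k (zc p k a) (zc p k b) hyp x y
    simp only [hq]
    exact_mod_cast this
  obtain ⟨_, _, hself, hsymm, _⟩ := h2 _ q hpar
  set t : ℤ := (p : ℤ) - Naff p a b with ht
  have e1 : bl q (idM (zc p k a) (zc p k b)) (piM p (zc p k a) (zc p k b)) = t := hBB
  have e2 : bl q β (idM (zc p k a) (zc p k b)) = 0 := hβid
  set s : ℤ := bl q (piM p (zc p k a) (zc p k b)) β with hs
  have e3 : q (idM (zc p k a) (zc p k b)) = 1 := by simp only [hq]; exact_mod_cast hid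
  have e4 : q (piM p (zc p k a) (zc p k b)) = p := by simp only [hq]; exact_mod_cast hpi
  have e5 : q β = D := by simp only [hq]; exact_mod_cast hβ
  have hs2 : s ^ 2 = D * (4 * p - t ^ 2) := by
    rw [Matrix.det_fin_three] at hdet
    simp only [gram, Matrix.cons_val_zero, Matrix.cons_val_one, Matrix.cons_val] at hdet
    rw [hself, hself, hself, hsymm (idM (zc p k a) (zc p k b)) β, e2,
      hsymm (piM p (zc p k a) (zc p k b)) (idM (zc p k a) (zc p k b)), e1,
      hsymm β (piM p (zc p k a) (zc p k b)), ← hs, e3, e4, e5] at hdet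
    linarith
  -- `p` divides `s`
  have hps : (p : ℤ) ∣ s := by
    obtain ⟨w, hw⟩ := h3 p k hp a b hyp β hDDβ
    have h8 : piM p (zc p k a) (zc p k b) + β = frb p (idM (zc p k a) (zc p k b) + w) := by
      rw [hfadd, hfid, ← hw]
    have h9 : q (piM p (zc p k a) (zc p k b) + β) =
        p * dd (idM (zc p k a) (zc p k b) + w) := by
      simp only [hq]
      rw [h8, hfdd]
      push_cast
      ring
    have h10 : s = q (piM p (zc p k a) (zc p k b) + β) - p - D := by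
      rw [hs]
      unfold bl
      rw [e4, e5]
    rw [h10, h9]
    have h11 : (p : ℤ) ∣ (D : ℤ) := by exact_mod_cast hpD
    exact dvd_sub (dvd_sub (Dvd.intro _ rfl) dvd_rfl) h11
  have hpt := arith1 p hpp D hD hpD s t hps hs2
  apply hN
  have h12 : (p : ℤ) ∣ (Naff p a b : ℤ) := by
    have h13 : (Naff p a b : ℤ) = p - t := by rw [ht]; ring
    rw [h13]
    exact dvd_sub dvd_rfl hpt
  exact_mod_cast h12

end SSA
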