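import Pool.Agent.SSA.TargetsB
import Pool.Agent.SSA.ORT
import Pool.Agent.SSA.INERT

/-!
# SPW: the inert case, squarefree degrees, discriminant exactly `-p w^2`
-/

set_option autoImplicit false

open Polynomial

namespace SSA

namespace SPW_

/-- four times the product of two different squarefree numbers is not a square -/
theorem not_sq {l l' : ℕ} (hl : Squarefree l) (hl' : Squarefree l') (h : l ≠ l') (u : ℤ) :
    4 * (l : ℤ) * l' - u ^ 2 ≠ 0 := by
  intro h0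
  have h1 : (2 : ℤ) ∣ u := by
    have h2 : (2 : ℤ) ∣ u ^ 2 := ⟨2 * l * l', by linarith⟩
    exact Int.prime_two.dvd_of_dvd_pow h2
  obtain ⟨w, rfl⟩ := h1
  have h2 : (l : ℤ) * l' = w ^ 2 := by nlinarith
  have h3 : (l : ℤ) ∣ w := by
    have h4 : (l : ℤ) ∣ w ^ 2 := ⟨(l' : ℤ), h2.symm⟩
    exact ((Int.squarefree_natCast.2 hl).dvd_pow_iff_dvd two_ne_zero).1 h4
  obtain ⟨z, rfl⟩ := h3
  have hl0 : (l : ℤ) ≠ 0 := by exact_mod_cast hl.ne_zero
  have h4 : (l' : ℤ) = l * z ^ 2 := by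
    apply mul_left_cancel₀ hl0
    rw [h2]
    ring
  have h5 : IsUnit z := by
    refine (Int.squarefree_natCast.2 hl') z ⟨(l : ℤ), ?_⟩
    rw [h4]; ring
  have h6 : z ^ 2 = 1 := by
    rcases Int.isUnit_iff.1 h5 with h7 | h7 <;> rw [h7] <;> norm_num
  rw [h6, mul_one] at h4
  exact h (by exact_mod_cast h4.symm)

/-- `n^2 D = p m^2` forces `n ∣ m` -/
theorem dvd_of_sq {p : ℕ} (hp : p.Prime) {n m D : ℤ} (hn : n ≠ 0) (h : n ^ 2 * D = p * m ^ 2) :
    n ∣ m := by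
  have hg : 0 < Int.gcd n m := Int.gcd_pos_of_ne_zero_left m hn
  obtain ⟨n', m', hcop, hn', hm'⟩ := Int.exists_gcd_one hg
  have hg0 : ((Int.gcd n m : ℕ) : ℤ) ≠ 0 := by exact_mod_cast hg.ne'
  set g : ℤ := ((Int.gcd n m : ℕ) : ℤ) with hgdef
  have h1 : n' ^ 2 * D = p * m' ^ 2 := by
    have h2 : g ^ 2 * (n' ^ 2 * D) = g ^ 2 * (p * m' ^ 2) := by
      rw [hn', hm'] at h
      linear_combination h
    exact mul_left_cancel₀ (pow_ne_zero 2 hg0) h2
  have h3 : n' ^ 2 ∣ (p : ℤ) := by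
    have h4 : IsCoprime (n' ^ 2) (m' ^ 2) := (Int.isCoprime_iff_gcd_eq_one.2 hcop).pow
    exact h4.dvd_of_dvd_mul_right ⟨D, h1.symm⟩
  have h5 : IsUnit n' := by
    have h6 : Squarefree (p : ℤ) := Int.squarefree_natCast.2 hp.squarefree
    refine h6 n' ?_
    rw [← pow_two]
    exact h3
  rw [hn', hm']
  exact mul_dvd_mul_right h5.dvd g

open ORT_ in
/-- the point of a CM map, with the action of `σ` -/
theorem ort (h1 : T_API) (h3 : T_RFM) (h4 : T_RFG) (h5 : T_TAU) (h6 : T_PAR)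
    (p : ℕ) [Fact p.Prime] (k : Type) [Field k] [CharP k p] [IsAlgClosed k] (hp : 5 ≤ p)
    (a b : ZMod p) (H : Hyp (zc p k a) (zc p k b)) (ℓ : ℕ) (R : RatFunc k) (c : k)
    (σ : k ≃+* k) (hℓ : 0 < ℓ) (hD : Dat p k a b ℓ R c σ) :
    c ^ p = -c ∧ rder R ≠ 0 ∧ ∃ α : MM (zc p k a) (zc p k b), tau σ α = -α ∧ dd α = ℓ ∧
      BB α (idM (zc p k a) (zc p k b)) = 0 ∧ BB α (piM p (zc p k a) (zc p k b)) = 0 := by
  obtain ⟨hc0, hc2, hσc, hσR, hode, hdeg⟩ := hD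
  have hfrob : c ^ p = -c := frob_c σ hc0 hc2 hσc H.two
  obtain ⟨-, hrdeg0, -⟩ := h4 k
  have hCc : (RatFunc.C c : RatFunc k) ≠ 0 := by
    rw [Ne, map_eq_zero]
    exact hc0
  have hder : rder R ≠ 0 := by
    intro h0
    rw [h0] at hode
    have hev : ev (zc p k a) (zc p k b) R = 0 := by
      have h7 : RatFunc.C c ^ 2 * ev (zc p k a) (zc p k b) R = 0 := by
        rw [← hode]; ring
      rcases mul_eq_zero.1 h7 with h8 | h8
      · exact absurd h8 (pow_ne_zero 2 hCc)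
      · exact h8
    have h9 := (hrdeg0 R).2 (const_of_ev hev)
    omega
  refine ⟨hfrob, hder, ?_⟩
  obtain ⟨-, h00, hmk, hrec, hneg, -⟩ := h1 k _ _ H
  obtain ⟨S, hS⟩ : ∃ S : RatFunc k, S = rder R / RatFunc.C c := ⟨_, rfl⟩
  have hS0 : S ≠ 0 := by rw [hS]; exact div_ne_zero hder hCc
  have heq : ff (zc p k a) (zc p k b) * S ^ 2 = ev (zc p k a) (zc p k b) R := by
    rw [hS, div_pow]
    field_simp
    linear_combination hode
  obtain ⟨hα0, hxα, hyα⟩ := hmk R S heq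
  obtain ⟨α, hα⟩ : ∃ α, α = mkP (zc p k a) (zc p k b) R S := ⟨_, rfl⟩
  rw [← hα] at hα0 hxα hyα
  have hσa := sigma_zc (p := p) σ a
  have hσb := sigma_zc (p := p) σ b
  obtain ⟨hadd, hdd, hcoord, hid, hpi⟩ := h5 k _ _ H σ hσa hσb
  obtain ⟨-, -, -, hmdiv, -, -, hmC, -, -, hmder, -, -⟩ := h3 k k σ.toRingHom
  -- tau acts by -1
  have hxt : xr (tau σ α) = R := by rw [(hcoord α).1, hxα, hσR]
  have hyt : yr (tau σ α) = -S := by
    rw [(hcoord α).2, hyα, hS, hmdiv, hmder, hσR, hmC]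
    have e1 : σ.toRingHom c = -c := hσc
    rw [e1, map_neg, div_neg]
  have ht0 : tau σ α ≠ 0 := by
    intro h0
    rw [h0, h00.2] at hyt
    exact hS0 (by rw [← neg_neg S, ← hyt, neg_zero])
  have hn0 : -α ≠ 0 := neg_ne_zero.2 hα0
  have htau : tau σ α = -α := by
    rw [(hrec _ ht0).2, (hrec _ hn0).2, hxt, hyt, (hneg α).1, (hneg α).2, hxα, hyα]
  refine ⟨α, htau, ?_, ?_, ?_⟩
  · unfold dd
    rw [hxα, hdeg]
  · exact pair_zero H h1 h6 (tau σ) hadd hdd htau hid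
  · exact pair_zero H h1 h6 (tau σ) hadd hdd htau
      (hpi p Fact.out hp inferInstance (zc_pow a) (zc_pow b))


/-- the second point `α' = π ∘ α` attached to a point `α` with `tau σ α = -α` -/
theorem second (h1 : T_API) (h3 : T_RFM) (h4 : T_RFG) (h5 : T_TAU) (h6 : T_PAR) (h7 : T_CMP)
    (h8 : T_NPI) (h9 : T_HB)
    (p : ℕ) [Fact p.Prime] (k : Type) [Field k] [CharP k p] [IsAlgClosed k] (hp : 5 ≤ p)
    (a b : ZMod p) (H : Hyp (zc p k a) (zc p k b)) (hN : Naff p a b = p) (ℓ : ℕ) (hℓ : 0 < ℓ)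
    (σ : k ≃+* k) (α : MM (zc p k a) (zc p k b)) (hα : tau σ α = -α) (hdα : dd α = ℓ) :
    ∃ α' : MM (zc p k a) (zc p k b), dd α' = p * ℓ ∧ BB α α' = 0 ∧
      BB α' (idM (zc p k a) (zc p k b)) = 0 ∧ BB α' (piM p (zc p k a) (zc p k b)) = 0 := by
  have hpp : p.Prime := Fact.out
  have hσa := ORT_.sigma_zc (p := p) σ a
  have hσb := ORT_.sigma_zc (p := p) σ b
  obtain ⟨hadd, hdd, hcoord, hid, hpi⟩ := h5 k _ _ H σ hσa hσb
  have hπ : tau σ (piM p (zc p k a) (zc p k b)) = piM p (zc p k a) (zc p k b) :=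
    hpi p Fact.out hp inferInstance (ORT_.zc_pow a) (ORT_.zc_pow b)
  obtain ⟨-, -, hmmul, -, -, -, -, -, -, -, -, hmcomp⟩ := h3 k k σ.toRingHom
  obtain ⟨-, h00, -, hrec, hneg, -⟩ := h1 k _ _ H
  obtain ⟨-, hrdeg0, -⟩ := h4 k
  obtain ⟨hd1, hdp, -⟩ := h8 p k hp a b H
  have hconst : ∀ c : k, xr α ≠ RatFunc.C c := by
    intro c hc
    have h10 := (hrdeg0 (xr α)).2 ⟨c, hc⟩
    unfold dd at hdα
    omega
  have hd0 : dd (0 : MM (zc p k a) (zc p k b)) = 0 := by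
    unfold dd
    rw [h00.1]
    exact (hrdeg0 0).2 ⟨0, by simp⟩
  have hπ0 : piM p (zc p k a) (zc p k b) ≠ 0 := by
    intro h10
    rw [h10, hd0] at hdp
    exact hpp.ne_zero hdp.symm
  obtain ⟨Φ, hΦid, hΦdd, hΦc⟩ := h7 k _ _ H α hconst
  obtain ⟨hne, hx, hy⟩ := hΦc _ hπ0
  have hd : dd (Φ (piM p (zc p k a) (zc p k b))) = p * ℓ := by
    rw [hΦdd, hdp, hdα]
  have htau : tau σ (Φ (piM p (zc p k a) (zc p k b))) = - Φ (piM p (zc p k a) (zc p k b)) := by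
    have ht0 : tau σ (Φ (piM p (zc p k a) (zc p k b))) ≠ 0 := by
      intro h10
      have h11 := hdd (Φ (piM p (zc p k a) (zc p k b)))
      rw [h10, hd0, hd] at h11
      exact (Nat.mul_pos hpp.pos hℓ).ne h11
    have hn0 : - Φ (piM p (zc p k a) (zc p k b)) ≠ 0 := neg_ne_zero.2 hne
    have hxα : rmap σ.toRingHom (xr α) = xr α := by
      rw [← (hcoord α).1, hα, (hneg α).1]
    have hyα : rmap σ.toRingHom (yr α) = - yr α := by
      rw [← (hcoord α).2, hα, (hneg α).2]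
    have hxπ : rmap σ.toRingHom (xr (piM p (zc p k a) (zc p k b))) =
        xr (piM p (zc p k a) (zc p k b)) := by
      rw [← (hcoord _).1, hπ]
    have hyπ : rmap σ.toRingHom (yr (piM p (zc p k a) (zc p k b))) =
        yr (piM p (zc p k a) (zc p k b)) := by
      rw [← (hcoord _).2, hπ]
    have e1 : xr (tau σ (Φ (piM p (zc p k a) (zc p k b)))) =
        xr (- Φ (piM p (zc p k a) (zc p k b))) := by
      rw [(hcoord _).1, (hneg _).1, hx, hmcomp _ _ hconst, hxα, hxπ]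
    have e2 : yr (tau σ (Φ (piM p (zc p k a) (zc p k b)))) =
        yr (- Φ (piM p (zc p k a) (zc p k b))) := by
      rw [(hcoord _).2, (hneg _).2, hy, hmmul, hmcomp _ _ hconst, hxα, hyπ, hyα, mul_neg]
    rw [(hrec _ ht0).2, (hrec _ hn0).2, e1, e2]
  refine ⟨Φ (piM p (zc p k a) (zc p k b)), hd, ?_, ?_, ?_⟩
  · have h10 := (h9 p k hp a b H).1
    rw [hN, sub_self] at h10
    unfold BB at h10 ⊢
    have e3 : α + Φ (piM p (zc p k a) (zc p k b)) =
        Φ (idM (zc p k a) (zc p k b) + piM p (zc p k a) (zc p k b)) := by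
      rw [map_add, hΦid]
    rw [e3, hΦdd, hΦdd]
    have e4 : (dd α : ℤ) = dd (idM (zc p k a) (zc p k b)) * dd α := by
      rw [hd1]; simp
    push_cast
    linear_combination (dd α : ℤ) * h10 - e4
  · exact ORT_.pair_zero H h1 h6 (tau σ) hadd hdd htau hid
  · exact ORT_.pair_zero H h1 h6 (tau σ) hadd hdd htau hπ

end SPW_

open SPW_ in
/-- SPW: the inert case, squarefree degrees, discriminant exactly `-p w^2` -/
theorem p_SPW (h1 : T_API) (h2 : T_RFM) (h3 : T_RFG) (h4 : T_SS) (h5 : T_HB) (h6 : T_RK4)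
    (h7 : T_LT2) (h8 : T_QFA) (h9 : T_PAR) (h10 : T_TAU) (h11 : T_NPI) (h12 : T_CMP) :
    T_SPW := by
  intro p _ k _ _ _ hp a b hyp F hF
  have hpp : p.Prime := Fact.out
  -- the first claim
  have hfirst : F.Nonempty → Naff p a b = p := by
    rintro ⟨ℓ, hℓ⟩
    obtain ⟨hsq, R, c, σ, hD⟩ := hF ℓ hℓ
    obtain ⟨hcp, hder, _⟩ := ort h1 h2 h3 h10 h9 p k hp a b hyp ℓ R c σ
      (Nat.pos_of_ne_zero hsq.ne_zero) hD
    obtain ⟨hc0, hc2, _, _, hrel, _⟩ := hD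
    refine h4 p k hp a b hyp R c hder hc0 ?_ hrel
    rw [hcp]
    intro h
    have h' : (2 : k) * c = 0 := by linear_combination (-1 : k) * h
    rcases mul_eq_zero.mp h' with h' | h'
    · exact hyp.two h'
    · exact hc0 h'
  refine ⟨hfirst, ?_⟩
  intro hcard
  have hne : F.Nonempty := Finset.card_pos.mp (by omega)
  have hN : Naff p a b = p := hfirst hne
  -- the points
  have hα : ∀ ℓ : ℕ, ∃ (α : MM (zc p k a) (zc p k b)) (σ : k ≃+* k), ℓ ∈ F →
      Squarefree ℓ ∧ tau σ α = -α ∧ dd α = ℓ ∧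
      BB α (idM (zc p k a) (zc p k b)) = 0 ∧ BB α (piM p (zc p k a) (zc p k b)) = 0 := by
    intro ℓ
    by_cases hℓ : ℓ ∈ F
    · obtain ⟨hsq, R, c, σ, hD⟩ := hF ℓ hℓ
      obtain ⟨-, -, α, e1, e2, e3, e4⟩ := ort h1 h2 h3 h10 h9 p k hp a b hyp ℓ R c σ
        (Nat.pos_of_ne_zero hsq.ne_zero) hD
      exact ⟨α, σ, fun _ => ⟨hsq, e1, e2, e3, e4⟩⟩
    · exact ⟨0, RingEquiv.refl k, fun h => absurd h hℓ⟩
  choose α σ hαc using hα
  -- the quadratic form
  set q : MM (zc p k a) (zc p k b) → ℤ := fun P => (dd P : ℤ) with hq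
  have hPar : Par q := by
    refine ⟨fun x y => ?_, fun x => Int.natCast_nonneg _⟩
    have := h9 k (zc p k a) (zc p k b) hyp x y
    simp only [hq]
    exact_mod_cast this
  have hbl : ∀ x y, bl q x y = BB x y := fun _ _ => rfl
  obtain ⟨q0, qneg, qdiag, qsymm, qadd, qnegl, _, _, _, _⟩ :=
    h8 (MM (zc p k a) (zc p k b)) q hPar
  have hbl0 : ∀ y, bl q 0 y = 0 := by
    intro y
    have h := qadd 0 0 y
    rw [add_zero] at h
    linarith
  set L : AddSubgroup (MM (zc p k a) (zc p k b)) := AddSubgroup.closure (α '' (F : Set ℕ)) with hL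
  have hαL : ∀ ℓ ∈ F, α ℓ ∈ L := fun ℓ hℓ => AddSubgroup.subset_closure ⟨ℓ, hℓ, rfl⟩
  -- orthogonality to the identity and to Frobenius
  have horth : ∀ z : MM (zc p k a) (zc p k b), (∀ ℓ ∈ F, bl q (α ℓ) z = 0) →
      ∀ v ∈ L, bl q v z = 0 := by
    intro z hz v hv
    refine AddSubgroup.closure_induction (p := fun v _ => bl q v z = 0) ?_ ?_ ?_ ?_ hv
    · rintro _ ⟨ℓ, hℓ, rfl⟩
      exact hz ℓ hℓ
    · exact hbl0 z
    · intro x y _ _ hx hy
      rw [qadd, hx, hy, add_zero]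
    · intro x _ hx
      rw [qnegl, hx, neg_zero]
  have hid : ∀ v ∈ L, bl q v (idM (zc p k a) (zc p k b)) = 0 :=
    horth _ fun ℓ hℓ => (hαc ℓ hℓ).2.2.2.1
  have hpi : ∀ v ∈ L, bl q v (piM p (zc p k a) (zc p k b)) = 0 :=
    horth _ fun ℓ hℓ => (hαc ℓ hℓ).2.2.2.2
  -- the Gram determinants
  have hnpi := h11 p k hp a b hyp
  have hgram : ∀ v : Fin 3 → MM (zc p k a) (zc p k b),
      (∀ i, bl q (v i) (idM (zc p k a) (zc p k b)) = 0) →
      (∀ i, bl q (v i) (piM p (zc p k a) (zc p k b)) = 0) → (gram q v).det = 0 := by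
    intro v hv1 hv2
    have hdet := h6 k (zc p k a) (zc p k b) hyp
      (Fin.cons (idM (zc p k a) (zc p k b)) (Fin.cons (piM p (zc p k a) (zc p k b)) v))
    have hBid : bl q (idM (zc p k a) (zc p k b)) (piM p (zc p k a) (zc p k b)) = 0 := by
      rw [hbl, (h5 p k hp a b hyp).1, hN, sub_self]
    have e1 : (gram q (Fin.cons (idM (zc p k a) (zc p k b))
        (Fin.cons (piM p (zc p k a) (zc p k b)) v) : Fin 5 → MM (zc p k a) (zc p k b))).det =
        bl q (idM (zc p k a) (zc p k b)) (idM (zc p k a) (zc p k b)) *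
          (gram q (Fin.cons (piM p (zc p k a) (zc p k b)) v :
            Fin 4 → MM (zc p k a) (zc p k b))).det := by
      apply INERT_.gram_cons
      intro i
      refine Fin.cases ?_ (fun j => ?_) i
      · exact hBid
      · rw [Fin.cons_succ, qsymm]
        exact hv1 j
    have e2 : (gram q (Fin.cons (piM p (zc p k a) (zc p k b)) v :
            Fin 4 → MM (zc p k a) (zc p k b))).det =
        bl q (piM p (zc p k a) (zc p k b)) (piM p (zc p k a) (zc p k b)) * (gram q v).det := by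
      apply INERT_.gram_cons
      intro i
      rw [qsymm]
      exact hv2 i
    have hdet' : (gram q (Fin.cons (idM (zc p k a) (zc p k b))
        (Fin.cons (piM p (zc p k a) (zc p k b)) v) : Fin 5 → MM (zc p k a) (zc p k b))).det = 0 :=
      hdet
    rw [e1, e2, qdiag, qdiag] at hdet'
    have f1 : q (idM (zc p k a) (zc p k b)) = 1 := by
      simp only [hq, hnpi.1]
      norm_num
    have f2 : q (piM p (zc p k a) (zc p k b)) = p := by
      simp only [hq, hnpi.2.1]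
    rw [f1, f2] at hdet'
    have hp0 : (p : ℤ) ≠ 0 := by exact_mod_cast hpp.ne_zero
    rcases mul_eq_zero.mp hdet' with h | h
    · norm_num at h
    · rcases mul_eq_zero.mp h with h | h
      · exfalso
        rcases mul_eq_zero.mp h with h | h
        · norm_num at h
        · exact hp0 h
      · exact h
  -- two different degrees
  obtain ⟨ℓ, hℓ, ℓ', hℓ', hll⟩ := Finset.one_lt_card.mp (by omega : 1 < F.card)
  obtain ⟨e₁, he₁, e₂, he₂, hpos, hdisc, hrep⟩ := h7 (MM (zc p k a) (zc p k b)) q hPar L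
    (fun v hv => hgram v (fun i => hid _ (hv i)) (fun i => hpi _ (hv i)))
    ⟨α ℓ, hαL ℓ hℓ, α ℓ', hαL ℓ' hℓ', by
      have g1 : q (α ℓ) = ℓ := by
        simp only [hq, (hαc ℓ hℓ).2.2.1]
      have g2 : q (α ℓ') = ℓ' := by
        simp only [hq, (hαc ℓ' hℓ').2.2.1]
      rw [g1, g2]
      exact not_sq (hαc ℓ hℓ).1 (hαc ℓ' hℓ').1 hll _⟩
  -- exactness of the discriminant
  obtain ⟨hsq, hτ, hdα, hαi, hαp⟩ := hαc ℓ hℓ
  have hℓpos : 0 < ℓ := Nat.pos_of_ne_zero hsq.ne_zero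
  obtain ⟨α', hdα', hαα', hα'i, hα'p⟩ := second h1 h2 h3 h10 h9 h12 h11 h5 p k hp a b hyp hN ℓ
    hℓpos (σ ℓ) (α ℓ) hτ hdα
  have hp0 : (p : ℤ) ≠ 0 := by exact_mod_cast hpp.ne_zero
  have hℓ0 : (ℓ : ℤ) ≠ 0 := by exact_mod_cast hℓpos.ne'
  have hquad : ∀ v ∈ L, 4 * p * ℓ * q v = p * (bl q v (α ℓ)) ^ 2 + (bl q v α') ^ 2 := by
    intro v hv
    have hdet := hgram ![α ℓ, α', v]
      (by
        intro i
        fin_cases i
        · exact hαi
        · exact hα'i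
        · exact hid v hv)
      (by
        intro i
        fin_cases i
        · exact hαp
        · exact hα'p
        · exact hpi v hv)
    rw [Matrix.det_fin_three] at hdet
    have g1 : q (α ℓ) = ℓ := by simp only [hq, hdα]
    have g2 : q α' = p * ℓ := by
      simp only [hq, hdα']
      push_cast
      ring
    have g3 : bl q (α ℓ) α' = 0 := hαα'
    simp only [gram, Matrix.cons_val_zero, Matrix.cons_val_one, Matrix.cons_val_two,
      Matrix.head_cons, Matrix.tail_cons] at hdet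
    rw [qdiag, qdiag, qdiag, g1, g2, qsymm α' (α ℓ), g3, qsymm (α ℓ) v, qsymm α' v] at hdet
    have h13 : (2 * (ℓ : ℤ)) * (4 * p * ℓ * q v) =
        (2 * (ℓ : ℤ)) * (p * (bl q v (α ℓ)) ^ 2 + (bl q v α') ^ 2) := by
      linear_combination hdet
    exact mul_left_cancel₀ (mul_ne_zero two_ne_zero hℓ0) h13
  set A := q e₁ with hA
  set B := bl q e₁ e₂ with hB
  set C := q e₂ with hC
  have hqs : q (e₁ + e₂) = A + B + C := by
    rw [hA, hB, hC]
    unfold bl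
    ring
  have k1 := hquad e₁ he₁
  have k2 := hquad e₂ he₂
  have k3 := hquad (e₁ + e₂) (add_mem he₁ he₂)
  rw [hqs, qadd, qadd] at k3
  set X1 := bl q e₁ (α ℓ)
  set X2 := bl q e₂ (α ℓ)
  set Y1 := bl q e₁ α'
  set Y2 := bl q e₂ α'
  have k4 : 4 * p * ℓ * B = 2 * p * X1 * X2 + 2 * Y1 * Y2 := by
    linear_combination k3 - k1 - k2
  have k5 : 4 * p * ℓ ^ 2 * (4 * A * C - B ^ 2) = (X1 * Y2 - X2 * Y1) ^ 2 := by
    have h13 : (4 * (p : ℤ)) * (4 * p * ℓ ^ 2 * (4 * A * C - B ^ 2)) =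
        (4 * (p : ℤ)) * (X1 * Y2 - X2 * Y1) ^ 2 := by
      linear_combination 4 * (4 * p * ℓ * C) * k1 + 4 * (p * X1 ^ 2 + Y1 ^ 2) * k2 -
        (4 * p * ℓ * B + (2 * p * X1 * X2 + 2 * Y1 * Y2)) * k4
    exact mul_left_cancel₀ (mul_ne_zero four_ne_zero hp0) h13
  have hpint : Prime (p : ℤ) := Nat.prime_iff_prime_int.mp hpp
  obtain ⟨m', hm'⟩ : (p : ℤ) ∣ X1 * Y2 - X2 * Y1 :=
    hpint.dvd_of_dvd_pow ⟨4 * ℓ ^ 2 * (4 * A * C - B ^ 2), by rw [← k5]; ring⟩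
  have k6 : (2 * (ℓ : ℤ)) ^ 2 * (4 * A * C - B ^ 2) = p * m' ^ 2 := by
    apply mul_left_cancel₀ hp0
    rw [hm'] at k5
    linear_combination k5
  obtain ⟨w, hw⟩ := dvd_of_sq hpp (mul_ne_zero two_ne_zero hℓ0) k6
  refine ⟨A, B, C, w, hpos, hdisc, ?_, ?_⟩
  · apply mul_left_cancel₀ (pow_ne_zero 2 (mul_ne_zero two_ne_zero hℓ0))
    rw [k6, hw]
    ring
  · intro m hm
    obtain ⟨x, y, hxy⟩ := hrep (α m) (hαL m hm)
    refine ⟨x, y, ?_⟩
    rw [← hxy]
    simp only [hq, (hαc m hm).2.2.1]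

end SSA
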