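import Pool.Agent.SSA.Targets

/-!
# TAU: automorphisms of the field of constants
-/

set_option autoImplicit false

open Polynomial

namespace SSA

namespace TAU_

variable {k : Type} [Field k] {a b : k}

/-- two nonzero points with equal components are equal -/
theorem ext (h1 : T_API) (h : Hyp a b) {P Q : MM a b} (hP : P ≠ 0) (hQ : Q ≠ 0)
    (hx : xr P = xr Q) (hy : yr P = yr Q) : P = Q := by
  obtain ⟨-, -, -, hA, -⟩ := h1 k a b h
  rw [(hA P hP).2, (hA Q hQ).2, hx, hy]

end TAU_

open TAU_ in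
/-- TAU: automorphisms of `k` -/
theorem p_TAU (h1 : T_API) (h2 : T_RFM) : T_TAU := by
  intro k _ a b h σ ha hb
  obtain ⟨hff, ⟨hx0, hy0⟩, hmk, hpt, hneg, hcase, hadd, hdbl, htor⟩ := h1 k a b h
  obtain ⟨radd, rsub, rmul, rdiv, rpow, -, rC, rX, rinj, -, rdg, -⟩ := h2 k k σ.toRingHom
  set r : RatFunc k → RatFunc k := rmap σ.toRingHom with hr
  have rzero : r 0 = 0 := by
    have := rC 0
    rwa [map_zero, map_zero, map_zero] at this
  have rone : r 1 = 1 := by
    have := rC 1
    rwa [map_one, map_one, map_one] at this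
  have rneg : ∀ R, r (-R) = - r R := by
    intro R
    rw [← zero_sub, rsub, rzero, zero_sub]
  have ra : r (RatFunc.C a) = RatFunc.C a := by
    rw [rC]
    exact congrArg _ ha
  have rb : r (RatFunc.C b) = RatFunc.C b := by
    rw [rC]
    exact congrArg _ hb
  have rff : r (ff a b) = ff a b := by
    rw [ff, radd, radd, rpow, rmul, rX, ra, rb]
  have r2 : r 2 = 2 := by
    rw [← one_add_one_eq_two, radd, rone]
  have r3 : r 3 = 3 := by
    rw [← two_add_one_eq_three, radd, rone, r2]
  have rev : ∀ R, r (ev a b R) = ev a b (r R) := by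
    intro R
    rw [ev, radd, radd, rpow, rmul, ra, rb, ev]
  have tne : ∀ P : MM a b, P ≠ 0 → tau σ P ≠ 0 ∧ xr (tau σ P) = r (xr P) ∧
      yr (tau σ P) = r (yr P) := by
    intro P hP
    have e1 : tau σ P = mkP a b (r (xr P)) (r (yr P)) := by rw [tau, if_neg hP]
    rw [e1]
    apply hmk
    have e2 := (hpt P hP).1
    rw [← rev, ← e2, rmul, rpow, rff]
  have t0 : tau σ (0 : MM a b) = 0 := by rw [tau, if_pos rfl]
  have txy : ∀ P : MM a b, xr (tau σ P) = r (xr P) ∧ yr (tau σ P) = r (yr P) := by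
    intro P
    by_cases hP : P = 0
    · rw [hP, t0, hx0, hy0, rzero]
      exact ⟨rfl, rfl⟩
    · exact (tne P hP).2
  have tneg : ∀ P : MM a b, tau σ (-P) = - tau σ P := by
    intro P
    by_cases hP : P = 0
    · rw [hP, neg_zero, t0, neg_zero]
    · have hP' : -P ≠ 0 := neg_ne_zero.2 hP
      apply ext h1 h (tne _ hP').1 (neg_ne_zero.2 (tne _ hP).1)
      · rw [(txy _).1, (hneg _).1, (hneg _).1, (txy _).1]
      · rw [(txy _).2, (hneg _).2, (hneg _).2, (txy _).2, rneg]
  refine ⟨?_, ?_, txy, ?_, ?_⟩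
  · -- additivity
    intro P Q
    by_cases hP : P = 0
    · rw [hP, t0, zero_add, zero_add]
    by_cases hQ : Q = 0
    · rw [hQ, t0, add_zero, add_zero]
    obtain ⟨tP, tPx, tPy⟩ := tne P hP
    obtain ⟨tQ, tQx, tQy⟩ := tne Q hQ
    by_cases hx : xr P = xr Q
    · rcases hcase P Q hP hQ hx with rfl | rfl
      · by_cases hy : yr P = 0
        · rw [htor P hy, t0, htor (tau σ P) (by rw [tPy, hy, rzero])]
        · have hy' : yr (tau σ P) ≠ 0 := by
            rw [tPy]
            intro h0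
            exact hy (rinj _ _ (by rw [h0, rzero]))
          obtain ⟨d1, d2, d3⟩ := hdbl P hP hy
          obtain ⟨d1', d2', d3'⟩ := hdbl (tau σ P) tP hy'
          have ex : xr (tau σ (P + P)) = xr (tau σ P + tau σ P) := by
            rw [(txy _).1, d2, d2', tPx, tPy]
            simp only [rsub, rmul, rdiv, rpow, radd, r2, r3, ra, rff]
          apply ext h1 h (tne _ d1).1 d1' ex
          rw [(txy _).2, d3, d3', ← ex, (txy (P + P)).1, tPx, tPy]
          simp only [rneg, rsub, rmul, rdiv, rpow, radd, r2, r3, ra, rff]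
      · rw [neg_add_cancel, t0, tneg, neg_add_cancel]
    · have hx' : xr (tau σ P) ≠ xr (tau σ Q) := by
        rw [tPx, tQx]
        exact fun h0 => hx (rinj _ _ h0)
      obtain ⟨d1, d2, d3⟩ := hadd P Q hP hQ hx
      obtain ⟨d1', d2', d3'⟩ := hadd (tau σ P) (tau σ Q) tP tQ hx'
      have ex : xr (tau σ (P + Q)) = xr (tau σ P + tau σ Q) := by
        rw [(txy _).1, d2, d2', tPx, tPy, tQx, tQy]
        simp only [rsub, rmul, rdiv, rpow, rff]
      apply ext h1 h (tne _ d1).1 d1' ex
      rw [(txy _).2, d3, d3', ← ex, (txy (P + Q)).1, tPx, tPy, tQx, tQy]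
      simp only [rneg, rsub, rmul, rdiv, radd]
  · intro P
    rw [dd, dd, (txy P).1]
    exact rdg _
  · have e1 : ff a b * (1 : RatFunc k) ^ 2 = ev a b RatFunc.X := by
      rw [ff, ev]
      ring
    obtain ⟨i1, i2, i3⟩ := hmk _ _ e1
    have e2 : idM a b = mkP a b RatFunc.X 1 := rfl
    rw [e2]
    apply ext h1 h (tne _ i1).1 i1
    · rw [(txy _).1, i2, rX]
    · rw [(txy _).2, i3, rone]
  · intro p hp hp5 _ hap hbp
    have hodd : Odd p := hp.odd_of_ne_two (by omega)
    have : Fact p.Prime := ⟨hp⟩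
    have hchar : CharP (RatFunc k) p := charP_of_injective_algebraMap
      (algebraMap k (RatFunc k)).injective p
    have e1 : ff a b * (ff a b ^ ((p - 1) / 2)) ^ 2 = ev a b (RatFunc.X ^ p) := by
      obtain ⟨m, hm⟩ := hodd
      have e2 : (p - 1) / 2 = m := by omega
      have e3 : ff a b * (ff a b ^ m) ^ 2 = ff a b ^ p := by
        rw [hm]
        ring
      rw [e2, e3, ff, ev, add_pow_char, add_pow_char, mul_pow, ← map_pow, ← map_pow, hap, hbp]
      ring
    obtain ⟨i1, i2, i3⟩ := hmk _ _ e1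
    have e2 : piM p a b = mkP a b (RatFunc.X ^ p) (ff a b ^ ((p - 1) / 2)) := rfl
    rw [e2]
    apply ext h1 h (tne _ i1).1 i1
    · rw [(txy _).1, i2, rpow, rX]
    · rw [(txy _).2, i3, rpow, rff]

end SSA
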