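import Pool.Agent.SSA.Targets

/-!
# MP_d74fca_nt, algebraic part: translation by a point of order two
-/

set_option autoImplicit false

open Polynomial

namespace SSA

theorem p_TRS (h1 : T_API) : T_TRS := by
  intro k _ a b hyp e he
  obtain ⟨hff, ⟨hx0, hy0⟩, hmk, hP, hneg, heq, hadd, hdbl, h2⟩ := h1 k a b hyp
  have hc : (RatFunc.C e : RatFunc k) ^ 3 + RatFunc.C a * RatFunc.C e + RatFunc.C b = 0 := by
    have h3 := congrArg (RatFunc.C : k →+* RatFunc k) he
    simpa only [map_add, map_mul, map_pow, map_zero] using h3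
  have hev : ff a b * (0 : RatFunc k) ^ 2 = ev a b (RatFunc.C e) := by
    unfold ev
    rw [hc]
    ring
  obtain ⟨hT0, hTx, hTy⟩ := hmk (RatFunc.C e) 0 hev
  refine ⟨hT0, hTx, h2 _ hTy, ?_⟩
  intro P hP0 hPe
  obtain ⟨h4, h5, _⟩ := hadd P _ hP0 hT0 (by rw [hTx]; exact hPe)
  refine ⟨h4, ?_⟩
  rw [h5, hTx, hTy]
  obtain ⟨h6, _⟩ := hP P hP0
  unfold ev at h6
  have h7 : xr P - RatFunc.C e ≠ 0 := sub_ne_zero.2 hPe
  have h8 : (RatFunc.C (3 * e ^ 2 + a) : RatFunc k) = 3 * RatFunc.C e ^ 2 + RatFunc.C a := by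
    rw [map_add, map_mul, map_pow]
    congr 2
    exact map_ofNat _ 3
  rw [h8]
  generalize xr P = R at h6 h7 ⊢
  generalize yr P = S at h6 ⊢
  generalize (RatFunc.C e : RatFunc k) = c at hc h7 ⊢
  generalize (RatFunc.C a : RatFunc k) = A at hc h6 ⊢
  generalize (RatFunc.C b : RatFunc k) = B at hc h6 ⊢
  generalize ff a b = f at h6 ⊢
  rw [sub_zero]
  field_simp
  linear_combination h6 + hc

end SSA
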