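import Pool.Agent.SSA.Targets

/-!
# MP_d74fca_nt, algebraic part (helper22): further targets (composite discriminants)
-/

open Polynomial

namespace SSA

/-- CMP: composition with a fixed nonconstant map from the right -/
def T_CMP : Prop := ∀ (k : Type) [Field k] (a b : k), Hyp a b → ∀ P : MM a b,
  (∀ c : k, xr P ≠ RatFunc.C c) → ∃ Φ : MM a b →+ MM a b, Φ (idM a b) = P ∧
  (∀ A : MM a b, dd (Φ A) = dd A * dd P) ∧
  ∀ A : MM a b, A ≠ 0 → Φ A ≠ 0 ∧ xr (Φ A) = rcomp (xr A) (xr P) ∧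
    yr (Φ A) = rcomp (yr A) (xr P) * yr P

/-- DDC: the action on the differential is a constant -/
def T_DDC : Prop := ∀ (k : Type) [Field k] [IsAlgClosed k] (a b : k), Hyp a b →
  ∀ P : MM a b, ∃ c : k, DD P = RatFunc.C c

/-- HC: Hamilton-Cayley for Frobenius, up to torsion -/
def T_HC : Prop := ∀ (p : ℕ) [Fact p.Prime] (k : Type) [Field k] [CharP k p] [IsAlgClosed k],
  5 ≤ p → ∀ a b : ZMod p, Hyp (zc p k a) (zc p k b) →
  dd (frb p (piM p (zc p k a) (zc p k b)) -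
    ((p : ℤ) - Naff p a b) • piM p (zc p k a) (zc p k b) +
    (p : ℤ) • idM (zc p k a) (zc p k b)) = 0

/-- ORD: in the ordinary case the rank is two -/
def T_ORD : Prop := ∀ (p : ℕ) [Fact p.Prime] (k : Type) [Field k] [CharP k p] [IsAlgClosed k],
  5 ≤ p → ∀ a b : ZMod p, Hyp (zc p k a) (zc p k b) → ¬ p ∣ Naff p a b →
  ∀ v : MM (zc p k a) (zc p k b),
    (gram (fun P : MM (zc p k a) (zc p k b) => (dd P : ℤ))
      ![idM (zc p k a) (zc p k b), piM p (zc p k a) (zc p k b), v]).det = 0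

/-- RM2: the ramified case, composite squarefree degree -/
def T_RM2 : Prop := ∀ (p : ℕ) [Fact p.Prime] (k : Type) [Field k] [CharP k p] [IsAlgClosed k],
  5 ≤ p → ∀ a b : ZMod p, Hyp (zc p k a) (zc p k b) → ∀ (D : ℕ)
  (β : MM (zc p k a) (zc p k b)), Squarefree D → p ∣ D → dd β = D →
  BB β (idM (zc p k a) (zc p k b)) = 0 → DD β = 0 → Naff p a b = p

/-- SPW: the inert case, squarefree degrees, discriminant exactly `-p w^2` -/
def T_SPW : Prop := ∀ (p : ℕ) [Fact p.Prime] (k : Type) [Field k] [CharP k p] [IsAlgClosed k],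
  5 ≤ p → ∀ a b : ZMod p, Hyp (zc p k a) (zc p k b) → ∀ F : Finset ℕ,
  (∀ ℓ ∈ F, Squarefree ℓ ∧ ∃ (R : RatFunc k) (c : k) (σ : k ≃+* k), Dat p k a b ℓ R c σ) →
  (F.Nonempty → Naff p a b = p) ∧
  (2 ≤ F.card → ∃ A B C w : ℤ, 0 < A ∧ 0 < 4 * A * C - B ^ 2 ∧ 4 * A * C - B ^ 2 = p * w ^ 2 ∧
    ∀ ℓ ∈ F, ∃ x y : ℤ, A * x ^ 2 + B * x * y + C * y ^ 2 = (ℓ : ℤ))

end SSA
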