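import Pool.Agent.SSA.Targets

/-!
# XPM: formulas for `x(P ± Q)` and `x(2P)`
-/

set_option autoImplicit false

open Polynomial

namespace SSA

namespace XPM_

section Alg

variable {K : Type} [Field K]

theorem alg_sum (f A B R1 R2 S1 S2 : K) (h1 : f * S1 ^ 2 = R1 ^ 3 + A * R1 + B)
    (h2 : f * S2 ^ 2 = R2 ^ 3 + A * R2 + B) (hD : R1 - R2 ≠ 0) :
    (f * ((S1 - S2) / (R1 - R2)) ^ 2 - R1 - R2) + (f * ((S1 - -S2) / (R1 - R2)) ^ 2 - R1 - R2) =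
      2 * ((R1 * R2 + A) * (R1 + R2) + 2 * B) / (R1 - R2) ^ 2 := by
  have hD2 : (R1 - R2) ^ 2 ≠ 0 := pow_ne_zero 2 hD
  rw [div_pow, div_pow, eq_div_iff hD2]
  have e : ((f * ((S1 - S2) ^ 2 / (R1 - R2) ^ 2) - R1 - R2) +
      (f * ((S1 - -S2) ^ 2 / (R1 - R2) ^ 2) - R1 - R2)) * (R1 - R2) ^ 2 =
      f * (S1 - S2) ^ 2 + f * (S1 - -S2) ^ 2 - 2 * (R1 + R2) * (R1 - R2) ^ 2 := by
    field_simp
    ring
  rw [e]
  linear_combination 2 * h1 + 2 * h2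

theorem alg_mul (f A B R1 R2 S1 S2 : K) (h1 : f * S1 ^ 2 = R1 ^ 3 + A * R1 + B)
    (h2 : f * S2 ^ 2 = R2 ^ 3 + A * R2 + B) (hD : R1 - R2 ≠ 0) :
    (f * ((S1 - S2) / (R1 - R2)) ^ 2 - R1 - R2) * (f * ((S1 - -S2) / (R1 - R2)) ^ 2 - R1 - R2) =
      ((R1 * R2 - A) ^ 2 - 4 * B * (R1 + R2)) / (R1 - R2) ^ 2 := by
  have hD2 : (R1 - R2) ^ 2 ≠ 0 := pow_ne_zero 2 hD
  have hu : ((R1 - R2) * (R1 ^ 2 + R1 * R2 + R2 ^ 2 + A)) = f * S1 ^ 2 - f * S2 ^ 2 := by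
    linear_combination h2 - h1
  have e1 : (f * (S1 - S2) ^ 2) * (f * (S1 - -S2) ^ 2) =
      (R1 - R2) ^ 2 * (R1 ^ 2 + R1 * R2 + R2 ^ 2 + A) ^ 2 := by
    rw [← mul_pow, hu]
    ring
  have e2 : f * (S1 - S2) ^ 2 + f * (S1 - -S2) ^ 2 =
      2 * (R1 ^ 3 + A * R1 + B) + 2 * (R2 ^ 3 + A * R2 + B) := by
    linear_combination 2 * h1 + 2 * h2
  have e3 : (f * ((S1 - S2) / (R1 - R2)) ^ 2 - R1 - R2) *
      (f * ((S1 - -S2) / (R1 - R2)) ^ 2 - R1 - R2) =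
      ((f * (S1 - S2) ^ 2) * (f * (S1 - -S2) ^ 2)) / (R1 - R2) ^ 4 -
        (R1 + R2) * (f * (S1 - S2) ^ 2 + f * (S1 - -S2) ^ 2) / (R1 - R2) ^ 2 +
        (R1 + R2) ^ 2 := by
    rw [div_pow, div_pow]
    field_simp
    ring
  rw [e3, e1, e2]
  field_simp
  ring

theorem alg_dbl (f A B R S : K) (h : f * S ^ 2 = R ^ 3 + A * R + B) (hf : f ≠ 0) (hS : S ≠ 0)
    (h2 : (2 : K) ≠ 0) :
    f * ((3 * R ^ 2 + A) / (2 * f * S)) ^ 2 - 2 * R =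
      (R ^ 4 - 2 * A * R ^ 2 - 8 * B * R + A ^ 2) / (4 * (R ^ 3 + A * R + B)) := by
  have h4 : (4 : K) ≠ 0 := by
    have : (4 : K) = 2 * 2 := by norm_num
    rw [this]
    exact mul_ne_zero h2 h2
  have hE : R ^ 3 + A * R + B ≠ 0 := by
    rw [← h]
    exact mul_ne_zero hf (pow_ne_zero 2 hS)
  have e1 : f * ((3 * R ^ 2 + A) / (2 * f * S)) ^ 2 =
      (3 * R ^ 2 + A) ^ 2 / (4 * (R ^ 3 + A * R + B)) := by
    rw [← h, div_pow, eq_div_iff (mul_ne_zero h4 (mul_ne_zero hf (pow_ne_zero 2 hS)))]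
    field_simp
    ring
  rw [e1, eq_div_iff (mul_ne_zero h4 hE), sub_mul, div_mul_cancel₀ _ (mul_ne_zero h4 hE)]
  ring

end Alg

variable {k : Type} [Field k]

theorem ff_eq (a b : k) : ff a b = algebraMap k[X] (RatFunc k) (fp a b) := by
  unfold ff fp
  simp only [map_add, map_mul, map_pow, RatFunc.algebraMap_X, RatFunc.algebraMap_C]

theorem deg_fp (a b : k) : (fp a b).natDegree = 3 := by
  unfold fp
  compute_degree!

theorem deg_ff (a b : k) : (ff a b).intDegree = 3 := by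
  rw [ff_eq, RatFunc.intDegree_polynomial, deg_fp]
  norm_num

theorem ev_C (a b c : k) : ev a b (RatFunc.C c) = RatFunc.C (c ^ 3 + a * c + b) := by
  unfold ev
  simp only [map_add, map_mul, map_pow]

theorem const (a b c : k) (S : RatFunc k) (hf : ff a b ≠ 0)
    (h : ff a b * S ^ 2 = ev a b (RatFunc.C c)) : S = 0 := by
  by_contra hS
  rw [ev_C] at h
  have h1 := congrArg RatFunc.intDegree h
  rw [RatFunc.intDegree_mul hf (pow_ne_zero 2 hS), RatFunc.intDegree_C, deg_ff, pow_two,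
    RatFunc.intDegree_mul hS hS] at h1
  omega

theorem two_ne {a b : k} (hyp : Hyp a b) : (2 : RatFunc k) ≠ 0 := by
  intro h
  have h1 : RatFunc.C (2 : k) = RatFunc.C 0 := by
    rw [map_ofNat, map_zero]
    exact h
  exact hyp.two (RatFunc.C_injective h1)

end XPM_

open XPM_

theorem p_XPM (h1 : T_API) : T_XPM := by
  intro k _ a b hyp
  obtain ⟨hf, -, -, heq, hneg, -, hadd, hdbl, -⟩ := h1 k a b hyp
  refine ⟨?_, ?_, ?_⟩
  · intro P Q hP hQ hne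
    have hQ' : -Q ≠ 0 := neg_ne_zero.2 hQ
    have hne' : xr P ≠ xr (-Q) := by rw [(hneg Q).1]; exact hne
    obtain ⟨a1, a2, -⟩ := hadd P Q hP hQ hne
    obtain ⟨b1, b2, -⟩ := hadd P (-Q) hP hQ' hne'
    rw [← sub_eq_add_neg] at b1 b2
    rw [(hneg Q).1, (hneg Q).2] at b2
    have e1 := (heq P hP).1
    have e2 := (heq Q hQ).1
    have hD : xr P - xr Q ≠ 0 := sub_ne_zero.2 hne
    refine ⟨a1, b1, ?_, ?_⟩
    · rw [a2, b2]
      exact alg_sum (ff a b) (RatFunc.C a) (RatFunc.C b) (xr P) (xr Q) (yr P) (yr Q) e1 e2 hD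
    · rw [a2, b2]
      exact alg_mul (ff a b) (RatFunc.C a) (RatFunc.C b) (xr P) (xr Q) (yr P) (yr Q) e1 e2 hD
  · intro P hP hy
    obtain ⟨a1, a2, -⟩ := hdbl P hP hy
    refine ⟨a1, ?_⟩
    rw [a2]
    exact alg_dbl (ff a b) (RatFunc.C a) (RatFunc.C b) (xr P) (yr P) (heq P hP).1 hf hy
      (two_ne hyp)
  · rintro P hP ⟨c, hc⟩
    have e1 := (heq P hP).1
    rw [hc] at e1
    exact XPM_.const a b c (yr P) hf e1

end SSA
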